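import Mathlib

/-! The abstract setting: a group with a Borel subgroup, finitely many cells and a contracting
torus element. -/

set_option autoImplicit false

noncomputable section

open Topology Filter

namespace Pool.Agent.Helper911

/-- A topological group with the structure used in the argument. -/
structure Flag (p : ℕ) (G : Type*) [Group G] [TopologicalSpace G] (W : Type*) where
  B : Subgroup G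
  N : Subgroup G
  Nb : Subgroup G
  Z : Subgroup G
  K : Subgroup G
  Gam : Subgroup G
  z : G
  e : W → G
  idx : G → W
  P : W → Subgroup G
  Q : W → Subgroup G
  N_le : N ≤ B
  Z_le : Z ≤ B
  P_le : ∀ w, P w ≤ N
  Q_le : ∀ w, Q w ≤ Nb
  Gam_le : Gam ≤ K
  z_mem : z ∈ Z
  e_mem : ∀ w, e w ∈ K
  B_closed : IsClosed (B : Set G)
  K_compact : IsCompact (K : Set G)
  K_open : IsOpen (K : Set G)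
  Gam_open : IsOpen (Gam : Set G)
  P_closed : ∀ w, IsClosed (P w : Set G)
  Q_closed : ∀ w, IsClosed (Q w : Set G)
  iwasawa : ∀ g : G, ∃ b ∈ B, ∃ k ∈ K, g = b * k
  /-- small open subgroups -/
  small : ∀ U ∈ 𝓝 (1 : G), ∃ H : Subgroup G, IsOpen (H : Set G) ∧ (H : Set G) ⊆ U
  conj_Z : ∀ w, ∀ t ∈ Z, e w * t * (e w)⁻¹ ∈ Z
  conj_N : ∀ t ∈ Z, ∀ n ∈ N, t * n * t⁻¹ ∈ N
  conj_Nb : ∀ t ∈ Z, ∀ n ∈ Nb, t * n * t⁻¹ ∈ Nb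
  conj_P : ∀ w, ∀ t ∈ Z, ∀ n ∈ P w, t * n * t⁻¹ ∈ P w
  conj_Q : ∀ w, ∀ t ∈ Z, ∀ n ∈ Q w, t * n * t⁻¹ ∈ Q w
  /-- every element of the opposite unipotent group is (stabiliser of `x_w`) times `Q w` -/
  decomp : ∀ w, ∀ y ∈ Nb, ∃ s ∈ Nb, e w * s * (e w)⁻¹ ∈ N ∧ ∃ q ∈ Q w, y = s * q
  idx_left : ∀ b ∈ B, ∀ g, idx (b * g) = idx g
  idx_right_Nb : ∀ y ∈ Nb, ∀ g, idx (g * y) = idx g
  idx_right_Z : ∀ t ∈ Z, ∀ g, idx (g * t) = idx g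
  idx_e : ∀ w, idx (e w) = w
  exists_rep : ∀ g, ∃ b ∈ B, ∃ y ∈ Nb, g = b * e (idx g) * y
  chart_open : ∀ w, ∀ O1 O2 : Set G, IsOpen O1 → IsOpen O2 →
    IsOpen {g | ∃ b ∈ B, ∃ n ∈ P w, ∃ y ∈ Q w, n ∈ O1 ∧ y ∈ O2 ∧ g = b * e w * n * y}
  chart_inj : ∀ w, ∀ b ∈ B, ∀ n ∈ P w, ∀ y ∈ Q w, ∀ n' ∈ P w, ∀ y' ∈ Q w,
    e w * n * y = b * e w * n' * y' → n = n' ∧ y = y'
  shrink_Nb : ∀ y ∈ Nb, y ∈ Gam → z * y * z⁻¹ ∈ Gam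
  absorb_Nb : ∀ y ∈ Nb, ∃ m : ℕ, z ^ m * y * (z ^ m)⁻¹ ∈ Gam
  unif_Nb : ∀ U ∈ 𝓝 (1 : G), ∃ m : ℕ, ∀ y ∈ Nb, y ∈ Gam → z ^ m * y * (z ^ m)⁻¹ ∈ U
  shrink_N : ∀ y ∈ N, y ∈ Gam → z⁻¹ * y * z ∈ Gam
  absorb_N : ∀ y ∈ N, ∃ m : ℕ, (z ^ m)⁻¹ * y * z ^ m ∈ Gam
  unif_N : ∀ U ∈ 𝓝 (1 : G), ∃ m : ℕ, ∀ y ∈ N, y ∈ Gam → (z ^ m)⁻¹ * y * z ^ m ∈ U
  /-- Iwahori factorisation -/
  iwahori : ∀ g ∈ Gam, ∃ y ∈ Nb, ∃ t ∈ Z, ∃ n ∈ N, g = y * t * n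
  prop : ∀ y ∈ Nb, y ∈ Gam → Tendsto (fun k : ℕ => y ^ (p ^ k)) atTop (𝓝 1)
  stab_inj : ∀ w w', (∀ s ∈ Nb, e w * s * (e w)⁻¹ ∈ N ↔ e w' * s * (e w')⁻¹ ∈ N) → w = w'
  /-- decomposition of compact open sets away from `1` under small torus elements -/
  torus_decomp : ∀ w, ∀ U ∈ 𝓝 (1 : G), ∀ D : Set G, IsCompact D → 1 ∉ D →
    (∃ O, IsOpen O ∧ D = O ∩ Q w) →
    ∃ (r : ℕ) (D' : Fin r → Set G) (t : Fin r → Fin p → G),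
      (∀ j s, t j s ∈ Z ∧ t j s ∈ U) ∧
      (∀ j, IsCompact (D' j) ∧ ∃ O, IsOpen O ∧ D' j = O ∩ Q w) ∧
      ∀ x ∈ Q w, Set.indicator D (fun _ => (1 : ℤ)) x
        = ∑ j, ∑ s, Set.indicator (D' j) (fun _ => (1 : ℤ)) ((t j s)⁻¹ * x * t j s)

end Pool.Agent.Helper911
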