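import Mathlib
import Pool.Agent.Helper911_Abs.Flag

/-! Sections, norms, cells: basic definitions and lemmas. -/

set_option autoImplicit false
set_option linter.unusedSectionVars false

noncomputable section

open Topology Filter

namespace Pool.Agent.Helper911

variable {p : ℕ} {G : Type*} [Group G] [TopologicalSpace G] {W : Type*}

/-- A character of the Borel subgroup, trivial on the unipotent radical, as a function on `G`
(only its values on `B` matter). -/
structure CharData (F : Flag p G W) (C : Type*) [NormedField C] where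
  chi : G → C
  chi_mul : ∀ b ∈ F.B, ∀ b' ∈ F.B, chi (b * b') = chi b * chi b'
  chi_ne : ∀ b ∈ F.B, chi b ≠ 0
  chi_N : ∀ n ∈ F.N, chi n = 1
  chi_K : ∀ b ∈ F.B, b ∈ F.K → ‖chi b‖ = 1
  chi_cont : ContinuousOn chi (F.B : Set G)

/-- Right translation. -/
def tr {C : Type*} (g : G) (f : G → C) : G → C := fun x => f (x * g)

@[simp] theorem tr_apply {C : Type*} (g : G) (f : G → C) (x : G) : tr g f x = f (x * g) := rfl

theorem tr_tr {C : Type*} (g h : G) (f : G → C) : tr g (tr h f) = tr (g * h) f := by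
  funext x; simp [tr, mul_assoc]

/-- Left `B`-invariant sets. -/
def LInv (F : Flag p G W) (S : Set G) : Prop := ∀ b ∈ F.B, ∀ g ∈ S, b * g ∈ S

/-- The union of the cells with index in `Om`. -/
def cell (F : Flag p G W) (Om : Finset W) : Set G := {g | F.idx g ∈ Om}

/-- The compact open chart neighbourhood of `e_w` (modulo `B`). -/
def U0 (F : Flag p G W) (w : W) : Set G :=
  {g | ∃ b ∈ F.B, ∃ n ∈ F.P w, ∃ y ∈ F.Q w, n ∈ F.Gam ∧ y ∈ F.Gam ∧ g = b * F.e w * n * y}

/-- Closure order on the cells. -/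
def wle (F : Flag p G W) [DecidableEq W] (w w' : W) : Prop := F.e w' ∈ closure (cell F {w})

variable {C : Type*} [NormedField C]

/-- The continuous sections. -/
def IsSec {F : Flag p G W} (X : CharData F C) (f : G → C) : Prop :=
  Continuous f ∧ ∀ b ∈ F.B, ∀ g, f (b * g) = X.chi b * f g

/-- The height `‖χ(b)‖` of `g = b k`. -/
def ht {F : Flag p G W} (X : CharData F C) (g : G) : ℝ := ‖X.chi (F.iwasawa g).choose‖

/-- `‖f‖ ≤ M` (sup norm over `K`). -/
def Bd {F : Flag p G W} (X : CharData F C) (f : G → C) (M : ℝ) : Prop :=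
  ∀ x, ‖f x‖ ≤ M * ht X x

/-- The slope of `z` at the fixed point `e_w`. -/
def cw {F : Flag p G W} (X : CharData F C) (w : W) : ℝ := ‖X.chi (F.e w * F.z * (F.e w)⁻¹)‖

/-- A closed `G`-stable subspace of the space of sections. -/
structure SubRep {F : Flag p G W} (X : CharData F C) where
  V : Submodule C (G → C)
  sec : ∀ f ∈ V, IsSec X f
  stab : ∀ f ∈ V, ∀ g, tr g f ∈ V
  closed : ∀ f, IsSec X f → (∀ ε > 0, ∃ g ∈ V, Bd X (f - g) ε) → f ∈ V

namespace CharData

variable {F : Flag p G W} (X : CharData F C)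

theorem chi_one : X.chi 1 = 1 := X.chi_N 1 (one_mem _)

theorem chi_inv (b : G) (hb : b ∈ F.B) : X.chi b⁻¹ = (X.chi b)⁻¹ := by
  have h := X.chi_mul b hb b⁻¹ (inv_mem hb)
  rw [mul_inv_cancel, X.chi_one] at h
  exact (eq_inv_of_mul_eq_one_right h.symm)

theorem norm_pos (b : G) (hb : b ∈ F.B) : 0 < ‖X.chi b‖ := norm_pos_iff.2 (X.chi_ne b hb)

theorem chi_pow (b : G) (hb : b ∈ F.B) (m : ℕ) : X.chi (b ^ m) = X.chi b ^ m := by
  induction m with
  | zero => simp [X.chi_one]
  | succ m ih => rw [pow_succ, X.chi_mul _ (pow_mem hb m) _ hb, ih, pow_succ]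

end CharData

section basic

variable {F : Flag p G W} (X : CharData F C)

theorem ht_eq (b k : G) (hb : b ∈ F.B) (hk : k ∈ F.K) : ht X (b * k) = ‖X.chi b‖ := by
  obtain ⟨hb', k', hk', h⟩ := (F.iwasawa (b * k)).choose_spec
  set b' := (F.iwasawa (b * k)).choose with hbdef
  have h2 : b'⁻¹ * b = k' * k⁻¹ := by
    have := congrArg (fun x => b'⁻¹ * x * k⁻¹) h
    simpa [mul_assoc] using this
  have h3 : ‖X.chi (b'⁻¹ * b)‖ = 1 :=
    X.chi_K _ (mul_mem (inv_mem hb') hb) (h2 ▸ mul_mem hk' (inv_mem hk))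
  rw [X.chi_mul _ (inv_mem hb') _ hb, X.chi_inv _ hb', norm_mul, norm_inv] at h3
  have h4 := X.norm_pos b' hb'
  unfold ht
  rw [← hbdef]
  field_simp at h3
  exact h3.symm

theorem ht_mul (b g : G) (hb : b ∈ F.B) : ht X (b * g) = ‖X.chi b‖ * ht X g := by
  obtain ⟨b', hb', k, hk, rfl⟩ := F.iwasawa g
  rw [← mul_assoc, ht_eq X (b * b') k (mul_mem hb hb') hk, ht_eq X b' k hb' hk,
    X.chi_mul b hb b' hb', norm_mul]

theorem ht_right (g k : G) (hk : k ∈ F.K) : ht X (g * k) = ht X g := by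
  obtain ⟨b', hb', k', hk', rfl⟩ := F.iwasawa g
  rw [mul_assoc, ht_eq X b' (k' * k) hb' (mul_mem hk' hk), ht_eq X b' k' hb' hk']

theorem ht_pos (g : G) : 0 < ht X g := by
  obtain ⟨b', hb', k', hk', rfl⟩ := F.iwasawa g
  rw [ht_eq X b' k' hb' hk']
  exact X.norm_pos b' hb'

theorem ht_K (k : G) (hk : k ∈ F.K) : ht X k = 1 := by
  have := ht_eq X 1 k (one_mem _) hk
  rwa [one_mul, X.chi_one, norm_one] at this

theorem ht_e (w : W) (k : G) (hk : k ∈ F.K) : ht X (F.e w * k) = 1 :=
  ht_K X _ (mul_mem (F.e_mem w) hk)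

variable {X}

theorem Bd.mono {f : G → C} {M M' : ℝ} (h : Bd X f M) (hM : M ≤ M') : Bd X f M' := fun x =>
  (h x).trans (mul_le_mul_of_nonneg_right hM (ht_pos X x).le)

theorem Bd.K {f : G → C} {M : ℝ} (h : Bd X f M) (k : G) (hk : k ∈ F.K) : ‖f k‖ ≤ M := by
  have := h k
  rwa [ht_K X k hk, mul_one] at this

theorem IsSec.norm_left {f : G → C} (hf : IsSec X f) (b g : G) (hb : b ∈ F.B) :
    ‖f (b * g)‖ = ‖X.chi b‖ * ‖f g‖ := by rw [hf.2 b hb g, norm_mul]

theorem bd_iff {f : G → C} (hf : IsSec X f) (M : ℝ) : Bd X f M ↔ ∀ k ∈ F.K, ‖f k‖ ≤ M := by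
  refine ⟨fun h k hk => h.K k hk, fun h x => ?_⟩
  obtain ⟨b, hb, k, hk, rfl⟩ := F.iwasawa x
  rw [hf.norm_left b k hb, ht_eq X b k hb hk, mul_comm]
  exact mul_le_mul_of_nonneg_right (h k hk) (norm_nonneg _)

theorem IsSec.add {f g : G → C} (hf : IsSec X f) (hg : IsSec X g) : IsSec X (f + g) :=
  ⟨hf.1.add hg.1, fun b hb x => by simp [hf.2 b hb x, hg.2 b hb x, mul_add]⟩

theorem IsSec.sub {f g : G → C} (hf : IsSec X f) (hg : IsSec X g) : IsSec X (f - g) :=
  ⟨hf.1.sub hg.1, fun b hb x => by simp [hf.2 b hb x, hg.2 b hb x, mul_sub]⟩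

theorem IsSec.smul {f : G → C} (hf : IsSec X f) (a : C) : IsSec X (a • f) :=
  ⟨hf.1.const_smul a, fun b hb x => by simp [hf.2 b hb x]; ring⟩

theorem isSec_zero : IsSec X (0 : G → C) := ⟨continuous_const, fun b _ x => by simp⟩

theorem IsSec.sum {ι : Type*} (s : Finset ι) (f : ι → G → C) (hf : ∀ i ∈ s, IsSec X (f i)) :
    IsSec X (∑ i ∈ s, f i) := by
  classical
  induction s using Finset.induction_on with
  | empty => simpa using isSec_zero
  | insert a s ha ih =>
    rw [Finset.sum_insert ha]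
    exact (hf a (Finset.mem_insert_self _ _)).add
      (ih fun i hi => hf i (Finset.mem_insert_of_mem hi))

theorem Bd.add [IsUltrametricDist C] {f g : G → C} {M : ℝ} (hf : Bd X f M) (hg : Bd X g M) :
    Bd X (f + g) M := fun x =>
  (IsUltrametricDist.norm_add_le_max _ _).trans (max_le (hf x) (hg x))

theorem Bd.sub [IsUltrametricDist C] {f g : G → C} {M : ℝ} (hf : Bd X f M) (hg : Bd X g M) :
    Bd X (f - g) M := fun x => by
  have := IsUltrametricDist.norm_add_le_max (f x) (-(g x))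
  rw [norm_neg, ← sub_eq_add_neg] at this
  exact this.trans (max_le (hf x) (hg x))

theorem Bd.smul {f : G → C} {M : ℝ} (hf : Bd X f M) (a : C) : Bd X (a • f) (‖a‖ * M) :=
  fun x => by
    rw [Pi.smul_apply, smul_eq_mul, norm_mul, mul_assoc]
    exact mul_le_mul_of_nonneg_left (hf x) (norm_nonneg _)

theorem Bd.sum [IsUltrametricDist C] {ι : Type*} (s : Finset ι) (f : ι → G → C) {M : ℝ}
    (hM : 0 ≤ M) (hf : ∀ i ∈ s, Bd X (f i) M) : Bd X (∑ i ∈ s, f i) M := by
  classical
  induction s using Finset.induction_on with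
  | empty => intro x; simp; exact mul_nonneg hM (ht_pos X x).le
  | insert a s ha ih =>
    rw [Finset.sum_insert ha]
    exact (hf a (Finset.mem_insert_self _ _)).add
      (ih fun i hi => hf i (Finset.mem_insert_of_mem hi))

theorem Bd.nonneg {f : G → C} {M : ℝ} (hf : Bd X f M) : 0 ≤ M := by
  have := (norm_nonneg _).trans (hf 1)
  rwa [ht_K X 1 (one_mem _), mul_one] at this

theorem Bd.tr_K {f : G → C} {M : ℝ} (hf : Bd X f M) (k : G) (hk : k ∈ F.K) :
    Bd X (tr k f) M := fun x => by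
  have := hf (x * k)
  rwa [ht_right X x k hk] at this

section top
variable [IsTopologicalGroup G]

theorem IsSec.tr {f : G → C} (hf : IsSec X f) (g : G) : IsSec X (tr g f) :=
  ⟨hf.1.comp (continuous_mul_const g), fun b hb x => by
    simp only [tr_apply]; rw [mul_assoc, hf.2 b hb]⟩

theorem ht_continuous : Continuous (ht X) := by
  refine IsLocallyConstant.continuous ?_
  rw [IsLocallyConstant.iff_exists_open]
  intro x
  refine ⟨(fun g => x⁻¹ * g) ⁻¹' (F.K : Set G), F.K_open.preimage (continuous_const_mul _),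
    by simp, fun y hy => ?_⟩
  have : y = x * (x⁻¹ * y) := by group
  rw [this, ht_right X x _ hy]

theorem IsSec.exists_bd {f : G → C} (hf : IsSec X f) : ∃ M, 0 ≤ M ∧ Bd X f M := by
  obtain ⟨M, hM⟩ := F.K_compact.exists_bound_of_continuousOn hf.1.continuousOn
  refine ⟨max M 0, le_max_right _ _, (bd_iff hf _).2 fun k hk => (hM k hk).trans (le_max_left _ _)⟩

theorem exists_ht_mul_le (g : G) : ∃ A, 0 < A ∧ ∀ x, ht X (x * g) ≤ A * ht X x := by
  obtain ⟨M, hM⟩ := F.K_compact.exists_bound_of_continuousOn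
    ((ht_continuous (X := X)).comp (continuous_mul_const g)).continuousOn
  refine ⟨max M 1, lt_of_lt_of_le one_pos (le_max_right _ _), fun x => ?_⟩
  obtain ⟨b, hb, k, hk, rfl⟩ := F.iwasawa x
  rw [mul_assoc, ht_mul X b _ hb, ht_eq X b k hb hk, mul_comm]
  refine mul_le_mul_of_nonneg_right ?_ (norm_nonneg _)
  have := hM k hk
  rw [Function.comp, Real.norm_of_nonneg (ht_pos X _).le] at this
  exact this.trans (le_max_left _ _)

theorem exists_tr_bd (g : G) : ∃ A, 0 < A ∧ ∀ (f : G → C) (M : ℝ), 0 ≤ M → Bd X f M →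
    Bd X (tr g f) (A * M) := by
  obtain ⟨A, hA, h⟩ := exists_ht_mul_le (X := X) g
  refine ⟨A, hA, fun f M hM hf x => ?_⟩
  calc ‖f (x * g)‖ ≤ M * ht X (x * g) := hf _
    _ ≤ M * (A * ht X x) := mul_le_mul_of_nonneg_left (h x) hM
    _ = _ := by ring

/-- Cutting off a section by a clopen left invariant set. -/
def cut (S : Set G) (f : G → C) : G → C := S.indicator f

open Classical in
theorem IsSec.cut {f : G → C} (hf : IsSec X f) {S : Set G} (hS : IsClopen S)
    (hinv : LInv F S) : IsSec X (cut S f) := by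
  refine ⟨?_, fun b hb x => ?_⟩
  · unfold Helper911.cut
    exact hf.1.indicator (fun a ha => by rw [hS.frontier_eq] at ha; exact absurd ha (Set.notMem_empty _))
  · unfold Helper911.cut
    by_cases hx : x ∈ S
    · rw [Set.indicator_of_mem hx, Set.indicator_of_mem (hinv b hb x hx), hf.2 b hb x]
    · have : b * x ∉ S := fun h => hx (by have := hinv b⁻¹ (inv_mem hb) _ h; simpa using this)
      rw [Set.indicator_of_notMem hx, Set.indicator_of_notMem this, mul_zero]

theorem Bd.cut {f : G → C} {M : ℝ} (hf : Bd X f M) (S : Set G) : Bd X (cut S f) M := fun x =>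
  (norm_indicator_le_norm_self f x).trans (hf x)

theorem cut_of_mem {S : Set G} {f : G → C} {x : G} (hx : x ∈ S) : cut S f x = f x :=
  Set.indicator_of_mem hx f

theorem cut_of_notMem {S : Set G} {f : G → C} {x : G} (hx : x ∉ S) : cut S f x = 0 :=
  Set.indicator_of_notMem hx f

theorem norm_cut_le (S : Set G) (f : G → C) (x : G) : ‖cut S f x‖ ≤ ‖f x‖ :=
  norm_indicator_le_norm_self f x

/-- The level set `{|f|_K > η}` is clopen and left invariant. -/
theorem level_clopen [IsUltrametricDist C] {f : G → C} (hf : IsSec X f) {η : ℝ} (hη : 0 < η) :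
    IsClopen {x | η * ht X x < ‖f x‖} := by
  constructor
  · rw [← isOpen_compl_iff]
    have : {x | η * ht X x < ‖f x‖}ᶜ = {x | ‖f x‖ ≤ η * ht X x} := by
      ext x; simp
    rw [this, isOpen_iff_mem_nhds]
    intro x hx
    have h1 : ∀ᶠ y in 𝓝 x, ht X y = ht X x := by
      refine Filter.mem_of_superset (((F.K_open.preimage (continuous_const_mul x⁻¹)).mem_nhds
        (by simp : x ∈ _))) fun y hy => ?_
      have : y = x * (x⁻¹ * y) := by group
      show ht X y = _
      rw [this, ht_right X x _ hy]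
    have h2 : ∀ᶠ y in 𝓝 x, f y ∈ Metric.ball (f x) (η * ht X x) :=
      hf.1.continuousAt.eventually (Metric.ball_mem_nhds _ (mul_pos hη (ht_pos X x)))
    filter_upwards [h1, h2] with y hy1 hy2
    show ‖f y‖ ≤ η * ht X y
    rw [hy1]
    have : f y = (f y - f x) + f x := by ring
    rw [this]
    refine (IsUltrametricDist.norm_add_le_max _ _).trans (max_le ?_ hx)
    rw [Metric.mem_ball, dist_eq_norm] at hy2
    exact hy2.le
  · exact isOpen_lt (continuous_const.mul ht_continuous) hf.1.norm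

theorem level_linv {f : G → C} (hf : IsSec X f) {η : ℝ} :
    LInv F {x | η * ht X x < ‖f x‖} := by
  intro b hb x hx
  show η * ht X (b * x) < ‖f (b * x)‖
  rw [ht_mul X b x hb, hf.norm_left b x hb]
  have h1 : η * ht X x < ‖f x‖ := hx
  have h2 := X.norm_pos b hb
  nlinarith

end top

end basic

end Pool.Agent.Helper911
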