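import Mathlib
import Pool.Agent.Helper911_Abs.Sec

/-! Topology of the cells. -/

set_option autoImplicit false
set_option linter.unusedSectionVars false

noncomputable section

open Topology Filter

namespace Pool.Agent.Helper911

variable {p : ℕ} {G : Type*} [Group G] [TopologicalSpace G] [IsTopologicalGroup G] {W : Type*}
variable (F : Flag p G W)

theorem LInv.mem_iff {F : Flag p G W} {S : Set G} (hS : LInv F S) {b : G} (hb : b ∈ F.B) (g : G) :
    b * g ∈ S ↔ g ∈ S := by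
  refine ⟨fun h => ?_, fun h => hS b hb g h⟩
  have := hS b⁻¹ (inv_mem hb) _ h
  simpa using this

theorem cell_linv (Om : Finset W) : LInv F (cell F Om) := by
  intro b hb g hg
  show F.idx (b * g) ∈ Om
  rw [F.idx_left b hb g]; exact hg

theorem cell_right_Nb (Om : Finset W) (g y : G) (hy : y ∈ F.Nb) :
    g * y ∈ cell F Om ↔ g ∈ cell F Om := by
  show F.idx (g * y) ∈ Om ↔ F.idx g ∈ Om
  rw [F.idx_right_Nb y hy g]

theorem cell_right_Z (Om : Finset W) (g t : G) (ht : t ∈ F.Z) :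
    g * t ∈ cell F Om ↔ g ∈ cell F Om := by
  show F.idx (g * t) ∈ Om ↔ F.idx g ∈ Om
  rw [F.idx_right_Z t ht g]

/-- Every point is `b e_w q` with `q ∈ Q w`. -/
theorem exists_rep_Q (g : G) : ∃ b ∈ F.B, ∃ q ∈ F.Q (F.idx g), g = b * F.e (F.idx g) * q := by
  obtain ⟨b, hb, y, hy, h⟩ := F.exists_rep g
  obtain ⟨s, _, hs', q, hq, hy'⟩ := F.decomp (F.idx g) y hy
  refine ⟨b * (F.e (F.idx g) * s * (F.e (F.idx g))⁻¹), mul_mem hb (F.N_le hs'), q, hq, ?_⟩
  calc g = b * F.e (F.idx g) * y := h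
    _ = b * F.e (F.idx g) * (s * q) := by rw [hy']
    _ = _ := by group

theorem idx_eq (w : W) (b y : G) (hb : b ∈ F.B) (hy : y ∈ F.Nb) : F.idx (b * F.e w * y) = w := by
  rw [F.idx_right_Nb y hy, F.idx_left b hb, F.idx_e]

/-- Tube lemma. -/
theorem tube {S O : Set G} (hS : IsClosed S) (hSi : LInv F S) (hO : IsOpen O) (hOi : LInv F O)
    (hSO : S ⊆ O) : ∃ H : Subgroup G, IsOpen (H : Set G) ∧ ∀ s ∈ S, ∀ h ∈ H, s * h ∈ O := by
  have hc : IsCompact (S ∩ (F.K : Set G)) := F.K_compact.inter_left hS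
  obtain ⟨V, hV, hVO⟩ := compact_open_separated_mul_right hc hO
    (Set.inter_subset_left.trans hSO)
  obtain ⟨H, hH, hHV⟩ := F.small V hV
  refine ⟨H, hH, fun s hs h hh => ?_⟩
  obtain ⟨b, hb, k, hk, rfl⟩ := F.iwasawa s
  rw [mul_assoc]
  refine hOi b hb _ (hVO ?_)
  exact Set.mul_mem_mul ⟨(hSi.mem_iff hb k).1 hs, hk⟩ (hHV hh)

/-- Clopen sets between closed and open left invariant sets. -/
theorem exists_clopen {S O : Set G} (hS : IsClosed S) (hSi : LInv F S) (hO : IsOpen O)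
    (hOi : LInv F O) (hSO : S ⊆ O) : ∃ T : Set G, IsClopen T ∧ LInv F T ∧ S ⊆ T ∧ T ⊆ O := by
  obtain ⟨H, hH, hSH⟩ := tube F hS hSi hO hOi hSO
  refine ⟨{g | ∃ h ∈ H, g * h ∈ S}, ⟨?_, ?_⟩, ?_, ?_, ?_⟩
  · rw [← isOpen_compl_iff, isOpen_iff_mem_nhds]
    intro x hx
    refine Filter.mem_of_superset ((hH.preimage (continuous_const_mul x⁻¹)).mem_nhds
      (by simp : x ∈ _)) fun y hy => ?_
    rintro ⟨h, hh, hyS⟩
    refine hx ⟨x⁻¹ * y * h, mul_mem hy hh, ?_⟩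
    have : x * (x⁻¹ * y * h) = y * h := by group
    rwa [this]
  · rw [isOpen_iff_mem_nhds]
    rintro x ⟨h, hh, hxS⟩
    refine Filter.mem_of_superset ((hH.preimage (continuous_const_mul x⁻¹)).mem_nhds
      (by simp : x ∈ _)) fun y hy => ?_
    refine ⟨(x⁻¹ * y)⁻¹ * h, mul_mem (inv_mem hy) hh, ?_⟩
    have : y * ((x⁻¹ * y)⁻¹ * h) = x * h := by group
    rwa [this]
  · rintro b hb g ⟨h, hh, hg⟩
    exact ⟨h, hh, by rw [mul_assoc]; exact hSi b hb _ hg⟩
  · exact fun s hs => ⟨1, one_mem _, by rwa [mul_one]⟩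
  · rintro g ⟨h, hh, hg⟩
    have := hSH _ hg h⁻¹ (inv_mem hh)
    simpa using this

theorem Gam_compact : IsCompact (F.Gam : Set G) := by
  have h1 : IsClosed (F.Gam : Set G) := Subgroup.isClosed_of_isOpen F.Gam F.Gam_open
  have : (F.Gam : Set G) = (F.K : Set G) ∩ F.Gam := by
    ext x; exact ⟨fun h => ⟨F.Gam_le h, h⟩, fun h => h.2⟩
  rw [this]
  exact F.K_compact.inter_right h1

theorem QG_compact (w : W) : IsCompact {y : G | y ∈ F.Q w ∧ y ∈ F.Gam} := by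
  have : {y : G | y ∈ F.Q w ∧ y ∈ F.Gam} = (F.Gam : Set G) ∩ (F.Q w : Set G) := by
    ext x; simp [and_comm]
  rw [this]
  exact (Gam_compact F).inter_right (F.Q_closed w)

theorem PG_compact (w : W) : IsCompact {y : G | y ∈ F.P w ∧ y ∈ F.Gam} := by
  have : {y : G | y ∈ F.P w ∧ y ∈ F.Gam} = (F.Gam : Set G) ∩ (F.P w : Set G) := by
    ext x; simp [and_comm]
  rw [this]
  exact (Gam_compact F).inter_right (F.P_closed w)

/-- `B` times a compact set is closed. -/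
theorem B_mul_closed {S : Set G} (hS : IsCompact S) : IsClosed {g | ∃ b ∈ F.B, ∃ s ∈ S, g = b * s} := by
  have h := F.B_closed.mul_right_of_isCompact hS
  convert h using 1
  ext g
  simp only [Set.mem_ofPred_eq, Set.mem_mul, SetLike.mem_coe]
  constructor
  · rintro ⟨b, hb, s, hs, rfl⟩; exact ⟨b, hb, s, hs, rfl⟩
  · rintro ⟨b, hb, s, hs, rfl⟩; exact ⟨b, hb, s, hs, rfl⟩

theorem U0_linv (w : W) : LInv F (U0 F w) := by
  rintro b hb g ⟨b', hb', n, hn, y, hy, h1, h2, rfl⟩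
  exact ⟨b * b', mul_mem hb hb', n, hn, y, hy, h1, h2, by simp [mul_assoc]⟩

theorem U0_clopen (w : W) : IsClopen (U0 F w) := by
  constructor
  · have h1 : IsCompact ((fun x : G × G => F.e w * x.1 * x.2) ''
        ({y : G | y ∈ F.P w ∧ y ∈ F.Gam} ×ˢ {y : G | y ∈ F.Q w ∧ y ∈ F.Gam})) :=
      ((PG_compact F w).prod (QG_compact F w)).image (by fun_prop)
    have h2 := B_mul_closed F h1
    convert h2 using 1
    ext g
    constructor
    · rintro ⟨b, hb, n, hn, y, hy, h1, h2, rfl⟩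
      exact ⟨b, hb, _, ⟨(n, y), ⟨⟨hn, h1⟩, ⟨hy, h2⟩⟩, rfl⟩, by simp [mul_assoc]⟩
    · rintro ⟨b, hb, _, ⟨⟨n, y⟩, ⟨⟨hn, h1⟩, ⟨hy, h2⟩⟩, rfl⟩, rfl⟩
      exact ⟨b, hb, n, hn, y, hy, h1, h2, by simp [mul_assoc]⟩
  · have := F.chart_open w (F.Gam : Set G) (F.Gam : Set G) F.Gam_open F.Gam_open
    exact this

theorem e_mem_U0 (w : W) : F.e w ∈ U0 F w :=
  ⟨1, one_mem _, 1, one_mem _, 1, one_mem _, one_mem _, one_mem _, by simp⟩

/-- In the chart at `w`, the cell of `w` is given by `n = 1`. -/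
theorem chart_idx (w : W) (b n y : G) (hb : b ∈ F.B) (hn : n ∈ F.P w) (hy : y ∈ F.Q w)
    (h : F.idx (b * F.e w * n * y) = w) : n = 1 := by
  obtain ⟨b', hb', q, hq, h'⟩ := exists_rep_Q F (b * F.e w * n * y)
  rw [h] at hq h'
  have := F.chart_inj w (b⁻¹ * b') (mul_mem (inv_mem hb) hb') n hn y hy 1 (one_mem _) q hq (by
    rw [mul_one]
    calc F.e w * n * y = b⁻¹ * (b * F.e w * n * y) := by group
      _ = b⁻¹ * (b' * F.e w * q) := by rw [h']
      _ = _ := by group)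
  exact this.1

theorem U0_cell (w : W) (g : G) (hg : g ∈ U0 F w) (h : F.idx g = w) :
    ∃ b ∈ F.B, ∃ y ∈ F.Q w, y ∈ F.Gam ∧ g = b * F.e w * y := by
  obtain ⟨b, hb, n, hn, y, hy, h1, h2, rfl⟩ := hg
  have := chart_idx F w b n y hb hn hy h
  subst this
  exact ⟨b, hb, y, hy, h2, by simp⟩

/-- powers of `z` -/
theorem zpow_mem_Z (m : ℕ) : F.z ^ m ∈ F.Z := pow_mem F.z_mem m

theorem conj_e_pow (w : W) (m : ℕ) : F.e w * F.z ^ m * (F.e w)⁻¹ ∈ F.B :=
  F.Z_le (F.conj_Z w _ (zpow_mem_Z F m))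

theorem shrink_Nb_pow (m : ℕ) (y : G) (hy : y ∈ F.Nb) (hG : y ∈ F.Gam) :
    F.z ^ m * y * (F.z ^ m)⁻¹ ∈ F.Gam := by
  induction m with
  | zero => simpa using hG
  | succ m ih =>
    have := F.shrink_Nb _ (F.conj_Nb _ (zpow_mem_Z F m) y hy) ih
    have h2 : F.z * (F.z ^ m * y * (F.z ^ m)⁻¹) * F.z⁻¹ = F.z ^ (m+1) * y * (F.z ^ (m+1))⁻¹ := by
      rw [pow_succ', mul_inv_rev]; group
    rwa [h2] at this

theorem shrink_N_pow (m : ℕ) (y : G) (hy : y ∈ F.N) (hG : y ∈ F.Gam) :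
    (F.z ^ m)⁻¹ * y * F.z ^ m ∈ F.Gam := by
  induction m with
  | zero => simpa using hG
  | succ m ih =>
    have h1 : (F.z ^ m)⁻¹ * y * F.z ^ m ∈ F.N := by
      have := F.conj_N (F.z ^ m)⁻¹ (inv_mem (zpow_mem_Z F m)) y hy
      simpa using this
    have := F.shrink_N _ h1 ih
    have h2 : F.z⁻¹ * ((F.z ^ m)⁻¹ * y * F.z ^ m) * F.z = (F.z ^ (m+1))⁻¹ * y * F.z ^ (m+1) := by
      rw [pow_succ, mul_inv_rev]; group
    rwa [h2] at this

theorem pow_split (m k : ℕ) (hk : m ≤ k) : F.z ^ k = F.z ^ (k - m) * F.z ^ m := by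
  rw [← pow_add]; congr 1; omega

theorem absorb_Nb_ge (y : G) (hy : y ∈ F.Nb) : ∃ m : ℕ, ∀ k ≥ m,
    F.z ^ k * y * (F.z ^ k)⁻¹ ∈ F.Gam := by
  obtain ⟨m, hm⟩ := F.absorb_Nb y hy
  refine ⟨m, fun k hk => ?_⟩
  have := shrink_Nb_pow F (k - m) _ (F.conj_Nb _ (zpow_mem_Z F m) y hy) hm
  rw [pow_split F m k hk, mul_inv_rev]
  convert this using 1
  group

theorem absorb_N_ge (y : G) (hy : y ∈ F.N) : ∃ m : ℕ, ∀ k ≥ m,
    (F.z ^ k)⁻¹ * y * F.z ^ k ∈ F.Gam := by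
  obtain ⟨m, hm⟩ := F.absorb_N y hy
  refine ⟨m, fun k hk => ?_⟩
  have h1 : (F.z ^ m)⁻¹ * y * F.z ^ m ∈ F.N := by
    have := F.conj_N (F.z ^ m)⁻¹ (inv_mem (zpow_mem_Z F m)) y hy
    simpa using this
  have := shrink_N_pow F (k - m) _ h1 hm
  have e : F.z ^ k = F.z ^ m * F.z ^ (k - m) := by rw [← pow_add]; congr 1; omega
  rw [e, mul_inv_rev]
  convert this using 1
  group

theorem unif_Nb_ge (U : Set G) (hU : U ∈ 𝓝 (1 : G)) : ∃ m : ℕ, ∀ k ≥ m, ∀ y ∈ F.Nb, y ∈ F.Gam →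
    F.z ^ k * y * (F.z ^ k)⁻¹ ∈ U := by
  obtain ⟨m, hm⟩ := F.unif_Nb U hU
  refine ⟨m, fun k hk y hy hG => ?_⟩
  have := hm (F.z ^ (k - m) * y * (F.z ^ (k - m))⁻¹) (F.conj_Nb _ (zpow_mem_Z F _) y hy)
    (shrink_Nb_pow F _ y hy hG)
  have e : F.z ^ k = F.z ^ m * F.z ^ (k - m) := by rw [← pow_add]; congr 1; omega
  rw [e, mul_inv_rev]
  convert this using 1
  group

theorem unif_N_ge (U : Set G) (hU : U ∈ 𝓝 (1 : G)) : ∃ m : ℕ, ∀ k ≥ m, ∀ y ∈ F.N, y ∈ F.Gam →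
    (F.z ^ k)⁻¹ * y * F.z ^ k ∈ U := by
  obtain ⟨m, hm⟩ := F.unif_N U hU
  refine ⟨m, fun k hk y hy hG => ?_⟩
  have h1 : (F.z ^ (k - m))⁻¹ * y * F.z ^ (k - m) ∈ F.N := by
    have := F.conj_N (F.z ^ (k - m))⁻¹ (inv_mem (zpow_mem_Z F _)) y hy
    simpa using this
  have := hm _ h1 (shrink_N_pow F _ y hy hG)
  rw [pow_split F m k hk, mul_inv_rev]
  convert this using 1
  group

/-- pointwise contraction: `z^m y z^{-m} → 1` for `y ∈ Nb`. -/
theorem tendsto_Nb (y : G) (hy : y ∈ F.Nb) :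
    Tendsto (fun m : ℕ => F.z ^ m * y * (F.z ^ m)⁻¹) atTop (𝓝 1) := by
  rw [tendsto_atTop']
  intro U hU
  obtain ⟨m0, h0⟩ := absorb_Nb_ge F y hy
  obtain ⟨m1, h1⟩ := unif_Nb_ge F U hU
  refine ⟨m0 + m1, fun k hk => ?_⟩
  have := h1 (k - m0) (by omega) _ (F.conj_Nb _ (zpow_mem_Z F m0) y hy) (h0 m0 le_rfl)
  rw [pow_split F m0 k (by omega), mul_inv_rev]
  convert this using 1
  group

theorem tendsto_N (y : G) (hy : y ∈ F.N) :
    Tendsto (fun m : ℕ => (F.z ^ m)⁻¹ * y * F.z ^ m) atTop (𝓝 1) := by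
  rw [tendsto_atTop']
  intro U hU
  obtain ⟨m0, h0⟩ := absorb_N_ge F y hy
  obtain ⟨m1, h1⟩ := unif_N_ge F U hU
  refine ⟨m0 + m1, fun k hk => ?_⟩
  have h2 : (F.z ^ m0)⁻¹ * y * F.z ^ m0 ∈ F.N := by
    have := F.conj_N (F.z ^ m0)⁻¹ (inv_mem (zpow_mem_Z F _)) y hy
    simpa using this
  have := h1 (k - m0) (by omega) _ h2 (h0 m0 le_rfl)
  have e : F.z ^ k = F.z ^ m0 * F.z ^ (k - m0) := by rw [← pow_add]; congr 1; omega
  rw [e, mul_inv_rev]
  convert this using 1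
  group

/-- moving `n` by conjugation does not change the cell of `e_w n`. -/
theorem idx_conj_N (w : W) (n : G) (m : ℕ) :
    F.idx (F.e w * ((F.z ^ m)⁻¹ * n * F.z ^ m)) = F.idx (F.e w * n) := by
  have h : F.e w * ((F.z ^ m)⁻¹ * n * F.z ^ m)
      = (F.e w * F.z ^ m * (F.e w)⁻¹)⁻¹ * (F.e w * n * F.z ^ m) := by group
  rw [h, F.idx_left _ (inv_mem (conj_e_pow F w m)), F.idx_right_Z _ (zpow_mem_Z F m)]

variable [DecidableEq W]

/-- If `e_w n` is in the cell of `w'`, `n ∈ N`, then `w' ≤ w`. -/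
theorem wle_of_N (w w' : W) (n : G) (hn : n ∈ F.N) (h : F.idx (F.e w * n) = w') : wle F w' w := by
  unfold wle
  have ht : Tendsto (fun m : ℕ => F.e w * ((F.z ^ m)⁻¹ * n * F.z ^ m)) atTop (𝓝 (F.e w * 1)) :=
    (tendsto_N F n hn).const_mul (F.e w)
  rw [mul_one] at ht
  refine mem_closure_of_tendsto ht (Eventually.of_forall fun m => ?_)
  show F.idx _ ∈ ({w'} : Finset W)
  rw [Finset.mem_singleton, idx_conj_N, h]

/-- The chart at a point of an open union of cells is contained in it. -/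
theorem chart_subset (Om : Finset W) (hOm : IsOpen (cell F Om)) (w : W) (hw : w ∈ Om)
    (b n y : G) (hb : b ∈ F.B) (hn : n ∈ F.N) (hy : y ∈ F.Nb) :
    F.idx (b * F.e w * n * y) ∈ Om := by
  have h1 : F.idx (b * F.e w * n * y) = F.idx (F.e w * n) := by
    rw [F.idx_right_Nb y hy, mul_assoc, F.idx_left b hb]
  rw [h1]
  have ht : Tendsto (fun m : ℕ => F.e w * ((F.z ^ m)⁻¹ * n * F.z ^ m)) atTop (𝓝 (F.e w * 1)) :=
    (tendsto_N F n hn).const_mul (F.e w)
  rw [mul_one] at ht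
  have h2 : cell F Om ∈ 𝓝 (F.e w) := hOm.mem_nhds (by show F.idx _ ∈ Om; rw [F.idx_e]; exact hw)
  obtain ⟨m, hm⟩ := (ht.eventually h2).exists
  have h3 : F.idx (F.e w * ((F.z ^ m)⁻¹ * n * F.z ^ m)) ∈ Om := hm
  rwa [idx_conj_N] at h3

/-- `w ≤ w'` iff `w'` cell is in the closure; stability of closures -/
theorem closure_left (Om : Finset W) (b g : G) (hb : b ∈ F.B) (hg : g ∈ closure (cell F Om)) :
    b * g ∈ closure (cell F Om) :=
  map_mem_closure (continuous_const_mul b) hg fun x hx => cell_linv F Om b hb x hx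

theorem closure_right (Om : Finset W) (y g : G) (hy : y ∈ F.Nb) (hg : g ∈ closure (cell F Om)) :
    g * y ∈ closure (cell F Om) :=
  map_mem_closure (f := fun x => x * y) (continuous_mul_const y) hg
    fun x hx => (cell_right_Nb F Om x y hy).2 hx

theorem mem_closure_iff_wle (w : W) (g : G) : g ∈ closure (cell F {w}) ↔ wle F w (F.idx g) := by
  obtain ⟨b, hb, y, hy, h⟩ := F.exists_rep g
  unfold wle
  constructor
  · intro hg
    have h1 := closure_right F {w} y⁻¹ _ (inv_mem hy) (closure_left F {w} b⁻¹ g (inv_mem hb) hg)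
    have : b⁻¹ * g * y⁻¹ = F.e (F.idx g) := by
      conv_lhs => rw [h]
      group
    rwa [this] at h1
  · intro hg
    have h1 := closure_right F {w} y _ hy (closure_left F {w} b _ hb hg)
    rw [← h] at h1
    exact h1

theorem wle_refl (w : W) : wle F w w :=
  subset_closure (by show F.idx _ ∈ ({w} : Finset W); rw [F.idx_e]; exact Finset.mem_singleton_self w)

theorem wle_trans {w1 w2 w3 : W} (h12 : wle F w1 w2) (h23 : wle F w2 w3) : wle F w1 w3 := by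
  have h1 : cell F {w2} ⊆ closure (cell F {w1}) := by
    intro g hg
    rw [mem_closure_iff_wle]
    have : F.idx g = w2 := Finset.mem_singleton.1 hg
    rwa [this]
  exact (closure_minimal h1 isClosed_closure) h23

/-- cells are locally closed: near `e_w` (in `U0 w`) the closure of the cell is the cell. -/
theorem closure_inter_U0 (w : W) (g : G) (hg : g ∈ closure (cell F {w})) (hU : g ∈ U0 F w) :
    F.idx g = w := by
  -- the set `B e_w (Q w ∩ Gam)` is closed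
  have h1 : IsCompact ((fun y : G => F.e w * y) '' {y : G | y ∈ F.Q w ∧ y ∈ F.Gam}) :=
    (QG_compact F w).image (continuous_const_mul _)
  have h2 := B_mul_closed F h1
  have h3 : g ∈ closure (cell F {w} ∩ U0 F w) := by
    have := closure_inter_open_nonempty_iff (s := U0 F w) (t := cell F {w})
    rw [mem_closure_iff_nhds] at hg ⊢
    intro t ht
    have := hg (t ∩ U0 F w) (inter_mem ht ((U0_clopen F w).2.mem_nhds hU))
    obtain ⟨x, ⟨hx1, hx2⟩, hx3⟩ := this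
    exact ⟨x, hx1, hx3, hx2⟩
  have h4 : cell F {w} ∩ U0 F w ⊆ {g | ∃ b ∈ F.B, ∃ s ∈ (fun y : G => F.e w * y) ''
      {y : G | y ∈ F.Q w ∧ y ∈ F.Gam}, g = b * s} := by
    rintro x ⟨hx1, hx2⟩
    obtain ⟨b, hb, y, hy, hyG, h⟩ := U0_cell F w x hx2 (Finset.mem_singleton.1 hx1)
    exact ⟨b, hb, _, ⟨y, ⟨hy, hyG⟩, rfl⟩, by rw [h, mul_assoc]⟩
  have h5 := closure_minimal h4 h2 h3
  obtain ⟨b, hb, _, ⟨y, ⟨hy, _⟩, rfl⟩, rfl⟩ := h5
  rw [← mul_assoc]
  exact idx_eq F w b y hb (F.Q_le w hy)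

theorem wle_antisymm {w w' : W} (h1 : wle F w w') (h2 : wle F w' w) : w = w' := by
  -- `e_w` is in the closure of cell `w'`; so `U0 w` meets cell `w'`, at a point in closure of cell w
  have h3 : (U0 F w ∩ cell F {w'}).Nonempty := by
    unfold wle at h2
    rw [mem_closure_iff_nhds] at h2
    exact h2 _ ((U0_clopen F w).2.mem_nhds (e_mem_U0 F w))
  obtain ⟨g, hg1, hg2⟩ := h3
  have h4 : F.idx g = w' := Finset.mem_singleton.1 hg2
  have h5 : g ∈ closure (cell F {w}) := by rw [mem_closure_iff_wle, h4]; exact h1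
  rw [← closure_inter_U0 F w g h5 hg1, h4]

/-- In a nonempty finite set of cells there is a maximal one for `wle`. -/
theorem exists_max (Om : Finset W) (hne : Om.Nonempty) :
    ∃ w ∈ Om, ∀ w' ∈ Om, wle F w w' → w' = w := by
  induction Om using Finset.strongInduction with
  | _ Om ih =>
    obtain ⟨w, hw⟩ := hne
    by_cases h : ∀ w' ∈ Om, wle F w w' → w' = w
    · exact ⟨w, hw, h⟩
    · push Not at h
      obtain ⟨w1, hw1, hle, hne1⟩ := h
      -- consider elements above w1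
      classical
      set Om' := Om.filter (fun x => wle F w1 x) with hOm'
      have hw1' : w1 ∈ Om' := Finset.mem_filter.2 ⟨hw1, wle_refl F w1⟩
      have hss : Om' ⊂ Om := by
        refine Finset.filter_ssubset.2 ⟨w, hw, fun hcon => hne1 ?_⟩
        exact wle_antisymm F hcon hle
      obtain ⟨m, hm, hmax⟩ := ih Om' hss ⟨w1, hw1'⟩
      rw [hOm', Finset.mem_filter] at hm
      refine ⟨m, hm.1, fun w' hw' hle' => hmax w' ?_ hle'⟩
      rw [hOm', Finset.mem_filter]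
      exact ⟨hw', wle_trans F hm.2 hle'⟩

theorem erase_open (Om : Finset W) (hOm : IsOpen (cell F Om)) (w : W)
    (hmax : ∀ w' ∈ Om, wle F w w' → w' = w) : IsOpen (cell F (Om.erase w)) := by
  have : cell F (Om.erase w) = cell F Om ∩ (closure (cell F {w}))ᶜ := by
    ext g
    simp only [Set.mem_inter_iff, Set.mem_compl_iff, mem_closure_iff_wle]
    show F.idx g ∈ Om.erase w ↔ F.idx g ∈ Om ∧ _
    rw [Finset.mem_erase]
    constructor
    · rintro ⟨h1, h2⟩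
      exact ⟨h2, fun h => h1 (hmax _ h2 h)⟩
    · rintro ⟨h1, h2⟩
      refine ⟨fun h => h2 ?_, h1⟩
      rw [h]; exact wle_refl F w
  rw [this]
  exact hOm.inter isClosed_closure.isOpen_compl

theorem exists_erase (Om : Finset W) (hne : Om.Nonempty) (hOm : IsOpen (cell F Om)) :
    ∃ w ∈ Om, IsOpen (cell F (Om.erase w)) := by
  obtain ⟨w, hw, hmax⟩ := exists_max F Om hne
  exact ⟨w, hw, erase_open F Om hOm w hmax⟩

theorem cell_empty : cell F (∅ : Finset W) = ∅ := by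
  ext g; simp [cell]

end Pool.Agent.Helper911
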