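import Mathlib
import Pool.Agent.Helper911_Abs.Cells

/-! The data for the core argument. -/

set_option autoImplicit false
set_option linter.unusedSectionVars false

noncomputable section

open Topology Filter

namespace Pool.Agent.Helper911

variable {p : ℕ} {G : Type*} [Group G] [TopologicalSpace G] [IsTopologicalGroup G] [T2Space G]
  {W : Type*} [DecidableEq W] {F : Flag p G W} {C : Type*} [NormedField C] [IsUltrametricDist C]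

/-- `St u s`: `s` is in the opposite unipotent group and stabilises the base point of the cell `u`. -/
def St (F : Flag p G W) (u : W) (s : G) : Prop := s ∈ F.Nb ∧ F.e u * s * (F.e u)⁻¹ ∈ F.N

/-- `TN u f M`: on the cell `u` the function `f` is bounded by `M` (in the normalisation `e_u Nb`). -/
def TN (F : Flag p G W) (u : W) (f : G → C) (M : ℝ) : Prop := ∀ y ∈ F.Nb, ‖f (F.e u * y)‖ ≤ M

/-- `f` is the section `Phi_u`: `Phi_u (b e_u n y) = chi b` for `n ∈ P u`, `y ∈ Q u ∩ Gam`,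
and `0` elsewhere. -/
def IsPhi (X : CharData F C) (u : W) (f : G → C) : Prop :=
  (∀ b ∈ F.B, ∀ n ∈ F.P u, ∀ y ∈ F.Q u, y ∈ F.Gam → f (b * F.e u * n * y) = X.chi b) ∧
  ∀ x, (¬ ∃ b ∈ F.B, ∃ n ∈ F.P u, ∃ y ∈ F.Q u, y ∈ F.Gam ∧ x = b * F.e u * n * y) → f x = 0

/-- The data for the core argument: a subspace `V'` of `V` on which the cells in `T` dominate. -/
structure CoreData (X : CharData F C) (R : SubRep X) (Om T : Finset W) (c : ℝ) where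
  V' : Submodule C (G → C)
  le : V' ≤ R.V
  stab_Nb : ∀ f ∈ V', ∀ y ∈ F.Nb, tr y f ∈ V'
  stab_Z : ∀ f ∈ V', ∀ t ∈ F.Z, tr t f ∈ V'
  open_Om : IsOpen (cell F Om)
  T_sub : T ⊆ Om
  c_pos : 0 < c
  cw_T : ∀ u ∈ T, cw X u = c
  topfin : ∀ f ∈ V', ∀ u ∈ T, ∃ M, TN F u f M
  relc : ∃ A : ℝ, 1 ≤ A ∧ ∀ u ∈ T, ∀ f ∈ V', ∀ M : ℝ, 0 < M →
    (∀ w ∈ T, w ≠ u → wle F u w → TN F w f M) →
    ∃ m : ℕ, ∀ y ∈ F.Q u, A * M < ‖f (F.e u * y)‖ → F.z ^ m * y * (F.z ^ m)⁻¹ ∈ F.Gam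
  decay : ∃ A : ℝ, 1 ≤ A ∧ ∀ u ∈ T, ∀ f ∈ V', ∀ E : G → C, IsSec X E → (∀ x ∉ U0 F u, E x = 0) →
    ∀ M : ℝ, 0 < M → (∀ w ∈ T, TN F w (f - E) M) →
    ∃ m0 : ℕ, ∀ m ≥ m0, Bd X (tr (F.z ^ m) (f - E)) (A * M * c ^ m)
  nonvan : ∃ f ∈ V', ∃ w ∈ T, f (F.e w) ≠ 0
  lower : ∀ u ∈ T, ∀ w, wle F w u → w ∉ T → cw X w < c

variable {X : CharData F C} {R : SubRep X} {Om T : Finset W} {c : ℝ}

/-- `f` is `ε`-close to the indicator of `D` on `Q u`, and `ε`-small on the cells in `T \ A`. -/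
def Good (D0 : CoreData X R Om T c) (A : Finset W) (u : W) (D : Set G) (ε : ℝ) (f : G → C) : Prop :=
  f ∈ D0.V' ∧ (∀ y ∈ F.Q u, y ∈ D → ‖f (F.e u * y) - 1‖ ≤ ε) ∧
  (∀ y ∈ F.Q u, y ∉ D → ‖f (F.e u * y)‖ ≤ ε) ∧ ∀ w ∈ T \ A, TN F w f ε

/-- `D` is compact and open in `Q u`. -/
def CO (F : Flag p G W) (u : W) (D : Set G) : Prop := IsCompact D ∧ ∃ O, IsOpen O ∧ D = O ∩ F.Q u

/-- The subgroup `z^l (Q u ∩ Gam) z^{-l}` as a set. -/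
def Nl (F : Flag p G W) (u : W) (l : ℕ) : Set G := {y | y ∈ F.Q u ∧ (F.z ^ l)⁻¹ * y * F.z ^ l ∈ F.Gam}

/-- `A` is a minimal isolable set with comparison constant `A0`. -/
structure Isol (D0 : CoreData X R Om T c) (A : Finset W) (A0 : ℝ) : Prop where
  sub : A ⊆ T
  one_le : 1 ≤ A0
  exist : ∀ ε : ℝ, 0 < ε → ∃ f ∈ D0.V', (∃ u ∈ A, 1 ≤ ‖f (F.e u)‖) ∧ ∀ w ∈ T \ A, TN F w f ε
  compare : ∀ u ∈ A, ∀ f ∈ D0.V', ∀ M : ℝ, 0 < M → TN F u f M → (∀ w ∈ T \ A, TN F w f M) →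
    ∀ w ∈ A, TN F w f (A0 * M)

/-- The field `C` has a discrete absolute value and residue characteristic `p`. -/
structure Disc (p : ℕ) (C : Type*) [NormedField C] (rho : ℝ) : Prop where
  pos : 0 < rho
  lt_one : rho < 1
  gap : ∀ x : C, ‖x‖ < 1 → ‖x‖ ≤ rho
  norm_p : ‖(p : C)‖ < 1
  p_ne : (p : C) ≠ 0
  exists_lt : ∃ x : C, 0 < ‖x‖ ∧ ‖x‖ < 1

/-- The tie hypothesis. -/
def TieHyp (X : CharData F C) : Prop :=
  ∀ u : W, ∀ R : Set G, (∀ x ∈ R, x ∈ F.P u) → 1 ∉ R → R.Nonempty →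
    (∀ n1 ∈ R, ∀ s, St F u s → ∀ b ∈ F.B, ∀ n2 ∈ F.P u, ∀ y ∈ F.Q u,
      F.e u * n1 * s = b * F.e u * n2 * y → y = 1 ∧ n2 ∈ R ∧ X.chi b = 1) → False

end Pool.Agent.Helper911
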