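import Mathlib
import Pool.Agent.Helper911_Abs.Cells

set_option autoImplicit false
set_option linter.unusedSectionVars false
set_option maxHeartbeats 1000000

noncomputable section

open Topology Filter

namespace Pool.Agent.Helper911


variable {p : ℕ} {G : Type*} [Group G] [TopologicalSpace G] [IsTopologicalGroup G] [T2Space G]
  {W : Type*} [DecidableEq W] {F : Flag p G W} {C : Type*} [NormedField C] [IsUltrametricDist C]

/-! ======= TARGET ======= -/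

/-- TARGET.
Proof. `D ∩ K` is compact. The sets `O m = {x | x * (z^m)⁻¹ ∈ U0 w}` are open. Each `x ∈ D` is
`b e_w q` with `q ∈ Q w` (`exists_rep_Q`), and `x (z^m)⁻¹ = (b e_w (z^m)⁻¹ e_w⁻¹) e_w (z^m q (z^m)⁻¹)`, where
`z^m q (z^m)⁻¹ ∈ Gam` for `m` large (`absorb_Nb_ge`), so `x ∈ O m` for large `m`; and conversely if `x ∈ O m` then
(`U0_cell`, `chart_inj`) `z^m q (z^m)⁻¹ ∈ Gam`, so `x ∈ O m'` for all `m' ≥ m` (`shrink_Nb_pow`). Take a finite subcover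
of `D ∩ K` and the maximal `m`; extend from `D ∩ K` to `D` by left invariance (`iwasawa`, `hDi.mem_iff`, `U0_linv`). -/
theorem absorb_cell (w : W) (D : Set G) (hD : IsClosed D) (hDi : LInv F D)
    (hDw : ∀ x ∈ D, F.idx x = w) : ∃ m0 : ℕ, ∀ m ≥ m0, ∀ x ∈ D, x * (F.z ^ m)⁻¹ ∈ U0 F w := by
  -- the basic computation
  have key : ∀ (k : ℕ) (b y : G), b ∈ F.B → y ∈ F.Q w → F.z ^ k * y * (F.z ^ k)⁻¹ ∈ F.Gam →
      b * F.e w * y * (F.z ^ k)⁻¹ ∈ U0 F w := by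
    intro k b y hb hy hG
    refine ⟨b * (F.e w * F.z ^ k * (F.e w)⁻¹)⁻¹, F.B.mul_mem hb (F.B.inv_mem (conj_e_pow F w k)),
      1, (F.P w).one_mem, F.z ^ k * y * (F.z ^ k)⁻¹, F.conj_Q w _ (zpow_mem_Z F k) y hy,
      F.Gam.one_mem, hG, ?_⟩
    group
  have mono : ∀ (m m' : ℕ), m ≤ m' → ∀ x, F.idx x = w → x * (F.z ^ m)⁻¹ ∈ U0 F w →
      x * (F.z ^ m')⁻¹ ∈ U0 F w := by
    intro m m' hmm x hx hU
    have hidx : F.idx (x * (F.z ^ m)⁻¹) = w := by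
      rw [F.idx_right_Z _ (F.Z.inv_mem (zpow_mem_Z F m))]; exact hx
    obtain ⟨b, hb, y, hy, hyG, hEq⟩ := U0_cell F w _ hU hidx
    have h1 : x * (F.z ^ m')⁻¹ = b * F.e w * y * (F.z ^ (m' - m))⁻¹ := by
      rw [← hEq, pow_split F m m' hmm, mul_inv_rev, mul_assoc]
    rw [h1]
    exact key (m' - m) b y hb hy (shrink_Nb_pow F (m' - m) y (F.Q_le w hy) hyG)
  have hopen : ∀ m : ℕ, IsOpen {x : G | x * (F.z ^ m)⁻¹ ∈ U0 F w} := by
    intro m
    exact (U0_clopen F w).isOpen.preimage (continuous_mul_const _)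
  have hcomp : IsCompact (D ∩ (F.K : Set G)) := F.K_compact.inter_left hD
  have hcov : D ∩ (F.K : Set G) ⊆ ⋃ m : ℕ, {x : G | x * (F.z ^ m)⁻¹ ∈ U0 F w} := by
    intro x hx
    obtain ⟨b, hb, q, hq, hEq⟩ := exists_rep_Q F x
    rw [hDw x hx.1] at hq hEq
    obtain ⟨m, hm⟩ := F.absorb_Nb q (F.Q_le w hq)
    refine Set.mem_iUnion.2 ⟨m, ?_⟩
    show x * (F.z ^ m)⁻¹ ∈ U0 F w
    rw [hEq]
    exact key m b q hb hq hm
  obtain ⟨t, ht⟩ := hcomp.elim_finite_subcover _ hopen hcov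
  refine ⟨t.sup id, ?_⟩
  intro m hm x hx
  obtain ⟨b, hb, k, hk, hEq⟩ := F.iwasawa x
  have hkD : k ∈ D := by
    have h2 := (hDi.mem_iff hb k)
    rw [← hEq] at h2
    exact h2.1 hx
  obtain ⟨i, hi⟩ := Set.mem_iUnion.1 (ht ⟨hkD, hk⟩)
  obtain ⟨hit, hi2⟩ := Set.mem_iUnion.1 hi
  have him : i ≤ m := le_trans (Finset.le_sup (f := id) hit) hm
  have h3 : k * (F.z ^ m)⁻¹ ∈ U0 F w := mono i m him k (hDw k hkD) hi2
  have h4 := U0_linv F w b hb _ h3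
  rw [hEq, mul_assoc]
  exact h4
end Pool.Agent.Helper911
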