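import Mathlib
import Pool.Agent.Helper911_Abs.Cells
import Pool.Agent.Helper911_Abs.KA

set_option autoImplicit false
set_option linter.unusedSectionVars false
set_option maxHeartbeats 1000000

noncomputable section

open Topology Filter

namespace Pool.Agent.Helper911


variable {p : ℕ} {G : Type*} [Group G] [TopologicalSpace G] [IsTopologicalGroup G] [T2Space G]
  {W : Type*} [DecidableEq W] {F : Flag p G W} {C : Type*} [NormedField C] [IsUltrametricDist C]



/-! ======= TARGET ======= -/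

theorem growth_S3_sub (Om : Finset W) (w : W) (hw : w ∈ Om) (hOm : IsOpen (cell F Om)) (x : G)
    (hx : x * F.z ∈ U0 F w) (hx' : x ∉ U0 F w) : x ∈ cell F (Om.erase w) := by
  have hzB : ∀ t ∈ F.Z, t ∈ F.B := fun t ht => F.Z_le ht
  have hcell : x * F.z ∈ cell F Om := by
    obtain ⟨b, hb, n, hn, y, hy, -, -, h⟩ := hx
    show F.idx (x * F.z) ∈ Om
    rw [h]
    exact chart_subset F Om hOm w hw b n y hb (F.P_le w hn) (F.Q_le w hy)
  have hcell' : x ∈ cell F Om := (cell_right_Z F Om x F.z F.z_mem).1 hcell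
  refine Finset.mem_erase.2 ⟨?_, hcell'⟩
  intro hidx
  apply hx'
  have hidx2 : F.idx (x * F.z) = w := by rw [F.idx_right_Z F.z F.z_mem, hidx]
  obtain ⟨b, hb, y, hy, hyG, h⟩ := U0_cell F w _ hx hidx2
  have hzi : F.z⁻¹ ∈ F.Z := F.Z.inv_mem F.z_mem
  refine ⟨b * (F.e w * F.z⁻¹ * (F.e w)⁻¹), F.B.mul_mem hb (hzB _ (F.conj_Z w _ hzi)), 1,
    (F.P w).one_mem, F.z * y * F.z⁻¹, F.conj_Q w _ F.z_mem y hy, F.Gam.one_mem,
    F.shrink_Nb y (F.Q_le w hy) hyG, ?_⟩
  have : x = b * F.e w * y * F.z⁻¹ := by rw [← h]; group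
  rw [this]
  group

theorem growth_f1_bd (X : CharData F C) (w : W) (f : G → C) (hf : IsSec X f)
    (hs : ∀ x ∉ U0 F w, f x = 0) (M : ℝ) (hM : Bd X f M) :
    Bd X (cut (U0 F w) (tr F.z f)) (cw X w * M) := by
  intro x
  have hM0 : 0 ≤ M := hM.nonneg
  have hcw0 : 0 ≤ cw X w := norm_nonneg _
  have hnn : 0 ≤ cw X w * M * ht X x := mul_nonneg (mul_nonneg hcw0 hM0) (ht_pos X x).le
  by_cases hx : x ∈ U0 F w
  · rw [cut_of_mem hx, tr_apply]
    obtain ⟨b, hb, n, hn, y, hy, hnG, hyG, h⟩ := hx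
    have hb' : F.e w * F.z * (F.e w)⁻¹ ∈ F.B := F.Z_le (F.conj_Z w _ F.z_mem)
    have hn' : F.z⁻¹ * n * F.z ∈ F.P w := by
      have := F.conj_P w _ (F.Z.inv_mem F.z_mem) n hn
      rwa [inv_inv] at this
    have hy' : F.z⁻¹ * y * F.z ∈ F.Q w := by
      have := F.conj_Q w _ (F.Z.inv_mem F.z_mem) y hy
      rwa [inv_inv] at this
    have hnG' : F.z⁻¹ * n * F.z ∈ F.Gam := F.shrink_N n (F.P_le w hn) hnG
    have hxz : x * F.z = b * (F.e w * F.z * (F.e w)⁻¹) *
        (F.e w * (F.z⁻¹ * n * F.z) * (F.z⁻¹ * y * F.z)) := by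
      rw [h]; group
    have hht : ht X x = ‖X.chi b‖ := by
      rw [h]
      have : b * F.e w * n * y = b * (F.e w * n * y) := by group
      rw [this]
      exact ht_eq X b _ hb (F.K.mul_mem (F.K.mul_mem (F.e_mem w) (F.Gam_le hnG)) (F.Gam_le hyG))
    by_cases hyG' : F.z⁻¹ * y * F.z ∈ F.Gam
    · have hk : F.e w * (F.z⁻¹ * n * F.z) * (F.z⁻¹ * y * F.z) ∈ F.K :=
        F.K.mul_mem (F.K.mul_mem (F.e_mem w) (F.Gam_le hnG')) (F.Gam_le hyG')
      rw [hxz, hf.norm_left _ _ (F.B.mul_mem hb hb'), X.chi_mul _ hb _ hb', norm_mul, hht]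
      have h1 := hM.K _ hk
      have h2 : 0 ≤ ‖X.chi b‖ * ‖X.chi (F.e w * F.z * (F.e w)⁻¹)‖ := by positivity
      calc ‖X.chi b‖ * ‖X.chi (F.e w * F.z * (F.e w)⁻¹)‖ *
            ‖f (F.e w * (F.z⁻¹ * n * F.z) * (F.z⁻¹ * y * F.z))‖
          ≤ ‖X.chi b‖ * ‖X.chi (F.e w * F.z * (F.e w)⁻¹)‖ * M :=
            mul_le_mul_of_nonneg_left h1 h2
        _ = cw X w * M * ‖X.chi b‖ := by unfold cw; ring
    · have hnot : x * F.z ∉ U0 F w := by
        rintro ⟨b2, hb2, n2, hn2, y2, hy2, hn2G, hy2G, h2⟩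
        apply hyG'
        rw [hxz] at h2
        have h3 : F.e w * (F.z⁻¹ * n * F.z) * (F.z⁻¹ * y * F.z) =
            ((b * (F.e w * F.z * (F.e w)⁻¹))⁻¹ * b2) * F.e w * n2 * y2 := by
          have h4 : F.e w * (F.z⁻¹ * n * F.z) * (F.z⁻¹ * y * F.z) =
              (b * (F.e w * F.z * (F.e w)⁻¹))⁻¹ * (b2 * F.e w * n2 * y2) := by
            rw [← h2]; group
          rw [h4]; group
        have h5 := F.chart_inj w _ (F.B.mul_mem (F.B.inv_mem (F.B.mul_mem hb hb')) hb2)
          _ hn' _ hy' _ hn2 _ hy2 h3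
        rw [h5.2]
        exact hy2G
      rw [hs _ hnot, norm_zero]
      exact hnn
  · rw [cut_of_notMem hx, norm_zero]
    exact hnn

theorem growth_cut_add (S : Set G) (f : G → C) : cut S f + cut Sᶜ f = f := by
  funext x
  show cut S f x + cut Sᶜ f x = f x
  by_cases hx : x ∈ S
  · rw [cut_of_mem hx, cut_of_notMem (by simpa using hx), add_zero]
  · rw [cut_of_notMem hx, cut_of_mem (by simpa using hx), zero_add]

theorem growth_compl_linv {S : Set G} (hS : LInv F S) : LInv F Sᶜ := by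
  intro b hb g hg h
  exact hg ((hS.mem_iff hb g).1 h)

theorem growth_tr_add (g : G) (f h : G → C) : tr g (f + h) = tr g f + tr g h := rfl

theorem growth_tr_one (f : G → C) : tr (1 : G) f = f := by
  funext x
  simp

/-- Step 2 -/
theorem growth_U0 (X : CharData F C) (Om : Finset W) (w : W) (hw : w ∈ Om)
    (hOm : IsOpen (cell F Om)) (c : ℝ) (hc : 0 < c) (hcw : cw X w ≤ c)
    (IH : ∀ S : Set G, IsClosed S → LInv F S → S ⊆ cell F (Om.erase w) →
      ∃ A : ℝ, 1 ≤ A ∧ ∀ f : G → C, IsSec X f → (∀ x ∉ S, f x = 0) → ∀ M : ℝ, Bd X f M →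
        ∀ m : ℕ, Bd X (tr (F.z ^ m) f) (A * c ^ m * M)) :
    ∃ A : ℝ, 1 ≤ A ∧ ∀ f : G → C, IsSec X f → (∀ x ∉ U0 F w, f x = 0) → ∀ M : ℝ, Bd X f M →
      ∀ m : ℕ, Bd X (tr (F.z ^ m) f) (A * c ^ m * M) := by
  have hU := U0_clopen F w
  have hUi := U0_linv F w
  have hS3c : IsClosed {x | x * F.z ∈ U0 F w ∧ x ∉ U0 F w} :=
    (hU.1.preimage (continuous_mul_const F.z)).inter hU.2.isClosed_compl
  have hS3i : LInv F {x | x * F.z ∈ U0 F w ∧ x ∉ U0 F w} := by
    rintro b hb x ⟨h1, h2⟩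
    refine ⟨?_, growth_compl_linv hUi b hb x h2⟩
    rw [mul_assoc]
    exact hUi b hb _ h1
  obtain ⟨A2, hA2, hA2'⟩ := IH _ hS3c hS3i (fun x hx => growth_S3_sub Om w hw hOm x hx.1 hx.2)
  obtain ⟨A1, hA1, hA1'⟩ := exists_tr_bd (X := X) F.z
  refine ⟨max 1 (A1 * A2 / c), le_max_left _ _, ?_⟩
  set A3 := max 1 (A1 * A2 / c) with hA3
  have hA31 : 1 ≤ A3 := le_max_left _ _
  have hA32 : A1 * A2 ≤ A3 * c := by
    have := le_max_right 1 (A1 * A2 / c)
    rw [← hA3, div_le_iff₀ hc] at this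
    exact this
  intro f hf hs M hM m
  induction m generalizing f M with
  | zero =>
    rw [pow_zero, growth_tr_one]
    refine hM.mono ?_
    have := hM.nonneg
    rw [pow_zero, mul_one]
    nlinarith
  | succ m ih =>
    have hM0 : 0 ≤ M := hM.nonneg
    have e : tr (F.z ^ (m + 1)) f = tr (F.z ^ m) (cut (U0 F w) (tr F.z f)) +
        tr (F.z ^ m) (cut (U0 F w)ᶜ (tr F.z f)) := by
      rw [← growth_tr_add, growth_cut_add, tr_tr, pow_succ]
    rw [e]
    have hsec1 : IsSec X (cut (U0 F w) (tr F.z f)) := (hf.tr F.z).cut hU hUi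
    have hsec2 : IsSec X (cut (U0 F w)ᶜ (tr F.z f)) :=
      (hf.tr F.z).cut hU.compl (growth_compl_linv hUi)
    have hb1 := growth_f1_bd X w f hf hs M hM
    have hb2 : Bd X (cut (U0 F w)ᶜ (tr F.z f)) (A1 * M) := (hA1' f M hM0 hM).cut _
    have h1 := ih _ hsec1 (fun x hx => cut_of_notMem hx) _ hb1
    have h2 := hA2' _ hsec2 (fun x hx => by
      by_cases hxU : x ∈ U0 F w
      · exact cut_of_notMem (by simpa using hxU)
      · rw [cut_of_mem (by simpa using hxU), tr_apply]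
        exact hs _ fun h => hx ⟨h, hxU⟩) _ hb2 m
    have hcm : 0 < c ^ m := pow_pos hc m
    refine Bd.add (h1.mono ?_) (h2.mono ?_)
    · rw [pow_succ]
      have : A3 * c ^ m * (cw X w * M) ≤ A3 * c ^ m * (c * M) := by
        refine mul_le_mul_of_nonneg_left ?_ (by positivity)
        exact mul_le_mul_of_nonneg_right hcw hM0
      refine this.trans (le_of_eq (by ring))
    · rw [pow_succ]
      have : (A1 * A2) * (c ^ m * M) ≤ (A3 * c) * (c ^ m * M) :=
        mul_le_mul_of_nonneg_right hA32 (by positivity)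
      calc A2 * c ^ m * (A1 * M) = (A1 * A2) * (c ^ m * M) := by ring
        _ ≤ (A3 * c) * (c ^ m * M) := this
        _ = A3 * (c ^ m * c) * M := by ring

/-- TARGET.
Induction on the number of elements of `Om` (for all `S`). If `Om` is empty then `S` is empty and `f = 0`.
Otherwise take `w ∈ Om` with `Om' = Om.erase w` open (`exists_erase`).
Step 1: `S1 = {x ∈ S | idx x = w}` is closed (it is `S` minus the open set `cell Om'`) and left invariant, so by
`absorb_cell` there is `m0` with `x (z^m0)⁻¹ ∈ U0 w` for `x ∈ S1`.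
Step 2: functions `f` supported in `U0 w`. The set `S3 = {x | x * z ∈ U0 w, x ∉ U0 w}` is closed, left invariant and
contained in `cell Om'`: it is contained in `cell Om` since `U0 w ⊆ cell Om` (`chart_subset`) and `idx` is right
invariant under `z`; and if `idx x = w`, `x z ∈ U0 w`, then `x z = b e_w y`, `y ∈ Q w ∩ Gam` (`U0_cell`), so `x = b' e_w (z y z⁻¹)`
is in `U0 w`. For `f` supported in `U0 w` put `f1 = cut (U0 w) (tr z f)`, `g1 = tr z f - f1`, which is supported in `S3`.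
If `Bd f M` then `Bd f1 (cw w * M)`: for `x = b e_w n y ∈ U0 w` one has `x z = b (e_w z e_w⁻¹) e_w (z⁻¹ n z) (z⁻¹ y z)`, with `z⁻¹ n z ∈ P w ∩ Gam`
(`shrink_N`), `z⁻¹ y z ∈ Q w`. If `z⁻¹ y z ∈ Gam` then `e_w (z⁻¹ n z)(z⁻¹ y z) ∈ K` so `‖f (x z)‖ ≤ ‖χ b‖ (cw w) M = (cw w) M (ht x)`; otherwise
`x z ∉ U0 w` by `chart_inj` and `f (x z) = 0`. Also `Bd g1 (A1 * M)` with `A1` the constant of `exists_tr_bd` for `z` (`g1` is the cut of
`tr z f` to the complement). Iterating, `f_0 = f`, `tr z f_j = f_{j+1} + g_{j+1}`, `Bd f_j (c^j M)`, `Bd g_{j+1} (A1 c^j M)`,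
and `tr (z^m) f = f_m + ∑_{j=1}^m tr (z^(m-j)) g_j`; by the induction hypothesis for `Om'` and `S3` (constant `A2`), each
term has the bound `A2 c^(m-j) A1 c^(j-1) M`, so everything is `≤ A3 c^m M` with `A3 = max 1 (A1 A2 / c)`. (Ultrametric inequality
`Bd.add`; an induction on `m` avoids the sum: prove for all `m` and all `f` supported in `U0 w` that `Bd (tr (z^m) f) (A3 c^m M)`,
using `tr (z^(m+1)) f = tr (z^m) f1 + tr (z^m) g1`.)
Step 3: general `f` supported in `S`: `tr (z^m0) f` is supported in `{x | x * z^m0 ∈ S}`; write it as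
`cut (U0 w)` of it plus the rest, the rest is supported in the closed left invariant set `{x | x * z^m0 ∈ S, x ∉ U0 w}`, which is
contained in `cell Om'` by Step 1. Apply Step 2 and the induction hypothesis, with the constant of `exists_tr_bd` for `z^m0`. For `m < m0` use the
constants of `exists_tr_bd` for `z^m`, `m < m0` (finitely many). -/
theorem growth (X : CharData F C) (Om : Finset W) (hOm : IsOpen (cell F Om)) (c : ℝ) (hc : 0 < c)
    (hcw : ∀ w ∈ Om, cw X w ≤ c) (S : Set G) (hS : IsClosed S) (hSi : LInv F S)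
    (hSO : S ⊆ cell F Om) :
    ∃ A : ℝ, 1 ≤ A ∧ ∀ f : G → C, IsSec X f → (∀ x ∉ S, f x = 0) → ∀ M : ℝ, Bd X f M →
      ∀ m : ℕ, Bd X (tr (F.z ^ m) f) (A * c ^ m * M) := by
  classical
  induction hcard : Om.card using Nat.strong_induction_on generalizing Om S with
  | _ N IHN =>
  rcases Om.eq_empty_or_nonempty with rfl | hne
  · refine ⟨1, le_rfl, ?_⟩
    intro f hf hs M hM m
    have hSe : ∀ x, x ∉ S := by
      intro x hx
      have := hSO hx
      rw [cell_empty] at this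
      exact this
    have hM0 : 0 ≤ M := hM.nonneg
    intro x
    rw [tr_apply, hs _ (hSe _), norm_zero]
    exact mul_nonneg (by positivity) (ht_pos X x).le
  · obtain ⟨w, hw, hOm'⟩ := exists_erase F Om hne hOm
    have IH : ∀ S : Set G, IsClosed S → LInv F S → S ⊆ cell F (Om.erase w) →
        ∃ A : ℝ, 1 ≤ A ∧ ∀ f : G → C, IsSec X f → (∀ x ∉ S, f x = 0) → ∀ M : ℝ, Bd X f M →
          ∀ m : ℕ, Bd X (tr (F.z ^ m) f) (A * c ^ m * M) := by
      intro S' hS' hSi' hSO'
      refine IHN (Om.erase w).card ?_ (Om.erase w) hOm' (fun w' hw' => hcw w' (Finset.mem_of_mem_erase hw'))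
        S' hS' hSi' hSO' rfl
      rw [← hcard]
      exact Finset.card_erase_lt_of_mem hw
    obtain ⟨A3, hA3, hA3'⟩ := growth_U0 X Om w hw hOm c hc (hcw w hw) IH
    have hU := U0_clopen F w
    have hUi := U0_linv F w
    have hS1c : IsClosed {x | x ∈ S ∧ x ∉ cell F (Om.erase w)} :=
      hS.inter hOm'.isClosed_compl
    have hS1i : LInv F {x | x ∈ S ∧ x ∉ cell F (Om.erase w)} := by
      rintro b hb x ⟨h1, h2⟩
      exact ⟨hSi b hb x h1, growth_compl_linv (cell_linv F _) b hb x h2⟩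
    have hS1w : ∀ x ∈ {x | x ∈ S ∧ x ∉ cell F (Om.erase w)}, F.idx x = w := by
      rintro x ⟨h1, h2⟩
      by_contra hne'
      exact h2 (Finset.mem_erase.2 ⟨hne', hSO h1⟩)
    obtain ⟨m0, hm0⟩ := absorb_cell w _ hS1c hS1i hS1w
    have hS4c : IsClosed {x | x * F.z ^ m0 ∈ S ∧ x ∉ U0 F w} :=
      (hS.preimage (continuous_mul_const (F.z ^ m0))).inter hU.2.isClosed_compl
    have hS4i : LInv F {x | x * F.z ^ m0 ∈ S ∧ x ∉ U0 F w} := by
      rintro b hb x ⟨h1, h2⟩
      refine ⟨?_, growth_compl_linv hUi b hb x h2⟩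
      rw [mul_assoc]
      exact hSi b hb _ h1
    have hS4s : {x | x * F.z ^ m0 ∈ S ∧ x ∉ U0 F w} ⊆ cell F (Om.erase w) := by
      rintro x ⟨h1, h2⟩
      have hi : F.idx (x * F.z ^ m0) = F.idx x := F.idx_right_Z _ (zpow_mem_Z F m0) x
      have h3 : x ∈ cell F Om := by
        have := hSO h1
        exact (cell_right_Z F Om x _ (zpow_mem_Z F m0)).1 this
      refine Finset.mem_erase.2 ⟨?_, h3⟩
      intro hidx
      apply h2
      have h4 := hm0 m0 le_rfl (x * F.z ^ m0) ⟨h1, fun h => by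
        have h5 := (Finset.mem_erase.1 h).1
        exact h5 (hi.trans hidx)⟩
      have h6 : x * F.z ^ m0 * (F.z ^ m0)⁻¹ = x := by group
      rwa [h6] at h4
    obtain ⟨A4, hA4, hA4'⟩ := IH _ hS4c hS4i hS4s
    have hB : ∀ m : ℕ, ∃ A, 0 < A ∧ ∀ (f : G → C) (M : ℝ), 0 ≤ M → Bd X f M →
        Bd X (tr (F.z ^ m) f) (A * M) := fun m => exists_tr_bd (X := X) (F.z ^ m)
    choose B hB0 hB' using hB
    have hsum0 : ∀ m ∈ Finset.range m0, 0 ≤ B m / c ^ m := fun m _ =>
      (div_pos (hB0 m) (pow_pos hc m)).le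
    have hmax0 : 0 ≤ max A3 A4 * B m0 / c ^ m0 := by
      have h1 := hB0 m0
      have h2 : 0 < max A3 A4 := lt_of_lt_of_le one_pos (hA3.trans (le_max_left _ _))
      positivity
    refine ⟨1 + max A3 A4 * B m0 / c ^ m0 + ∑ m ∈ Finset.range m0, B m / c ^ m, ?_, ?_⟩
    · have := Finset.sum_nonneg hsum0
      linarith
    intro f hf hs M hM m
    have hM0 : 0 ≤ M := hM.nonneg
    have hcm : 0 < c ^ m := pow_pos hc m
    by_cases hmm : m < m0
    · refine (hB' m f M hM0 hM).mono ?_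
      have h1 : B m / c ^ m ≤ ∑ m ∈ Finset.range m0, B m / c ^ m :=
        Finset.single_le_sum hsum0 (Finset.mem_range.2 hmm)
      have h2 : B m ≤ (1 + max A3 A4 * B m0 / c ^ m0 +
          ∑ m ∈ Finset.range m0, B m / c ^ m) * c ^ m := by
        rw [← div_le_iff₀ hcm]
        linarith
      exact mul_le_mul_of_nonneg_right h2 hM0
    · push Not at hmm
      obtain ⟨k, rfl⟩ := Nat.exists_eq_add_of_le' hmm
      have e : tr (F.z ^ (k + m0)) f = tr (F.z ^ k) (cut (U0 F w) (tr (F.z ^ m0) f)) +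
          tr (F.z ^ k) (cut (U0 F w)ᶜ (tr (F.z ^ m0) f)) := by
        rw [← growth_tr_add, growth_cut_add, tr_tr, pow_add]
      rw [e]
      have hb0 := hB' m0 f M hM0 hM
      have hsec0 := hf.tr (F.z ^ m0)
      have h1 := hA3' _ (hsec0.cut hU hUi) (fun x hx => cut_of_notMem hx) _ (hb0.cut _) k
      have h2 := hA4' _ (hsec0.cut hU.compl (growth_compl_linv hUi)) (fun x hx => by
        by_cases hxU : x ∈ U0 F w
        · exact cut_of_notMem (by simpa using hxU)
        · rw [cut_of_mem (by simpa using hxU), tr_apply]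
          exact hs _ fun h => hx ⟨h, hxU⟩) _ (hb0.cut _) k
      have key : ∀ A : ℝ, A ≤ max A3 A4 → A * c ^ k * (B m0 * M) ≤
          (1 + max A3 A4 * B m0 / c ^ m0 + ∑ m ∈ Finset.range m0, B m / c ^ m) *
            c ^ (k + m0) * M := by
        intro A hA
        have hck : 0 < c ^ k := pow_pos hc k
        have hcm0 : 0 < c ^ m0 := pow_pos hc m0
        have h3 : A * c ^ k * (B m0 * M) ≤ (max A3 A4 * B m0 / c ^ m0) * c ^ (k + m0) * M := by
          have h4 : (max A3 A4 * B m0 / c ^ m0) * c ^ (k + m0) * M =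
              max A3 A4 * (c ^ k * (B m0 * M)) := by
            rw [pow_add]
            field_simp
          rw [h4, mul_assoc]
          have := hB0 m0
          exact mul_le_mul_of_nonneg_right hA (by positivity)
        refine h3.trans ?_
        have h5 : max A3 A4 * B m0 / c ^ m0 ≤
            1 + max A3 A4 * B m0 / c ^ m0 + ∑ m ∈ Finset.range m0, B m / c ^ m := by
          have := Finset.sum_nonneg hsum0
          linarith
        exact mul_le_mul_of_nonneg_right (mul_le_mul_of_nonneg_right h5 (by positivity)) hM0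
      exact Bd.add (h1.mono (key A3 (le_max_left _ _))) (h2.mono (key A4 (le_max_right _ _)))
end Pool.Agent.Helper911
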