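import Mathlib
import Pool.Agent.Helper911_Abs.Cells
import Pool.Agent.Helper911_Abs.KA

set_option autoImplicit false
set_option linter.unusedSectionVars false
set_option maxHeartbeats 1000000

noncomputable section

open Topology Filter

namespace Pool.Agent.Helper911


variable {p : ℕ} {G : Type*} [Group G] [TopologicalSpace G] [IsTopologicalGroup G] [T2Space G]
  {W : Type*} [DecidableEq W] {F : Flag p G W} {C : Type*} [NormedField C] [IsUltrametricDist C]



/-! ======= TARGET ======= -/

theorem U0_sub_cell (F : Flag p G W) (Om : Finset W) (hOm : IsOpen (cell F Om)) (w : W) (hw : w ∈ Om) :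
    U0 F w ⊆ cell F Om := by
  rintro g ⟨b, hb, n, hn, y, hy, -, -, rfl⟩
  exact chart_subset F Om hOm w hw b n y hb (F.P_le w hn) (F.Q_le w hy)

theorem U0_z_back (F : Flag p G W) (w : W) (x : G) (hx : x * F.z ∈ U0 F w) (hw : F.idx x = w) :
    x ∈ U0 F w := by
  have h1 : F.idx (x * F.z) = w := by rw [F.idx_right_Z F.z F.z_mem, hw]
  obtain ⟨b, hb, y, hy, hyG, hxy⟩ := U0_cell F w _ hx h1
  have hzinv : F.z⁻¹ ∈ F.Z := F.Z.inv_mem F.z_mem
  refine ⟨b * (F.e w * F.z⁻¹ * (F.e w)⁻¹), F.B.mul_mem hb (F.Z_le (F.conj_Z w _ hzinv)), 1, (F.P w).one_mem,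
    F.z * y * F.z⁻¹, F.conj_Q w _ F.z_mem _ hy, F.Gam.one_mem, F.shrink_Nb y (F.Q_le w hy) hyG, ?_⟩
  have h2 : x = b * F.e w * y * F.z⁻¹ := by rw [← hxy]; group
  rw [h2]
  group

/-- strengthened version -/
theorem attractor_aux (F : Flag p G W) (k : ℕ) : ∀ (Om : Finset W), Om.card = k → IsOpen (cell F Om) →
    ∃ S : Set G, IsClosed S ∧ LInv F S ∧ S ⊆ cell F Om ∧ (∀ x ∈ S, x * F.z⁻¹ ∈ S) ∧
      ∀ S' : Set G, IsClosed S' → LInv F S' → S' ⊆ cell F Om →
        ∃ m0 : ℕ, ∀ m ≥ m0, ∀ x ∈ S', x * (F.z ^ m)⁻¹ ∈ S := by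
  induction k with
  | zero =>
    intro Om hcard hOm
    have hE : Om = ∅ := Finset.card_eq_zero.mp hcard
    subst hE
    refine ⟨∅, isClosed_empty, ?_, by simp, ?_, ?_⟩
    · intro b _ g hg
      exact hg.elim
    · intro x hx
      exact hx.elim
    · intro S' _ _ hS'
      refine ⟨0, fun m _ x hx => ?_⟩
      have := hS' hx
      rw [cell_empty] at this
      exact this.elim
  | succ k ih =>
    intro Om hcard hOm
    have hne : Om.Nonempty := by
      rw [← Finset.card_pos]; omega
    obtain ⟨w, hw, hOm'⟩ := exists_erase F Om hne hOm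
    have hc' : (Om.erase w).card = k := by
      rw [Finset.card_erase_of_mem hw]; omega
    obtain ⟨S1, hS1c, hS1i, hS1s, hS1z, hS1⟩ := ih (Om.erase w) hc' hOm'
    have hsub : cell F (Om.erase w) ⊆ cell F Om := by
      intro g hg
      exact Finset.mem_of_mem_erase hg
    have hcell' : ∀ x, x ∈ cell F Om → F.idx x ≠ w → x ∈ cell F (Om.erase w) := by
      intro x hx hne
      exact Finset.mem_erase.mpr ⟨hne, hx⟩
    have hU := U0_clopen F w
    have hUi := U0_linv F w
    have hUs := U0_sub_cell F Om hOm w hw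
    -- the set S3
    set S3 : Set G := {x | x * F.z ∈ U0 F w ∧ x ∉ U0 F w} with hS3def
    have hS3c : IsClosed S3 := by
      have h1 : IsClosed {x : G | x * F.z ∈ U0 F w} := hU.1.preimage (continuous_mul_const F.z)
      have h2 : IsClosed {x : G | x ∉ U0 F w} := hU.2.isClosed_compl
      exact h1.inter h2
    have hS3i : LInv F S3 := by
      intro b hb g hg
      refine ⟨?_, ?_⟩
      · have := hUi b hb _ hg.1
        rwa [← mul_assoc] at this
      · intro h
        exact hg.2 ((LInv.mem_iff hUi hb g).mp h)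
    have hS3s : S3 ⊆ cell F (Om.erase w) := by
      intro x hx
      apply hcell'
      · exact (cell_right_Z F Om x F.z F.z_mem).mp (hUs hx.1)
      · intro h
        exact hx.2 (U0_z_back F w x hx.1 h)
    obtain ⟨m3, hm3⟩ := hS1 S3 hS3c hS3i hS3s
    set S : Set G := U0 F w ∪ (⋃ j ∈ Finset.range m3, {x | x * F.z ^ j ∈ S3}) ∪ S1 with hSdef
    have hSz : ∀ x ∈ S, x * F.z⁻¹ ∈ S := by
      intro x hx
      rcases hx with (hx | hx) | hx
      · by_cases h : x * F.z⁻¹ ∈ U0 F w
        · exact Or.inl (Or.inl h)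
        · have h3 : x * F.z⁻¹ ∈ S3 := ⟨by rw [inv_mul_cancel_right]; exact hx, h⟩
          by_cases hm : m3 = 0
          · right
            have := hm3 0 (by omega) _ h3
            simpa using this
          · left; right
            simp only [Set.mem_iUnion, Finset.mem_range, Set.mem_setOf_eq]
            exact ⟨0, by omega, by simpa using h3⟩
      · simp only [Set.mem_iUnion, Finset.mem_range, Set.mem_setOf_eq] at hx
        obtain ⟨j, hj, hx⟩ := hx
        have h4 : x * F.z⁻¹ * F.z ^ (j + 1) = x * F.z ^ j := by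
          rw [pow_succ']; group
        by_cases hj' : j + 1 < m3
        · left; right
          simp only [Set.mem_iUnion, Finset.mem_range, Set.mem_setOf_eq]
          exact ⟨j + 1, hj', by rw [h4]; exact hx⟩
        · right
          have := hm3 (j + 1) (by omega) _ hx
          have h5 : x * F.z ^ j * (F.z ^ (j + 1))⁻¹ = x * F.z⁻¹ := by
            rw [← h4]; group
          rwa [h5] at this
      · right
        exact hS1z x hx
    have hSz' : ∀ (n : ℕ), ∀ x ∈ S, x * (F.z ^ n)⁻¹ ∈ S := by
      intro n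
      induction n with
      | zero => intro x hx; simpa using hx
      | succ n ihn =>
        intro x hx
        have := ihn _ (hSz x hx)
        have h6 : x * F.z⁻¹ * (F.z ^ n)⁻¹ = x * (F.z ^ (n + 1))⁻¹ := by
          rw [pow_succ]; group
        rwa [h6] at this
    refine ⟨S, ?_, ?_, ?_, hSz, ?_⟩
    · refine (hU.1.union ?_).union hS1c
      refine isClosed_biUnion_finset (fun j _ => ?_)
      exact hS3c.preimage (continuous_mul_const (F.z ^ j))
    · intro b hb g hg
      rcases hg with (hg | hg) | hg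
      · exact Or.inl (Or.inl (hUi b hb g hg))
      · left; right
        simp only [Set.mem_iUnion, Finset.mem_range, Set.mem_setOf_eq] at hg ⊢
        obtain ⟨j, hj, hg⟩ := hg
        refine ⟨j, hj, ?_⟩
        have := hS3i b hb _ hg
        rwa [← mul_assoc] at this
      · exact Or.inr (hS1i b hb g hg)
    · intro x hx
      rcases hx with (hx | hx) | hx
      · exact hUs hx
      · simp only [Set.mem_iUnion, Finset.mem_range, Set.mem_setOf_eq] at hx
        obtain ⟨j, hj, hx⟩ := hx
        exact (cell_right_Z F Om x (F.z ^ j) (F.Z.pow_mem F.z_mem j)).mp (hsub (hS3s hx))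
      · exact hsub (hS1s hx)
    · intro S' hS'c hS'i hS's
      have hDc : IsClosed (S' ∩ (cell F (Om.erase w))ᶜ) := hS'c.inter hOm'.isClosed_compl
      have hDi : LInv F (S' ∩ (cell F (Om.erase w))ᶜ) := by
        intro b hb g hg
        refine ⟨hS'i b hb g hg.1, fun h => hg.2 ?_⟩
        exact (LInv.mem_iff (cell_linv F (Om.erase w)) hb g).mp h
      have hDw : ∀ x ∈ S' ∩ (cell F (Om.erase w))ᶜ, F.idx x = w := by
        intro x hx
        by_contra h
        exact hx.2 (hcell' x (hS's hx.1) h)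
      obtain ⟨m0, hm0⟩ := absorb_cell w _ hDc hDi hDw
      have hS2c : IsClosed {x : G | x * F.z ^ m0 ∈ S' ∧ x ∉ U0 F w} := by
        have h1 : IsClosed {x : G | x * F.z ^ m0 ∈ S'} := hS'c.preimage (continuous_mul_const (F.z ^ m0))
        have h2 : IsClosed {x : G | x ∉ U0 F w} := hU.2.isClosed_compl
        exact h1.inter h2
      have hS2i : LInv F {x : G | x * F.z ^ m0 ∈ S' ∧ x ∉ U0 F w} := by
        intro b hb g hg
        refine ⟨?_, ?_⟩
        · have := hS'i b hb _ hg.1
          rwa [← mul_assoc] at this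
        · intro h
          exact hg.2 ((LInv.mem_iff hUi hb g).mp h)
      have hS2s : {x : G | x * F.z ^ m0 ∈ S' ∧ x ∉ U0 F w} ⊆ cell F (Om.erase w) := by
        intro x hx
        apply hcell'
        · exact (cell_right_Z F Om x (F.z ^ m0) (F.Z.pow_mem F.z_mem m0)).mp (hS's hx.1)
        · intro h
          apply hx.2
          have h7 : x * F.z ^ m0 ∈ S' ∩ (cell F (Om.erase w))ᶜ := by
            refine ⟨hx.1, fun h8 => ?_⟩
            have h9 : F.idx (x * F.z ^ m0) = w := by
              rw [F.idx_right_Z (F.z ^ m0) (F.Z.pow_mem F.z_mem m0), h]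
            have h10 : F.idx (x * F.z ^ m0) ∈ Om.erase w := h8
            rw [h9] at h10
            exact Finset.notMem_erase w Om h10
          have h11 := hm0 m0 le_rfl _ h7
          rwa [mul_inv_cancel_right] at h11
      obtain ⟨m1, hm1⟩ := hS1 _ hS2c hS2i hS2s
      refine ⟨m0 + m1, fun m hm x hx => ?_⟩
      have hsplit : x * (F.z ^ m)⁻¹ = x * (F.z ^ m0)⁻¹ * (F.z ^ (m - m0))⁻¹ := by
        have h12 : F.z ^ m = F.z ^ (m - m0) * F.z ^ m0 := by
          rw [← pow_add]; congr 1; omega
        rw [h12, mul_inv_rev, mul_assoc]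
      rw [hsplit]
      by_cases h : x * (F.z ^ m0)⁻¹ ∈ U0 F w
      · exact hSz' (m - m0) _ (Or.inl (Or.inl h))
      · right
        apply hm1 (m - m0) (by omega)
        exact ⟨by rw [inv_mul_cancel_right]; exact hx, h⟩

/-- TARGET. -/
theorem attractor (F : Flag p G W) (Om : Finset W) (hOm : IsOpen (cell F Om)) :
    ∃ S : Set G, IsClosed S ∧ LInv F S ∧ S ⊆ cell F Om ∧
      ∀ S' : Set G, IsClosed S' → LInv F S' → S' ⊆ cell F Om →
        ∃ m0 : ℕ, ∀ m ≥ m0, ∀ x ∈ S', x * (F.z ^ m)⁻¹ ∈ S := by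
  obtain ⟨S, h1, h2, h3, -, h4⟩ := attractor_aux F Om.card Om rfl hOm
  exact ⟨S, h1, h2, h3, h4⟩
end Pool.Agent.Helper911
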