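import Mathlib
import Pool.Agent.Helper911_Abs.Cells
import Pool.Agent.Helper911_Abs.KB

set_option autoImplicit false
set_option linter.unusedSectionVars false
set_option maxHeartbeats 1000000

noncomputable section

open Topology Filter

namespace Pool.Agent.Helper911


variable {p : ℕ} {G : Type*} [Group G] [TopologicalSpace G] [IsTopologicalGroup G] [T2Space G]
  {W : Type*} [DecidableEq W] {F : Flag p G W} {C : Type*} [NormedField C] [IsUltrametricDist C]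



/-! ======= TARGET ======= -/

/-- TARGET.
Proof: take `A` from `growth`. Given `f`, `u`, `y ∈ Nb`, choose `m` with `z^m y (z^m)⁻¹ ∈ Gam` (`F.absorb_Nb`). Then
`f (e_u z^m y) = f ((e_u z^m e_u⁻¹) (e_u y)) = χ(e_u z^m e_u⁻¹) f (e_u y)` with `‖χ(e_u z^m e_u⁻¹)‖ = (cw u)^m = c^m` (`chi_pow`), while
`f (e_u z^m y) = (tr (z^m) f) (e_u (z^m y (z^m)⁻¹))` and `e_u (z^m y (z^m)⁻¹) ∈ K`, so its norm is at most `A c^m M` by `growth` (`ht_K`). Divide by `c^m`. -/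
theorem topnorm (X : CharData F C) (Om : Finset W) (hOm : IsOpen (cell F Om)) (c : ℝ) (hc : 0 < c)
    (hcw : ∀ w ∈ Om, cw X w ≤ c) (S : Set G) (hS : IsClosed S) (hSi : LInv F S)
    (hSO : S ⊆ cell F Om) :
    ∃ A : ℝ, 1 ≤ A ∧ ∀ f : G → C, IsSec X f → (∀ x ∉ S, f x = 0) → ∀ M : ℝ, Bd X f M →
      ∀ u, cw X u = c → ∀ y ∈ F.Nb, ‖f (F.e u * y)‖ ≤ A * M := by
  obtain ⟨A, hA, hgr⟩ := growth X Om hOm c hc hcw S hS hSi hSO
  refine ⟨A, hA, fun f hf hf0 M hM u hu y hy => ?_⟩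
  obtain ⟨m, hm⟩ := F.absorb_Nb y hy
  have hb1 : F.e u * F.z * (F.e u)⁻¹ ∈ F.B := F.Z_le (F.conj_Z u F.z F.z_mem)
  have hb : F.e u * F.z ^ m * (F.e u)⁻¹ ∈ F.B := conj_e_pow F u m
  have h1 : ‖X.chi (F.e u * F.z ^ m * (F.e u)⁻¹)‖ = c ^ m := by
    rw [← conj_pow, X.chi_pow _ hb1 m, norm_pow, ← hu]
    rfl
  have hk : F.e u * (F.z ^ m * y * (F.z ^ m)⁻¹) ∈ F.K :=
    F.K.mul_mem (F.e_mem u) (F.Gam_le hm)
  have h2 := (hgr f hf hf0 M hM m).K _ hk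
  have h3 : F.e u * (F.z ^ m * y * (F.z ^ m)⁻¹) * F.z ^ m =
      F.e u * F.z ^ m * (F.e u)⁻¹ * (F.e u * y) := by group
  rw [tr_apply, h3, hf.norm_left _ _ hb, h1] at h2
  have hcm : 0 < c ^ m := pow_pos hc m
  have h4 : c ^ m * ‖f (F.e u * y)‖ ≤ c ^ m * (A * M) := by linarith
  exact le_of_mul_le_mul_left h4 hcm
end Pool.Agent.Helper911
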