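import Mathlib
import Pool.Agent.Helper911_Abs.Cells

set_option autoImplicit false
set_option linter.unusedSectionVars false
set_option maxHeartbeats 1000000

noncomputable section

open Topology Filter

namespace Pool.Agent.Helper911

variable {p : ℕ} {G : Type*} [Group G] [TopologicalSpace G] [IsTopologicalGroup G] [T2Space G]
  {W : Type*} [DecidableEq W] {F : Flag p G W} {C : Type*} [NormedField C] [IsUltrametricDist C]

namespace KE

theorem ex_coord (F : Flag p G W) (w : W) : ∃ nU yU : G → G, ∀ x ∈ U0 F w,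
    nU x ∈ F.P w ∧ yU x ∈ F.Q w ∧ nU x ∈ F.Gam ∧ yU x ∈ F.Gam ∧
      ∃ b ∈ F.B, x = b * F.e w * nU x * yU x := by
  classical
  have h : ∀ x : G, ∃ q : G × G, x ∈ U0 F w → q.1 ∈ F.P w ∧ q.2 ∈ F.Q w ∧ q.1 ∈ F.Gam ∧
      q.2 ∈ F.Gam ∧ ∃ b ∈ F.B, x = b * F.e w * q.1 * q.2 := by
    intro x
    by_cases hx : x ∈ U0 F w
    · obtain ⟨b, hb, n, hn, y, hy, h1, h2, h3⟩ := hx
      exact ⟨(n, y), fun _ => ⟨hn, hy, h1, h2, b, hb, h3⟩⟩
    · exact ⟨(1, 1), fun h => absurd h hx⟩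
  choose q hq using h
  exact ⟨fun x => (q x).1, fun x => (q x).2, fun x hx => hq x hx⟩

theorem coord_unique {w : W} {nU yU : G → G} (h : ∀ x ∈ U0 F w,
    nU x ∈ F.P w ∧ yU x ∈ F.Q w ∧ nU x ∈ F.Gam ∧ yU x ∈ F.Gam ∧
      ∃ b ∈ F.B, x = b * F.e w * nU x * yU x) {b n y : G} (hb : b ∈ F.B) (hn : n ∈ F.P w)
    (hy : y ∈ F.Q w) (h1 : n ∈ F.Gam) (h2 : y ∈ F.Gam) :
    nU (b * F.e w * n * y) = n ∧ yU (b * F.e w * n * y) = y := by
  have hx : b * F.e w * n * y ∈ U0 F w := ⟨b, hb, n, hn, y, hy, h1, h2, rfl⟩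
  obtain ⟨g1, g2, g3, g4, b', hb', g5⟩ := h _ hx
  have := F.chart_inj w (b⁻¹ * b') (mul_mem (inv_mem hb) hb') n hn y hy _ g1 _ g2 (by
    calc F.e w * n * y = b⁻¹ * (b * F.e w * n * y) := by group
      _ = b⁻¹ * (b' * F.e w * nU (b * F.e w * n * y) * yU (b * F.e w * n * y)) := by rw [← g5]
      _ = _ := by group)
  exact ⟨this.1.symm, this.2.symm⟩

theorem coord_cont {w : W} {nU yU : G → G} (h : ∀ x ∈ U0 F w,
    nU x ∈ F.P w ∧ yU x ∈ F.Q w ∧ nU x ∈ F.Gam ∧ yU x ∈ F.Gam ∧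
      ∃ b ∈ F.B, x = b * F.e w * nU x * yU x) {x : G} (hx : x ∈ U0 F w) :
    ContinuousAt nU x ∧ ContinuousAt yU x := by
  obtain ⟨g1, g2, g3, g4, b', hb', g5⟩ := h _ hx
  constructor
  · intro O hO
    obtain ⟨O', hO', hO'o, hO'm⟩ := mem_nhds_iff.1 hO
    have h1 := F.chart_open w (O' ∩ F.Gam) (F.Gam : Set G) (hO'o.inter F.Gam_open) F.Gam_open
    rw [Filter.mem_map]
    refine Filter.mem_of_superset (h1.mem_nhds ⟨b', hb', nU x, g1, yU x, g2, ⟨hO'm, g3⟩, g4, g5⟩) ?_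
    rintro x' ⟨b, hb, n, hn, y, hy, ⟨hn1, hn2⟩, hy2, rfl⟩
    show nU (b * F.e w * n * y) ∈ O
    rw [(coord_unique h hb hn hy hn2 hy2).1]
    exact hO' hn1
  · intro O hO
    obtain ⟨O', hO', hO'o, hO'm⟩ := mem_nhds_iff.1 hO
    have h1 := F.chart_open w (F.Gam : Set G) (O' ∩ F.Gam) F.Gam_open (hO'o.inter F.Gam_open)
    rw [Filter.mem_map]
    refine Filter.mem_of_superset (h1.mem_nhds ⟨b', hb', nU x, g1, yU x, g2, g3, ⟨hO'm, g4⟩, g5⟩) ?_
    rintro x' ⟨b, hb, n, hn, y, hy, hn2, ⟨hy1, hy2⟩, rfl⟩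
    show yU (b * F.e w * n * y) ∈ O
    rw [(coord_unique h hb hn hy hn2 hy2).2]
    exact hO' hy1

end KE

theorem exists_ext (X : CharData F C) (w : W) (f : G → C) (hf : IsSec X f)
    (h0 : ∀ x, F.idx x = w → x ∉ U0 F w → f x = 0) :
    ∃ E : G → C, IsSec X E ∧ (∀ x ∉ U0 F w, E x = 0) ∧ (∀ x, F.idx x = w → E x = f x) ∧
      ∀ M : ℝ, 0 ≤ M → (∀ y ∈ F.Q w, y ∈ F.Gam → ‖f (F.e w * y)‖ ≤ M) → Bd X E M := by
  classical
  obtain ⟨nU, yU, h⟩ := KE.ex_coord F w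
  let E0 : G → C := fun x => f (x * ((yU x)⁻¹ * (nU x)⁻¹ * yU x))
  let E : G → C := (U0 F w).indicator E0
  have hval : ∀ b n y : G, b ∈ F.B → n ∈ F.P w → y ∈ F.Q w → n ∈ F.Gam → y ∈ F.Gam →
      E (b * F.e w * n * y) = f (b * F.e w * y) := by
    intro b n y hb hn hy h1 h2
    have hx : b * F.e w * n * y ∈ U0 F w := ⟨b, hb, n, hn, y, hy, h1, h2, rfl⟩
    show (U0 F w).indicator E0 _ = _
    rw [Set.indicator_of_mem hx]
    show f (b * F.e w * n * y * ((yU (b * F.e w * n * y))⁻¹ * (nU (b * F.e w * n * y))⁻¹ *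
      yU (b * F.e w * n * y))) = _
    rw [(KE.coord_unique h hb hn hy h1 h2).1, (KE.coord_unique h hb hn hy h1 h2).2]
    congr 1
    group
  refine ⟨E, ⟨?_, ?_⟩, ?_, ?_, ?_⟩
  · rw [continuous_iff_continuousAt]
    intro x
    by_cases hx : x ∈ U0 F w
    · have h1 : E =ᶠ[𝓝 x] E0 := by
        filter_upwards [(U0_clopen F w).2.mem_nhds hx] with y hy
        exact Set.indicator_of_mem hy _
      refine ContinuousAt.congr ?_ h1.symm
      obtain ⟨hn, hy⟩ := KE.coord_cont h hx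
      exact hf.1.continuousAt.comp (continuousAt_id.mul ((hy.inv.mul hn.inv).mul hy))
    · have h1 : E =ᶠ[𝓝 x] fun _ => 0 := by
        filter_upwards [(U0_clopen F w).1.isOpen_compl.mem_nhds hx] with y hy
        exact Set.indicator_of_notMem hy _
      exact ContinuousAt.congr continuousAt_const h1.symm
  · intro b hb x
    by_cases hx : x ∈ U0 F w
    · obtain ⟨b', hb', n, hn, y, hy, h1, h2, rfl⟩ := hx
      have e1 : b * (b' * F.e w * n * y) = (b * b') * F.e w * n * y := by group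
      rw [e1, hval _ _ _ (mul_mem hb hb') hn hy h1 h2, hval _ _ _ hb' hn hy h1 h2]
      have e2 : b * b' * F.e w * y = b * (b' * F.e w * y) := by group
      rw [e2, hf.2 b hb]
    · have hx' : b * x ∉ U0 F w := fun hc => hx (((U0_linv F w).mem_iff hb x).1 hc)
      show (U0 F w).indicator E0 _ = _ * (U0 F w).indicator E0 _
      rw [Set.indicator_of_notMem hx, Set.indicator_of_notMem hx', mul_zero]
  · intro x hx
    exact Set.indicator_of_notMem hx _
  · intro x hx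
    by_cases hU : x ∈ U0 F w
    · obtain ⟨b, hb, y, hy, hyG, rfl⟩ := U0_cell F w x hU hx
      have := hval b 1 y hb (one_mem _) hy (one_mem _) hyG
      rwa [mul_one] at this
    · show (U0 F w).indicator E0 _ = _
      rw [Set.indicator_of_notMem hU, h0 x hx hU]
  · intro M hM hb x
    by_cases hU : x ∈ U0 F w
    · obtain ⟨b, hb', n, hn, y, hy, h1, h2, rfl⟩ := hU
      rw [hval b n y hb' hn hy h1 h2]
      have e1 : b * F.e w * y = b * (F.e w * y) := by group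
      have e2 : b * F.e w * n * y = b * (F.e w * n * y) := by group
      rw [e1, hf.norm_left b _ hb', e2, ht_eq X b _ hb'
        (mul_mem (mul_mem (F.e_mem w) (F.Gam_le h1)) (F.Gam_le h2)), mul_comm]
      exact mul_le_mul_of_nonneg_right (hb y hy h2) (norm_nonneg _)
    · show ‖(U0 F w).indicator E0 x‖ ≤ _
      rw [Set.indicator_of_notMem hU, norm_zero]
      exact mul_nonneg hM (ht_pos X x).le

end Pool.Agent.Helper911
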