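import Mathlib
import Pool.Agent.Helper911_Abs.Cells
import Pool.Agent.Helper911_Abs.KA
import Pool.Agent.Helper911_Abs.KB
import Pool.Agent.Helper911_Abs.KD
import Pool.Agent.Helper911_Abs.KE

set_option autoImplicit false
set_option linter.unusedSectionVars false
set_option maxHeartbeats 1000000

noncomputable section

open Topology Filter

namespace Pool.Agent.Helper911


variable {p : ℕ} {G : Type*} [Group G] [TopologicalSpace G] [IsTopologicalGroup G] [T2Space G]
  {W : Type*} [DecidableEq W] {F : Flag p G W} {C : Type*} [NormedField C] [IsUltrametricDist C]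



/-! ======= auxiliary lemmas for the target ======= -/

theorem decay_conj (X : CharData F C) {f : G → C} (hf : IsSec X f) (u : W) (m : ℕ) (y : G) :
    ‖f (F.e u * y * F.z ^ m)‖ = cw X u ^ m * ‖f (F.e u * ((F.z ^ m)⁻¹ * y * F.z ^ m))‖ := by
  have e1 : F.e u * y * F.z ^ m =
      (F.e u * F.z ^ m * (F.e u)⁻¹) * (F.e u * ((F.z ^ m)⁻¹ * y * F.z ^ m)) := by group
  have hb : F.e u * F.z * (F.e u)⁻¹ ∈ F.B := F.Z_le (F.conj_Z u _ F.z_mem)
  have e2 : F.e u * F.z ^ m * (F.e u)⁻¹ = (F.e u * F.z * (F.e u)⁻¹) ^ m := by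
    rw [conj_pow]
  rw [e1, hf.norm_left _ _ (conj_e_pow F u m), e2, X.chi_pow _ hb, norm_pow]
  rfl

theorem decay_idx_z (x : G) (m : ℕ) : F.idx (x * F.z ^ m) = F.idx x :=
  F.idx_right_Z _ (zpow_mem_Z F m) x

theorem decay_idx_zi (x : G) (m : ℕ) : F.idx (x * (F.z ^ m)⁻¹) = F.idx x :=
  F.idx_right_Z _ (F.Z.inv_mem (zpow_mem_Z F m)) x

/-- bound of a section on `e_w Q_w`, if it is supported in a set which is absorbed by the chart -/
theorem decay_bound (X : CharData F C) {f : G → C} (hf : IsSec X f) (w : W) (S : Set G)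
    (hfS : ∀ x ∉ S, f x = 0) (m1 : ℕ)
    (hm1 : ∀ x ∈ S, F.idx x = w → x * (F.z ^ m1)⁻¹ ∈ U0 F w) :
    ∃ B1 : ℝ, 0 ≤ B1 ∧ ∀ y ∈ F.Q w, ‖f (F.e w * y)‖ ≤ B1 := by
  have hcomp : IsCompact ((fun y2 : G => F.e w * ((F.z ^ m1)⁻¹ * y2 * F.z ^ m1)) ''
      {y : G | y ∈ F.Q w ∧ y ∈ F.Gam}) := by
    apply (QG_compact F w).image
    fun_prop
  obtain ⟨B0, hB0⟩ := hcomp.exists_bound_of_continuousOn (hf.1.continuousOn)
  refine ⟨max B0 0, le_max_right _ _, ?_⟩
  intro y hy
  by_cases h0 : f (F.e w * y) = 0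
  · rw [h0, norm_zero]; exact le_max_right _ _
  · have hS : F.e w * y ∈ S := by
      by_contra h
      exact h0 (hfS _ h)
    have hidx : F.idx (F.e w * y) = w := by
      rw [F.idx_right_Nb y (F.Q_le w hy), F.idx_e]
    have hU := hm1 _ hS hidx
    obtain ⟨b, hb, y1, hy1, hy1G, he⟩ := U0_cell F w _ hU (by rw [decay_idx_zi, hidx])
    have hy2 : F.z ^ m1 * y * (F.z ^ m1)⁻¹ ∈ F.Q w := F.conj_Q w _ (zpow_mem_Z F m1) _ hy
    have hb2 : F.e w * (F.z ^ m1)⁻¹ * (F.e w)⁻¹ ∈ F.B :=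
      F.Z_le (F.conj_Z w _ (F.Z.inv_mem (zpow_mem_Z F m1)))
    have e1 : F.e w * y * (F.z ^ m1)⁻¹ =
        (F.e w * (F.z ^ m1)⁻¹ * (F.e w)⁻¹) * F.e w * (F.z ^ m1 * y * (F.z ^ m1)⁻¹) := by group
    have e2 : F.e w * 1 * y1 = (b⁻¹ * (F.e w * (F.z ^ m1)⁻¹ * (F.e w)⁻¹)) * F.e w * 1 *
        (F.z ^ m1 * y * (F.z ^ m1)⁻¹) := by
      have : b * F.e w * y1 = (F.e w * (F.z ^ m1)⁻¹ * (F.e w)⁻¹) * F.e w *
          (F.z ^ m1 * y * (F.z ^ m1)⁻¹) := by rw [← he, e1]
      calc F.e w * 1 * y1 = b⁻¹ * (b * F.e w * y1) := by group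
        _ = b⁻¹ * ((F.e w * (F.z ^ m1)⁻¹ * (F.e w)⁻¹) * F.e w *
          (F.z ^ m1 * y * (F.z ^ m1)⁻¹)) := by rw [this]
        _ = _ := by group
    have e3 := (F.chart_inj w _ (F.B.mul_mem (F.B.inv_mem hb) hb2) 1 (F.P w).one_mem y1 hy1 1
      (F.P w).one_mem _ hy2 e2).2
    refine (hB0 (F.e w * y) ⟨y1, ⟨hy1, hy1G⟩, ?_⟩).trans (le_max_left _ _)
    show F.e w * ((F.z ^ m1)⁻¹ * y1 * F.z ^ m1) = F.e w * y
    rw [e3]
    group

theorem decay_choose {q c M B1 : ℝ} (hq : 0 ≤ q) (hc : 0 < c) (hM : 0 < M) (hqc : q < c)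
    (hB : 0 ≤ B1) (m1 : ℕ) :
    ∃ m2 ≥ m1, q ^ m2 * B1 ≤ c ^ m2 * M := by
  have h1 : Tendsto (fun m : ℕ => (q / c) ^ m * B1) atTop (𝓝 (0 * B1)) :=
    (tendsto_pow_atTop_nhds_zero_of_lt_one (div_nonneg hq hc.le)
      ((div_lt_one hc).2 hqc)).mul_const _
  rw [zero_mul] at h1
  obtain ⟨m2, hm2⟩ := ((h1.eventually (gt_mem_nhds hM)).and (eventually_ge_atTop m1)).exists
  refine ⟨m2, hm2.2, ?_⟩
  have h2 := hm2.1
  have hcm : 0 < c ^ m2 := pow_pos hc _
  rw [div_pow, div_mul_eq_mul_div, div_lt_iff₀ hcm] at h2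
  linarith

/-! ======= TARGET ======= -/

/-- TARGET.
Induction on the number of elements of `Om`. If `Om` is empty then `Ph` is empty, take `A = 1`. Otherwise take
`w ∈ Om` with `Om' = Om.erase w` open (`exists_erase`), let `A'` be the constant for `Om'`, let `A1` be a common constant
(`≥ 1`) of `growth` and `topnorm` for `Om` and `S := U0 w` (which is in `cell Om` by `chart_subset`, closed by `U0_clopen`). Put `A = max A1 (A' * A1)`
(so `A ≥ 1`).
Case `w ∉ Ph`. Then `Ph ⊆ Om'`, `Om' \ Ph` is open (`cell (Om' \ Ph)` is the intersection of `cell (Om \ Ph)` and `cell Om'`). The set `S1 = S ∩ cell Ph` is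
closed (`S` minus `cell (Om \ Ph)`), left invariant and contained in `cell Om'`. By `exists_clopen` there is a clopen
left invariant `T` with `S1 ⊆ T ⊆ cell Om'`. Apply the induction hypothesis to `cut T f` (supported in `T`), with the same `M`: for `x` with
`idx x ∈ Ph` also `idx (x z^m) ∈ Ph` and `cut T f (x z^m) = f (x z^m)` (either `x z^m ∈ S1 ⊆ T`, or `x z^m ∉ S` and both vanish); the hypothesis on
top norms is inherited by `norm_cut_le`.
Case `w ∈ Ph`. The set `{x ∈ S | idx x = w}` is closed and left invariant, so by `absorb_cell` there is `m1` with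
`x (z^m)⁻¹ ∈ U0 w` for all such `x` and `m ≥ m1`. Let `B1` be a bound of `‖f (e_w y)‖` for `y ∈ Q w` (it exists: if `f (e_w y) ≠ 0` then
`e_w y ∈ S`, so `e_w y (z^m1)⁻¹ ∈ U0 w`, and by `U0_cell`, `chart_inj` `y` is in the compact set `(z^m1)⁻¹ (Q w ∩ Gam) z^m1`).
Choose `m2 ≥ m1` such that, if `cw w < c`, `(cw w)^m2 * B1 ≤ c^m2 * M`. Put `f' = tr (z^m2) f`, a section supported in
`S' = {x | x * z^m2 ∈ S}`, contained in `cell Om`. For `y ∈ Q w`: `f' (e_w y) = χ(e_w z^m2 e_w⁻¹) f (e_w ((z^m2)⁻¹ y z^m2))`, so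
`‖f' (e_w y)‖ ≤ c^m2 M` (if `cw w = c` by the hypothesis for `u = w`, if `cw w < c` by the choice of `m2`). If `idx x = w` and `x ∉ U0 w` then
`f' x = 0` (else `x z^m2 ∈ S` has index `w`, so `x ∈ U0 w`). Let `E` be the extension of `f'` given by `exists_ext`: `Bd E (c^m2 M)`, `E = f'` on
the cell of `w`. Put `h = f' - E`, supported in `S'' = S' ∪ U0 w`, closed, left invariant, in `cell Om`; let `A2` be the constant of `growth`
for `S''`, `η = c^m2 M / A2 > 0` and `D = {x | η * ht x < ‖h x‖}`, clopen left invariant (`level_clopen`, `level_linv`), contained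
in `S''`, and disjoint from the cell of `w` since `h` vanishes there; so `D ⊆ cell Om'`.
`h = cut D h + h2`, `h2 = h - cut D h` (the cut to the complement), `Bd h2 η`, so `Bd (tr (z^m) h2) (A2 c^m η) = Bd .. (c^(m2+m) M)`.
`cut D h` is supported in `D`, and for `u ∈ Ph.erase w` with `cw u = c`, `y ∈ Nb`:
`‖cut D h (e_u y)‖ ≤ ‖h (e_u y)‖ ≤ max ‖f' (e_u y)‖ ‖E (e_u y)‖ ≤ A1 c^m2 M` (for `f'`: `f' (e_u y) = χ(e_u z^m2 e_u⁻¹) f (e_u (z^m2)⁻¹ y z^m2)`, of norm `≤ c^m2 M`;
for `E`: `topnorm` for `U0 w`). The induction hypothesis (for `Om'`, `Ph.erase w`; note `Om' \ Ph.erase w = Om \ Ph`) with `A1 c^m2 M` in place of `M` gives for large `m`, `idx x ∈ Ph.erase w`: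
`‖cut D h (x z^m)‖ ≤ A' A1 c^m2 M c^m ht x`; for `idx x = w` it is `0`. And `Bd (tr (z^m) E) (A1 c^m c^m2 M)`. Adding up,
`‖f (x z^(m2+m))‖ = ‖f' (x z^m)‖`... (`tr (z^m) f' = tr (z^(m+m2)) f`) is at most `A M c^(m2+m) ht x`. -/
theorem decay (X : CharData F C) (Om : Finset W) (hOm : IsOpen (cell F Om)) (c : ℝ) (hc : 0 < c)
    (hcw : ∀ w ∈ Om, cw X w ≤ c) :
    ∃ A : ℝ, 1 ≤ A ∧ ∀ Ph : Finset W, Ph ⊆ Om → IsOpen (cell F (Om \ Ph)) →
      ∀ S : Set G, IsClosed S → LInv F S → S ⊆ cell F Om →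
      ∀ f : G → C, IsSec X f → (∀ x ∉ S, f x = 0) → ∀ M : ℝ, 0 < M →
      (∀ u ∈ Ph, cw X u = c → ∀ y ∈ F.Nb, ‖f (F.e u * y)‖ ≤ M) →
      ∃ m0 : ℕ, ∀ m ≥ m0, ∀ x, F.idx x ∈ Ph → ‖f (x * F.z ^ m)‖ ≤ A * M * c ^ m * ht X x := by
  classical
  induction hn : Om.card using Nat.strong_induction_on generalizing Om with
  | _ n ih =>
  rcases Om.eq_empty_or_nonempty with hE | hne
  · refine ⟨1, le_rfl, ?_⟩
    intro Ph hPh
    have : Ph = ∅ := by
      rw [hE] at hPh
      exact Finset.subset_empty.1 hPh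
    subst this
    intro _ S _ _ _ f _ _ M _ _
    exact ⟨0, fun m _ x hx => absurd hx (Finset.notMem_empty _)⟩
  obtain ⟨w, hw, hOm'⟩ := exists_erase F Om hne hOm
  have hcard : (Om.erase w).card < n := by
    rw [← hn]; exact Finset.card_erase_lt_of_mem hw
  have hcw' : ∀ u ∈ Om.erase w, cw X u ≤ c := fun u hu => hcw u (Finset.mem_of_mem_erase hu)
  obtain ⟨A', hA', IH⟩ := ih _ hcard (Om.erase w) hOm' hcw' rfl
  have hU0Om : U0 F w ⊆ cell F Om := by
    rintro g ⟨b, hb, n', hn', y, hy, -, -, rfl⟩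
    exact chart_subset F Om hOm w hw b n' y hb (F.P_le w hn') (F.Q_le w hy)
  obtain ⟨Ag, hAg, Hg⟩ := growth X Om hOm c hc hcw (U0 F w) (U0_clopen F w).1 (U0_linv F w) hU0Om
  obtain ⟨At, hAt, Ht⟩ := topnorm X Om hOm c hc hcw (U0 F w) (U0_clopen F w).1 (U0_linv F w) hU0Om
  set A1 : ℝ := max Ag At with hA1def
  have hA1g : Ag ≤ A1 := le_max_left _ _
  have hA1t : At ≤ A1 := le_max_right _ _
  have hA1 : 1 ≤ A1 := hAg.trans hA1g
  have hA10 : 0 < A1 := by linarith
  have hA'0 : 0 < A' := by linarith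
  refine ⟨max A1 (A' * A1), hA1.trans (le_max_left _ _), ?_⟩
  have hAA1 : A1 ≤ max A1 (A' * A1) := le_max_left _ _
  have hAA2 : A' * A1 ≤ max A1 (A' * A1) := le_max_right _ _
  set A : ℝ := max A1 (A' * A1) with hAdef
  intro Ph hPh hOpen S hS hSi hSO f hf hfS M hM hTop
  by_cases hwPh : w ∈ Ph
  swap
  · -- the case `w ∉ Ph`
    have hPh' : Ph ⊆ Om.erase w := by
      intro u hu
      refine Finset.mem_erase.2 ⟨?_, hPh hu⟩
      rintro rfl
      exact hwPh hu
    have hOpen' : IsOpen (cell F (Om.erase w \ Ph)) := by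
      have : cell F (Om.erase w \ Ph) = cell F (Om \ Ph) ∩ cell F (Om.erase w) := by
        ext g
        simp only [cell, Set.mem_setOf_eq, Set.mem_inter_iff, Finset.mem_sdiff, Finset.mem_erase]
        tauto
      rw [this]
      exact hOpen.inter hOm'
    have hS1e : S ∩ cell F Ph = S ∩ (cell F (Om \ Ph))ᶜ := by
      ext g
      simp only [cell, Set.mem_setOf_eq, Set.mem_inter_iff, Finset.mem_sdiff, Set.mem_compl_iff,
        not_and, not_not]
      constructor
      · rintro ⟨h1, h2⟩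
        exact ⟨h1, fun _ => h2⟩
      · rintro ⟨h1, h2⟩
        exact ⟨h1, h2 (hSO h1)⟩
    have hS1 : IsClosed (S ∩ cell F Ph) := by
      rw [hS1e]; exact hS.inter hOpen.isClosed_compl
    have hS1i : LInv F (S ∩ cell F Ph) := fun b hb g hg =>
      ⟨hSi b hb g hg.1, cell_linv F Ph b hb g hg.2⟩
    have hS1O : S ∩ cell F Ph ⊆ cell F (Om.erase w) := fun g hg => hPh' hg.2
    obtain ⟨T, hT, hTi, hST, hTO⟩ := exists_clopen F hS1 hS1i hOm' (cell_linv F _) hS1O
    obtain ⟨m0, hm0⟩ := IH Ph hPh' hOpen' T hT.1 hTi hTO (cut T f) (hf.cut hT hTi)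
      (fun x hx => cut_of_notMem hx) M hM
      (fun u hu hcu y hy => (norm_cut_le T f _).trans (hTop u hu hcu y hy))
    refine ⟨m0, fun m hm x hx => ?_⟩
    have h1 := hm0 m hm x hx
    have h2 : cut T f (x * F.z ^ m) = f (x * F.z ^ m) := by
      by_cases hxT : x * F.z ^ m ∈ T
      · exact cut_of_mem hxT
      · rw [cut_of_notMem hxT]
        symm
        apply hfS
        intro hxS
        apply hxT
        apply hST
        refine ⟨hxS, ?_⟩
        show F.idx (x * F.z ^ m) ∈ Ph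
        rw [decay_idx_z]; exact hx
    rw [h2] at h1
    refine h1.trans ?_
    have hht := ht_pos X x
    have hcm : 0 < c ^ m := pow_pos hc _
    have h3 : A' ≤ A := by
      refine le_trans ?_ hAA2
      nlinarith
    have : A' * M * c ^ m * ht X x = A' * (M * c ^ m * ht X x) := by ring
    rw [this]
    have : A * M * c ^ m * ht X x = A * (M * c ^ m * ht X x) := by ring
    rw [this]
    exact mul_le_mul_of_nonneg_right h3 (by positivity)
  · -- the case `w ∈ Ph`
    have hD0e : {x | x ∈ S ∧ F.idx x = w} = S ∩ (cell F (Om.erase w))ᶜ := by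
      ext g
      simp only [cell, Set.mem_setOf_eq, Set.mem_inter_iff, Finset.mem_erase, Set.mem_compl_iff,
        not_and]
      constructor
      · rintro ⟨h1, h2⟩
        exact ⟨h1, fun h => absurd h2 h⟩
      · rintro ⟨h1, h2⟩
        refine ⟨h1, ?_⟩
        by_contra h3
        exact h2 h3 (hSO h1)
    have hD0 : IsClosed {x | x ∈ S ∧ F.idx x = w} := by
      rw [hD0e]; exact hS.inter hOm'.isClosed_compl
    have hD0i : LInv F {x | x ∈ S ∧ F.idx x = w} := fun b hb g hg =>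
      ⟨hSi b hb g hg.1, by rw [F.idx_left b hb]; exact hg.2⟩
    obtain ⟨m1, hm1⟩ := absorb_cell w _ hD0 hD0i (fun x hx => hx.2)
    obtain ⟨B1, hB10, hB1⟩ := decay_bound X hf w S hfS m1
      (fun x hx hxw => hm1 m1 le_rfl x ⟨hx, hxw⟩)
    have hcw0 : 0 ≤ cw X w := norm_nonneg _
    obtain ⟨m2, hm2, hm2'⟩ : ∃ m2 ≥ m1, ∀ y ∈ F.Q w,
        ‖f (F.e w * y * F.z ^ m2)‖ ≤ c ^ m2 * M := by
      rcases (hcw w hw).lt_or_eq with hlt | heq
      · obtain ⟨m2, hm2, h⟩ := decay_choose hcw0 hc hM hlt hB10 m1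
        refine ⟨m2, hm2, fun y hy => ?_⟩
        rw [decay_conj X hf]
        refine le_trans ?_ h
        exact mul_le_mul_of_nonneg_left (hB1 _ (by
          have := F.conj_Q w _ (F.Z.inv_mem (zpow_mem_Z F m2)) y hy
          rwa [inv_inv] at this)) (pow_nonneg hcw0 _)
      · refine ⟨m1, le_rfl, fun y hy => ?_⟩
        rw [decay_conj X hf, heq]
        refine mul_le_mul_of_nonneg_left (hTop w hwPh heq _ ?_) (pow_nonneg hc.le _)
        have := F.conj_Nb _ (F.Z.inv_mem (zpow_mem_Z F m1)) y (F.Q_le w hy)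
        rwa [inv_inv] at this
    have hf' : IsSec X (tr (F.z ^ m2) f) := hf.tr _
    have hS'c : IsClosed {x | x * F.z ^ m2 ∈ S} :=
      hS.preimage (continuous_mul_right (F.z ^ m2))
    have hS'i : LInv F {x | x * F.z ^ m2 ∈ S} := by
      intro b hb g hg
      show b * g * F.z ^ m2 ∈ S
      rw [mul_assoc]
      exact hSi b hb _ hg
    have hS'O : {x | x * F.z ^ m2 ∈ S} ⊆ cell F Om := by
      intro g hg
      have := hSO hg
      show F.idx g ∈ Om
      rw [← decay_idx_z g m2]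
      exact this
    have hf'0 : ∀ x, F.idx x = w → x ∉ U0 F w → tr (F.z ^ m2) f x = 0 := by
      intro x hx hxU
      by_contra h
      apply hxU
      have hxS : x * F.z ^ m2 ∈ S := by
        by_contra h'
        exact h (hfS _ h')
      have := hm1 m2 hm2 (x * F.z ^ m2) ⟨hxS, by rw [decay_idx_z]; exact hx⟩
      rwa [mul_inv_cancel_right] at this
    obtain ⟨E, hEsec, hE0, hEw, hEb⟩ := exists_ext X w (tr (F.z ^ m2) f) hf' hf'0
    have hcm2 : 0 < c ^ m2 := pow_pos hc _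
    have hM2 : 0 < c ^ m2 * M := mul_pos hcm2 hM
    have hEbd : Bd X E (c ^ m2 * M) := hEb _ hM2.le (fun y hy _ => hm2' y hy)
    have hS''c : IsClosed ({x | x * F.z ^ m2 ∈ S} ∪ U0 F w) := hS'c.union (U0_clopen F w).1
    have hS''i : LInv F ({x | x * F.z ^ m2 ∈ S} ∪ U0 F w) := by
      rintro b hb g (hg | hg)
      · exact Or.inl (hS'i b hb g hg)
      · exact Or.inr (U0_linv F w b hb g hg)
    have hS''O : ({x | x * F.z ^ m2 ∈ S} ∪ U0 F w) ⊆ cell F Om := by
      rintro g (hg | hg)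
      · exact hS'O hg
      · exact hU0Om hg
    set h : G → C := tr (F.z ^ m2) f - E with hhdef
    have hh : IsSec X h := hf'.sub hEsec
    have hh0 : ∀ x ∉ ({x | x * F.z ^ m2 ∈ S} ∪ U0 F w), h x = 0 := by
      intro x hx
      have hx1 : x * F.z ^ m2 ∉ S := fun h' => hx (Or.inl h')
      have hx2 : x ∉ U0 F w := fun h' => hx (Or.inr h')
      show f (x * F.z ^ m2) - E x = 0
      rw [hfS _ hx1, hE0 x hx2, sub_zero]
    have hhw : ∀ x, F.idx x = w → h x = 0 := by
      intro x hx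
      show tr (F.z ^ m2) f x - E x = 0
      rw [hEw x hx, sub_self]
    obtain ⟨A2, hA2, H2⟩ := growth X Om hOm c hc hcw _ hS''c hS''i hS''O
    have hA20 : 0 < A2 := by linarith
    set η : ℝ := c ^ m2 * M / A2 with hηdef
    have hη : 0 < η := div_pos hM2 hA20
    have hDcl : IsClopen {x | η * ht X x < ‖h x‖} := level_clopen hh hη
    have hDi : LInv F {x | η * ht X x < ‖h x‖} := level_linv hh
    have hDne : ∀ x ∈ {x | η * ht X x < ‖h x‖}, h x ≠ 0 := by
      intro x hx h0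
      have hx' : η * ht X x < ‖h x‖ := hx
      rw [h0, norm_zero] at hx'
      exact absurd hx' (not_lt.2 (mul_pos hη (ht_pos X x)).le)
    have hDO : {x | η * ht X x < ‖h x‖} ⊆ cell F (Om.erase w) := by
      intro x hx
      have h1 := hDne x hx
      have h2 : x ∈ ({x | x * F.z ^ m2 ∈ S} ∪ U0 F w) := by
        by_contra h'
        exact h1 (hh0 x h')
      refine Finset.mem_erase.2 ⟨?_, hS''O h2⟩
      intro h3
      exact h1 (hhw x h3)
    set D : Set G := {x | η * ht X x < ‖h x‖} with hDdef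
    have hcutsec : IsSec X (cut D h) := hh.cut hDcl hDi
    have hh2sec : IsSec X (h - cut D h) := hh.sub hcutsec
    have hh2bd : Bd X (h - cut D h) η := by
      intro x
      show ‖h x - cut D h x‖ ≤ η * ht X x
      by_cases hx : x ∈ D
      · rw [cut_of_mem hx, sub_self, norm_zero]
        exact (mul_pos hη (ht_pos X x)).le
      · rw [cut_of_notMem hx, sub_zero]
        exact not_lt.1 hx
    have hh20 : ∀ x ∉ ({x | x * F.z ^ m2 ∈ S} ∪ U0 F w), (h - cut D h) x = 0 := by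
      intro x hx
      show h x - cut D h x = 0
      have h1 := hh0 x hx
      have h2 : cut D h x = 0 := by
        by_cases hxD : x ∈ D
        · rw [cut_of_mem hxD, h1]
        · exact cut_of_notMem hxD
      rw [h1, h2, sub_zero]
    have hPh' : Ph.erase w ⊆ Om.erase w := Finset.erase_subset_erase w hPh
    have hOpen' : IsOpen (cell F (Om.erase w \ Ph.erase w)) := by
      have : Om.erase w \ Ph.erase w = Om \ Ph := by
        ext u
        simp only [Finset.mem_sdiff, Finset.mem_erase]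
        constructor
        · rintro ⟨⟨h1, h2⟩, h3⟩
          exact ⟨h2, fun h4 => h3 ⟨h1, h4⟩⟩
        · rintro ⟨h1, h2⟩
          refine ⟨⟨?_, h1⟩, fun h3 => h2 h3.2⟩
          rintro rfl
          exact h2 hwPh
      rw [this]; exact hOpen
    have hMM : 0 < A1 * (c ^ m2 * M) := mul_pos hA10 hM2
    have htopcut : ∀ u ∈ Ph.erase w, cw X u = c → ∀ y ∈ F.Nb,
        ‖cut D h (F.e u * y)‖ ≤ A1 * (c ^ m2 * M) := by
      intro u hu hcu y hy
      refine (norm_cut_le D h _).trans ?_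
      show ‖f (F.e u * y * F.z ^ m2) - E (F.e u * y)‖ ≤ _
      rw [sub_eq_add_neg]
      refine (IsUltrametricDist.norm_add_le_max _ _).trans (max_le ?_ ?_)
      · rw [decay_conj X hf, hcu]
        have h1 : ‖f (F.e u * ((F.z ^ m2)⁻¹ * y * F.z ^ m2))‖ ≤ M := by
          refine hTop u (Finset.mem_of_mem_erase hu) hcu _ ?_
          have := F.conj_Nb _ (F.Z.inv_mem (zpow_mem_Z F m2)) y hy
          rwa [inv_inv] at this
        have h2 : c ^ m2 * ‖f (F.e u * ((F.z ^ m2)⁻¹ * y * F.z ^ m2))‖ ≤ c ^ m2 * M :=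
          mul_le_mul_of_nonneg_left h1 hcm2.le
        nlinarith
      · rw [norm_neg]
        have h1 := Ht E hEsec hE0 _ hEbd u hcu y hy
        exact h1.trans (mul_le_mul_of_nonneg_right hA1t hM2.le)
    obtain ⟨m3, hm3⟩ := IH (Ph.erase w) hPh' hOpen' D hDcl.1 hDi hDO (cut D h) hcutsec
      (fun x hx => cut_of_notMem hx) (A1 * (c ^ m2 * M)) hMM htopcut
    refine ⟨m3 + m2, fun m hm x hx => ?_⟩
    obtain ⟨k, hk, rfl⟩ : ∃ k, m3 ≤ k ∧ m = k + m2 := ⟨m - m2, by omega, by omega⟩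
    have hht := ht_pos X x
    have hck : 0 < c ^ k := pow_pos hc _
    have hAM : A * M * c ^ (k + m2) * ht X x = A * (c ^ k * (c ^ m2 * M) * ht X x) := by
      rw [pow_add]; ring
    have hP : 0 ≤ c ^ k * (c ^ m2 * M) * ht X x := by positivity
    have hsum : f (x * F.z ^ (k + m2)) =
        E (x * F.z ^ k) + (cut D h (x * F.z ^ k) + (h - cut D h) (x * F.z ^ k)) := by
      have e1 : x * F.z ^ (k + m2) = x * F.z ^ k * F.z ^ m2 := by rw [pow_add, mul_assoc]
      have e2 : h (x * F.z ^ k) = f (x * F.z ^ k * F.z ^ m2) - E (x * F.z ^ k) := rfl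
      rw [e1, Pi.sub_apply, e2]
      ring
    rw [hsum, hAM]
    refine (IsUltrametricDist.norm_add_le_max _ _).trans (max_le ?_
      ((IsUltrametricDist.norm_add_le_max _ _).trans (max_le ?_ ?_)))
    · -- the term `E`
      have h1 := Hg E hEsec hE0 _ hEbd k x
      have h1' : ‖E (x * F.z ^ k)‖ ≤ Ag * c ^ k * (c ^ m2 * M) * ht X x := h1
      refine h1'.trans ?_
      have : Ag * c ^ k * (c ^ m2 * M) * ht X x = Ag * (c ^ k * (c ^ m2 * M) * ht X x) := by ring
      rw [this]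
      exact mul_le_mul_of_nonneg_right (hA1g.trans hAA1) hP
    · -- the term `cut D h`
      by_cases hxw : F.idx x = w
      · have : x * F.z ^ k ∉ D := by
          intro hxD
          exact hDne _ hxD (hhw _ (by rw [decay_idx_z]; exact hxw))
        rw [cut_of_notMem this, norm_zero]
        exact mul_nonneg (by linarith) hP
      · have h1 := hm3 k hk x (Finset.mem_erase.2 ⟨hxw, hx⟩)
        refine h1.trans ?_
        have : A' * (A1 * (c ^ m2 * M)) * c ^ k * ht X x =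
            (A' * A1) * (c ^ k * (c ^ m2 * M) * ht X x) := by ring
        rw [this]
        exact mul_le_mul_of_nonneg_right hAA2 hP
    · -- the small term
      have h1 := H2 _ hh2sec hh20 _ hh2bd k x
      have h1' : ‖(h - cut D h) (x * F.z ^ k)‖ ≤ A2 * c ^ k * η * ht X x := h1
      refine h1'.trans ?_
      have : A2 * c ^ k * η * ht X x = 1 * (c ^ k * (c ^ m2 * M) * ht X x) := by
        rw [hηdef]; field_simp
      rw [this]
      exact mul_le_mul_of_nonneg_right (hA1.trans hAA1) hP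
end Pool.Agent.Helper911
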