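import Mathlib
import Pool.Agent.Helper911_Abs.Cells
import Pool.Agent.Helper911_Abs.KA
import Pool.Agent.Helper911_Abs.KC
import Pool.Agent.Helper911_Abs.KD
import Pool.Agent.Helper911_Abs.KF

set_option autoImplicit false
set_option linter.unusedSectionVars false
set_option maxHeartbeats 1000000

noncomputable section

open Topology Filter

namespace Pool.Agent.Helper911


variable {p : ℕ} {G : Type*} [Group G] [TopologicalSpace G] [IsTopologicalGroup G] [T2Space G]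
  {W : Type*} [DecidableEq W] {F : Flag p G W} {C : Type*} [NormedField C] [IsUltrametricDist C]



/-! ======= TARGET ======= -/

/-- TARGET.
Proof. Let `S0` be the set given by `attractor` for `Om`, `A1` the constant of `topnorm` for `S0`, `A2` the constant of `decay`. Put `A = A1 * A2`.
Given `u`, `S`, `f`, `M`: let `Ph = {w ∈ Om | w ≠ u ∧ wle F u w}` (use `Finset.filter` with classical decidability). `cell (Om \ Ph)` is open: if `idx g ∈ Om \ Ph`
then either `¬ wle u (idx g)`, that is (`mem_closure_iff_wle`) `g` is in the open complement of `closure (cell {u})`, whose intersection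
with `cell Om` is contained in `cell (Om \ Ph)`; or `idx g = u`, `g = b e_u y` with `y ∈ Nb`, and then
`{x | x y⁻¹ ∈ U0 u}` (translate) is a neighbourhood of `g` whose intersection with `closure (cell {u})` is in `cell {u}` by `closure_inter_U0` (as
`closure (cell {u})` is right `Nb`-invariant, `closure_right`), so `cell Om ∩ {x | x y⁻¹ ∈ U0 u} ⊆ cell (Om \ Ph)`.
By `decay` (for `Ph`) there is `m0` such that for `m ≥ m0` and `idx x ∈ Ph`: `‖f (x z^m)‖ ≤ A2 M c^m ht x`; enlarge `m0` so that also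
`x (z^m)⁻¹ ∈ S0` for `x ∈ S`, `m ≥ m0`. Fix `m = m0`, `f' = tr (z^m) f`, which is supported in `S0`, `η = A2 M c^m`, `D = {x | η ht x < ‖f' x‖}` clopen and
left invariant (`level_clopen`, `level_linv`), `D ⊆ S0 ⊆ cell Om`, `D ∩ cell Ph = ∅`. The set
`D1 = D ∩ closure (cell {u})` is closed, left invariant, and each `x ∈ D1` has `idx x = u` (its index is in `Om`, `≥ u` and not in `Ph`).
By `absorb_cell` there is `m1` with `x (z^m1)⁻¹ ∈ U0 u` for `x ∈ D1`. Now let `y ∈ Q u` with `A M < ‖f (e_u y)‖`. Put `y' = z^m y (z^m)⁻¹ ∈ Q u`, then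
`f' (e_u y') = f (e_u z^m y) = χ(e_u z^m e_u⁻¹) f (e_u y)`, so `‖f' (e_u y')‖ = c^m ‖f (e_u y)‖ > A1 η`. If `e_u y'` were not in `D`, then `f'` and `f' - cut D f'` agree at
`e_u y'`, but `Bd (f' - cut D f') η` and this function is supported in `S0`, so by `topnorm` its value at `e_u y'` has norm `≤ A1 η`: contradiction. So
`e_u y' ∈ D`, hence in `D1` (`idx = u`, `subset_closure`), so `e_u y' (z^m1)⁻¹ ∈ U0 u`, and by `U0_cell` and `chart_inj`,
`z^m1 y' (z^m1)⁻¹ ∈ Gam`, that is `z^(m1+m) y (z^(m1+m))⁻¹ ∈ Gam`. -/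
theorem rel_compact (X : CharData F C) (Om : Finset W) (hOm : IsOpen (cell F Om)) (c : ℝ)
    (hc : 0 < c) (hcw : ∀ w ∈ Om, cw X w ≤ c) :
    ∃ A : ℝ, 1 ≤ A ∧ ∀ u ∈ Om, cw X u = c → ∀ S : Set G, IsClosed S → LInv F S → S ⊆ cell F Om →
      ∀ f : G → C, IsSec X f → (∀ x ∉ S, f x = 0) → ∀ M : ℝ, 0 < M →
      (∀ w ∈ Om, w ≠ u → wle F u w → cw X w = c → ∀ y ∈ F.Nb, ‖f (F.e w * y)‖ ≤ M) →
      ∃ m : ℕ, ∀ y ∈ F.Q u, A * M < ‖f (F.e u * y)‖ → F.z ^ m * y * (F.z ^ m)⁻¹ ∈ F.Gam := by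
  classical
  obtain ⟨S0, hS0c, hS0i, hS0O, hS0a⟩ := attractor F Om hOm
  obtain ⟨A1, hA1, hT⟩ := topnorm X Om hOm c hc hcw S0 hS0c hS0i hS0O
  obtain ⟨A2, hA2, hDc⟩ := decay X Om hOm c hc hcw
  have hA1p : 0 < A1 := by linarith
  have hA2p : 0 < A2 := by linarith
  refine ⟨A1 * A2, one_le_mul_of_one_le_of_one_le hA1 hA2, ?_⟩
  intro u hu hcu S hS hSi hSO f hf hfS M hM hfM
  let Ph : Finset W := Om.filter (fun w => w ≠ u ∧ wle F u w)
  have hPhmem : ∀ w, w ∈ Ph ↔ w ∈ Om ∧ w ≠ u ∧ wle F u w := fun w => Finset.mem_filter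
  have hPhO : IsOpen (cell F (Om \ Ph)) := by
    rw [isOpen_iff_mem_nhds]
    intro g hg
    have hg1 : F.idx g ∈ Om \ Ph := hg
    rw [Finset.mem_sdiff] at hg1
    obtain ⟨hgO, hgP⟩ := hg1
    by_cases hw : wle F u (F.idx g)
    · have hgu : F.idx g = u := by
        by_contra hne
        exact hgP ((hPhmem _).mpr ⟨hgO, hne, hw⟩)
      obtain ⟨b, hb, y, hy, hgy⟩ := F.exists_rep g
      rw [hgu] at hgy
      have hopen : IsOpen ({x | x * y⁻¹ ∈ U0 F u} ∩ cell F Om) :=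
        ((U0_clopen F u).isOpen.preimage (continuous_mul_const y⁻¹)).inter hOm
      refine Filter.mem_of_superset (hopen.mem_nhds ⟨?_, hgO⟩) ?_
      · show g * y⁻¹ ∈ U0 F u
        have : g * y⁻¹ = b * F.e u := by
          rw [hgy]; group
        rw [this]
        exact U0_linv F u b hb _ (e_mem_U0 F u)
      · intro x hx
        obtain ⟨hx1, hx2⟩ := hx
        have hx1' : x * y⁻¹ ∈ U0 F u := hx1
        show F.idx x ∈ Om \ Ph
        rw [Finset.mem_sdiff]
        refine ⟨hx2, fun hxP => ?_⟩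
        obtain ⟨-, hne, hle⟩ := (hPhmem _).mp hxP
        have hyi : y⁻¹ ∈ F.Nb := F.Nb.inv_mem hy
        have h1 : x ∈ closure (cell F {u}) := (mem_closure_iff_wle F u x).mpr hle
        have h2 := closure_right F {u} y⁻¹ x hyi h1
        have h3 := closure_inter_U0 F u _ h2 hx1'
        rw [F.idx_right_Nb y⁻¹ hyi x] at h3
        exact hne h3
    · have hopen : IsOpen ((closure (cell F {u}))ᶜ ∩ cell F Om) :=
        isClosed_closure.isOpen_compl.inter hOm
      refine Filter.mem_of_superset (hopen.mem_nhds ⟨?_, hgO⟩) ?_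
      · intro h
        exact hw ((mem_closure_iff_wle F u g).mp h)
      · intro x hx
        obtain ⟨hx1, hx2⟩ := hx
        show F.idx x ∈ Om \ Ph
        rw [Finset.mem_sdiff]
        refine ⟨hx2, fun hxP => ?_⟩
        obtain ⟨-, -, hle⟩ := (hPhmem _).mp hxP
        exact hx1 ((mem_closure_iff_wle F u x).mpr hle)
  obtain ⟨m1, hm1⟩ := hDc Ph (Finset.filter_subset _ _) hPhO S hS hSi hSO f hf hfS M hM (by
    intro w hw hcw' y hy
    obtain ⟨h1, h2, h3⟩ := (hPhmem w).mp hw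
    exact hfM w h1 h2 h3 hcw' y hy)
  obtain ⟨m2, hm2⟩ := hS0a S hS hSi hSO
  obtain ⟨m, hmm1, hmm2⟩ : ∃ m : ℕ, m1 ≤ m ∧ m2 ≤ m := ⟨max m1 m2, le_max_left _ _, le_max_right _ _⟩
  have hm1' := hm1 m hmm1
  have hm2' := hm2 m hmm2
  have hf' : IsSec X (tr (F.z ^ m) f) := hf.tr _
  have hf'S : ∀ x ∉ S0, (tr (F.z ^ m) f) x = 0 := by
    intro x hx
    rw [tr_apply]
    apply hfS
    intro hxS
    apply hx
    have := hm2' _ hxS
    rwa [mul_inv_cancel_right] at this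
  have hη : 0 < A2 * M * c ^ m := by positivity
  let D : Set G := {x | A2 * M * c ^ m * ht X x < ‖(tr (F.z ^ m) f) x‖}
  have hDdef : ∀ x, x ∈ D ↔ A2 * M * c ^ m * ht X x < ‖(tr (F.z ^ m) f) x‖ := fun x => Iff.rfl
  have hDclopen : IsClopen D := level_clopen hf' hη
  have hDinv : LInv F D := level_linv hf'
  have hDS0 : D ⊆ S0 := by
    intro x hx
    by_contra hnot
    have h1 := (hDdef x).mp hx
    rw [hf'S x hnot, norm_zero] at h1
    have h2 : 0 < A2 * M * c ^ m * ht X x := mul_pos hη (ht_pos X x)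
    linarith
  have hDPh : ∀ x ∈ D, F.idx x ∉ Ph := by
    intro x hx hxP
    have h1 := (hDdef x).mp hx
    have h2 := hm1' x hxP
    rw [tr_apply] at h1
    linarith
  have hD1i : LInv F (D ∩ closure (cell F {u})) := by
    intro b hb g hg
    exact ⟨hDinv b hb g hg.1, closure_left F {u} b g hb hg.2⟩
  have hD1w : ∀ x ∈ D ∩ closure (cell F {u}), F.idx x = u := by
    intro x hx
    by_contra hne
    have h1 : F.idx x ∈ Om := hS0O (hDS0 hx.1)
    have h2 : wle F u (F.idx x) := (mem_closure_iff_wle F u x).mp hx.2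
    exact hDPh x hx.1 ((hPhmem _).mpr ⟨h1, hne, h2⟩)
  obtain ⟨m3, hm3⟩ := absorb_cell u _ (hDclopen.isClosed.inter isClosed_closure) hD1i hD1w
  refine ⟨m3 + m, fun y hy hyM => ?_⟩
  obtain ⟨y', hy'def⟩ : ∃ y', y' = F.z ^ m * y * (F.z ^ m)⁻¹ := ⟨_, rfl⟩
  have hy' : y' ∈ F.Q u := by
    rw [hy'def]
    exact F.conj_Q u _ (zpow_mem_Z F m) y hy
  have hbB : F.e u * F.z * (F.e u)⁻¹ ∈ F.B := F.Z_le (F.conj_Z u F.z F.z_mem)
  have hval : ‖(tr (F.z ^ m) f) (F.e u * y')‖ = c ^ m * ‖f (F.e u * y)‖ := by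
    rw [tr_apply]
    have e1 : F.e u * y' * F.z ^ m = (F.e u * F.z * (F.e u)⁻¹) ^ m * (F.e u * y) := by
      rw [conj_pow, hy'def]
      group
    rw [e1, hf.norm_left _ _ (F.B.pow_mem hbB m), X.chi_pow _ hbB m, norm_pow]
    have e2 : ‖X.chi (F.e u * F.z * (F.e u)⁻¹)‖ = c := hcu
    rw [e2]
  have hcm : 0 < c ^ m := pow_pos hc m
  have hbig : A1 * (A2 * M * c ^ m) < ‖(tr (F.z ^ m) f) (F.e u * y')‖ := by
    rw [hval]
    have := mul_lt_mul_of_pos_left hyM hcm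
    calc A1 * (A2 * M * c ^ m) = c ^ m * (A1 * A2 * M) := by ring
      _ < c ^ m * ‖f (F.e u * y)‖ := this
  have hyD : F.e u * y' ∈ D := by
    by_contra hnot
    have h1 := hT (tr (F.z ^ m) f - cut D (tr (F.z ^ m) f)) (hf'.sub (hf'.cut hDclopen hDinv)) (by
      intro x hx
      have h2 : x ∉ D := fun h => hx (hDS0 h)
      rw [Pi.sub_apply, cut_of_notMem h2, hf'S x hx, sub_zero]) (A2 * M * c ^ m) (by
      intro x
      by_cases hx : x ∈ D
      · rw [Pi.sub_apply, cut_of_mem hx, sub_self, norm_zero]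
        exact (mul_pos hη (ht_pos X x)).le
      · rw [Pi.sub_apply, cut_of_notMem hx, sub_zero]
        exact not_lt.mp hx) u hcu y' (F.Q_le u hy')
    rw [Pi.sub_apply, cut_of_notMem hnot, sub_zero] at h1
    linarith
  have hidx : F.idx (F.e u * y') = u := by
    have := idx_eq F u 1 y' F.B.one_mem (F.Q_le u hy')
    rwa [one_mul] at this
  have hD1 : F.e u * y' ∈ D ∩ closure (cell F {u}) := by
    refine ⟨hyD, subset_closure ?_⟩
    show F.idx (F.e u * y') ∈ ({u} : Finset W)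
    rw [hidx]
    exact Finset.mem_singleton_self u
  have hU := hm3 m3 le_rfl _ hD1
  have hidx2 : F.idx (F.e u * y' * (F.z ^ m3)⁻¹) = u := by
    rw [F.idx_right_Z _ (F.Z.inv_mem (zpow_mem_Z F m3)), hidx]
  obtain ⟨b, hb, y2, hy2, hy2G, hEq⟩ := U0_cell F u _ hU hidx2
  obtain ⟨y3, hy3def⟩ : ∃ y3, y3 = F.z ^ m3 * y' * (F.z ^ m3)⁻¹ := ⟨_, rfl⟩
  have hy3 : y3 ∈ F.Q u := by
    rw [hy3def]
    exact F.conj_Q u _ (zpow_mem_Z F m3) y' hy'
  have hb' : F.e u * F.z ^ m3 * (F.e u)⁻¹ * b ∈ F.B :=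
    F.B.mul_mem (conj_e_pow F u m3) hb
  have hch := F.chart_inj u _ hb' 1 (F.P u).one_mem y3 hy3 1 (F.P u).one_mem y2 hy2 (by
    have e1 : F.e u * 1 * y3 = F.e u * F.z ^ m3 * (F.e u)⁻¹ * (F.e u * y' * (F.z ^ m3)⁻¹) := by
      rw [hy3def]; group
    rw [e1, hEq]
    group)
  have hfin : F.z ^ (m3 + m) * y * (F.z ^ (m3 + m))⁻¹ = y3 := by
    rw [hy3def, hy'def, pow_add, mul_inv_rev]
    simp only [mul_assoc]
  rw [hfin, hch.2]
  exact hy2G
end Pool.Agent.Helper911
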