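import Mathlib
import Pool.Agent.Helper911_Abs.Core

set_option autoImplicit false
set_option linter.unusedSectionVars false
set_option maxHeartbeats 1000000

noncomputable section

open Topology Filter

namespace Pool.Agent.Helper911


variable {p : ℕ} {G : Type*} [Group G] [TopologicalSpace G] [IsTopologicalGroup G] [T2Space G]
  {W : Type*} [DecidableEq W] {F : Flag p G W} {C : Type*} [NormedField C] [IsUltrametricDist C]
  {X : CharData F C} {R : SubRep X} {Om T : Finset W} {c : ℝ}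

/-! ======= TARGET ======= -/

/-! TARGETS: all the small lemmas below. Hints:
`St_inter`: if `s ∈ Q u` and `e_u s e_u⁻¹ ∈ N ⊆ B` then `e_u * 1 * s = (e_u s e_u⁻¹) * e_u * 1 * 1`, so `chart_inj` gives `s = 1`.
`St_decomp`: `F.decomp`. `St_sec`: `e_u s g = (e_u s e_u⁻¹) e_u g` and `chi = 1` on `N`. `St_conj`: `F.conj_Nb`, and
`e_u t s t⁻¹ e_u⁻¹ = (e_u t e_u⁻¹) (e_u s e_u⁻¹) (e_u t e_u⁻¹)⁻¹` with `F.conj_Z`, `F.conj_N`.
`norm_chi_zpow`: `e_u z^m e_u⁻¹ = (e_u z e_u⁻¹)^m` and `chi_pow`. `norm_chi_K`: `e_u t e_u⁻¹ ∈ K` (`F.e_mem`), `chi_K`.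
`Nl_CO`: `Nl` is the image of the compact set `Q u ∩ Gam` under conjugation by `z^l`, and is the intersection of `Q u`
with the open set `{y | z^{-l} y z^l ∈ Gam}`. `Nl_small`: `unif_Nb_ge`. `Nl_anti`: `shrink_Nb_pow`. `escape_Q`: if not, then by `shrink_Nb_pow`
`z^{-m} q z^m ∈ Gam` for all `m`, so `q ∈ Nl u l` for all `l`, hence in each neighbourhood of `1`, so `q = 1` (T2). `CO_diff`: `D' = O' ∩ Q u` is compact
hence closed; `D \ D' = D \ O'` is compact and equals `(O \ D') ∩ Q u`. -/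
theorem St_one (u : W) : St F u 1 := by
  refine ⟨F.Nb.one_mem, ?_⟩
  simpa using F.N.one_mem

theorem St_mul {u : W} {s t : G} (hs : St F u s) (ht : St F u t) : St F u (s * t) := by
  refine ⟨F.Nb.mul_mem hs.1 ht.1, ?_⟩
  have := F.N.mul_mem hs.2 ht.2
  convert this using 1
  group

theorem St_inv {u : W} {s : G} (hs : St F u s) : St F u s⁻¹ := by
  refine ⟨F.Nb.inv_mem hs.1, ?_⟩
  have := F.N.inv_mem hs.2
  convert this using 1
  group

theorem St_conj {u : W} {s : G} (hs : St F u s) {t : G} (ht : t ∈ F.Z) : St F u (t * s * t⁻¹) := by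
  refine ⟨F.conj_Nb t ht s hs.1, ?_⟩
  have := F.conj_N _ (F.conj_Z u t ht) _ hs.2
  convert this using 1
  group

theorem St_inter {u : W} {s : G} (hs : St F u s) (hq : s ∈ F.Q u) : s = 1 := by
  have := F.chart_inj u (F.e u * s * (F.e u)⁻¹) (F.N_le hs.2) 1 (F.P u).one_mem s hq 1
    (F.P u).one_mem 1 (F.Q u).one_mem (by group)
  exact this.2

theorem St_unique {u : W} {s s' q q' : G} (hs : St F u s) (hs' : St F u s') (hq : q ∈ F.Q u)
    (hq' : q' ∈ F.Q u) (h : s * q = s' * q') : s = s' ∧ q = q' := by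
  have h1 : s'⁻¹ * s = q' * q⁻¹ := by
    rw [inv_mul_eq_iff_eq_mul, ← mul_assoc, ← h]
    group
  have h2 : s'⁻¹ * s = 1 := St_inter (St_mul (St_inv hs') hs) (by
    rw [h1]; exact (F.Q u).mul_mem hq' ((F.Q u).inv_mem hq))
  refine ⟨?_, ?_⟩
  · rw [inv_mul_eq_one] at h2
    exact h2.symm
  · rw [h2] at h1
    exact (mul_inv_eq_one.1 h1.symm).symm

theorem St_decomp (u : W) (y : G) (hy : y ∈ F.Nb) : ∃ s, St F u s ∧ ∃ q ∈ F.Q u, y = s * q := by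
  obtain ⟨s, hs, hs2, q, hq, h⟩ := F.decomp u y hy
  exact ⟨s, ⟨hs, hs2⟩, q, hq, h⟩

theorem St_sec (X : CharData F C) {f : G → C} (hf : IsSec X f) {u : W} {s : G} (hs : St F u s)
    (g : G) : f (F.e u * (s * g)) = f (F.e u * g) := by
  have h1 : F.e u * (s * g) = (F.e u * s * (F.e u)⁻¹) * (F.e u * g) := by group
  rw [h1, hf.2 _ (F.N_le hs.2), X.chi_N _ hs.2, one_mul]

/-- Action of `z^m` and of the torus on the values on a cell. -/
theorem sec_tr_Z (X : CharData F C) {f : G → C} (hf : IsSec X f) (u : W) {t : G} (ht : t ∈ F.Z)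
    (g : G) : f (F.e u * g * t) = X.chi (F.e u * t * (F.e u)⁻¹) * f (F.e u * (t⁻¹ * g * t)) := by
  rw [← hf.2 _ (F.Z_le (F.conj_Z u t ht))]
  congr 1
  group

theorem norm_chi_zpow (X : CharData F C) (u : W) (m : ℕ) :
    ‖X.chi (F.e u * F.z ^ m * (F.e u)⁻¹)‖ = cw X u ^ m := by
  rw [← conj_pow, X.chi_pow _ (F.Z_le (F.conj_Z u _ F.z_mem)), norm_pow]
  rfl

theorem norm_chi_K (X : CharData F C) (u : W) {t : G} (ht : t ∈ F.Z) (hK : t ∈ F.K) :
    ‖X.chi (F.e u * t * (F.e u)⁻¹)‖ = 1 :=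
  X.chi_K _ (F.Z_le (F.conj_Z u t ht))
    (F.K.mul_mem (F.K.mul_mem (F.e_mem u) hK) (F.K.inv_mem (F.e_mem u)))

theorem TN_of_Q (X : CharData F C) {f : G → C} (hf : IsSec X f) {u : W} {M : ℝ}
    (h : ∀ q ∈ F.Q u, ‖f (F.e u * q)‖ ≤ M) : TN F u f M := by
  intro y hy
  obtain ⟨s, hs, q, hq, rfl⟩ := St_decomp u y hy
  rw [St_sec X hf hs]
  exact h q hq

theorem TN_tr_Nb {f : G → C} {u : W} {M : ℝ} (h : TN F u f M) {y : G} (hy : y ∈ F.Nb) :
    TN F u (tr y f) M := by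
  intro y' hy'
  rw [tr_apply, mul_assoc]
  exact h _ (F.Nb.mul_mem hy' hy)

theorem TN_tr_Z (X : CharData F C) {f : G → C} (hf : IsSec X f) {u : W} {M : ℝ}
    (h : TN F u f M) {t : G} (ht : t ∈ F.Z) :
    TN F u (tr t f) (‖X.chi (F.e u * t * (F.e u)⁻¹)‖ * M) := by
  intro y hy
  rw [tr_apply, sec_tr_Z X hf u ht, norm_mul]
  have h1 := F.conj_Nb t⁻¹ (F.Z.inv_mem ht) y hy
  rw [inv_inv] at h1
  exact mul_le_mul_of_nonneg_left (h _ h1) (norm_nonneg _)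

theorem TN_add {f g : G → C} {u : W} {M : ℝ} (hf : TN F u f M) (hg : TN F u g M) :
    TN F u (f + g) M := by
  intro y hy
  exact (IsUltrametricDist.norm_add_le_max _ _).trans (max_le (hf y hy) (hg y hy))

theorem TN_sub {f g : G → C} {u : W} {M : ℝ} (hf : TN F u f M) (hg : TN F u g M) :
    TN F u (f - g) M := by
  intro y hy
  rw [Pi.sub_apply, sub_eq_add_neg]
  refine (IsUltrametricDist.norm_add_le_max _ _).trans (max_le (hf y hy) ?_)
  rw [norm_neg]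
  exact hg y hy

theorem TN_smul {f : G → C} {u : W} {M : ℝ} (hf : TN F u f M) (a : C) :
    TN F u (a • f) (‖a‖ * M) := by
  intro y hy
  rw [Pi.smul_apply, smul_eq_mul, norm_mul]
  exact mul_le_mul_of_nonneg_left (hf y hy) (norm_nonneg _)

theorem TN_mono {f : G → C} {u : W} {M M' : ℝ} (hf : TN F u f M) (h : M ≤ M') : TN F u f M' :=
  fun y hy => (hf y hy).trans h

theorem TN_sum {ι : Type*} (s : Finset ι) (f : ι → G → C) {u : W} {M : ℝ} (hM : 0 ≤ M)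
    (hf : ∀ i ∈ s, TN F u (f i) M) : TN F u (∑ i ∈ s, f i) M := by
  classical
  induction s using Finset.induction_on with
  | empty =>
    intro y _
    simpa using hM
  | insert a s ha ih =>
    rw [Finset.sum_insert ha]
    exact TN_add (hf a (Finset.mem_insert_self a s))
      (ih fun i hi => hf i (Finset.mem_insert_of_mem hi))

theorem conj_Q_pow (F : Flag p G W) (u : W) (l : ℕ) {y : G} (hy : y ∈ F.Q u) :
    F.z ^ l * y * (F.z ^ l)⁻¹ ∈ F.Q u :=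
  F.conj_Q u _ (F.Z.pow_mem F.z_mem l) y hy

theorem conj_Q_pow' (F : Flag p G W) (u : W) (l : ℕ) {y : G} (hy : y ∈ F.Q u) :
    (F.z ^ l)⁻¹ * y * F.z ^ l ∈ F.Q u := by
  have := F.conj_Q u _ (F.Z.inv_mem (F.Z.pow_mem F.z_mem l)) y hy
  rwa [inv_inv] at this

/-- `Nl` is a compact open subgroup of `Q u`, shrinking to `1`. -/
theorem Nl_CO (F : Flag p G W) (u : W) (l : ℕ) : CO F u (Nl F u l) := by
  refine ⟨?_, {y | (F.z ^ l)⁻¹ * y * F.z ^ l ∈ F.Gam}, ?_, ?_⟩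
  · have h1 := (QG_compact F u).image
      (show Continuous (fun y : G => F.z ^ l * y * (F.z ^ l)⁻¹) by fun_prop)
    convert h1 using 1
    ext y
    constructor
    · rintro ⟨h2, h3⟩
      exact ⟨(F.z ^ l)⁻¹ * y * F.z ^ l, ⟨conj_Q_pow' F u l h2, h3⟩, by simp [mul_assoc]⟩
    · rintro ⟨x, ⟨h2, h3⟩, rfl⟩
      refine ⟨conj_Q_pow F u l h2, ?_⟩
      have : (F.z ^ l)⁻¹ * (F.z ^ l * x * (F.z ^ l)⁻¹) * F.z ^ l = x := by simp [mul_assoc]
      show (F.z ^ l)⁻¹ * (F.z ^ l * x * (F.z ^ l)⁻¹) * F.z ^ l ∈ F.Gam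
      rw [this]
      exact h3
  · exact F.Gam_open.preimage (show Continuous (fun y : G => (F.z ^ l)⁻¹ * y * F.z ^ l) by fun_prop)
  · ext y
    exact and_comm

theorem Nl_mul {u : W} {l : ℕ} {x y : G} (hx : x ∈ Nl F u l) (hy : y ∈ Nl F u l) :
    x * y ∈ Nl F u l := by
  refine ⟨(F.Q u).mul_mem hx.1 hy.1, ?_⟩
  have h := F.Gam.mul_mem hx.2 hy.2
  have h2 : (F.z ^ l)⁻¹ * (x * y) * F.z ^ l =
      (F.z ^ l)⁻¹ * x * F.z ^ l * ((F.z ^ l)⁻¹ * y * F.z ^ l) := by simp [mul_assoc]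
  rw [h2]
  exact h

theorem Nl_inv {u : W} {l : ℕ} {x : G} (hx : x ∈ Nl F u l) : x⁻¹ ∈ Nl F u l := by
  refine ⟨(F.Q u).inv_mem hx.1, ?_⟩
  have h := F.Gam.inv_mem hx.2
  have h2 : (F.z ^ l)⁻¹ * x⁻¹ * F.z ^ l = ((F.z ^ l)⁻¹ * x * F.z ^ l)⁻¹ := by simp [mul_assoc]
  rw [h2]
  exact h

theorem Nl_one (u : W) (l : ℕ) : (1 : G) ∈ Nl F u l := by
  refine ⟨(F.Q u).one_mem, ?_⟩
  simpa using F.Gam.one_mem

theorem Nl_small (F : Flag p G W) (u : W) (U : Set G) (hU : U ∈ 𝓝 (1 : G)) :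
    ∃ l0 : ℕ, ∀ l ≥ l0, Nl F u l ⊆ U := by
  obtain ⟨m, hm⟩ := unif_Nb_ge F U hU
  refine ⟨m, fun l hl y hy => ?_⟩
  have := hm l hl _ (F.Q_le u (conj_Q_pow' F u l hy.1)) hy.2
  have h2 : F.z ^ l * ((F.z ^ l)⁻¹ * y * F.z ^ l) * (F.z ^ l)⁻¹ = y := by simp [mul_assoc]
  rwa [h2] at this

theorem Nl_anti (F : Flag p G W) (u : W) {l l' : ℕ} (h : l ≤ l') : Nl F u l' ⊆ Nl F u l := by
  intro y hy
  refine ⟨hy.1, ?_⟩
  have h1 := shrink_Nb_pow F (l' - l) _ (F.Q_le u (conj_Q_pow' F u l' hy.1)) hy.2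
  have h2 : F.z ^ l' = F.z ^ (l' - l) * F.z ^ l := by rw [← pow_add]; congr 1; omega
  have h2' : F.z ^ l' = F.z ^ l * F.z ^ (l' - l) := by rw [← pow_add]; congr 1; omega
  have h3 : F.z ^ (l' - l) * ((F.z ^ l')⁻¹ * y * F.z ^ l') * (F.z ^ (l' - l))⁻¹ =
      (F.z ^ l)⁻¹ * y * F.z ^ l := by
    nth_rewrite 1 [h2']
    rw [h2']
    simp [mul_assoc]
  rw [h3] at h1
  exact h1

/-- If `1 ≠ q ∈ Q u` then `z^{-m} q z^m` is eventually not in `Gam`. -/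
theorem escape_Q (u : W) (q : G) (hq : q ∈ F.Q u) (h1 : q ≠ 1) :
    ∃ m0 : ℕ, ∀ m ≥ m0, (F.z ^ m)⁻¹ * q * F.z ^ m ∉ F.Gam := by
  by_contra hcon
  push Not at hcon
  have hmem : ∀ l, q ∈ Nl F u l := by
    intro l
    obtain ⟨m, hm, h2⟩ := hcon l
    exact Nl_anti F u hm ⟨hq, h2⟩
  have hU : ({q}ᶜ : Set G) ∈ 𝓝 (1 : G) :=
    isOpen_compl_singleton.mem_nhds (by simpa using h1.symm)
  obtain ⟨l0, hl0⟩ := Nl_small F u _ hU
  exact hl0 l0 le_rfl (hmem l0) rfl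

theorem CO_diff {u : W} {D D' : Set G} (hD : CO F u D) (hD' : CO F u D') : CO F u (D \ D') := by
  obtain ⟨hc, O, hO, hDO⟩ := hD
  obtain ⟨hc', O', hO', hDO'⟩ := hD'
  refine ⟨?_, O \ D', hO.sdiff hc'.isClosed, ?_⟩
  · have : D \ D' = D \ O' := by
      rw [hDO, hDO']
      ext x
      simp only [Set.mem_sdiff, Set.mem_inter_iff]
      tauto
    rw [this]
    exact hc.diff hO'
  · rw [hDO]
    ext x
    simp only [Set.mem_sdiff, Set.mem_inter_iff]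
    tauto
end Pool.Agent.Helper911
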