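import Mathlib
import Pool.Agent.Helper911_Abs.Core
import Pool.Agent.Helper911_Abs.LA

set_option autoImplicit false
set_option linter.unusedSectionVars false
set_option maxHeartbeats 1000000

noncomputable section

open Topology Filter

namespace Pool.Agent.Helper911


variable {p : ℕ} {G : Type*} [Group G] [TopologicalSpace G] [IsTopologicalGroup G] [T2Space G]
  {W : Type*} [DecidableEq W] {F : Flag p G W} {C : Type*} [NormedField C] [IsUltrametricDist C]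
  {X : CharData F C} {R : SubRep X} {Om T : Finset W} {c : ℝ}



/-! ======= TARGET ======= -/

/-- TARGET.
Proof. For a finite set `A ⊆ T` let `P A` be: for all `ε > 0` there is `f ∈ V'` with `1 ≤ ‖f (e u)‖` for some
`u ∈ A` and `TN w f ε` for all `w ∈ T \ A`. `P T` holds: take `f`, `w` from `nonvan` and multiply `f` by a scalar of large norm (an inverse power
of the element of `Disc.exists_lt`). Take `A ⊆ T` with `P A` of minimal cardinality. For `u ∈ A`, `P (A.erase u)` fails, so there is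
`ε_u > 0` such that for all `f ∈ V'` with `TN w f ε_u` for all `w ∈ T \ (A.erase u)` one has `‖f (e w)‖ < 1` for `w ∈ A.erase u`. Let
`x0` be the element of `Disc.exists_lt`, and `A0 = max 1 (max over u ∈ A of 1/(ε_u ‖x0‖))`. Given `u ∈ A`, `f ∈ V'`, `M > 0` with
`TN u f M` and `TN w f M` for `w ∈ T \ A`, choose a scalar `a` (a power of `x0`) with `ε_u ‖x0‖ / M ≤ ‖a‖ ≤ ε_u / M`. For
`w ∈ A.erase u` and `y ∈ Nb` the function `tr y (a • f)` is in `V'`, and satisfies `TN w' _ ε_u` for `w' ∈ T \ A` and `w' = u`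
(`TN` is invariant under right translation by `Nb`), so `‖a f (e_w y)‖ < 1`, that is `‖f (e_w y)‖ ≤ 1/‖a‖ ≤ M/(ε_u ‖x0‖) ≤ A0 M`. For `w = u` it is clear. -/
theorem isol_exists {rho : ℝ} (hd : Disc p C rho) (D0 : CoreData X R Om T c) :
    ∃ (A : Finset W) (A0 : ℝ), Isol D0 A A0 := by
  classical
  obtain ⟨x0, hx0, hx1⟩ := hd.exists_lt
  have hsc : ∀ M : ℝ, 0 < M → ∃ a : C, 0 < ‖a‖ ∧ M * ‖x0‖ ≤ ‖a‖ ∧ ‖a‖ ≤ M := by
    intro M hM
    obtain ⟨n, hn⟩ := exists_mem_Ico_zpow (y := ‖x0‖⁻¹) hM ((one_lt_inv₀ hx0).mpr hx1)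
    refine ⟨x0⁻¹ ^ n, ?_, ?_, ?_⟩
    · rw [norm_zpow, norm_inv]
      positivity
    · rw [norm_zpow, norm_inv]
      have h2 := hn.2.le
      rw [zpow_add_one₀ (by positivity)] at h2
      calc M * ‖x0‖ ≤ (‖x0‖⁻¹ ^ n * ‖x0‖⁻¹) * ‖x0‖ := by gcongr
        _ = ‖x0‖⁻¹ ^ n := by field_simp
    · rw [norm_zpow, norm_inv]
      exact hn.1
  let P : Finset W → Prop := fun A => ∀ ε : ℝ, 0 < ε →
    ∃ f ∈ D0.V', (∃ u ∈ A, 1 ≤ ‖f (F.e u)‖) ∧ ∀ w ∈ T \ A, TN F w f ε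
  have hPT : P T := by
    intro ε hε
    obtain ⟨f, hf, w, hw, hne⟩ := D0.nonvan
    have hpos : 0 < ‖f (F.e w)‖ := norm_pos_iff.mpr hne
    obtain ⟨a, ha0, ha1, ha2⟩ := hsc (‖f (F.e w)‖⁻¹ / ‖x0‖) (by positivity)
    refine ⟨a • f, D0.V'.smul_mem a hf, ⟨w, hw, ?_⟩, ?_⟩
    · rw [Pi.smul_apply, smul_eq_mul, norm_mul]
      have h3 : ‖f (F.e w)‖⁻¹ ≤ ‖a‖ := by
        have : ‖f (F.e w)‖⁻¹ / ‖x0‖ * ‖x0‖ = ‖f (F.e w)‖⁻¹ := by field_simp
        rw [this] at ha1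
        exact ha1
      calc (1 : ℝ) = ‖f (F.e w)‖⁻¹ * ‖f (F.e w)‖ := by field_simp
        _ ≤ ‖a‖ * ‖f (F.e w)‖ := by gcongr
    · intro w' hw'
      simp at hw'
  obtain ⟨A, hAmem, hAmin⟩ := Finset.exists_min_image (T.powerset.filter P) Finset.card
    ⟨T, by simp [hPT]⟩
  rw [Finset.mem_filter, Finset.mem_powerset] at hAmem
  obtain ⟨hAT, hPA⟩ := hAmem
  have hfail : ∀ u, ∃ ε : ℝ, u ∈ A → (0 < ε ∧ ∀ f ∈ D0.V', (∀ w ∈ T \ (A.erase u), TN F w f ε) →
      ∀ w ∈ A.erase u, ‖f (F.e w)‖ < 1) := by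
    intro u
    by_cases hu : u ∈ A
    · have hnP : ¬ P (A.erase u) := by
        intro hP
        have h1 := hAmin (A.erase u) (by
          rw [Finset.mem_filter, Finset.mem_powerset]
          exact ⟨(Finset.erase_subset _ _).trans hAT, hP⟩)
        have h2 := Finset.card_erase_lt_of_mem hu
        omega
      simp only [P] at hnP
      push Not at hnP
      obtain ⟨ε, hε, h⟩ := hnP
      refine ⟨ε, fun _ => ⟨hε, fun f hf hT w hw => ?_⟩⟩
      by_contra hcon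
      obtain ⟨w', hw', hnot⟩ := h f hf ⟨w, hw, not_lt.mp hcon⟩
      exact hnot (hT w' hw')
    · exact ⟨0, fun h => absurd h hu⟩
  choose ε hε using hfail
  have hsum : ∀ u ∈ A, 1 / (ε u * ‖x0‖) ≤ ∑ v ∈ A, 1 / (ε v * ‖x0‖) := by
    intro u hu
    exact Finset.single_le_sum (f := fun v => 1 / (ε v * ‖x0‖))
      (fun v hv => by have := (hε v hv).1; positivity) hu
  have hsum0 : 0 ≤ ∑ v ∈ A, 1 / (ε v * ‖x0‖) :=
    Finset.sum_nonneg (fun v hv => by have := (hε v hv).1; positivity)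
  refine ⟨A, 1 + ∑ v ∈ A, 1 / (ε v * ‖x0‖), hAT, by linarith, hPA, ?_⟩
  intro u hu f hf M hM hTNu hTNw w hw
  obtain ⟨hεu, hεf⟩ := hε u hu
  by_cases hwu : w = u
  · subst hwu
    exact TN_mono hTNu (by nlinarith)
  · intro y hy
    obtain ⟨a, ha0, ha1, ha2⟩ := hsc (ε u / M) (by positivity)
    have hkey := hεf (tr y (a • f)) (D0.stab_Nb _ (D0.V'.smul_mem a hf) y hy) (by
      intro w' hw'
      have hTN' : TN F w' f M := by
        rw [Finset.mem_sdiff, Finset.mem_erase, not_and_or, not_not] at hw'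
        rcases hw'.2 with h | h
        · rw [h]
          exact hTNu
        · exact hTNw w' (Finset.mem_sdiff.mpr ⟨hw'.1, h⟩)
      refine TN_mono (TN_tr_Nb (TN_smul hTN' a) hy) ?_
      calc ‖a‖ * M ≤ (ε u / M) * M := by gcongr
        _ = ε u := by field_simp) w (Finset.mem_erase.mpr ⟨hwu, hw⟩)
    rw [tr_apply, Pi.smul_apply, smul_eq_mul, norm_mul] at hkey
    have h4 : ‖f (F.e w * y)‖ ≤ 1 / ‖a‖ := by
      rw [le_div_iff₀ ha0]
      nlinarith
    have h5 : 1 / ‖a‖ ≤ 1 / (ε u / M * ‖x0‖) := by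
      apply one_div_le_one_div_of_le (by positivity) ha1
    have h6 : 1 / (ε u / M * ‖x0‖) = 1 / (ε u * ‖x0‖) * M := by field_simp
    calc ‖f (F.e w * y)‖ ≤ 1 / (ε u * ‖x0‖) * M := by rw [← h6]; exact h4.trans h5
      _ ≤ (1 + ∑ v ∈ A, 1 / (ε v * ‖x0‖)) * M := by
        have := hsum u hu
        gcongr
        linarith
end Pool.Agent.Helper911
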