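import Mathlib

set_option autoImplicit false
set_option maxHeartbeats 1000000

open Topology Filter

namespace Pool.Agent.Helper911

theorem pgroup_const {p : ℕ} [Fact p.Prime] {H : Type*} [Group H] [TopologicalSpace H]
    [IsTopologicalGroup H] [CompactSpace H]
    (hp : ∀ h : H, Tendsto (fun k : ℕ => h ^ (p ^ k)) atTop (𝓝 1)) {A : Type*} [AddCommGroup A]
    (f : H → A) (hf : IsLocallyConstant f) (hpf : ∀ h, p • f h = 0) (hne : ∃ h, f h ≠ 0) :
    ∃ g ∈ AddSubgroup.closure (Set.range fun h0 : H => fun h : H => f (h * h0)),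
      ∃ a : A, a ≠ 0 ∧ ∀ h, g h = a := by
  classical
  -- step 1: uniform neighbourhood
  obtain ⟨U, hU, hUf⟩ : ∃ U ∈ 𝓝 (1 : H), ∀ u ∈ U, ∀ x : H, f (x * u) = f x := by
    let S : Set (H × H) := {q | f (q.1 * q.2) = f q.1}
    have hS : IsOpen S := by
      have h1 : IsLocallyConstant (fun q : H × H => f (q.1 * q.2)) :=
        hf.comp_continuous (continuous_fst.mul continuous_snd)
      have h2 : IsLocallyConstant (fun q : H × H => f q.1) := hf.comp_continuous continuous_fst
      have h3 := h1.prodMk h2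
      exact h3 {r : A × A | r.1 = r.2}
    have hsub : (Set.univ : Set H) ×ˢ ({1} : Set H) ⊆ S := by
      rintro ⟨x, y⟩ ⟨_, hy⟩
      have : y = 1 := hy
      subst this
      simp [S]
    obtain ⟨u, v, _, hv, hu, hv1, huv⟩ :=
      generalized_tube_lemma (isCompact_univ) (isCompact_singleton) hS hsub
    refine ⟨v, hv.mem_nhds (hv1 rfl), fun y hy x => ?_⟩
    have : ((x, y) : H × H) ∈ S := huv ⟨hu (Set.mem_univ x), hy⟩
    exact this
  let R : H → (H → A) := fun h0 h => f (h * h0)
  have hRlc : IsLocallyConstant R := by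
    rw [IsLocallyConstant.iff_eventually_eq]
    intro x
    have hc : Tendsto (fun y : H => x⁻¹ * y) (𝓝 x) (𝓝 1) := by
      have : Continuous fun y : H => x⁻¹ * y := continuous_const.mul continuous_id
      simpa using this.tendsto x
    filter_upwards [hc hU] with y hy
    funext h
    have := hUf _ hy (h * x)
    simp only [R]
    rw [← this]
    congr 1
    group
  have hfin : (Set.range R).Finite := hRlc.range_finite
  let M : AddSubgroup (H → A) := AddSubgroup.closure (Set.range R)
  have hpM : ∀ g ∈ M, p • g = 0 := by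
    intro g hg
    refine AddSubgroup.closure_induction (p := fun g _ => p • g = 0) ?_ ?_ ?_ ?_ hg
    · rintro _ ⟨h0, rfl⟩
      funext h
      exact hpf _
    · simp
    · intro a b _ _ ha hb
      rw [smul_add, ha, hb, add_zero]
    · intro a _ ha
      rw [smul_neg, ha, neg_zero]
  -- step 2: neighbourhood acting trivially
  obtain ⟨V, hV, hVR⟩ : ∃ V ∈ 𝓝 (1 : H), ∀ u ∈ V, ∀ x : H, R (u * x) = R x := by
    let S : Set (H × H) := {q | R (q.2 * q.1) = R q.1}
    have hS : IsOpen S := by
      have h1 : IsLocallyConstant (fun q : H × H => R (q.2 * q.1)) :=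
        hRlc.comp_continuous (continuous_snd.mul continuous_fst)
      have h2 : IsLocallyConstant (fun q : H × H => R q.1) := hRlc.comp_continuous continuous_fst
      have h3 := h1.prodMk h2
      exact h3 {r : (H → A) × (H → A) | r.1 = r.2}
    have hsub : (Set.univ : Set H) ×ˢ ({1} : Set H) ⊆ S := by
      rintro ⟨x, y⟩ ⟨_, hy⟩
      have : y = 1 := hy
      subst this
      simp [S]
    obtain ⟨u, v, _, hv, hu, hv1, huv⟩ :=
      generalized_tube_lemma (isCompact_univ) (isCompact_singleton) hS hsub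
    refine ⟨v, hv.mem_nhds (hv1 rfl), fun y hy x => ?_⟩
    have : ((x, y) : H × H) ∈ S := huv ⟨hu (Set.mem_univ x), hy⟩
    exact this
  have hVM : ∀ g ∈ M, ∀ u ∈ V, ∀ x : H, g (x * u) = g x := by
    intro g hg u hu
    refine AddSubgroup.closure_induction (p := fun g _ => ∀ x : H, g (x * u) = g x) ?_ ?_ ?_ ?_ hg
    · rintro _ ⟨h0, rfl⟩ x
      have := congrFun (hVR u hu h0) x
      simp only [R] at this ⊢
      rw [← this, mul_assoc]
    · intro x; rfl
    · intro a b _ _ ha hb x
      rw [Pi.add_apply, Pi.add_apply, ha, hb]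
    · intro a _ ha x
      rw [Pi.neg_apply, Pi.neg_apply, ha]
  -- translation invariance of M
  have hTM : ∀ g ∈ M, ∀ h0 : H, (fun h => g (h * h0)) ∈ M := by
    intro g hg h0
    refine AddSubgroup.closure_induction (p := fun g _ => (fun h => g (h * h0)) ∈ M) ?_ ?_ ?_ ?_ hg
    · rintro _ ⟨h1, rfl⟩
      have : (fun h => R h1 (h * h0)) = R (h0 * h1) := by
        funext h; simp only [R, mul_assoc]
      rw [this]
      exact AddSubgroup.subset_closure ⟨_, rfl⟩
    · exact M.zero_mem
    · intro a b _ _ ha hb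
      exact M.add_mem ha hb
    · intro a _ ha
      exact M.neg_mem ha
  -- M is finite
  have hfg : AddGroup.FG M := by
    rw [AddGroup.fg_iff_addSubgroup_fg]
    exact ⟨hfin.toFinset, by simp [M]⟩
  have : Finite M := by
    apply AddCommGroup.finite_of_fg_isAddTorsion
    intro g
    rw [isOfFinAddOrder_iff_nsmul_eq_zero]
    refine ⟨p, (Fact.out : p.Prime).pos, ?_⟩
    exact Subtype.ext (hpM g.1 g.2)
  -- action
  let act : MulAction H M :=
    { smul := fun h0 g => ⟨fun h => g.1 (h * h0), hTM g.1 g.2 h0⟩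
      one_smul := by
        intro g; apply Subtype.ext; funext h
        change g.1 (h * 1) = g.1 h
        rw [mul_one]
      mul_smul := by
        intro a b g; apply Subtype.ext; funext h
        change g.1 (h * (a * b)) = g.1 (h * a * b)
        rw [mul_assoc] }
  have hact : ∀ (h0 : H) (g : M) (h : H), (h0 • g).1 h = g.1 (h * h0) := fun _ _ _ => rfl
  let P : Subgroup (Equiv.Perm M) := (MulAction.toPermHom H M).range
  have hPp : IsPGroup p P := by
    rintro ⟨_, ⟨h, rfl⟩⟩
    obtain ⟨k, hk⟩ := ((hp h).eventually (Filter.eventually_mem_set.2 hV)).exists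
    refine ⟨k, ?_⟩
    apply Subtype.ext
    change (MulAction.toPermHom H M h) ^ (p ^ k) = 1
    rw [← map_pow]
    apply Equiv.ext
    intro g
    apply Subtype.ext
    funext x
    exact hVM g.1 g.2 _ hk x
  -- nontrivial
  obtain ⟨h1, hh1⟩ := hne
  have hR1 : (⟨R 1, AddSubgroup.subset_closure ⟨1, rfl⟩⟩ : M) ≠ 0 := by
    intro h
    have h2 : R 1 = 0 := congrArg Subtype.val h
    have h3 := congrFun h2 h1
    simp only [R, mul_one] at h3
    exact hh1 h3
  have hdvd : p ∣ Nat.card M := by
    have h1 : addOrderOf (⟨R 1, AddSubgroup.subset_closure ⟨1, rfl⟩⟩ : M) = p :=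
      addOrderOf_eq_prime (Subtype.ext (hpM _ (AddSubgroup.subset_closure ⟨1, rfl⟩))) hR1
    rw [← h1]
    exact addOrderOf_dvd_natCard _
  have h0fix : (0 : M) ∈ MulAction.fixedPoints P M := by
    rintro ⟨_, ⟨h, rfl⟩⟩
    apply Subtype.ext
    funext x
    rfl
  obtain ⟨b, hb, hb0⟩ := hPp.exists_fixed_point_of_prime_dvd_card_of_fixed_point M hdvd h0fix
  have hbfix : ∀ h0 x, b.1 (x * h0) = b.1 x := by
    intro h0 x
    have := hb ⟨MulAction.toPermHom H M h0, ⟨h0, rfl⟩⟩
    have h2 := congrFun (congrArg Subtype.val this) x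
    exact h2
  refine ⟨b.1, b.2, b.1 1, ?_, ?_⟩
  · intro h
    apply hb0
    apply Subtype.ext
    funext x
    have := hbfix x 1
    rw [one_mul] at this
    rw [this, h]
    rfl
  · intro h
    have := hbfix h 1
    rwa [one_mul] at this

end Pool.Agent.Helper911
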