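import Mathlib
import Pool.Agent.Helper911_Abs.Core
import Pool.Agent.Helper911_Abs.LA
import Pool.Agent.Helper911_Abs.LC1

set_option autoImplicit false
set_option linter.unusedSectionVars false
set_option maxHeartbeats 1000000

noncomputable section

open Topology Filter

namespace Pool.Agent.Helper911


variable {p : ℕ} {G : Type*} [Group G] [TopologicalSpace G] [IsTopologicalGroup G] [T2Space G]
  {W : Type*} [DecidableEq W] {F : Flag p G W} {C : Type*} [NormedField C] [IsUltrametricDist C]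
  {X : CharData F C} {R : SubRep X} {Om T : Finset W} {c : ℝ}



/-! ======= TARGET ======= -/

/-- the supremum on the cell is attained -/
theorem good_start_attain {rho : ℝ} (hd : Disc p C rho) {f : G → C} {u : W} {M : ℝ}
    (hM : TN F u f M) {y0 : G} (hy0 : y0 ∈ F.Nb) (h0 : 0 < ‖f (F.e u * y0)‖) :
    ∃ y1 ∈ F.Nb, ‖f (F.e u * y0)‖ ≤ ‖f (F.e u * y1)‖ ∧
      ∀ y ∈ F.Nb, ‖f (F.e u * y)‖ ≤ ‖f (F.e u * y1)‖ := by
  let S : Set ℝ := {r | ∃ y ∈ F.Nb, r = ‖f (F.e u * y)‖}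
  have hSb : BddAbove S := ⟨M, by rintro r ⟨y, hy, rfl⟩; exact hM y hy⟩
  have hSne : S.Nonempty := ⟨_, y0, hy0, rfl⟩
  have hs : ‖f (F.e u * y0)‖ ≤ sSup S := le_csSup hSb ⟨y0, hy0, rfl⟩
  have hspos : 0 < sSup S := h0.trans_le hs
  have hlt : rho * sSup S < sSup S := by nlinarith [hd.lt_one]
  obtain ⟨r, ⟨y1, hy1, rfl⟩, hr⟩ := exists_lt_of_lt_csSup hSne hlt
  have key : ∀ y ∈ F.Nb, ‖f (F.e u * y)‖ ≤ ‖f (F.e u * y1)‖ := by
    intro y hy
    by_contra hcon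
    push Not at hcon
    have hpos : 0 < ‖f (F.e u * y)‖ := (norm_nonneg _).trans_lt hcon
    have h1 : ‖f (F.e u * y1) / f (F.e u * y)‖ < 1 := by
      rw [norm_div, div_lt_one hpos]
      exact hcon
    have h2 := hd.gap _ h1
    rw [norm_div, div_le_iff₀ hpos] at h2
    have h3 : ‖f (F.e u * y)‖ ≤ sSup S := le_csSup hSb ⟨y, hy, rfl⟩
    have h4 : rho * ‖f (F.e u * y)‖ ≤ rho * sSup S := mul_le_mul_of_nonneg_left h3 hd.pos.le
    linarith
  exact ⟨y1, hy1, key y0 hy0, key⟩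

/-- the open unit ball as an additive subgroup -/
def good_start_I (C : Type*) [NormedField C] [IsUltrametricDist C] : AddSubgroup C where
  carrier := {x | ‖x‖ < 1}
  zero_mem' := by
    show ‖(0 : C)‖ < 1
    rw [norm_zero]; exact one_pos
  add_mem' := by
    intro a b ha hb
    exact lt_of_le_of_lt (IsUltrametricDist.norm_add_le_max a b) (max_lt ha hb)
  neg_mem' := by
    intro a ha
    show ‖-a‖ < 1
    rw [norm_neg]; exact ha

theorem good_start_mem {x : C} : x ∈ good_start_I C ↔ ‖x‖ < 1 := Iff.rfl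

/-- the function `f3` -/
theorem good_start_f3 {rho : ℝ} (hd : Disc p C rho) (D0 : CoreData X R Om T c)
    {A : Finset W} {A0 : ℝ} (hA : Isol D0 A A0) {u : W} (hu : u ∈ A)
    (hmax : ∀ w ∈ A, w ≠ u → ¬ wle F u w) {δ : ℝ} (hδ : 0 < δ) :
    ∃ f ∈ D0.V', TN F u f 1 ∧ (∃ q ∈ F.Q u, f (F.e u * q) = 1) ∧
      (∀ y ∈ F.Q u, 1 ≤ ‖f (F.e u * y)‖ → y ∈ F.Gam) ∧ ∀ w ∈ T \ A, TN F w f δ := by
  obtain ⟨A1, hA1, hrelc⟩ := D0.relc
  have hA0 : 0 < A0 := lt_of_lt_of_le one_pos hA.one_le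
  have hA1' : 0 < A1 := lt_of_lt_of_le one_pos hA1
  have huT : u ∈ T := hA.sub hu
  obtain ⟨ε0, hε0, he1, he2, he3⟩ : ∃ ε0 : ℝ, 0 < ε0 ∧ ε0 ≤ 1 / (2 * A0) ∧ 2 * A0 * ε0 ≤ δ ∧
      A1 * (2 * A0 * ε0) < 1 := by
    refine ⟨min (1 / (2 * A0)) (min (δ / (2 * A0)) (1 / (4 * A0 * A1))), by positivity,
      min_le_left _ _, ?_, ?_⟩
    · have h1 : min (1 / (2 * A0)) (min (δ / (2 * A0)) (1 / (4 * A0 * A1))) ≤ δ / (2 * A0) :=
        (min_le_right _ _).trans (min_le_left _ _)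
      calc 2 * A0 * min (1 / (2 * A0)) (min (δ / (2 * A0)) (1 / (4 * A0 * A1)))
          ≤ 2 * A0 * (δ / (2 * A0)) := by gcongr
        _ = δ := by field_simp
    · have h1 : min (1 / (2 * A0)) (min (δ / (2 * A0)) (1 / (4 * A0 * A1))) ≤ 1 / (4 * A0 * A1) :=
        (min_le_right _ _).trans (min_le_right _ _)
      calc A1 * (2 * A0 * min (1 / (2 * A0)) (min (δ / (2 * A0)) (1 / (4 * A0 * A1))))
          ≤ A1 * (2 * A0 * (1 / (4 * A0 * A1))) := by gcongr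
        _ = 1 / 2 := by field_simp; norm_num
        _ < 1 := by norm_num
  have hM0 : 0 < 2 * A0 * ε0 := by positivity
  obtain ⟨f1, hf1, ⟨u1, hu1, hf1u⟩, hf1T⟩ := hA.exist ε0 hε0
  have hsec1 : IsSec X f1 := R.sec f1 (D0.le hf1)
  obtain ⟨y0, hy0, hy0b⟩ : ∃ y0 ∈ F.Nb, 1 / (2 * A0) < ‖f1 (F.e u * y0)‖ := by
    by_contra hcon
    push Not at hcon
    have h1 : TN F u f1 (1 / (2 * A0)) := hcon
    have h2 := hA.compare u hu f1 hf1 (1 / (2 * A0)) (by positivity) h1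
      (fun w hw => TN_mono (hf1T w hw) he1) u1 hu1
    have h3 := h2 1 F.Nb.one_mem
    rw [mul_one] at h3
    have h4 : A0 * (1 / (2 * A0)) = 1 / 2 := by field_simp
    rw [h4] at h3
    linarith
  obtain ⟨M1, hM1⟩ := D0.topfin f1 hf1 u huT
  have hpos0 : 0 < ‖f1 (F.e u * y0)‖ := lt_trans (by positivity) hy0b
  obtain ⟨y1, hy1, hy01, hy1max⟩ := good_start_attain hd hM1 hy0 hpos0
  obtain ⟨s1, hs1, q1, hq1, hy1q⟩ := St_decomp (F := F) u y1 hy1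
  have hfq : f1 (F.e u * y1) = f1 (F.e u * q1) := by
    rw [hy1q, St_sec X hsec1 hs1]
  rw [hfq] at hy01
  have hb : 1 / (2 * A0) < ‖f1 (F.e u * q1)‖ := lt_of_lt_of_le hy0b hy01
  have hbpos : 0 < ‖f1 (F.e u * q1)‖ := lt_trans (by positivity) hb
  have hbne : f1 (F.e u * q1) ≠ 0 := norm_pos_iff.1 hbpos
  -- f2
  obtain ⟨f2, hf2⟩ : ∃ f2 : G → C, f2 = (f1 (F.e u * q1))⁻¹ • f1 := ⟨_, rfl⟩
  have hf2V : f2 ∈ D0.V' := by rw [hf2]; exact D0.V'.smul_mem _ hf1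
  have hf2u : TN F u f2 1 := by
    intro y hy
    rw [hf2]
    show ‖(f1 (F.e u * q1))⁻¹ * f1 (F.e u * y)‖ ≤ 1
    rw [norm_mul, norm_inv, inv_mul_le_iff₀ hbpos, mul_one, ← hfq]
    exact hy1max y hy
  have hf2q : f2 (F.e u * q1) = 1 := by
    rw [hf2]
    show (f1 (F.e u * q1))⁻¹ * f1 (F.e u * q1) = 1
    exact inv_mul_cancel₀ hbne
  have hf2T : ∀ w ∈ T \ A, TN F w f2 (2 * A0 * ε0) := by
    intro w hw
    rw [hf2]
    refine TN_mono (TN_smul (hf1T w hw) _) ?_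
    rw [norm_inv]
    have h1 : ‖f1 (F.e u * q1)‖⁻¹ ≤ 2 * A0 := by
      rw [inv_le_comm₀ hbpos (by positivity)]
      have := hb.le
      rwa [one_div] at this
    gcongr
  have hsec2 : IsSec X f2 := R.sec f2 (D0.le hf2V)
  obtain ⟨m, hm⟩ := hrelc u huT f2 hf2V (2 * A0 * ε0) hM0 (by
    intro w hw hne hle
    apply hf2T w
    rw [Finset.mem_sdiff]
    exact ⟨hw, fun hwA => hmax w hwA hne hle⟩)
  have hzm : F.z ^ m ∈ F.Z := zpow_mem_Z F m
  have hzmi : (F.z ^ m)⁻¹ ∈ F.Z := F.Z.inv_mem hzm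
  have hchine : X.chi (F.e u * F.z ^ m * (F.e u)⁻¹) ≠ 0 := X.chi_ne _ (conj_e_pow F u m)
  obtain ⟨f3, hf3⟩ : ∃ f3 : G → C, f3 = (X.chi (F.e u * F.z ^ m * (F.e u)⁻¹))⁻¹ •
    tr (F.z ^ m) f2 := ⟨_, rfl⟩
  have hf3V : f3 ∈ D0.V' := by
    rw [hf3]
    exact D0.V'.smul_mem _ (D0.stab_Z f2 hf2V _ hzm)
  have hval : ∀ y, f3 (F.e u * y) = f2 (F.e u * ((F.z ^ m)⁻¹ * y * F.z ^ m)) := by
    intro y
    rw [hf3]
    show (X.chi (F.e u * F.z ^ m * (F.e u)⁻¹))⁻¹ * f2 (F.e u * y * F.z ^ m) = _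
    rw [sec_tr_Z X hsec2 u hzm y, ← mul_assoc, inv_mul_cancel₀ hchine, one_mul]
  refine ⟨f3, hf3V, ?_, ⟨F.z ^ m * q1 * (F.z ^ m)⁻¹, F.conj_Q u _ hzm q1 hq1, ?_⟩, ?_, ?_⟩
  · intro y hy
    rw [hval]
    apply hf2u
    have := F.conj_Nb _ hzmi y hy
    rwa [inv_inv] at this
  · rw [hval, ← hf2q]
    congr 2
    group
  · intro y hy h1
    rw [hval] at h1
    have h2 : (F.z ^ m)⁻¹ * y * F.z ^ m ∈ F.Q u := by
      have := F.conj_Q u _ hzmi y hy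
      rwa [inv_inv] at this
    have h3 := hm _ h2 (lt_of_lt_of_le he3 h1)
    have h4 : F.z ^ m * ((F.z ^ m)⁻¹ * y * F.z ^ m) * (F.z ^ m)⁻¹ = y := by group
    rwa [h4] at h3
  · intro w hw
    have hwT : w ∈ T := (Finset.mem_sdiff.1 hw).1
    rw [hf3]
    have h1 := TN_smul (TN_tr_Z X hsec2 (hf2T w hw) hzm) (X.chi (F.e u * F.z ^ m * (F.e u)⁻¹))⁻¹
    refine TN_mono h1 ?_
    rw [norm_inv, norm_chi_zpow, norm_chi_zpow, D0.cw_T u huT, D0.cw_T w hwT, ← mul_assoc,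
      inv_mul_cancel₀ (pow_pos D0.c_pos m).ne', one_mul]
    exact he2

/-- the invariants are inherited by the additive closure -/
theorem good_start_clos (D0 : CoreData X R Om T c) {A : Finset W} {u : W} {δ : ℝ} (hδ : 0 < δ)
    {f : G → C} (hfV : f ∈ D0.V') (hfu : TN F u f 1)
    (hfG : ∀ y ∈ F.Q u, 1 ≤ ‖f (F.e u * y)‖ → y ∈ F.Gam) (hfT : ∀ w ∈ T \ A, TN F w f δ)
    (g' : (↥(F.Q u ⊓ F.Gam)) → C ⧸ good_start_I C)
    (hg' : g' ∈ AddSubgroup.closure (Set.range fun h0 : ↥(F.Q u ⊓ F.Gam) =>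
      fun h : ↥(F.Q u ⊓ F.Gam) => (QuotientAddGroup.mk (f (F.e u * ((h * h0 : ↥(F.Q u ⊓ F.Gam)) : G))) :
        C ⧸ good_start_I C))) :
    ∃ g ∈ D0.V', TN F u g 1 ∧ (∀ w ∈ T \ A, TN F w g δ) ∧
      (∀ y ∈ F.Q u, y ∉ F.Gam → ‖g (F.e u * y)‖ < 1) ∧
      ∀ h : ↥(F.Q u ⊓ F.Gam), (QuotientAddGroup.mk (g (F.e u * (h : G))) : C ⧸ good_start_I C) =
        g' h := by
  induction hg' using AddSubgroup.closure_induction with
  | mem x hx =>
    obtain ⟨h0, rfl⟩ := hx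
    have h0Q : (h0 : G) ∈ F.Q u := h0.2.1
    have h0G : (h0 : G) ∈ F.Gam := h0.2.2
    have h0N : (h0 : G) ∈ F.Nb := F.Q_le u h0Q
    refine ⟨tr (h0 : G) f, D0.stab_Nb f hfV _ h0N, TN_tr_Nb hfu h0N,
      fun w hw => TN_tr_Nb (hfT w hw) h0N, fun y hy hyG => ?_, fun h => ?_⟩
    · by_contra hcon
      push Not at hcon
      rw [tr_apply, mul_assoc] at hcon
      have h1 := hfG _ ((F.Q u).mul_mem hy h0Q) hcon
      apply hyG
      have h2 := F.Gam.mul_mem h1 (F.Gam.inv_mem h0G)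
      rwa [mul_inv_cancel_right] at h2
    · rw [tr_apply, mul_assoc]
      rfl
  | zero =>
    refine ⟨0, D0.V'.zero_mem, fun y _ => ?_, fun w _ y _ => ?_, fun y _ _ => ?_, fun h => ?_⟩
    · show ‖(0 : C)‖ ≤ 1
      rw [norm_zero]; exact zero_le_one
    · show ‖(0 : C)‖ ≤ δ
      rw [norm_zero]; exact hδ.le
    · show ‖(0 : C)‖ < 1
      rw [norm_zero]; exact one_pos
    · rfl
  | add x y _ _ hx hy =>
    obtain ⟨g1, a1, a2, a3, a4, a5⟩ := hx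
    obtain ⟨g2, b1, b2, b3, b4, b5⟩ := hy
    refine ⟨g1 + g2, D0.V'.add_mem a1 b1, TN_add a2 b2, fun w hw => TN_add (a3 w hw) (b3 w hw),
      fun y hy hyG => ?_, fun h => ?_⟩
    · exact lt_of_le_of_lt (IsUltrametricDist.norm_add_le_max _ _)
        (max_lt (a4 y hy hyG) (b4 y hy hyG))
    · rw [Pi.add_apply, Pi.add_apply, ← a5 h, ← b5 h]
      rfl
  | neg x _ hx =>
    obtain ⟨g1, a1, a2, a3, a4, a5⟩ := hx
    refine ⟨-g1, D0.V'.neg_mem a1, fun y hy => ?_, fun w hw y hy => ?_, fun y hy hyG => ?_,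
      fun h => ?_⟩
    · rw [Pi.neg_apply, norm_neg]; exact a2 y hy
    · rw [Pi.neg_apply, norm_neg]; exact a3 w hw y hy
    · rw [Pi.neg_apply, norm_neg]; exact a4 y hy hyG
    · rw [Pi.neg_apply, Pi.neg_apply, ← a5 h]
      rfl

/-- TARGET.
Proof. Let `A1` be the constant in `D0.relc`. Choose `ε0 > 0` with `ε0 ≤ 1/(2 A0)`, `2 A0 ε0 ≤ δ`, `A1 (2 A0 ε0) < 1`. Take `f1`
from `hA.exist ε0`. If `TN u f1 (1/(2 A0))` then by `hA.compare u` (with `M = 1/(2 A0) ≥ ε0`) `‖f1 (e w)‖ ≤ 1/2` for all `w ∈ A`,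
contradiction; so some `y ∈ Nb` has `‖f1 (e_u y)‖ > 1/(2 A0)`. By `D0.topfin` the values `‖f1 (e_u y)‖`, `y ∈ Nb`, are bounded, and by
`hd.gap` their supremum `s` is attained (choose `y1` with `‖f1 (e_u y1)‖ > rho * s`; a value `> ‖f1 (e_u y1)‖` would be `≥ rho⁻¹ ‖f1 (e_u y1)‖ > s`). Let `y1` attain it,
by `St_decomp` and `St_sec` we may take `y1 ∈ Q u`. Put `f2 = (f1 (e_u y1))⁻¹ • f1`: `TN u f2 1`, `f2 (e_u y1) = 1`, and `TN w f2 (2 A0 ε0)` for `w ∈ T \ A`.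
By `relc` with `M = 2 A0 ε0` (if `w ∈ T`, `w ≠ u`, `wle u w` then `w ∉ A` by `hmax`) there is `m` with: `y ∈ Q u`, `A1 M < ‖f2 (e_u y)‖` implies
`z^m y z^{-m} ∈ Gam`. Put `f3 = χ(e_u z^m e_u⁻¹)⁻¹ • tr (z^m) f2`, in `V'`. By `sec_tr_Z`, `f3 (e_u y) = f2 (e_u (z^{-m} y z^m))`. So
`TN u f3 1`; `‖f3 (e_u q)‖ = 1` for `q = z^m y1 z^{-m}`; and `y ∈ Q u`, `1 ≤ ‖f3 (e_u y)‖` implies `y ∈ Gam`; in particular `q ∈ Gam`. `TN w f3 (2 A0 ε0)` for
`w ∈ T \ A` (both characters have norm `c^m`, `TN_tr_Z`, `norm_chi_zpow`, `D0.cw_T`).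
Now let `H = Q u ⊓ Gam` (a compact topological group, `QG_compact`; `F.prop` gives the hypothesis on powers), `I = {x : C | ‖x‖ < 1}` as an additive subgroup
of `C`, and `fbar : H → C ⧸ I`, `fbar h = class of f3 (e_u h)`. It is locally constant (`f3` is continuous and `I` is open), `p • fbar = 0` since `‖p‖ < 1` and
`‖f3 (e_u h)‖ ≤ 1`, and nonzero at `q`. By `pgroup_const` an element of the additive group generated by the translates of `fbar` is a nonzero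
constant; this element is the reduction of some `g` in the additive subgroup generated by the functions `tr h f3`, `h ∈ H`. Such `g` satisfies
(by `AddSubgroup.closure_induction`): `g ∈ V'`, `TN u g 1`, `TN w g (2 A0 ε0)` for `w ∈ T \ A`, `‖g (e_u y)‖ < 1` for `y ∈ Q u`, `y ∉ Gam`. And
`‖g (e_u y) - g (e_u)‖ < 1` for `y ∈ H`, `‖g (e_u)‖ = 1` (not `< 1` as the constant is nonzero). Divide by `g (e_u)`, and use `hd.gap`. -/
theorem good_start [Fact p.Prime] {rho : ℝ} (hd : Disc p C rho) (D0 : CoreData X R Om T c)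
    {A : Finset W} {A0 : ℝ} (hA : Isol D0 A A0) {u : W} (hu : u ∈ A)
    (hmax : ∀ w ∈ A, w ≠ u → ¬ wle F u w) {δ : ℝ} (hδ : 0 < δ) :
    ∃ g ∈ D0.V', (∀ y ∈ F.Q u, y ∈ F.Gam → ‖g (F.e u * y) - 1‖ ≤ rho) ∧
      (∀ y ∈ F.Q u, y ∉ F.Gam → ‖g (F.e u * y)‖ ≤ rho) ∧ ∀ w ∈ T \ A, TN F w g δ := by
  obtain ⟨f, hfV, hfu, ⟨q, hq, hfq⟩, hfG, hfT⟩ := good_start_f3 hd D0 hA hu hmax hδ
  have hsec : IsSec X f := R.sec f (D0.le hfV)
  have hqG : q ∈ F.Gam := hfG q hq (by rw [hfq, norm_one])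
  have : CompactSpace ↥(F.Q u ⊓ F.Gam) := by
    apply isCompact_iff_compactSpace.1
    exact QG_compact F u
  have hcont : Continuous fun h : ↥(F.Q u ⊓ F.Gam) => f (F.e u * (h : G)) :=
    hsec.1.comp (continuous_const.mul continuous_subtype_val)
  have hN : ∀ h : ↥(F.Q u ⊓ F.Gam), (h : G) ∈ F.Nb := fun h => F.Q_le u h.2.1
  obtain ⟨g', hg', a, ha, hga⟩ := pgroup_const (p := p) (H := ↥(F.Q u ⊓ F.Gam))
    (A := C ⧸ good_start_I C) (by
      intro h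
      rw [tendsto_subtype_rng]
      have := F.prop (h : G) (hN h) h.2.2
      exact this)
    (fun h : ↥(F.Q u ⊓ F.Gam) => (QuotientAddGroup.mk (f (F.e u * (h : G))) : C ⧸ good_start_I C))
    (by
      rw [IsLocallyConstant.iff_eventually_eq]
      intro h
      have h1 : ∀ᶠ h' : ↥(F.Q u ⊓ F.Gam) in 𝓝 h,
          f (F.e u * (h' : G)) ∈ Metric.ball (f (F.e u * (h : G))) 1 :=
        hcont.continuousAt (Metric.ball_mem_nhds _ one_pos)
      filter_upwards [h1] with h' hh'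
      rw [Metric.mem_ball, dist_eq_norm] at hh'
      rw [QuotientAddGroup.eq, good_start_mem, neg_add_eq_sub, norm_sub_rev]
      exact hh')
    (by
      intro h
      have h1 : ‖f (F.e u * (h : G))‖ ≤ 1 := hfu _ (hN h)
      have h2 : p • (QuotientAddGroup.mk (f (F.e u * (h : G))) : C ⧸ good_start_I C) =
          QuotientAddGroup.mk (p • f (F.e u * (h : G))) := rfl
      rw [h2, QuotientAddGroup.eq_zero_iff, good_start_mem, nsmul_eq_mul, norm_mul]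
      calc ‖(p : C)‖ * ‖f (F.e u * (h : G))‖ ≤ ‖(p : C)‖ * 1 := by gcongr
        _ = ‖(p : C)‖ := mul_one _
        _ < 1 := hd.norm_p)
    ⟨⟨q, hq, hqG⟩, by
      intro h1
      rw [QuotientAddGroup.eq_zero_iff, good_start_mem] at h1
      rw [hfq, norm_one] at h1
      exact lt_irrefl _ h1⟩
  obtain ⟨g, hgV, hgu, hgT, hgn, hgm⟩ := good_start_clos D0 hδ hfV hfu hfG hfT g' hg'
  have hdiff : ∀ y ∈ F.Q u, y ∈ F.Gam → ‖g (F.e u * y) - g (F.e u)‖ < 1 := by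
    intro y hy hyG
    have h1 := hgm ⟨y, hy, hyG⟩
    have h2 := hgm 1
    rw [hga] at h1 h2
    rw [← h1] at h2
    have h3 := QuotientAddGroup.eq.1 h2
    rw [good_start_mem, neg_add_eq_sub] at h3
    have h4 : F.e u * ((1 : ↥(F.Q u ⊓ F.Gam)) : G) = F.e u := by
      rw [Subgroup.coe_one, mul_one]
    rw [h4] at h3
    exact h3
  have hge : ‖g (F.e u)‖ = 1 := by
    have h1 : ‖g (F.e u)‖ ≤ 1 := by
      have := hgu 1 F.Nb.one_mem
      rwa [mul_one] at this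
    refine le_antisymm h1 ?_
    by_contra hcon
    push Not at hcon
    apply ha
    have h2 := hgm 1
    rw [hga, Subgroup.coe_one, mul_one] at h2
    rw [← h2, QuotientAddGroup.eq_zero_iff, good_start_mem]
    exact hcon
  have hgne : g (F.e u) ≠ 0 := by
    intro h0
    rw [h0, norm_zero] at hge
    exact zero_ne_one hge
  refine ⟨(g (F.e u))⁻¹ • g, D0.V'.smul_mem _ hgV, fun y hy hyG => ?_, fun y hy hyG => ?_,
    fun w hw => ?_⟩
  · apply hd.gap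
    show ‖(g (F.e u))⁻¹ * g (F.e u * y) - 1‖ < 1
    have h1 : (g (F.e u))⁻¹ * g (F.e u * y) - 1 = (g (F.e u))⁻¹ * (g (F.e u * y) - g (F.e u)) := by
      rw [mul_sub, inv_mul_cancel₀ hgne]
    rw [h1, norm_mul, norm_inv, hge, inv_one, one_mul]
    exact hdiff y hy hyG
  · apply hd.gap
    show ‖(g (F.e u))⁻¹ * g (F.e u * y)‖ < 1
    rw [norm_mul, norm_inv, hge, inv_one, one_mul]
    exact hgn y hy hyG
  · have h1 := TN_smul (hgT w hw) (g (F.e u))⁻¹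
    rw [norm_inv, hge, inv_one, one_mul] at h1
    exact h1
end Pool.Agent.Helper911
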