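import Mathlib
import Pool.Agent.Helper911_Abs.Core
import Pool.Agent.Helper911_Abs.LA
import Pool.Agent.Helper911_Abs.LC2

set_option autoImplicit false
set_option linter.unusedSectionVars false
set_option maxHeartbeats 1000000

noncomputable section

open Topology Filter

namespace Pool.Agent.Helper911


variable {p : ℕ} {G : Type*} [Group G] [TopologicalSpace G] [IsTopologicalGroup G] [T2Space G]
  {W : Type*} [DecidableEq W] {F : Flag p G W} {C : Type*} [NormedField C] [IsUltrametricDist C]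
  {X : CharData F C} {R : SubRep X} {Om T : Finset W} {c : ℝ}



/-! ======= AUXILIARY LEMMAS ======= -/

theorem good_exists_aux_sum {ι : Type*} (s : Finset ι) (f : ι → C) {M : ℝ} (hM : 0 ≤ M)
    (hf : ∀ i ∈ s, ‖f i‖ ≤ M) : ‖∑ i ∈ s, f i‖ ≤ M :=
  IsUltrametricDist.norm_sum_le_of_forall_le_of_nonneg hM hf

theorem good_exists_aux_sub {a b : C} {M : ℝ} (ha : ‖a‖ ≤ M) (hb : ‖b‖ ≤ M) : ‖a - b‖ ≤ M := by
  rw [sub_eq_add_neg]
  refine (IsUltrametricDist.norm_add_le_max a (-b)).trans (max_le ha ?_)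
  rwa [norm_neg]

/-- The compact subgroup of the `y ∈ Q u` with `z^m y z^{-m} ∈ Gam`. -/
def GKm (F : Flag p G W) (u : W) (m : ℕ) : Set G :=
  {y | y ∈ F.Q u ∧ F.z ^ m * y * (F.z ^ m)⁻¹ ∈ F.Gam}

theorem GKm_compact (F : Flag p G W) (u : W) (m : ℕ) : IsCompact (GKm F u m) := by
  have h1 : GKm F u m = (fun y => (F.z ^ m)⁻¹ * y * F.z ^ m) '' {y : G | y ∈ F.Q u ∧ y ∈ F.Gam} := by
    ext y
    constructor
    · rintro ⟨h1, h2⟩
      refine ⟨F.z ^ m * y * (F.z ^ m)⁻¹, ⟨F.conj_Q u _ (zpow_mem_Z F m) y h1, h2⟩, ?_⟩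
      simp only
      group
    · rintro ⟨q, ⟨h1, h2⟩, rfl⟩
      refine ⟨?_, ?_⟩
      · have h3 := F.conj_Q u _ (F.Z.inv_mem (zpow_mem_Z F m)) q h1
        simpa using h3
      · have : F.z ^ m * ((F.z ^ m)⁻¹ * q * F.z ^ m) * (F.z ^ m)⁻¹ = q := by group
        simp only
        rw [this]
        exact h2
  rw [h1]
  apply (QG_compact F u).image
  fun_prop

theorem GKm_mul {u : W} {m : ℕ} {x y : G} (hx : x ∈ GKm F u m) (hy : y ∈ GKm F u m) :
    x * y ∈ GKm F u m := by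
  refine ⟨(F.Q u).mul_mem hx.1 hy.1, ?_⟩
  have : F.z ^ m * (x * y) * (F.z ^ m)⁻¹
      = (F.z ^ m * x * (F.z ^ m)⁻¹) * (F.z ^ m * y * (F.z ^ m)⁻¹) := by group
  rw [this]
  exact F.Gam.mul_mem hx.2 hy.2

theorem GKm_of_Gam {u : W} (m : ℕ) {y : G} (hy : y ∈ F.Q u) (hG : y ∈ F.Gam) :
    y ∈ GKm F u m := ⟨hy, shrink_Nb_pow F m y (F.Q_le u hy) hG⟩

/-- The subgroup `Nl`. -/
def GNl (F : Flag p G W) (u : W) (l : ℕ) : Subgroup G where
  carrier := Nl F u l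
  mul_mem' := fun hx hy => Nl_mul hx hy
  one_mem' := Nl_one u l
  inv_mem' := fun hx => Nl_inv hx

theorem mem_GNl {u : W} {l : ℕ} {x : G} : x ∈ GNl F u l ↔ x ∈ Nl F u l := Iff.rfl

/-- Finitely many representatives of the cosets of `Nl`. -/
theorem good_exists_aux_reps (F : Flag p G W) (u : W) (m l : ℕ) (hl : Nl F u l ⊆ GKm F u m) :
    ∃ J : Finset G, (∀ j ∈ J, j ∈ GKm F u m) ∧
      (∀ y ∈ GKm F u m, ∃ j ∈ J, y * j⁻¹ ∈ Nl F u l) ∧
      ∀ y, ∀ j ∈ J, ∀ j' ∈ J, y * j⁻¹ ∈ Nl F u l → y * j'⁻¹ ∈ Nl F u l → j = j' := by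
  classical
  obtain ⟨-, O, hO, hNO⟩ := Nl_CO F u l
  have hsub : ∀ x, x ∈ O → x ∈ F.Q u → x ∈ Nl F u l := fun x h1 h2 => by
    rw [hNO]; exact ⟨h1, h2⟩
  have h1O : (1 : G) ∈ O := by
    have h := Nl_one (F := F) u l
    rw [hNO] at h
    exact h.1
  obtain ⟨J0, hJ0, hcov⟩ := (GKm_compact F u m).elim_finite_subcover_image
    (b := GKm F u m) (c := fun j => {y | y * j⁻¹ ∈ O})
    (fun j _ => hO.preimage (continuous_mul_right _)) (by
      intro y hy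
      simp only [Set.mem_iUnion]
      exact ⟨y, hy, by simpa using h1O⟩)
  obtain ⟨hfin, hcov⟩ := hcov
  let H := GNl F u l
  let cc : G → G := fun j => Quotient.out (Quotient.mk (QuotientGroup.rightRel H) j)
  have hcc : ∀ j, j * (cc j)⁻¹ ∈ H := by
    intro j
    have h1 : (QuotientGroup.rightRel H) (cc j) j := Quotient.mk_out (s := QuotientGroup.rightRel H) j
    exact QuotientGroup.rightRel_apply.1 h1
  refine ⟨hfin.toFinset.image cc, ?_, ?_, ?_⟩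
  · intro j hj
    obtain ⟨a, ha, rfl⟩ := Finset.mem_image.1 hj
    have ha' : a ∈ GKm F u m := hJ0 ((Set.Finite.mem_toFinset _).1 ha)
    have h2 : cc a = (a * (cc a)⁻¹)⁻¹ * a := by group
    rw [h2]
    exact GKm_mul (hl (mem_GNl.1 (H.inv_mem (hcc a)))) ha'
  · intro y hy
    have h3 := hcov hy
    simp only [Set.mem_iUnion] at h3
    obtain ⟨a, ha, hya⟩ := h3
    refine ⟨cc a, Finset.mem_image_of_mem _ ((Set.Finite.mem_toFinset _).2 ha), ?_⟩
    have h4 : y * a⁻¹ ∈ H := hsub _ hya ((F.Q u).mul_mem hy.1 ((F.Q u).inv_mem (hJ0 ha).1))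
    have h5 : y * (cc a)⁻¹ = (y * a⁻¹) * (a * (cc a)⁻¹) := by group
    rw [h5]
    exact mem_GNl.1 (H.mul_mem h4 (hcc a))
  · intro y j hj j' hj' h1 h2
    obtain ⟨a, ha, rfl⟩ := Finset.mem_image.1 hj
    obtain ⟨b, hb, rfl⟩ := Finset.mem_image.1 hj'
    have h3 : b * a⁻¹ ∈ H := by
      have : b * a⁻¹ = (b * (cc b)⁻¹) * (y * (cc b)⁻¹)⁻¹ * (y * (cc a)⁻¹) * (a * (cc a)⁻¹)⁻¹ := by
        group
      rw [this]
      exact H.mul_mem (H.mul_mem (H.mul_mem (hcc b) (H.inv_mem h2)) h1) (H.inv_mem (hcc a))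
    have h4 : Quotient.mk (QuotientGroup.rightRel H) a = Quotient.mk (QuotientGroup.rightRel H) b :=
      Quotient.sound (QuotientGroup.rightRel_apply.2 h3)
    change Quotient.out _ = Quotient.out _
    rw [h4]

/-- Uniform continuity. -/
theorem good_exists_aux_unif (F : Flag p G W) (u : W) {g0 : G → C} (hg : Continuous g0) {K : Set G}
    (hK : IsCompact K) {η : ℝ} (hη : 0 < η) : ∃ l : ℕ, Nl F u l ⊆ (F.Gam : Set G) ∧
      ∀ x ∈ Nl F u l, ∀ y ∈ K, ‖g0 (F.e u * (x * y)) - g0 (F.e u * y)‖ ≤ η := by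
  have hcont : Continuous (fun q : G × G => ‖g0 (F.e u * (q.1 * q.2)) - g0 (F.e u * q.2)‖) := by
    fun_prop
  have hopen : IsOpen {q : G × G | ‖g0 (F.e u * (q.1 * q.2)) - g0 (F.e u * q.2)‖ < η} :=
    isOpen_lt hcont continuous_const
  obtain ⟨U, V, hU, hV, h1U, hKV, hUV⟩ := generalized_tube_lemma (isCompact_singleton (x := (1 : G)))
    hK hopen (by
      rintro ⟨x, y⟩ ⟨hx, -⟩
      have hx' : x = 1 := hx
      subst hx'
      simp [hη])
  have hUn : U ∩ (F.Gam : Set G) ∈ 𝓝 (1 : G) :=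
    Filter.inter_mem (hU.mem_nhds (h1U rfl)) (F.Gam_open.mem_nhds F.Gam.one_mem)
  obtain ⟨l0, hl0⟩ := Nl_small F u _ hUn
  refine ⟨l0, fun x hx => (hl0 l0 le_rfl hx).2, fun x hx y hy => ?_⟩
  have h1 : (x, y) ∈ U ×ˢ V := ⟨(hl0 l0 le_rfl hx).1, hKV hy⟩
  have h2 := hUV h1
  exact le_of_lt h2

open Classical in
theorem good_exists_aux_step {rho : ℝ} (hrho0 : 0 < rho) (hrho1 : rho < 1)
    (D0 : CoreData X R Om T c)
    {A : Finset W} (hAT : A ⊆ T) {u : W} (hu : u ∈ A)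
    (hmax : ∀ w ∈ A, w ≠ u → ¬ wle F u w) {r : ℝ} (hr : 0 < r) (hrr : r ≤ rho)
    (hQ : ∀ δ : ℝ, 0 < δ → ∃ g ∈ D0.V', (∀ y ∈ F.Q u, y ∈ F.Gam → ‖g (F.e u * y) - 1‖ ≤ r) ∧
      (∀ y ∈ F.Q u, y ∉ F.Gam → ‖g (F.e u * y)‖ ≤ r) ∧ ∀ w ∈ T \ A, TN F w g δ)
    (δ : ℝ) (hδ : 0 < δ) :
    ∃ g ∈ D0.V', (∀ y ∈ F.Q u, y ∈ F.Gam → ‖g (F.e u * y) - 1‖ ≤ rho * r) ∧
      (∀ y ∈ F.Q u, y ∉ F.Gam → ‖g (F.e u * y)‖ ≤ rho * r) ∧ ∀ w ∈ T \ A, TN F w g δ := by
  obtain ⟨A1, hA1, hrelc⟩ := D0.relc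
  have hA1p : 0 < A1 := by linarith
  have hrr0 : 0 < rho * r := mul_pos hrho0 hr
  set δ0 := min δ (rho * r / A1) with hδ0
  have hδ0p : 0 < δ0 := lt_min hδ (div_pos hrr0 hA1p)
  have hδ0le : δ0 ≤ δ := min_le_left _ _
  have hδ0A : A1 * δ0 ≤ rho * r := by
    have h1 : δ0 ≤ rho * r / A1 := min_le_right _ _
    rw [le_div_iff₀ hA1p] at h1
    linarith
  obtain ⟨g0, hg0V, hg1, hg2, hg3⟩ := hQ δ0 hδ0p
  have hg0sec : IsSec X g0 := R.sec _ (D0.le hg0V)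
  have huT : u ∈ T := hAT hu
  obtain ⟨m, hm⟩ := hrelc u huT g0 hg0V δ0 hδ0p (by
    intro w hw hne hle
    apply hg3
    rw [Finset.mem_sdiff]
    exact ⟨hw, fun hwA => hmax w hwA hne hle⟩)
  -- the indicator and the error
  set ind : G → C := fun y => if y ∈ F.Gam then 1 else 0 with hind
  set E : G → C := fun y => g0 (F.e u * y) - ind y with hE
  have hEr : ∀ y ∈ F.Q u, ‖E y‖ ≤ r := by
    intro y hy
    by_cases hG : y ∈ F.Gam
    · simp only [hE, hind, if_pos hG]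
      exact hg1 y hy hG
    · simp only [hE, hind, if_neg hG, sub_zero]
      exact hg2 y hy hG
  have hEout : ∀ y ∈ F.Q u, y ∉ GKm F u m → ‖E y‖ ≤ rho * r := by
    intro y hy hK
    have hG : y ∉ F.Gam := fun hG => hK (GKm_of_Gam m hy hG)
    simp only [hE, hind, if_neg hG, sub_zero]
    by_contra hcon
    push Not at hcon
    exact hK ⟨hy, hm y hy (lt_of_le_of_lt hδ0A hcon)⟩
  obtain ⟨l, hlG, hlu⟩ := good_exists_aux_unif F u hg0sec.1 (GKm_compact F u m) hrr0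
  have hNK : Nl F u l ⊆ GKm F u m := fun x hx => GKm_of_Gam m hx.1 (hlG hx)
  have hEunif : ∀ x ∈ Nl F u l, ∀ y ∈ GKm F u m, ‖E (x * y) - E y‖ ≤ rho * r := by
    intro x hx y hy
    have hxG : x ∈ F.Gam := hlG hx
    have h1 : ind (x * y) = ind y := by
      simp only [hind]
      by_cases hG : y ∈ F.Gam
      · rw [if_pos hG, if_pos (F.Gam.mul_mem hxG hG)]
      · rw [if_neg hG, if_neg]
        intro h
        apply hG
        have : y = x⁻¹ * (x * y) := by group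
        rw [this]
        exact F.Gam.mul_mem (F.Gam.inv_mem hxG) h
    have h2 : E (x * y) - E y = g0 (F.e u * (x * y)) - g0 (F.e u * y) := by
      simp only [hE, h1]
      ring
    rw [h2]
    exact hlu x hx y hy
  obtain ⟨J, hJK, hJcov, hJuni⟩ := good_exists_aux_reps F u m l hNK
  -- the function `h`
  set ch : C := X.chi (F.e u * F.z ^ l * (F.e u)⁻¹) with hch
  have hchne : ch ≠ 0 := X.chi_ne _ (conj_e_pow F u l)
  have hchn : ‖ch‖ = c ^ l := by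
    rw [hch, norm_chi_zpow X u l, D0.cw_T u huT]
  have hcl : 0 < c ^ l := pow_pos D0.c_pos l
  set h : G → C := ch⁻¹ • tr (F.z ^ l) g0 with hh
  have hhV : h ∈ D0.V' := D0.V'.smul_mem _ (D0.stab_Z _ hg0V _ (zpow_mem_Z F l))
  have hhval : ∀ y ∈ F.Q u, h (F.e u * y)
      = (if y ∈ Nl F u l then 1 else 0) + E ((F.z ^ l)⁻¹ * y * F.z ^ l) := by
    intro y hy
    have h1 : h (F.e u * y) = g0 (F.e u * ((F.z ^ l)⁻¹ * y * F.z ^ l)) := by
      simp only [hh, Pi.smul_apply, tr_apply, smul_eq_mul]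
      rw [sec_tr_Z X hg0sec u (zpow_mem_Z F l) y, ← hch, ← mul_assoc, inv_mul_cancel₀ hchne,
        one_mul]
    rw [h1]
    simp only [hE, hind]
    by_cases hyN : y ∈ Nl F u l
    · rw [if_pos hyN, if_pos hyN.2]
      ring
    · have : (F.z ^ l)⁻¹ * y * F.z ^ l ∉ F.Gam := fun hG => hyN ⟨hy, hG⟩
      rw [if_neg hyN, if_neg this]
      ring
  have hconjQ : ∀ y ∈ F.Q u, (F.z ^ l)⁻¹ * y * F.z ^ l ∈ F.Q u := by
    intro y hy
    have h3 := F.conj_Q u _ (F.Z.inv_mem (zpow_mem_Z F l)) y hy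
    simpa using h3
  -- the improved function
  set g1 : G → C := g0 - ∑ j ∈ J, E j • tr j⁻¹ h with hg1def
  have hg1V : g1 ∈ D0.V' := by
    apply D0.V'.sub_mem hg0V
    apply D0.V'.sum_mem
    intro j hj
    apply D0.V'.smul_mem
    exact D0.stab_Nb _ hhV _ (F.Nb.inv_mem (F.Q_le u (hJK j hj).1))
  have hkey : ∀ y ∈ F.Q u, ‖g1 (F.e u * y) - ind y‖ ≤ rho * r := by
    intro y hy
    have h1 : g1 (F.e u * y) - ind y = (E y - ∑ j ∈ J, E j * (if y * j⁻¹ ∈ Nl F u l then 1 else 0))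
        - ∑ j ∈ J, E j * E ((F.z ^ l)⁻¹ * (y * j⁻¹) * F.z ^ l) := by
      have h2 : g1 (F.e u * y) = g0 (F.e u * y) - ∑ j ∈ J, E j *
          ((if y * j⁻¹ ∈ Nl F u l then 1 else 0) + E ((F.z ^ l)⁻¹ * (y * j⁻¹) * F.z ^ l)) := by
        simp only [hg1def, Pi.sub_apply, Finset.sum_apply, Pi.smul_apply, tr_apply, smul_eq_mul]
        congr 1
        refine Finset.sum_congr rfl fun j hj => ?_
        rw [mul_assoc (F.e u) y, hhval _ ((F.Q u).mul_mem hy ((F.Q u).inv_mem (hJK j hj).1))]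
      rw [h2]
      simp only [mul_add, Finset.sum_add_distrib]
      simp only [hE]
      ring
    rw [h1]
    apply good_exists_aux_sub
    · by_cases hyK : y ∈ GKm F u m
      · obtain ⟨j0, hj0, hyj0⟩ := hJcov y hyK
        have h3 : ∑ j ∈ J, E j * (if y * j⁻¹ ∈ Nl F u l then 1 else 0) = E j0 := by
          rw [Finset.sum_eq_single j0]
          · rw [if_pos hyj0, mul_one]
          · intro j hj hne
            rw [if_neg, mul_zero]
            intro hyj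
            exact hne (hJuni y j hj j0 hj0 hyj hyj0)
          · intro hnot
            exact absurd hj0 hnot
        rw [h3]
        have h4 := hEunif _ hyj0 j0 (hJK j0 hj0)
        have h5 : y * j0⁻¹ * j0 = y := by group
        rwa [h5] at h4
      · have h3 : ∑ j ∈ J, E j * (if y * j⁻¹ ∈ Nl F u l then 1 else 0) = 0 := by
          apply Finset.sum_eq_zero
          intro j hj
          rw [if_neg, mul_zero]
          intro hyj
          apply hyK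
          have h5 : y = y * j⁻¹ * j := by group
          rw [h5]
          exact GKm_mul (hNK hyj) (hJK j hj)
        rw [h3, sub_zero]
        exact hEout y hy hyK
    · apply good_exists_aux_sum _ _ hrr0.le
      intro j hj
      rw [norm_mul]
      have h4 := hEr j (hJK j hj).1
      have h5 := hEr _ (hconjQ _ ((F.Q u).mul_mem hy ((F.Q u).inv_mem (hJK j hj).1)))
      calc ‖E j‖ * ‖E ((F.z ^ l)⁻¹ * (y * j⁻¹) * F.z ^ l)‖ ≤ r * r :=
            mul_le_mul h4 h5 (norm_nonneg _) hr.le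
        _ ≤ rho * r := mul_le_mul_of_nonneg_right hrr hr.le
  refine ⟨g1, hg1V, ?_, ?_, ?_⟩
  · intro y hy hG
    have h1 := hkey y hy
    simp only [hind, if_pos hG] at h1
    exact h1
  · intro y hy hG
    have h1 := hkey y hy
    simp only [hind, if_neg hG, sub_zero] at h1
    exact h1
  · intro w hw
    have hwT : w ∈ T := (Finset.mem_sdiff.1 hw).1
    refine TN_mono (M := δ0) ?_ hδ0le
    apply TN_sub (hg3 w hw)
    apply TN_sum _ _ hδ0p.le
    intro j hj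
    have h1 : TN F w h δ0 := by
      have h2 := TN_smul (TN_tr_Z X hg0sec (hg3 w hw) (zpow_mem_Z F l)) ch⁻¹
      refine TN_mono h2 ?_
      rw [norm_inv, hchn, norm_chi_zpow X w l, D0.cw_T w hwT, ← mul_assoc, inv_mul_cancel₀ hcl.ne',
        one_mul]
    have h3 := TN_smul (TN_tr_Nb h1 (F.Nb.inv_mem (F.Q_le u (hJK j hj).1))) (E j)
    refine TN_mono h3 ?_
    have h4 : ‖E j‖ ≤ 1 := (hEr j (hJK j hj).1).trans (by linarith)
    calc ‖E j‖ * δ0 ≤ 1 * δ0 := mul_le_mul_of_nonneg_right h4 hδ0p.le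
      _ = δ0 := one_mul _

/-! ======= TARGET ======= -/

/-- TARGET.
Proof. For `r > 0` let `Q(r)` be the statement of `good_start` with `rho` replaced by `r` in the two bounds (for all `δ > 0`). `Q(rho)` is
`good_start`. Claim: `Q(r)` implies `Q(rho * r)` for `0 < r ≤ rho`. Then `Q(rho^(k+1))` for all `k`, and the theorem follows with `rho^(k+1) ≤ ε`, `δ = ε`.
Proof of the claim. Let `A1` be the constant of `D0.relc`, `δ0 = min δ (rho * r / A1)` and `g0` as in `Q(r)` for `δ0`. By `relc` with `M = δ0` (if `w ∈ T`,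
`w ≠ u`, `wle u w` then `w ∈ T \ A` by `hmax`) there is `m` such that `y ∈ Q u`, `rho * r < ‖g0 (e_u y)‖` implies `z^m y z^{-m} ∈ Gam`.
Let `E y = g0 (e_u y) - 1_Gam(y)` for `y ∈ Q u`; `‖E y‖ ≤ r`. Let `K_m = {y ∈ Q u | z^m y z^{-m} ∈ Gam}`, a compact group (image of `Q u ∩ Gam` under
conjugation by `z^{-m}`) containing `Q u ∩ Gam` (`shrink_Nb_pow`); `‖E y‖ ≤ rho * r` for `y ∈ Q u`, `y ∉ K_m`. By continuity of `g0`, compactness of `K_m`
and openness of `Gam` there is `l` (`Nl_small`) with `Nl u l ⊆ Gam` and `‖E (x y) - E y‖ ≤ rho * r` for `x ∈ Nl u l`, `y ∈ K_m` (tube lemma / uniform continuity;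
`x y ∈ Gam ↔ y ∈ Gam` for `x ∈ Gam`). Take a finite set `J ⊆ K_m` such that `K_m` is the disjoint union of the cosets `(Nl u l) y_j`, `y_j ∈ J`
(each `y ∈ K_m` has exactly one `j ∈ J` with `y j⁻¹ ∈ Nl u l`). Let `h = χ(e_u z^l e_u⁻¹)⁻¹ • tr (z^l) g0`; for `y ∈ Q u`,
`h (e_u y) = g0 (e_u (z^{-l} y z^l)) = 1_{Nl u l}(y) + E(z^{-l} y z^l)` (`sec_tr_Z`). Put `g1 = g0 - ∑_{j ∈ J} E(j) • tr j⁻¹ h`. Then for `y ∈ Q u`:
`g1 (e_u y) - 1_Gam(y) = E y - ∑_j E(j) 1_{Nl u l}(y j⁻¹) - ∑_j E(j) E(...)`; the last sum has norm `≤ r * r ≤ rho * r`; if `y ∉ K_m` the middle sum is `0`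
and `‖E y‖ ≤ rho * r`; if `y ∈ K_m` the middle sum is `E(j)` for the unique `j` with `y j⁻¹ ∈ Nl u l`, and `‖E y - E j‖ ≤ rho * r`. For `w ∈ T \ A`: `TN w g1 δ0`
(`TN_tr_Z`, `TN_tr_Nb`, `D0.cw_T`, `norm_chi_zpow`, `‖E j‖ ≤ r ≤ 1`). -/
theorem good_exists [Fact p.Prime] {rho : ℝ} (hd : Disc p C rho) (D0 : CoreData X R Om T c)
    {A : Finset W} {A0 : ℝ} (hA : Isol D0 A A0) {u : W} (hu : u ∈ A)
    (hmax : ∀ w ∈ A, w ≠ u → ¬ wle F u w) {ε : ℝ} (hε : 0 < ε) :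
    ∃ f, Good D0 A u (F.Gam : Set G) ε f := by
  have hrho0 := hd.pos
  have hrho1 := hd.lt_one
  have key : ∀ k : ℕ, ∀ δ : ℝ, 0 < δ → ∃ g ∈ D0.V',
      (∀ y ∈ F.Q u, y ∈ F.Gam → ‖g (F.e u * y) - 1‖ ≤ rho ^ (k + 1)) ∧
      (∀ y ∈ F.Q u, y ∉ F.Gam → ‖g (F.e u * y)‖ ≤ rho ^ (k + 1)) ∧
      ∀ w ∈ T \ A, TN F w g δ := by
    intro k
    induction k with
    | zero =>
      intro δ hδ
      rw [zero_add, pow_one]
      exact good_start hd D0 hA hu hmax hδ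
    | succ k ih =>
      intro δ hδ
      rw [pow_succ' rho (k + 1)]
      exact good_exists_aux_step hrho0 hrho1 D0 hA.sub hu hmax (pow_pos hrho0 _)
        (by
          rw [pow_succ]
          exact mul_le_of_le_one_left hrho0.le (pow_le_one₀ hrho0.le hrho1.le)) ih δ hδ
  obtain ⟨k, hk⟩ := exists_pow_lt_of_lt_one hε hrho1
  have hk' : rho ^ (k + 1) ≤ ε := by
    rw [pow_succ]
    have h1 : rho ^ k * rho ≤ rho ^ k * 1 :=
      mul_le_mul_of_nonneg_left hrho1.le (pow_nonneg hrho0.le k)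
    linarith
  obtain ⟨g, hgV, h1, h2, h3⟩ := key k ε hε
  exact ⟨g, hgV, fun y hy hG => (h1 y hy hG).trans hk', fun y hy hG => (h2 y hy hG).trans hk', h3⟩
end Pool.Agent.Helper911
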