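import Mathlib
import Pool.Agent.Helper911_Abs.Core
import Pool.Agent.Helper911_Abs.LA
import Pool.Agent.Helper911_Abs.LD

set_option autoImplicit false
set_option linter.unusedSectionVars false
set_option maxHeartbeats 1000000

noncomputable section

open Topology Filter

namespace Pool.Agent.Helper911


variable {p : ℕ} {G : Type*} [Group G] [TopologicalSpace G] [IsTopologicalGroup G] [T2Space G]
  {W : Type*} [DecidableEq W] {F : Flag p G W} {C : Type*} [NormedField C] [IsUltrametricDist C]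
  {X : CharData F C} {R : SubRep X} {Om T : Finset W} {c : ℝ}



/-! ======= TARGET ======= -/

namespace AuxCO

theorem ultra_sum_le {C : Type*} [NormedField C] [IsUltrametricDist C] {ι : Type*} (s : Finset ι)
    (f : ι → C) {M : ℝ} (hM : 0 ≤ M) (hf : ∀ i ∈ s, ‖f i‖ ≤ M) : ‖∑ i ∈ s, f i‖ ≤ M :=
  IsUltrametricDist.norm_sum_le_of_forall_le_of_nonneg hM hf

theorem ultra_add_le {C : Type*} [NormedField C] [IsUltrametricDist C] {x y : C} {M : ℝ}
    (hx : ‖x‖ ≤ M) (hy : ‖y‖ ≤ M) : ‖x + y‖ ≤ M :=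
  (IsUltrametricDist.norm_add_le_max x y).trans (max_le hx hy)

/-- the setoid of right cosets of `Nl` -/
def std (F : Flag p G W) (u : W) (l : ℕ) : Setoid G where
  r y y' := y * y'⁻¹ ∈ Nl F u l
  iseqv := by
    refine ⟨fun x => ?_, fun {x y} h => ?_, fun {x y z} h h' => ?_⟩
    · rw [mul_inv_cancel]; exact Nl_one u l
    · have := Nl_inv h
      rwa [mul_inv_rev, inv_inv] at this
    · have := Nl_mul h h'
      have e : x * y⁻¹ * (y * z⁻¹) = x * z⁻¹ := by group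
      rwa [e] at this

theorem exists_J {F : Flag p G W} {u : W} {D : Set G} (hD : CO F u D) : ∃ (l : ℕ) (J : Finset G),
    (∀ x ∈ Nl F u l, ∀ y ∈ D, x * y ∈ D) ∧ (∀ j ∈ J, j ∈ D) ∧ (∀ j ∈ J, j ∈ F.Q u) ∧
    (∀ y ∈ D, ∃ j ∈ J, y * j⁻¹ ∈ Nl F u l ∧ ∀ j' ∈ J, y * j'⁻¹ ∈ Nl F u l → j' = j) := by
  classical
  obtain ⟨hK, O, hO, hDO⟩ := hD
  have hsub : D ⊆ O := by
    intro x hx
    rw [hDO] at hx
    exact hx.1
  obtain ⟨V, hV, hVD⟩ := compact_open_separated_mul_left hK hO hsub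
  obtain ⟨l, hl0⟩ := Nl_small F u V hV
  have hl := hl0 l le_rfl
  have hNlQ : ∀ x ∈ Nl F u l, x ∈ F.Q u := fun x hx => hx.1
  have hDQ : ∀ y ∈ D, y ∈ F.Q u := by
    intro x hx
    rw [hDO] at hx
    exact hx.2
  have hstab : ∀ x ∈ Nl F u l, ∀ y ∈ D, x * y ∈ D := by
    intro x hx y hy
    have h1 : x * y ∈ O := hVD (Set.mul_mem_mul (hl hx) hy)
    have h2 : x * y ∈ F.Q u := (F.Q u).mul_mem (hNlQ x hx) (hDQ y hy)
    rw [hDO]
    exact ⟨h1, h2⟩
  obtain ⟨_, O1, hO1, hNl⟩ := Nl_CO F u l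
  have h1O1 : (1 : G) ∈ O1 := by
    have := Nl_one (F := F) u l
    rw [hNl] at this
    exact this.1
  obtain ⟨t, htD, htc⟩ := hK.elim_nhds_subcover (fun y => {g : G | g * y⁻¹ ∈ O1}) (by
    intro y _
    apply IsOpen.mem_nhds
    · exact hO1.preimage (continuous_id.mul continuous_const)
    · show y * y⁻¹ ∈ O1
      rw [mul_inv_cancel]; exact h1O1)
  set rep : G → G := fun y => (Quotient.out (Quotient.mk (std F u l) y)) with hrep
  have hrep1 : ∀ y, rep y * y⁻¹ ∈ Nl F u l := by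
    intro y
    have : (std F u l).r (rep y) y := Quotient.exact (s := std F u l) (Quotient.out_eq _)
    exact this
  have hrep2 : ∀ y y', y * y'⁻¹ ∈ Nl F u l → rep y = rep y' := by
    intro y y' h
    have : Quotient.mk (std F u l) y = Quotient.mk (std F u l) y' := Quotient.sound (s := std F u l) h
    simp only [hrep, this]
  have hJD : ∀ j ∈ t.image rep, j ∈ D := by
    intro j hj
    obtain ⟨y, hy, rfl⟩ := Finset.mem_image.1 hj
    have := hstab _ (hrep1 y) y (htD y hy)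
    rwa [inv_mul_cancel_right] at this
  refine ⟨l, t.image rep, hstab, hJD, fun j hj => hDQ j (hJD j hj), ?_⟩
  intro y hy
  obtain ⟨yi, hyi, hyy⟩ := Set.mem_iUnion₂.1 (htc hy)
  have hyy' : y * yi⁻¹ ∈ Nl F u l := by
    rw [hNl]
    exact ⟨hyy, (F.Q u).mul_mem (hDQ y hy) ((F.Q u).inv_mem (hDQ yi (htD yi hyi)))⟩
  have hyr : ∀ x, y * x⁻¹ ∈ Nl F u l → y * (rep x)⁻¹ ∈ Nl F u l := by
    intro x hx
    have h2 := Nl_inv (hrep1 x)
    have h3 := Nl_mul hx h2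
    have e : y * x⁻¹ * (rep x * x⁻¹)⁻¹ = y * (rep x)⁻¹ := by group
    rwa [e] at h3
  refine ⟨rep yi, Finset.mem_image_of_mem rep hyi, hyr yi hyy', ?_⟩
  intro j' hj' hyj'
  obtain ⟨y', hy', rfl⟩ := Finset.mem_image.1 hj'
  apply hrep2
  -- y' ~ yi
  have h1 : y * y'⁻¹ ∈ Nl F u l := by
    have h3 := Nl_mul hyj' (hrep1 y')
    have e : y * (rep y')⁻¹ * (rep y' * y'⁻¹) = y * y'⁻¹ := by group
    rwa [e] at h3
  have h2 := Nl_mul (Nl_inv h1) hyy'
  have e : (y * y'⁻¹)⁻¹ * (y * yi⁻¹) = y' * yi⁻¹ := by group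
  rwa [e] at h2

end AuxCO

/-- TARGET.
Proof. Take `g` with `Good D0 A u Gam ε g` (`good_exists`). As `D` is compact and open in `Q u`, there is `l` with `x y ∈ D` for all `x ∈ Nl u l`, `y ∈ D`
(`D = O ∩ Q u`; the tube lemma gives a neighbourhood `U` of `1` with `U * D ⊆ O`; `Nl_small`). So `D` is a finite disjoint union of cosets
`(Nl u l) y_j`, `y_j ∈ J ⊆ D` (compactness: the cosets are open in `Q u`; for each `y ∈ D` exactly one `j ∈ J` has `y j⁻¹ ∈ Nl u l`). Let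
`h = χ(e_u z^l e_u⁻¹)⁻¹ • tr (z^l) g` and `f = ∑_{j ∈ J} tr j⁻¹ h`. For `y ∈ Q u`: `h (e_u y) = g (e_u (z^{-l} y z^l))` (`sec_tr_Z`), which is within `ε`
of `1` if `y ∈ Nl u l` and within `ε` of `0` otherwise; so `f (e_u y) = ∑_j h (e_u (y j⁻¹))` is within `ε` (ultrametric) of the number of `j ∈ J`
with `y j⁻¹ ∈ Nl u l`, which is `1` if `y ∈ D` and `0` otherwise. On `T \ A`: `TN_tr_Z`, `norm_chi_zpow`, `D0.cw_T`, `TN_tr_Nb`, `TN_sum`. -/
theorem good_CO [Fact p.Prime] {rho : ℝ} (hd : Disc p C rho) (D0 : CoreData X R Om T c)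
    {A : Finset W} {A0 : ℝ} (hA : Isol D0 A A0) {u : W} (hu : u ∈ A)
    (hmax : ∀ w ∈ A, w ≠ u → ¬ wle F u w) {ε : ℝ} (hε : 0 < ε) (D : Set G) (hD : CO F u D) :
    ∃ f, Good D0 A u D ε f := by
  classical
  obtain ⟨g, hgV, hg1, hg0, hgT⟩ := good_exists hd D0 hA hu hmax hε
  obtain ⟨l, J, hstab, hJD, hJQ, hJ⟩ := AuxCO.exists_J hD
  have hzl : F.z ^ l ∈ F.Z := zpow_mem_Z F l
  set a : C := X.chi (F.e u * F.z ^ l * (F.e u)⁻¹) with ha
  have hna : ‖a‖ = c ^ l := by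
    rw [ha, norm_chi_zpow, D0.cw_T u (hA.sub hu)]
  have hcl : 0 < c ^ l := pow_pos D0.c_pos l
  have ha0 : a ≠ 0 := by
    rw [← norm_pos_iff, hna]; exact hcl
  have hgs : IsSec X g := R.sec g (D0.le hgV)
  set h : G → C := a⁻¹ • tr (F.z ^ l) g with hh
  have hhV : h ∈ D0.V' := D0.V'.smul_mem _ (D0.stab_Z g hgV _ hzl)
  have hhv : ∀ y, h (F.e u * y) = g (F.e u * ((F.z ^ l)⁻¹ * y * F.z ^ l)) := by
    intro y
    have e := sec_tr_Z X hgs u hzl y
    simp only [hh, Pi.smul_apply, tr_apply, smul_eq_mul]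
    rw [e, ← ha, ← mul_assoc, inv_mul_cancel₀ ha0, one_mul]
  have hQc : ∀ y ∈ F.Q u, (F.z ^ l)⁻¹ * y * F.z ^ l ∈ F.Q u := by
    intro y hy
    have := F.conj_Q u (F.z ^ l)⁻¹ (F.Z.inv_mem hzl) y hy
    rwa [inv_inv] at this
  have hh1 : ∀ y ∈ F.Q u, y ∈ Nl F u l → ‖h (F.e u * y) - 1‖ ≤ ε := by
    intro y hy hyN
    rw [hhv]
    exact hg1 _ (hQc y hy) hyN.2
  have hh0 : ∀ y ∈ F.Q u, y ∉ Nl F u l → ‖h (F.e u * y)‖ ≤ ε := by
    intro y hy hyN
    rw [hhv]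
    exact hg0 _ (hQc y hy) (fun hG => hyN ⟨hy, hG⟩)
  set f : G → C := ∑ j ∈ J, tr j⁻¹ h with hf
  have hfv : ∀ y, f (F.e u * y) = ∑ j ∈ J, h (F.e u * (y * j⁻¹)) := by
    intro y
    rw [hf, Finset.sum_apply]
    apply Finset.sum_congr rfl
    intro j _
    rw [tr_apply, mul_assoc]
  refine ⟨f, ?_, ?_, ?_, ?_⟩
  · apply Submodule.sum_mem
    intro j hj
    exact D0.stab_Nb h hhV _ (F.Nb.inv_mem (F.Q_le u (hJQ j hj)))
  · intro y hy hyD
    obtain ⟨j0, hj0, hyj0, huniq⟩ := hJ y hyD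
    rw [hfv, ← Finset.add_sum_erase J _ hj0]
    have e : h (F.e u * (y * j0⁻¹)) + ∑ j ∈ J.erase j0, h (F.e u * (y * j⁻¹)) - 1
        = (h (F.e u * (y * j0⁻¹)) - 1) + ∑ j ∈ J.erase j0, h (F.e u * (y * j⁻¹)) := by ring
    rw [e]
    apply AuxCO.ultra_add_le
    · exact hh1 _ ((F.Q u).mul_mem hy ((F.Q u).inv_mem (hJQ j0 hj0))) hyj0
    · apply AuxCO.ultra_sum_le _ _ hε.le
      intro j hj
      have hjJ := Finset.mem_of_mem_erase hj
      apply hh0 _ ((F.Q u).mul_mem hy ((F.Q u).inv_mem (hJQ j hjJ)))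
      intro hN
      exact Finset.ne_of_mem_erase hj (huniq j hjJ hN)
  · intro y hy hyD
    rw [hfv]
    apply AuxCO.ultra_sum_le _ _ hε.le
    intro j hj
    apply hh0 _ ((F.Q u).mul_mem hy ((F.Q u).inv_mem (hJQ j hj)))
    intro hN
    apply hyD
    have := hstab _ hN j (hJD j hj)
    rwa [inv_mul_cancel_right] at this
  · intro w hw
    apply TN_sum _ _ hε.le
    intro j hj
    apply TN_tr_Nb _ (F.Nb.inv_mem (F.Q_le u (hJQ j hj)))
    have hwT : w ∈ T := (Finset.mem_sdiff.1 hw).1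
    have h1 := TN_tr_Z X hgs (hgT w hw) hzl
    rw [norm_chi_zpow, D0.cw_T w hwT] at h1
    have h2 := TN_smul h1 a⁻¹
    rw [norm_inv, hna, ← mul_assoc, inv_mul_cancel₀ hcl.ne', one_mul] at h2
    exact h2
end Pool.Agent.Helper911
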