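import Mathlib
import Pool.Agent.Helper911_Abs.Core
import Pool.Agent.Helper911_Abs.LA
import Pool.Agent.Helper911_Abs.LE

set_option autoImplicit false
set_option linter.unusedSectionVars false
set_option maxHeartbeats 1000000

noncomputable section

open Topology Filter

namespace Pool.Agent.Helper911


variable {p : ℕ} {G : Type*} [Group G] [TopologicalSpace G] [IsTopologicalGroup G] [T2Space G]
  {W : Type*} [DecidableEq W] {F : Flag p G W} {C : Type*} [NormedField C] [IsUltrametricDist C]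
  {X : CharData F C} {R : SubRep X} {Om T : Finset W} {c : ℝ}



/-! ======= AUXILIARY ======= -/

/-- neighbourhood of `1` on which the ratio of two conjugated characters is close to `1` -/
theorem tc_nhds (X : CharData F C) (u u1 : W) {η : ℝ} (hη : 0 < η) :
    ∃ U ∈ 𝓝 (1 : G), ∀ t ∈ F.Z, t ∈ U → t ∈ F.K ∧
      ‖(X.chi (F.e u * t * (F.e u)⁻¹))⁻¹ * X.chi (F.e u1 * t * (F.e u1)⁻¹) - 1‖ ≤ η := by
  have hc : ∀ w : W, ContinuousWithinAt (fun t : G => X.chi (F.e w * t * (F.e w)⁻¹)) (F.Z : Set G) 1 := by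
    intro w
    have h1 : ContinuousWithinAt X.chi (F.B : Set G) (F.e w * 1 * (F.e w)⁻¹) :=
      X.chi_cont _ (F.Z_le (F.conj_Z w 1 F.Z.one_mem))
    refine ContinuousWithinAt.comp (t := (F.B : Set G)) h1 ?_ ?_
    · exact (Continuous.mul (continuous_const.mul continuous_id) continuous_const).continuousWithinAt
    · intro t ht
      exact F.Z_le (F.conj_Z w t ht)
  have h1 : ∀ w : W, X.chi (F.e w * 1 * (F.e w)⁻¹) = 1 := by
    intro w
    rw [mul_one, mul_inv_cancel]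
    exact X.chi_one
  have h2 : ContinuousWithinAt (fun t : G => (X.chi (F.e u * t * (F.e u)⁻¹))⁻¹ *
      X.chi (F.e u1 * t * (F.e u1)⁻¹) - 1) (F.Z : Set G) 1 := by
    refine ContinuousWithinAt.sub (ContinuousWithinAt.mul (ContinuousWithinAt.inv₀ (hc u) ?_)
      (hc u1)) continuousWithinAt_const
    rw [h1]
    exact one_ne_zero
  have h3 : ∀ᶠ t in 𝓝[(F.Z : Set G)] 1, ‖(X.chi (F.e u * t * (F.e u)⁻¹))⁻¹ *
      X.chi (F.e u1 * t * (F.e u1)⁻¹) - 1‖ < η := by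
    refine Filter.Tendsto.eventually_lt_const ?_ h2.norm
    beta_reduce
    rw [h1, h1, inv_one, mul_one, sub_self, norm_zero]
    exact hη
  rw [eventually_nhdsWithin_iff] at h3
  refine ⟨{t | t ∈ (F.Z : Set G) → ‖(X.chi (F.e u * t * (F.e u)⁻¹))⁻¹ *
      X.chi (F.e u1 * t * (F.e u1)⁻¹) - 1‖ < η} ∩ (F.K : Set G), Filter.inter_mem h3
      (F.K_open.mem_nhds F.K.one_mem), ?_⟩
  intro t ht htU
  exact ⟨htU.2, (htU.1 ht).le⟩

theorem tc_sum_le {ι : Type*} [Fintype ι] (f : ι → C) {M : ℝ} (hM : 0 ≤ M) (hf : ∀ i, ‖f i‖ ≤ M) :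
    ‖∑ i, f i‖ ≤ M :=
  IsUltrametricDist.norm_sum_le_of_forall_le_of_nonneg hM fun i _ => hf i

theorem tc_add_le {a b : C} {M : ℝ} (ha : ‖a‖ ≤ M) (hb : ‖b‖ ≤ M) : ‖a + b‖ ≤ M :=
  (IsUltrametricDist.norm_add_le_max a b).trans (max_le ha hb)

theorem tc_sub_le {a b : C} {M : ℝ} (ha : ‖a‖ ≤ M) (hb : ‖b‖ ≤ M) : ‖a - b‖ ≤ M := by
  rw [sub_eq_add_neg]
  exact tc_add_le ha (by rwa [norm_neg])

/-- the indicator with values in `C` -/
def tcInd (C : Type*) [NormedField C] (D : Set G) (x : G) : C :=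
  ((Set.indicator D (fun _ => (1 : ℤ)) x : ℤ) : C)

theorem tcInd_mem {D : Set G} {x : G} (h : x ∈ D) : tcInd C D x = 1 := by
  unfold tcInd
  rw [Set.indicator_of_mem h, Int.cast_one]

theorem tcInd_notMem {D : Set G} {x : G} (h : x ∉ D) : tcInd C D x = 0 := by
  unfold tcInd
  rw [Set.indicator_of_notMem h, Int.cast_zero]

theorem tcInd_norm (D : Set G) (x : G) : ‖tcInd C D x‖ ≤ 1 := by
  by_cases h : x ∈ D
  · rw [tcInd_mem h, norm_one]
  · rw [tcInd_notMem h, norm_zero]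
    exact zero_le_one

/-- reformulation of `Good` -/
theorem tc_good_iff (D0 : CoreData X R Om T c) (A : Finset W) (u : W) (D : Set G) (ε : ℝ)
    (f : G → C) : Good D0 A u D ε f ↔ f ∈ D0.V' ∧
      (∀ y ∈ F.Q u, ‖f (F.e u * y) - tcInd C D y‖ ≤ ε) ∧ ∀ w ∈ T \ A, TN F w f ε := by
  constructor
  · rintro ⟨h1, h2, h3, h4⟩
    refine ⟨h1, fun y hy => ?_, h4⟩
    by_cases h : y ∈ D
    · rw [tcInd_mem h]
      exact h2 y hy h
    · rw [tcInd_notMem h, sub_zero]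
      exact h3 y hy h
  · rintro ⟨h1, h2, h4⟩
    refine ⟨h1, fun y hy h => ?_, fun y hy h => ?_, h4⟩
    · have h5 := h2 y hy
      rwa [tcInd_mem h] at h5
    · have h5 := h2 y hy
      rwa [tcInd_notMem h, sub_zero] at h5

/-- the induction -/
theorem tc_step [Fact p.Prime] {rho : ℝ} (hd : Disc p C rho) (D0 : CoreData X R Om T c)
    {A : Finset W} {A0 : ℝ} (hA : Isol D0 A A0) {u : W} (hu : u ∈ A)
    (hmax : ∀ w ∈ A, w ≠ u → ¬ wle F u w) {u1 : W} (hu1 : u1 ∈ A) {ε : ℝ} (hε : 0 < ε)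
    (hε1 : ε ≤ 1) (k : ℕ) : ∀ (D : Set G), CO F u D → (1 : G) ∉ D → ∀ (f : G → C),
    Good D0 A u D ε f → ‖f (F.e u1)‖ ≤ max (‖(p : C)‖ ^ k * A0) (A0 * ε) := by
  have hA0 : 0 ≤ A0 := zero_le_one.trans hA.one_le
  have hp0 : 0 < ‖(p : C)‖ := norm_pos_iff.2 hd.p_ne
  induction k with
  | zero =>
    intro D hD h1 f hf
    rw [tc_good_iff] at hf
    obtain ⟨hf1, hf2, hf3⟩ := hf
    have hsec : IsSec X f := R.sec f (D0.le hf1)
    have hTN : TN F u f 1 := by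
      refine TN_of_Q X hsec fun q hq => ?_
      have h2 : f (F.e u * q) = (f (F.e u * q) - tcInd C D q) + tcInd C D q := by ring
      rw [h2]
      exact tc_add_le ((hf2 q hq).trans hε1) (tcInd_norm D q)
    have h3 := hA.compare u hu f hf1 1 one_pos hTN (fun w hw => TN_mono (hf3 w hw) hε1) u1 hu1
      1 F.Nb.one_mem
    rw [mul_one, mul_one] at h3
    refine h3.trans (le_trans ?_ (le_max_left _ _))
    rw [pow_zero, one_mul]
  | succ k ih =>
    intro D hD h1 f hf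
    obtain ⟨U, hU, hUt⟩ := tc_nhds X u u1 hp0
    obtain ⟨r, D', t, ht, hD', hsum⟩ := F.torus_decomp u U hU D hD.1 h1 hD.2
    have hppos : 0 < p := (Fact.out : p.Prime).pos
    have hD1 : ∀ j, (1 : G) ∉ D' j := by
      intro j hj
      have h2 := hsum 1 (F.Q u).one_mem
      rw [Set.indicator_of_notMem h1] at h2
      have h3 : ∀ j ∈ (Finset.univ : Finset (Fin r)), (0 : ℤ) ≤ ∑ s : Fin p,
          Set.indicator (D' j) (fun _ => (1 : ℤ)) ((t j s)⁻¹ * 1 * t j s) := by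
        intro j _
        refine Finset.sum_nonneg fun s _ => ?_
        exact Set.indicator_nonneg (fun _ _ => zero_le_one) _
      have h4 := (Finset.sum_eq_zero_iff_of_nonneg h3).1 h2.symm j (Finset.mem_univ j)
      have h5 := (Finset.sum_eq_zero_iff_of_nonneg (fun s _ =>
        Set.indicator_nonneg (fun _ _ => zero_le_one) _)).1 h4 ⟨0, hppos⟩ (Finset.mem_univ _)
      rw [mul_one, inv_mul_cancel, Set.indicator_of_mem hj] at h5
      exact one_ne_zero h5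
    have hgood : ∀ j, ∃ f, Good D0 A u (D' j) ε f := fun j =>
      good_CO hd D0 hA hu hmax hε (D' j) (hD' j)
    choose fj hfj using hgood
    have hih : ∀ j, ‖fj j (F.e u1)‖ ≤ max (‖(p : C)‖ ^ k * A0) (A0 * ε) := fun j =>
      ih (D' j) (hD' j) (hD1 j) (fj j) (hfj j)
    have hfj2 : ∀ j, fj j ∈ D0.V' ∧
      (∀ y ∈ F.Q u, ‖fj j (F.e u * y) - tcInd C (D' j) y‖ ≤ ε) ∧ ∀ w ∈ T \ A, TN F w (fj j) ε :=
      fun j => (tc_good_iff D0 A u (D' j) ε (fj j)).1 (hfj j)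
    have hfsec : ∀ j, IsSec X (fj j) := fun j => R.sec _ (D0.le (hfj2 j).1)
    have htZ : ∀ j s, t j s ∈ F.Z := fun j s => (ht j s).1
    have htK : ∀ j s, t j s ∈ F.K := fun j s => (hUt _ (htZ j s) (ht j s).2).1
    have hθ : ∀ j s, ‖(X.chi (F.e u * t j s * (F.e u)⁻¹))⁻¹ *
        X.chi (F.e u1 * t j s * (F.e u1)⁻¹) - 1‖ ≤ ‖(p : C)‖ :=
      fun j s => (hUt _ (htZ j s) (ht j s).2).2
    have hne : ∀ j s, X.chi (F.e u * t j s * (F.e u)⁻¹) ≠ 0 := fun j s =>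
      X.chi_ne _ (F.Z_le (F.conj_Z u _ (htZ j s)))
    obtain ⟨g, hg⟩ : ∃ g : G → C, g = ∑ j, ∑ s,
      (X.chi (F.e u * t j s * (F.e u)⁻¹))⁻¹ • tr (t j s) (fj j) := ⟨_, rfl⟩
    have hgV : g ∈ D0.V' := by
      rw [hg]
      refine Submodule.sum_mem _ fun j _ => Submodule.sum_mem _ fun s _ => ?_
      exact D0.V'.smul_mem _ (D0.stab_Z _ (hfj2 j).1 _ (htZ j s))
    have hgsec : IsSec X g := R.sec _ (D0.le hgV)
    have hgapp : ∀ x, g x = ∑ j, ∑ s, (X.chi (F.e u * t j s * (F.e u)⁻¹))⁻¹ *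
        fj j (x * t j s) := by
      intro x
      rw [hg, Finset.sum_apply]
      refine Finset.sum_congr rfl fun j _ => ?_
      rw [Finset.sum_apply]
      refine Finset.sum_congr rfl fun s _ => ?_
      rw [Pi.smul_apply, tr_apply, smul_eq_mul]
    have hgQ : ∀ y ∈ F.Q u, ‖g (F.e u * y) - tcInd C D y‖ ≤ ε := by
      intro y hy
      have e1 : tcInd C D y = ∑ j, ∑ s, tcInd C (D' j) ((t j s)⁻¹ * y * t j s) := by
        unfold tcInd
        rw [hsum y hy, Int.cast_sum]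
        refine Finset.sum_congr rfl fun j _ => ?_
        rw [Int.cast_sum]
      rw [hgapp, e1, ← Finset.sum_sub_distrib]
      refine tc_sum_le _ hε.le fun j => ?_
      rw [← Finset.sum_sub_distrib]
      refine tc_sum_le _ hε.le fun s => ?_
      rw [sec_tr_Z X (hfsec j) u (htZ j s) y, inv_mul_cancel_left₀ (hne j s)]
      refine (hfj2 j).2.1 _ ?_
      have h5 := F.conj_Q u (t j s)⁻¹ (F.Z.inv_mem (htZ j s)) y hy
      rwa [inv_inv] at h5
    have hgT : ∀ w ∈ T \ A, TN F w g ε := by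
      intro w hw
      rw [hg]
      refine TN_sum _ _ hε.le fun j _ => TN_sum _ _ hε.le fun s _ => ?_
      have h5 := TN_smul (TN_tr_Z X (hfsec j) ((hfj2 j).2.2 w hw) (htZ j s))
        (X.chi (F.e u * t j s * (F.e u)⁻¹))⁻¹
      rw [norm_inv, norm_chi_K X u (htZ j s) (htK j s), norm_chi_K X w (htZ j s) (htK j s),
        inv_one, one_mul, one_mul] at h5
      exact h5
    have hpk : 0 ≤ max (‖(p : C)‖ ^ k * A0) (A0 * ε) :=
      le_max_of_le_right (mul_nonneg hA0 hε.le)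
    have hg1 : ‖g (F.e u1)‖ ≤ max (‖(p : C)‖ ^ (k + 1) * A0) (A0 * ε) := by
      have e2 : g (F.e u1) = ∑ j, fj j (F.e u1) * ∑ s, (X.chi (F.e u * t j s * (F.e u)⁻¹))⁻¹ *
          X.chi (F.e u1 * t j s * (F.e u1)⁻¹) := by
        rw [hgapp]
        refine Finset.sum_congr rfl fun j _ => ?_
        rw [Finset.mul_sum]
        refine Finset.sum_congr rfl fun s _ => ?_
        have h5 := sec_tr_Z X (hfsec j) u1 (htZ j s) 1
        rw [mul_one, mul_one, inv_mul_cancel, mul_one] at h5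
        rw [h5]
        ring
      rw [e2]
      refine tc_sum_le _ (le_max_of_le_right (mul_nonneg hA0 hε.le)) fun j => ?_
      have e3 : ‖∑ s, (X.chi (F.e u * t j s * (F.e u)⁻¹))⁻¹ *
          X.chi (F.e u1 * t j s * (F.e u1)⁻¹)‖ ≤ ‖(p : C)‖ := by
        have e4 : ∑ s, (X.chi (F.e u * t j s * (F.e u)⁻¹))⁻¹ *
            X.chi (F.e u1 * t j s * (F.e u1)⁻¹) = (p : C) +
            ∑ s, ((X.chi (F.e u * t j s * (F.e u)⁻¹))⁻¹ *
            X.chi (F.e u1 * t j s * (F.e u1)⁻¹) - 1) := by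
          rw [Finset.sum_sub_distrib, Finset.sum_const, Finset.card_univ, Fintype.card_fin,
            nsmul_eq_mul, mul_one]
          ring
        rw [e4]
        exact tc_add_le le_rfl (tc_sum_le _ (norm_nonneg _) fun s => hθ j s)
      rw [norm_mul]
      refine (mul_le_mul (hih j) e3 (norm_nonneg _) hpk).trans ?_
      rw [max_mul_of_nonneg _ _ (norm_nonneg _)]
      refine max_le_max (le_of_eq ?_) ?_
      · rw [pow_succ]
        ring
      · exact mul_le_of_le_one_right (mul_nonneg hA0 hε.le) hd.norm_p.le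
    rw [tc_good_iff] at hf
    obtain ⟨hf1, hf2, hf3⟩ := hf
    have hfsec' : IsSec X f := R.sec f (D0.le hf1)
    have hTN : TN F u (f - g) ε := by
      refine TN_of_Q X (hfsec'.sub hgsec) fun q hq => ?_
      have e5 : (f - g) (F.e u * q) = (f (F.e u * q) - tcInd C D q) -
          (g (F.e u * q) - tcInd C D q) := by
        rw [Pi.sub_apply]
        ring
      rw [e5]
      exact tc_sub_le (hf2 q hq) (hgQ q hq)
    have h6 := hA.compare u hu (f - g) (D0.V'.sub_mem hf1 hgV) ε hε hTN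
      (fun w hw => TN_sub (hf3 w hw) (hgT w hw)) u1 hu1 1 F.Nb.one_mem
    rw [mul_one, Pi.sub_apply] at h6
    have e7 : f (F.e u1) = (f (F.e u1) - g (F.e u1)) + g (F.e u1) := by ring
    rw [e7]
    exact tc_add_le (h6.trans (le_max_right _ _)) hg1

/-! ======= TARGET ======= -/

/-- TARGET.
Proof. Show by induction on `k`: (*) for all `ε ∈ (0,1]`, all such `D`, `f`: `‖f (e u1)‖ ≤ max (‖p‖^k * A0) (A0 * ε)`, where `‖p‖ = ‖(p : C)‖ < 1`. The theorem
follows by letting `k → ∞`.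
`k = 0`: `TN u f 1` (`TN_of_Q`; on `Q u` the values are within `ε ≤ 1` of `0` or `1`) and `TN w f ε` on `T \ A`; `hA.compare u` gives `‖f (e u1)‖ ≤ A0`.
Step. By `X.chi_cont` (continuity at `1` within `B`) and `F.conj_Z` there is a neighbourhood `U` of `1`, contained in `K`, such that for `t ∈ Z ∩ U`, with
`χ_w(t) = χ(e_w t e_w⁻¹)`: `‖χ_u(t)⁻¹ χ_{u1}(t) - 1‖ ≤ ‖p‖`; also `‖χ_w(t)‖ = 1` for all `w` (`norm_chi_K`). Apply `F.torus_decomp u U D`: `r`, `D' j`, `t j s`. Evaluating the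
identity at `x = 1` shows `1 ∉ D' j` for all `j` (sum of nonnegative integers equal to `0`, `p > 0`). Take `f_j` with `Good D0 A u (D' j) ε f_j` (`good_CO`), and
`f' = ∑_j ∑_s χ_u(t j s)⁻¹ • tr (t j s) f_j ∈ V'`. For `y ∈ Q u`: `f' (e_u y) = ∑_j ∑_s f_j (e_u (t⁻¹ y t))` (`sec_tr_Z`), within `ε` of
`∑_j ∑_s 1_{D' j}(t⁻¹ y t) = 1_D(y)`. On `T \ A`: `TN w f' ε`. So `Good D0 A u D ε f'`. And `f' (e u1) = ∑_j f_j(e u1) * (∑_s χ_u(t)⁻¹ χ_{u1}(t))`, where the inner sum over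
`s : Fin p` is `p + ∑_s (θ_s - 1)`, of norm `≤ ‖p‖`; by induction `‖f_j (e u1)‖ ≤ max (‖p‖^k A0) (A0 ε)`, so `‖f' (e u1)‖ ≤ max (‖p‖^(k+1) A0) (A0 ε)`. Finally
`f - f'` satisfies `TN u _ ε` and `TN w _ ε` for `w ∈ T \ A`, so by `hA.compare` `‖(f - f') (e u1)‖ ≤ A0 ε`. -/
theorem tc [Fact p.Prime] {rho : ℝ} (hd : Disc p C rho) (D0 : CoreData X R Om T c)
    {A : Finset W} {A0 : ℝ} (hA : Isol D0 A A0) {u : W} (hu : u ∈ A)
    (hmax : ∀ w ∈ A, w ≠ u → ¬ wle F u w) {u1 : W} (hu1 : u1 ∈ A) {ε : ℝ} (hε : 0 < ε)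
    (hε1 : ε ≤ 1) (D : Set G) (hD : CO F u D) (h1 : (1 : G) ∉ D) (f : G → C)
    (hf : Good D0 A u D ε f) : ‖f (F.e u1)‖ ≤ A0 * ε := by
  have hA0 : 0 ≤ A0 := zero_le_one.trans hA.one_le
  have hA1 : 0 < A0 := one_pos.trans_le hA.one_le
  obtain ⟨k, hk⟩ := exists_pow_lt_of_lt_one hε hd.norm_p
  refine (tc_step hd D0 hA hu hmax hu1 hε hε1 k D hD h1 f hf).trans (max_le ?_ le_rfl)
  rw [mul_comm]
  exact mul_le_mul_of_nonneg_left hk.le hA0
end Pool.Agent.Helper911
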