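import Mathlib
import Pool.Agent.Helper911_Abs.Core
import Pool.Agent.Helper911_Abs.LA
import Pool.Agent.Helper911_Abs.KA

set_option autoImplicit false
set_option linter.unusedSectionVars false
set_option maxHeartbeats 1000000

noncomputable section

open Topology Filter

namespace Pool.Agent.Helper911


variable {p : ℕ} {G : Type*} [Group G] [TopologicalSpace G] [IsTopologicalGroup G] [T2Space G]
  {W : Type*} [DecidableEq W] {F : Flag p G W} {C : Type*} [NormedField C] [IsUltrametricDist C]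
  {X : CharData F C} {R : SubRep X} {Om T : Finset W} {c : ℝ}



/-! ======= TARGET ======= -/

/-- TARGET.
Proof. Let `D = {y ∈ Q u | ∃ s, St u s ∧ ∃ q ∈ Nl u l, y * y0 = s * q}`. For `y ∈ Q u` write `y y0 = s q` with `St u s`, `q ∈ Q u`
(`St_decomp`); then `tr y0 f (e_u y) = f (e_u (s q)) = f (e_u q)` (`St_sec`), and `q ∈ Nl u l` iff `y ∈ D` (`St_unique`). So the `Good` conditions
on `Q u` hold; on `T \ A` use `TN_tr_Nb`. The last claim is the definition for `y = 1`.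
`CO F u D`: let `V = {g | ∃ b ∈ B, ∃ n ∈ P u, ∃ q ∈ Q u, n ∈ Gam ∧ z^{-l} q z^l ∈ Gam ∧ g = b e_u n q}`, open by `F.chart_open`. For `y ∈ Q u`: `y ∈ D` iff
`e_u y y0 ∈ V` (if `e_u y y0 = b e_u n q ∈ V` then its index is `u`, so `n = 1` by `chart_idx`, and with `y y0 = s' q'` one gets
`e_u * 1 * q' = (e_u s' e_u⁻¹)⁻¹ b e_u * 1 * q`, so `q' = q` by `chart_inj`). Hence `D` is open in `Q u`. Let `S1 = {g | ∃ b ∈ B, ∃ q ∈ Nl u l, g * y0 = b * e_u * q}`, closed
(`B_mul_closed` for the compact set `e_u (Nl u l)`, `Nl_CO`, translated), left invariant, contained in the cell of `u`. By `absorb_cell` there is `m` with `x z^{-m} ∈ U0 u` for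
`x ∈ S1`; for `y ∈ D`, `e_u y ∈ S1`, so `z^m y z^{-m} ∈ Gam` (`U0_cell`, `chart_inj`). So `D = {y ∈ Q u | e_u y ∈ S1}` is a closed subset
of the compact set `{y ∈ Q u | z^m y z^{-m} ∈ Gam}`. -/
theorem good_translate (D0 : CoreData X R Om T c) {A : Finset W} {u : W} {l : ℕ} {ε : ℝ}
    {f : G → C} (hf : Good D0 A u (Nl F u l) ε f) {y0 : G} (hy0 : y0 ∈ F.Nb) :
    ∃ D, CO F u D ∧ Good D0 A u D ε (tr y0 f) ∧
      ((1 : G) ∈ D ↔ ∃ s, St F u s ∧ ∃ q ∈ Nl F u l, y0 = s * q) := by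
  have hsec : IsSec X f := R.sec f (D0.le hf.1)
  have hzm : ∀ m : ℕ, F.z ^ m ∈ F.Z := fun m => Subgroup.pow_mem _ F.z_mem m
  have hNlQ : ∀ q ∈ Nl F u l, q ∈ F.Q u := fun q hq => hq.1
  -- characterisation of membership
  have key : ∀ y ∈ F.Q u, ∀ b ∈ F.B, ∀ n ∈ F.P u, ∀ q ∈ Nl F u l,
      F.e u * y * y0 = b * F.e u * n * q → ∃ s, St F u s ∧ ∃ q ∈ Nl F u l, y * y0 = s * q := by
    intro y hy b hb n hn q hq h
    have hyy : y * y0 ∈ F.Nb := mul_mem (F.Q_le u hy) hy0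
    obtain ⟨s, hs, q', hq', hsq⟩ := St_decomp u (y * y0) hyy
    have hidx : F.idx (b * F.e u * n * q) = u := by
      rw [← h]
      have := idx_eq (F := F) u 1 (y * y0) (one_mem _) hyy
      rw [one_mul, ← mul_assoc] at this
      exact this
    have hn1 : n = 1 := chart_idx (F := F) u b n q hb hn (hNlQ q hq) hidx
    have hB : F.e u * s * (F.e u)⁻¹ ∈ F.B := F.N_le hs.2
    have e1 : F.e u * 1 * q' = ((F.e u * s * (F.e u)⁻¹)⁻¹ * b) * F.e u * 1 * q := by
      have h2 : F.e u * (s * q') = b * F.e u * q := by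
        rw [← hsq, ← mul_assoc, h, hn1, mul_one]
      have h3 : F.e u * 1 * q' = (F.e u * s * (F.e u)⁻¹)⁻¹ * (F.e u * (s * q')) := by group
      rw [h3, h2]; group
    have h4 := F.chart_inj u _ (mul_mem (inv_mem hB) hb) 1 (one_mem _) q' hq' 1 (one_mem _) q
      (hNlQ q hq) e1
    exact ⟨s, hs, q, hq, by rw [hsq, h4.2]⟩
  have key2 : ∀ y, (∃ s, St F u s ∧ ∃ q ∈ Nl F u l, y * y0 = s * q) →
      ∃ b ∈ F.B, ∃ q ∈ Nl F u l, F.e u * y * y0 = b * F.e u * 1 * q := by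
    rintro y ⟨s, hs, q, hq, h⟩
    refine ⟨F.e u * s * (F.e u)⁻¹, F.N_le hs.2, q, hq, ?_⟩
    rw [mul_assoc, h]; group
  refine ⟨{y | y ∈ F.Q u ∧ ∃ s, St F u s ∧ ∃ q ∈ Nl F u l, y * y0 = s * q}, ?_, ?_, ?_⟩
  · -- `CO`
    constructor
    · -- compactness
      have hScomp : IsCompact ((fun q => F.e u * q * y0⁻¹) '' Nl F u l) :=
        (Nl_CO F u l).1.image (by fun_prop)
      have hS1cl := B_mul_closed F hScomp
      set S1 : Set G := {g | ∃ b ∈ F.B, ∃ s ∈ (fun q => F.e u * q * y0⁻¹) '' Nl F u l, g = b * s}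
        with hS1
      have hS1inv : LInv F S1 := by
        rintro b hb g ⟨b', hb', s, hs, rfl⟩
        exact ⟨b * b', mul_mem hb hb', s, hs, by group⟩
      have hS1idx : ∀ x ∈ S1, F.idx x = u := by
        rintro x ⟨b, hb, s, ⟨q, hq, rfl⟩, rfl⟩
        have := idx_eq (F := F) u b (q * y0⁻¹) hb (mul_mem (F.Q_le u (hNlQ q hq)) (inv_mem hy0))
        have e : b * (F.e u * q * y0⁻¹) = b * F.e u * (q * y0⁻¹) := by group
        simp only
        rw [e]
        exact this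
      obtain ⟨m, hm⟩ := absorb_cell (F := F) u S1 hS1cl hS1inv hS1idx
      have hm' := hm m le_rfl
      have hmemS1 : ∀ y, (∃ s, St F u s ∧ ∃ q ∈ Nl F u l, y * y0 = s * q) → F.e u * y ∈ S1 := by
        intro y hy
        obtain ⟨b, hb, q, hq, h⟩ := key2 y hy
        refine ⟨b, hb, F.e u * q * y0⁻¹, ⟨q, hq, rfl⟩, ?_⟩
        have : F.e u * y = (F.e u * y * y0) * y0⁻¹ := by group
        rw [this, h]; group
      have hCm : IsCompact ((fun x => (F.z ^ m)⁻¹ * x * F.z ^ m) '' {y : G | y ∈ F.Q u ∧ y ∈ F.Gam}) :=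
        (QG_compact (F := F) u).image (by fun_prop)
      have hcl : IsClosed {y : G | F.e u * y ∈ S1} :=
        hS1cl.preimage (by fun_prop : Continuous fun y : G => F.e u * y)
      have hEq : {y | y ∈ F.Q u ∧ ∃ s, St F u s ∧ ∃ q ∈ Nl F u l, y * y0 = s * q} =
          ((fun x => (F.z ^ m)⁻¹ * x * F.z ^ m) '' {y : G | y ∈ F.Q u ∧ y ∈ F.Gam}) ∩
            {y : G | F.e u * y ∈ S1} := by
        ext y
        constructor
        · rintro ⟨hyQ, hy⟩
          refine ⟨?_, hmemS1 y hy⟩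
          have hyS := hmemS1 y hy
          have hU := hm' _ hyS
          have hidx : F.idx (F.e u * y * (F.z ^ m)⁻¹) = u := by
            rw [F.idx_right_Z _ (inv_mem (hzm m))]
            exact hS1idx _ hyS
          obtain ⟨b, hb, y', hy', hyG, h⟩ := U0_cell (F := F) u _ hU hidx
          have hconj : F.z ^ m * y * (F.z ^ m)⁻¹ ∈ F.Q u := F.conj_Q u _ (hzm m) y hyQ
          have hB : F.e u * (F.z ^ m)⁻¹ * (F.e u)⁻¹ ∈ F.B :=
            F.Z_le (F.conj_Z u _ (inv_mem (hzm m)))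
          have e1 : F.e u * 1 * (F.z ^ m * y * (F.z ^ m)⁻¹) =
              ((F.e u * (F.z ^ m)⁻¹ * (F.e u)⁻¹)⁻¹ * b) * F.e u * 1 * y' := by
            have h3 : F.e u * 1 * (F.z ^ m * y * (F.z ^ m)⁻¹) =
              (F.e u * (F.z ^ m)⁻¹ * (F.e u)⁻¹)⁻¹ * (F.e u * y * (F.z ^ m)⁻¹) := by group
            rw [h3, h]; group
          have h4 := F.chart_inj u _ (mul_mem (inv_mem hB) hb) 1 (one_mem _) _ hconj 1 (one_mem _)
            y' hy' e1
          refine ⟨F.z ^ m * y * (F.z ^ m)⁻¹, ⟨hconj, ?_⟩, ?_⟩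
          · rw [h4.2]; exact hyG
          · simp only
            group
        · rintro ⟨⟨x, ⟨hxQ, hxG⟩, rfl⟩, hy⟩
          have hyQ : (F.z ^ m)⁻¹ * x * F.z ^ m ∈ F.Q u := by
            have := F.conj_Q u _ (inv_mem (hzm m)) x hxQ
            rwa [inv_inv] at this
          simp only
          refine ⟨hyQ, ?_⟩
          obtain ⟨b, hb, s, ⟨q, hq, rfl⟩, h⟩ := hy
          refine key _ hyQ b hb 1 (one_mem _) q hq ?_
          simp only at h
          rw [h]; group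
      rw [hEq]
      exact hCm.inter_right hcl
    · -- openness
      have hO2 : IsOpen {q : G | (F.z ^ l)⁻¹ * q * F.z ^ l ∈ F.Gam} :=
        F.Gam_open.preimage (by fun_prop : Continuous fun q : G => (F.z ^ l)⁻¹ * q * F.z ^ l)
      have hV := F.chart_open u Set.univ _ isOpen_univ hO2
      refine ⟨_, hV.preimage (by fun_prop : Continuous fun y : G => F.e u * y * y0), ?_⟩
      ext y
      constructor
      · rintro ⟨hyQ, hy⟩
        refine ⟨?_, hyQ⟩
        obtain ⟨b, hb, q, hq, h⟩ := key2 y hy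
        exact ⟨b, hb, 1, one_mem _, q, hq.1, Set.mem_univ _, hq.2, h⟩
      · rintro ⟨⟨b, hb, n, hn, q, hqQ, -, hq2, h⟩, hyQ⟩
        exact ⟨hyQ, key y hyQ b hb n hn q ⟨hqQ, hq2⟩ h⟩
  · -- `Good`
    refine ⟨D0.stab_Nb f hf.1 y0 hy0, ?_, ?_, fun w hw => TN_tr_Nb (hf.2.2.2 w hw) hy0⟩
    · rintro y - ⟨-, s, hs, q, hq, h⟩
      rw [tr_apply, mul_assoc, h, St_sec X hsec hs q]
      exact hf.2.1 q (hNlQ q hq) hq
    · intro y hyQ hy
      have hyy : y * y0 ∈ F.Nb := mul_mem (F.Q_le u hyQ) hy0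
      obtain ⟨s, hs, q, hq, h⟩ := St_decomp u (y * y0) hyy
      rw [tr_apply, mul_assoc, h, St_sec X hsec hs q]
      refine hf.2.2.1 q hq ?_
      intro hq'
      exact hy ⟨hyQ, s, hs, q, hq', h⟩
  · constructor
    · rintro ⟨-, s, hs, q, hq, h⟩
      exact ⟨s, hs, q, hq, by rw [← h, one_mul]⟩
    · rintro ⟨s, hs, q, hq, h⟩
      exact ⟨one_mem _, s, hs, q, hq, by rw [one_mul, h]⟩
end Pool.Agent.Helper911
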