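import Mathlib
import Pool.Agent.Helper911_Abs.Core
import Pool.Agent.Helper911_Abs.LA
import Pool.Agent.Helper911_Abs.LE
import Pool.Agent.Helper911_Abs.LF
import Pool.Agent.Helper911_Abs.LG

set_option autoImplicit false
set_option linter.unusedSectionVars false
set_option maxHeartbeats 1000000

noncomputable section

open Topology Filter

namespace Pool.Agent.Helper911


variable {p : ℕ} {G : Type*} [Group G] [TopologicalSpace G] [IsTopologicalGroup G] [T2Space G]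
  {W : Type*} [DecidableEq W] {F : Flag p G W} {C : Type*} [NormedField C] [IsUltrametricDist C]
  {X : CharData F C} {R : SubRep X} {Om T : Finset W} {c : ℝ}



/-! ======= TARGET ======= -/

theorem kap_add {x y : C} {r : ℝ} (hx : ‖x‖ ≤ r) (hy : ‖y‖ ≤ r) : ‖x + y‖ ≤ r :=
  (IsUltrametricDist.norm_add_le_max x y).trans (max_le hx hy)

theorem kap_sub {x y : C} {r : ℝ} (hx : ‖x‖ ≤ r) (hy : ‖y‖ ≤ r) : ‖x - y‖ ≤ r := by
  rw [sub_eq_add_neg]
  exact kap_add hx (by rwa [norm_neg])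

/-- TARGET.
Proof. Note `ε ≤ 1` (as `A0 ≥ 1`), even `ε < 1`. `Good` for `D = Gam` and for `D = Nl u 0 = Q u ∩ Gam` mean the same. Take `f1` with
`Good D0 A u (Nl u 0) ε f1` (`good_CO`, `Nl_CO`), `κ = f1 (e u1)`. If `1 ∉ D` use `tc`. If `1 ∈ D`, let `fa`, `fb` be good for `D \ Nl u 0`, `Nl u 0 \ D` (`CO_diff`), which do not
contain `1` (`Nl_one`). Then `f - f1 - fa + fb` has values of norm `≤ ε` at `e_u q`, `q ∈ Q u` (the indicator functions cancel) so `TN u _ ε` (`TN_of_Q`), and `TN w _ ε` for `w ∈ T \ A`; `hA.compare` gives norm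
`≤ A0 ε` at `e u1`; with `‖fa (e u1)‖, ‖fb (e u1)‖ ≤ A0 ε` from `tc` we get `‖f (e u1) - κ‖ ≤ A0 ε`.
`1 ≤ A0 ‖κ‖`: for `y0 ∈ Nb`, by `good_translate` and the part just proved, `‖f1 (e_u1 y0)‖ = ‖tr y0 f1 (e u1)‖ ≤ max ‖κ‖ (A0 ε)`. So `TN u1 f1 M` for `M = max ‖κ‖ (A0 ε)`, and `TN w f1 M`
for `w ∈ T \ A` since `ε ≤ A0 ε`. By `hA.compare u1` at `w = u`: `‖f1 (e u)‖ ≤ A0 M`. But `‖f1 (e u) - 1‖ ≤ ε < 1` gives `‖f1 (e u)‖ = 1`. So `1 ≤ max (A0 ‖κ‖) (A0 A0 ε)` and the second is `< 1`. -/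
theorem kappa [Fact p.Prime] {rho : ℝ} (hd : Disc p C rho) (D0 : CoreData X R Om T c)
    {A : Finset W} {A0 : ℝ} (hA : Isol D0 A A0) {u : W} (hu : u ∈ A)
    (hmax : ∀ w ∈ A, w ≠ u → ¬ wle F u w) {u1 : W} (hu1 : u1 ∈ A) {ε : ℝ} (hε : 0 < ε)
    (hε1 : A0 * A0 * ε < 1) :
    ∃ κ : C, 1 ≤ A0 * ‖κ‖ ∧ ∀ D : Set G, CO F u D → ∀ f, Good D0 A u D ε f →
      ((1 : G) ∈ D → ‖f (F.e u1) - κ‖ ≤ A0 * ε) ∧ ((1 : G) ∉ D → ‖f (F.e u1)‖ ≤ A0 * ε) := by
  have hA1 := hA.one_le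
  have hA0 : 0 < A0 := lt_of_lt_of_le one_pos hA1
  have hAA : 1 ≤ A0 * A0 := by nlinarith
  have hεlt : ε < 1 := by nlinarith
  have hεA : ε ≤ A0 * ε := by nlinarith
  obtain ⟨f1, hf1⟩ := good_CO hd D0 hA hu hmax hε (Nl F u 0) (Nl_CO F u 0)
  have hsec : ∀ f ∈ D0.V', IsSec X f := fun f hf => R.sec f (D0.le hf)
  -- the two statements about good functions
  have key : ∀ D : Set G, CO F u D → ∀ f, Good D0 A u D ε f →
      ((1 : G) ∈ D → ‖f (F.e u1) - f1 (F.e u1)‖ ≤ A0 * ε) ∧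
        ((1 : G) ∉ D → ‖f (F.e u1)‖ ≤ A0 * ε) := by
    intro D hD f hf
    refine ⟨fun h1 => ?_, fun h1 => tc hd D0 hA hu hmax hu1 hε hεlt.le D hD h1 f hf⟩
    have hDa : CO F u (D \ Nl F u 0) := CO_diff hD (Nl_CO F u 0)
    have hDb : CO F u (Nl F u 0 \ D) := CO_diff (Nl_CO F u 0) hD
    obtain ⟨fa, hfa⟩ := good_CO hd D0 hA hu hmax hε _ hDa
    obtain ⟨fb, hfb⟩ := good_CO hd D0 hA hu hmax hε _ hDb
    have hta := tc hd D0 hA hu hmax hu1 hε hεlt.le _ hDa (fun h => h.2 (Nl_one u 0)) fa hfa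
    have htb := tc hd D0 hA hu hmax hu1 hε hεlt.le _ hDb (fun h => h.2 h1) fb hfb
    have hgV : f - f1 - fa + fb ∈ D0.V' :=
      D0.V'.add_mem (D0.V'.sub_mem (D0.V'.sub_mem hf.1 hf1.1) hfa.1) hfb.1
    have hgQ : ∀ q ∈ F.Q u, ‖(f - f1 - fa + fb) (F.e u * q)‖ ≤ ε := by
      intro q hq
      simp only [Pi.add_apply, Pi.sub_apply]
      by_cases hqD : q ∈ D
      · by_cases hqN : q ∈ Nl F u 0
        · have e1 := hf.2.1 q hq hqD
          have e2 := hf1.2.1 q hq hqN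
          have e3 := hfa.2.2.1 q hq (fun h => h.2 hqN)
          have e4 := hfb.2.2.1 q hq (fun h => h.2 hqD)
          have e : f (F.e u * q) - f1 (F.e u * q) - fa (F.e u * q) + fb (F.e u * q) =
              (f (F.e u * q) - 1) - (f1 (F.e u * q) - 1) - fa (F.e u * q) + fb (F.e u * q) := by
            ring
          rw [e]
          exact kap_add (kap_sub (kap_sub e1 e2) e3) e4
        · have e1 := hf.2.1 q hq hqD
          have e2 := hf1.2.2.1 q hq hqN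
          have e3 := hfa.2.1 q hq ⟨hqD, hqN⟩
          have e4 := hfb.2.2.1 q hq (fun h => h.2 hqD)
          have e : f (F.e u * q) - f1 (F.e u * q) - fa (F.e u * q) + fb (F.e u * q) =
              (f (F.e u * q) - 1) - f1 (F.e u * q) - (fa (F.e u * q) - 1) + fb (F.e u * q) := by
            ring
          rw [e]
          exact kap_add (kap_sub (kap_sub e1 e2) e3) e4
      · by_cases hqN : q ∈ Nl F u 0
        · have e1 := hf.2.2.1 q hq hqD
          have e2 := hf1.2.1 q hq hqN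
          have e3 := hfa.2.2.1 q hq (fun h => h.2 hqN)
          have e4 := hfb.2.1 q hq ⟨hqN, hqD⟩
          have e : f (F.e u * q) - f1 (F.e u * q) - fa (F.e u * q) + fb (F.e u * q) =
              f (F.e u * q) - (f1 (F.e u * q) - 1) - fa (F.e u * q) + (fb (F.e u * q) - 1) := by
            ring
          rw [e]
          exact kap_add (kap_sub (kap_sub e1 e2) e3) e4
        · exact kap_add (kap_sub (kap_sub (hf.2.2.1 q hq hqD) (hf1.2.2.1 q hq hqN))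
            (hfa.2.2.1 q hq (fun h => hqD h.1))) (hfb.2.2.1 q hq (fun h => hqN h.1))
    have hTNu : TN F u (f - f1 - fa + fb) ε := TN_of_Q X (hsec _ hgV) hgQ
    have hTNw : ∀ w ∈ T \ A, TN F w (f - f1 - fa + fb) ε := fun w hw =>
      TN_add (TN_sub (TN_sub (hf.2.2.2 w hw) (hf1.2.2.2 w hw)) (hfa.2.2.2 w hw)) (hfb.2.2.2 w hw)
    have h2 := hA.compare u hu _ hgV ε hε hTNu hTNw u1 hu1 1 F.Nb.one_mem
    rw [mul_one] at h2
    simp only [Pi.add_apply, Pi.sub_apply] at h2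
    have e : f (F.e u1) - f1 (F.e u1) =
        (f (F.e u1) - f1 (F.e u1) - fa (F.e u1) + fb (F.e u1)) + fa (F.e u1) - fb (F.e u1) := by
      ring
    rw [e]
    exact kap_sub (kap_add h2 hta) htb
  refine ⟨f1 (F.e u1), ?_, key⟩
  have hMpos : 0 < max ‖f1 (F.e u1)‖ (A0 * ε) := lt_max_of_lt_right (mul_pos hA0 hε)
  have hTN1 : TN F u1 f1 (max ‖f1 (F.e u1)‖ (A0 * ε)) := by
    intro y hy
    obtain ⟨D, hD, hg, -⟩ := good_translate D0 hf1 hy
    have h2 := key D hD _ hg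
    rw [tr_apply] at h2
    by_cases h1 : (1 : G) ∈ D
    · have h3 := h2.1 h1
      have e : f1 (F.e u1 * y) = (f1 (F.e u1 * y) - f1 (F.e u1)) + f1 (F.e u1) := by ring
      rw [e]
      exact kap_add (h3.trans (le_max_right _ _)) (le_max_left _ _)
    · exact (h2.2 h1).trans (le_max_right _ _)
  have hTNw : ∀ w ∈ T \ A, TN F w f1 (max ‖f1 (F.e u1)‖ (A0 * ε)) := fun w hw =>
    TN_mono (hf1.2.2.2 w hw) (hεA.trans (le_max_right _ _))
  have h3 := hA.compare u1 hu1 f1 hf1.1 _ hMpos hTN1 hTNw u hu 1 F.Nb.one_mem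
  have h4 := hf1.2.1 1 (F.Q u).one_mem (Nl_one u 0)
  have h5 : 1 ≤ ‖f1 (F.e u * 1)‖ := by
    by_contra hlt
    push Not at hlt
    have e : (1 : C) = f1 (F.e u * 1) - (f1 (F.e u * 1) - 1) := by ring
    have h6 : ‖(1 : C)‖ ≤ max ‖f1 (F.e u * 1)‖ ε := by
      rw [e]
      exact kap_sub (le_max_left _ _) (h4.trans (le_max_right _ _))
    rw [norm_one] at h6
    exact absurd h6 (not_le.mpr (max_lt hlt hεlt))
  have h7 : 1 ≤ A0 * max ‖f1 (F.e u1)‖ (A0 * ε) := h5.trans h3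
  rcases le_total ‖f1 (F.e u1)‖ (A0 * ε) with h8 | h8
  · rw [max_eq_right h8] at h7
    nlinarith
  · rwa [max_eq_left h8] at h7
end Pool.Agent.Helper911
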