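import Mathlib
import Pool.Agent.Helper911_Abs.Core
import Pool.Agent.Helper911_Abs.LA
import Pool.Agent.Helper911_Abs.LE
import Pool.Agent.Helper911_Abs.LG
import Pool.Agent.Helper911_Abs.LH

set_option autoImplicit false
set_option linter.unusedSectionVars false
set_option maxHeartbeats 1000000

noncomputable section

open Topology Filter

namespace Pool.Agent.Helper911


variable {p : ℕ} {G : Type*} [Group G] [TopologicalSpace G] [IsTopologicalGroup G] [T2Space G]
  {W : Type*} [DecidableEq W] {F : Flag p G W} {C : Type*} [NormedField C] [IsUltrametricDist C]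
  {X : CharData F C} {R : SubRep X} {Om T : Finset W} {c : ℝ}



/-! ======= TARGET ======= -/

/-- TARGET.
Proof. Choose `ε > 0` with `A0 A0 ε < 1`; `κ` from `kappa`, so `‖κ‖ ≥ 1/A0 > A0 ε`. Write `s = s' q` with `St u s'`, `q ∈ Q u` (`St_decomp`). Let `l` be
arbitrary and `f` with `Good D0 A u (Nl u l) ε f` (`good_CO`, `Nl_CO`). `f (e_u1 s) = f (e_u1)` by `St_sec` for `u1`. By `kappa` for `f` and `D = Nl u l ∋ 1`: `‖f (e u1) - κ‖ ≤ A0 ε`. By
`good_translate` with `y0 = s`: `tr s f` is good for some `D`; if `1 ∉ D`, then `‖f (e_u1 s)‖ ≤ A0 ε`, so `‖κ‖ ≤ A0 ε`, contradiction. So `1 ∈ D`, `s = s'' q''` with `St u s''`, `q'' ∈ Nl u l`, and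
`q = q'' ∈ Nl u l` by `St_unique`. As `l` is arbitrary and `Nl u l` shrinks to `1` (`Nl_small`, T2; or `escape_Q`), `q = 1` and `s = s'`. -/
theorem st_le [Fact p.Prime] {rho : ℝ} (hd : Disc p C rho) (D0 : CoreData X R Om T c)
    {A : Finset W} {A0 : ℝ} (hA : Isol D0 A A0) {u : W} (hu : u ∈ A)
    (hmax : ∀ w ∈ A, w ≠ u → ¬ wle F u w) {u1 : W} (hu1 : u1 ∈ A) (s : G) (hs : St F u1 s) :
    St F u s := by
  have hA0 : 1 ≤ A0 := hA.one_le
  have hε : 0 < 1 / (4 * (A0 * A0)) := by positivity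
  have hε1 : A0 * A0 * (1 / (4 * (A0 * A0))) < 1 := by
    have : A0 * A0 * (1 / (4 * (A0 * A0))) = 1 / 4 := by
      field_simp
    rw [this]
    norm_num
  obtain ⟨κ, hκ, hκ2⟩ := kappa hd D0 hA hu hmax hu1 hε hε1
  obtain ⟨s', hs', q, hq, hsq⟩ := St_decomp (F := F) u s hs.1
  have key : ∀ l, q ∈ Nl F u l := by
    intro l
    obtain ⟨f, hf⟩ := good_CO hd D0 hA hu hmax hε (Nl F u l) (Nl_CO F u l)
    have hsec : IsSec X f := R.sec f (D0.le hf.1)
    have h1 : tr s f (F.e u1) = f (F.e u1) := by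
      have := St_sec X hsec hs 1
      rw [mul_one, mul_one] at this
      exact this
    have h2 := (hκ2 _ (Nl_CO F u l) f hf).1 (Nl_one u l)
    obtain ⟨D, hD, hgood, hiff⟩ := good_translate D0 hf hs.1
    have h3 : (1 : G) ∈ D := by
      by_contra hne
      have h4 := (hκ2 D hD _ hgood).2 hne
      rw [h1] at h4
      have h5 : ‖κ‖ ≤ ‖f (F.e u1) - κ‖ + ‖f (F.e u1)‖ := by
        have := norm_sub_le (f (F.e u1)) (f (F.e u1) - κ)
        rw [sub_sub_cancel] at this
        linarith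
      have h6 : ‖κ‖ ≤ 2 * (A0 * (1 / (4 * (A0 * A0)))) := by linarith
      have h7 : A0 * ‖κ‖ ≤ A0 * (2 * (A0 * (1 / (4 * (A0 * A0))))) :=
        mul_le_mul_of_nonneg_left h6 (by linarith)
      have h8 : A0 * (2 * (A0 * (1 / (4 * (A0 * A0))))) = 1 / 2 := by
        field_simp
        norm_num
      rw [h8] at h7
      linarith
    obtain ⟨s'', hs'', q'', hq'', he⟩ := hiff.1 h3
    have h4 := (St_unique hs' hs'' hq hq''.1 (hsq.symm.trans he)).2
    rw [h4]
    exact hq''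
  have hq1 : q = 1 := by
    by_contra hne
    obtain ⟨m0, hm0⟩ := escape_Q u q hq hne
    exact hm0 m0 le_rfl (key m0).2
  rw [hsq, hq1, mul_one]
  exact hs'
end Pool.Agent.Helper911
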