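import Mathlib
import Pool.Agent.Helper911_Abs.Core
import Pool.Agent.Helper911_Abs.LA
import Pool.Agent.Helper911_Abs.LI

set_option autoImplicit false
set_option linter.unusedSectionVars false
set_option maxHeartbeats 1000000

noncomputable section

open Topology Filter

namespace Pool.Agent.Helper911


variable {p : ℕ} {G : Type*} [Group G] [TopologicalSpace G] [IsTopologicalGroup G] [T2Space G]
  {W : Type*} [DecidableEq W] {F : Flag p G W} {C : Type*} [NormedField C] [IsUltrametricDist C]
  {X : CharData F C} {R : SubRep X} {Om T : Finset W} {c : ℝ}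



/-! ======= TARGET ======= -/

/-- TARGET.
Proof. `A` is nonempty (`hA.exist 1`). Take `u ∈ A` maximal (`exists_max`), so `hmax` holds for `u`. Let `u1 ∈ A`; apply `exists_max` to the elements of `A` above `u1` (a `Finset.filter`) to get
`u' ∈ A` maximal in `A` with `wle u1 u'` (an element of `A` above `u'` is above `u1` by `wle_trans`). By `st_le` for `u` and `u'` in both roles, `St u s ↔ St u' s`, so `u = u'` by `F.stab_inj`. So `wle u1 u`. -/
theorem exists_top [Fact p.Prime] {rho : ℝ} (hd : Disc p C rho) (D0 : CoreData X R Om T c)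
    {A : Finset W} {A0 : ℝ} (hA : Isol D0 A A0) : ∃ u ∈ A, ∀ w ∈ A, wle F w u := by
  classical
  obtain ⟨f, -, ⟨u0, hu0, -⟩, -⟩ := hA.exist 1 one_pos
  obtain ⟨u, hu, hum⟩ := exists_max F A ⟨u0, hu0⟩
  have hmax : ∀ w ∈ A, w ≠ u → ¬ wle F u w := fun w hw hne h => hne (hum w hw h)
  refine ⟨u, hu, fun u1 hu1 => ?_⟩
  obtain ⟨u', hu', hu'm⟩ := exists_max F (A.filter (fun w => wle F u1 w))
    ⟨u1, Finset.mem_filter.2 ⟨hu1, wle_refl F u1⟩⟩
  have hu'A : u' ∈ A := (Finset.mem_filter.1 hu').1
  have h1 : wle F u1 u' := (Finset.mem_filter.1 hu').2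
  have hmax' : ∀ w ∈ A, w ≠ u' → ¬ wle F u' w := fun w hw hne h =>
    hne (hu'm w (Finset.mem_filter.2 ⟨hw, wle_trans F h1 h⟩) h)
  have heq : u' = u := by
    apply F.stab_inj
    intro s hs
    constructor
    · intro h
      exact (st_le hd D0 hA hu hmax hu'A s ⟨hs, h⟩).2
    · intro h
      exact (st_le hd D0 hA hu'A hmax' hu s ⟨hs, h⟩).2
  rw [← heq]
  exact h1
end Pool.Agent.Helper911
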