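import Mathlib
import Pool.Agent.Helper911_Abs.Core
import Pool.Agent.Helper911_Abs.LA
import Pool.Agent.Helper911_Abs.LE
import Pool.Agent.Helper911_Abs.LG
import Pool.Agent.Helper911_Abs.LH

set_option autoImplicit false
set_option linter.unusedSectionVars false
set_option maxHeartbeats 1000000

noncomputable section

open Topology Filter

namespace Pool.Agent.Helper911


variable {p : ℕ} {G : Type*} [Group G] [TopologicalSpace G] [IsTopologicalGroup G] [T2Space G]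
  {W : Type*} [DecidableEq W] {F : Flag p G W} {C : Type*} [NormedField C] [IsUltrametricDist C]
  {X : CharData F C} {R : SubRep X} {Om T : Finset W} {c : ℝ}



/-! ======= TARGET ======= -/

/-- group computation -/
theorem td_group (u u1 : W) (n b y : G) (m : ℕ) (h : F.e u * n = b * F.e u1 * y) :
    F.e u * ((F.z ^ m)⁻¹ * n * F.z ^ m) =
      ((F.e u * F.z ^ m * (F.e u)⁻¹)⁻¹ * b * (F.e u1 * F.z ^ m * (F.e u1)⁻¹)) *
        (F.e u1 * ((F.z ^ m)⁻¹ * y * F.z ^ m)) := by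
  have h2 : n = (F.e u)⁻¹ * (b * F.e u1 * y) := by rw [← h]; group
  rw [h2]
  group

theorem zpow_inv_mem (m : ℕ) : (F.z ^ m)⁻¹ ∈ F.Z := F.Z.inv_mem (zpow_mem_Z F m)

/-- value of a section at `e_u n_m` -/
theorem td_val (D0 : CoreData X R Om T c) {f : G → C} (hf : IsSec X f)
    {u u1 : W} (huT : u ∈ T) (hu1T : u1 ∈ T) {n b y : G} (hb : b ∈ F.B)
    (h : F.e u * n = b * F.e u1 * y) :
    ∃ lam : ℕ → C, (∀ m, ‖lam m‖ = 1) ∧ (∀ m, lam m =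
      X.chi (F.e u * F.z ^ m * (F.e u)⁻¹)⁻¹ * X.chi (F.e u1 * F.z ^ m * (F.e u1)⁻¹)) ∧
      ∀ m, f (F.e u * ((F.z ^ m)⁻¹ * n * F.z ^ m)) =
        lam m * X.chi b * f (F.e u1 * ((F.z ^ m)⁻¹ * y * F.z ^ m)) := by
  refine ⟨fun m => X.chi (F.e u * F.z ^ m * (F.e u)⁻¹)⁻¹ *
    X.chi (F.e u1 * F.z ^ m * (F.e u1)⁻¹), ?_, fun _ => rfl, ?_⟩
  · intro m
    have hB := conj_e_pow F u m
    have hpos : 0 < ‖X.chi (F.e u * F.z ^ m * (F.e u)⁻¹)‖ := X.norm_pos _ hB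
    simp only [norm_mul]
    rw [X.chi_inv _ hB, norm_inv, norm_chi_zpow, norm_chi_zpow, D0.cw_T u huT, D0.cw_T u1 hu1T]
    exact inv_mul_cancel₀ (pow_ne_zero _ D0.c_pos.ne')
  · intro m
    have hB := conj_e_pow F u m
    have hB1 := conj_e_pow F u1 m
    rw [td_group u u1 n b y m h, hf.2 _ (F.B.mul_mem (F.B.mul_mem (F.B.inv_mem hB) hb) hB1)]
    rw [X.chi_mul _ (F.B.mul_mem (F.B.inv_mem hB) hb) _ hB1,
      X.chi_mul _ (F.B.inv_mem hB) _ hb]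
    ring

theorem td_tendsto {f : G → C} (hf : IsSec X f) (u : W) {n : G} (hn : n ∈ F.P u) :
    Tendsto (fun m : ℕ => f (F.e u * ((F.z ^ m)⁻¹ * n * F.z ^ m))) atTop (𝓝 (f (F.e u))) := by
  have h1 := tendsto_N F n (F.P_le u hn)
  have h2 : Continuous fun x : G => f (F.e u * x) := hf.1.comp (continuous_const.mul continuous_id)
  have h3 := (h2.tendsto 1).comp h1
  simp only [mul_one] at h3
  exact h3

theorem td_first [Fact p.Prime] {rho : ℝ} (hd : Disc p C rho) (D0 : CoreData X R Om T c)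
    {A : Finset W} {A0 : ℝ} (hA : Isol D0 A A0) {u : W} (hu : u ∈ A)
    (hmax : ∀ w ∈ A, w ≠ u → ¬ wle F u w)
    {u1 : W} (hu1 : u1 ∈ A) {n b y : G} (hn : n ∈ F.P u)
    (hb : b ∈ F.B) (hy : y ∈ F.Nb)
    (h : F.e u * n = b * F.e u1 * y) : St F u y := by
  by_contra hSt
  obtain ⟨s, hs, q, hq, hyq⟩ := St_decomp (F := F) u y hy
  have hq1 : q ≠ 1 := by
    rintro rfl
    apply hSt
    rw [hyq, mul_one]
    exact hs
  have hA0 : 1 ≤ A0 := hA.one_le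
  have hA0' : 0 < A0 := lt_of_lt_of_le one_pos hA0
  have hχ : 0 ≤ ‖X.chi b‖ := norm_nonneg _
  set K : ℝ := 1 + A0 * A0 + ‖X.chi b‖ * A0 with hK
  have hKpos : 0 < K := by positivity
  set ε : ℝ := 1 / (2 * K) with hεdef
  have hε : 0 < ε := by positivity
  have hεK : K * ε = 1 / 2 := by rw [hεdef]; field_simp
  have e1 : A0 * A0 * ε < 1 := by
    have : A0 * A0 * ε ≤ K * ε := by
      apply mul_le_mul_of_nonneg_right _ hε.le
      rw [hK]; nlinarith [mul_nonneg hχ hA0'.le]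
    linarith
  have e2 : ε + ‖X.chi b‖ * A0 * ε < 1 := by
    have : ε + ‖X.chi b‖ * A0 * ε ≤ K * ε := by
      have : ε + ‖X.chi b‖ * A0 * ε = (1 + ‖X.chi b‖ * A0) * ε := by ring
      rw [this]
      apply mul_le_mul_of_nonneg_right _ hε.le
      rw [hK]; nlinarith [mul_pos hA0' hA0']
    linarith
  obtain ⟨κ, hκ, hkap⟩ := kappa hd D0 hA hu hmax hu1 hε e1
  obtain ⟨f, hf⟩ := good_CO hd D0 hA hu hmax hε (Nl F u 0) (Nl_CO F u 0)
  have hfS : IsSec X f := R.sec f (D0.le hf.1)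
  obtain ⟨lam, hlam, -, hval⟩ := td_val D0 hfS (hA.sub hu) (hA.sub hu1) hb h
  have hlim := td_tendsto hfS u hn
  obtain ⟨m0, hm0⟩ := escape_Q (F := F) u q hq hq1
  have hbound : ∀ m ≥ m0, ‖f (F.e u * ((F.z ^ m)⁻¹ * n * F.z ^ m))‖ ≤ ‖X.chi b‖ * A0 * ε := by
    intro m hm
    rw [hval m, norm_mul, norm_mul, hlam m, one_mul, mul_assoc ‖X.chi b‖ A0 ε]
    apply mul_le_mul_of_nonneg_left _ hχ
    have hyNb : (F.z ^ m)⁻¹ * y * F.z ^ m ∈ F.Nb := by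
      have := F.conj_Nb _ (zpow_inv_mem (F := F) m) y hy
      simpa using this
    have hsm : St F u ((F.z ^ m)⁻¹ * s * F.z ^ m) := by
      have := St_conj hs (zpow_inv_mem (F := F) m)
      simpa using this
    have hqm : (F.z ^ m)⁻¹ * q * F.z ^ m ∈ F.Q u := by
      have := F.conj_Q u _ (zpow_inv_mem (F := F) m) q hq
      simpa using this
    obtain ⟨D, hD, hGood, hiff⟩ := good_translate D0 hf hyNb
    have h1D : (1 : G) ∉ D := by
      rw [hiff]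
      rintro ⟨s', hs', q', hq', he⟩
      have he' : ((F.z ^ m)⁻¹ * s * F.z ^ m) * ((F.z ^ m)⁻¹ * q * F.z ^ m) = s' * q' := by
        rw [← he, hyq]; group
      have := (St_unique hsm hs' hqm hq'.1 he').2
      apply hm0 m hm
      rw [this]
      simpa using hq'.2
    have := (hkap D hD _ hGood).2 h1D
    simpa [tr] using this
  have hle : ‖f (F.e u)‖ ≤ ‖X.chi b‖ * A0 * ε :=
    le_of_tendsto hlim.norm (eventually_atTop.2 ⟨m0, fun m hm => hbound m hm⟩)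
  have h1 : ‖f (F.e u) - 1‖ ≤ ε := by
    have := hf.2.1 1 (F.Q u).one_mem (Nl_one u 0)
    simpa using this
  have h2 : (1 : ℝ) ≤ ‖f (F.e u)‖ + ‖f (F.e u) - 1‖ := by
    have : (1 : C) = f (F.e u) - (f (F.e u) - 1) := by ring
    calc (1 : ℝ) = ‖(1 : C)‖ := norm_one.symm
      _ = ‖f (F.e u) - (f (F.e u) - 1)‖ := by rw [← this]
      _ ≤ _ := norm_sub_le _ _
  linarith

theorem td_second [Fact p.Prime] {rho : ℝ} (hd : Disc p C rho) (D0 : CoreData X R Om T c)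
    {A : Finset W} {A0 : ℝ} (hA : Isol D0 A A0) {u : W} (hu : u ∈ A)
    (hmax : ∀ w ∈ A, w ≠ u → ¬ wle F u w)
    {u1 : W} (hu1 : u1 ∈ A) {n b y : G} (hn : n ∈ F.P u)
    (hb : b ∈ F.B) (hy : y ∈ F.Nb)
    (h : F.e u * n = b * F.e u1 * y) (hSt : St F u y) {ε : ℝ} (hε : 0 < ε) {f : G → C}
    (hf : Good D0 A u (Nl F u 0) ε f) {κ : C}
    (hkap : ∀ D : Set G, CO F u D → ∀ f, Good D0 A u D ε f →
      ((1 : G) ∈ D → ‖f (F.e u1) - κ‖ ≤ A0 * ε) ∧ ((1 : G) ∉ D → ‖f (F.e u1)‖ ≤ A0 * ε)) :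
    ∀ᶠ m : ℕ in atTop, ‖X.chi (F.e u * F.z ^ m * (F.e u)⁻¹)⁻¹ *
      X.chi (F.e u1 * F.z ^ m * (F.e u1)⁻¹) * X.chi b * κ - 1‖ ≤ (2 + ‖X.chi b‖ * A0) * ε := by
  have hfS : IsSec X f := R.sec f (D0.le hf.1)
  obtain ⟨lam, hlam, hlamdef, hval⟩ := td_val D0 hfS (hA.sub hu) (hA.sub hu1) hb h
  have hlim := td_tendsto hfS u hn
  have hev : ∀ᶠ m : ℕ in atTop, ‖f (F.e u * ((F.z ^ m)⁻¹ * n * F.z ^ m)) - f (F.e u)‖ < ε := by
    have := (Metric.tendsto_nhds.1 hlim) ε hε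
    simpa [dist_eq_norm] using this
  have h1 : ‖f (F.e u) - 1‖ ≤ ε := by
    have := hf.2.1 1 (F.Q u).one_mem (Nl_one u 0)
    simpa using this
  filter_upwards [hev] with m hm
  have hyNb : (F.z ^ m)⁻¹ * y * F.z ^ m ∈ F.Nb := by
    have := F.conj_Nb _ (zpow_inv_mem (F := F) m) y hy
    simpa using this
  have hsm : St F u ((F.z ^ m)⁻¹ * y * F.z ^ m) := by
    have := St_conj hSt (zpow_inv_mem (F := F) m)
    simpa using this
  obtain ⟨D, hD, hGood, hiff⟩ := good_translate D0 hf hyNb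
  have h1D : (1 : G) ∈ D := by
    rw [hiff]
    exact ⟨_, hsm, 1, Nl_one u 0, by simp⟩
  have hk := (hkap D hD _ hGood).1 h1D
  have hk' : ‖f (F.e u1 * ((F.z ^ m)⁻¹ * y * F.z ^ m)) - κ‖ ≤ A0 * ε := by
    simpa [tr] using hk
  have key : X.chi (F.e u * F.z ^ m * (F.e u)⁻¹)⁻¹ *
      X.chi (F.e u1 * F.z ^ m * (F.e u1)⁻¹) * X.chi b * κ - 1 =
      (f (F.e u * ((F.z ^ m)⁻¹ * n * F.z ^ m)) - f (F.e u)) + (f (F.e u) - 1)
      - lam m * X.chi b * (f (F.e u1 * ((F.z ^ m)⁻¹ * y * F.z ^ m)) - κ) := by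
    rw [hval m, hlamdef m]; ring
  rw [key]
  have h3 : ‖lam m * X.chi b * (f (F.e u1 * ((F.z ^ m)⁻¹ * y * F.z ^ m)) - κ)‖
      ≤ ‖X.chi b‖ * (A0 * ε) := by
    rw [norm_mul, norm_mul, hlam m, one_mul]
    exact mul_le_mul_of_nonneg_left hk' (norm_nonneg _)
  calc _ ≤ ‖(f (F.e u * ((F.z ^ m)⁻¹ * n * F.z ^ m)) - f (F.e u)) + (f (F.e u) - 1)‖
      + ‖lam m * X.chi b * (f (F.e u1 * ((F.z ^ m)⁻¹ * y * F.z ^ m)) - κ)‖ := norm_sub_le _ _
    _ ≤ (‖f (F.e u * ((F.z ^ m)⁻¹ * n * F.z ^ m)) - f (F.e u)‖ + ‖f (F.e u) - 1‖)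
      + ‖X.chi b‖ * (A0 * ε) := add_le_add (norm_add_le _ _) h3
    _ ≤ (ε + ε) + ‖X.chi b‖ * (A0 * ε) := by
      have := hm.le
      gcongr
    _ = _ := by ring

/-- TARGET.
Proof. `hmax` for `u` follows from `htop` and `wle_antisymm`. Let `n_m = z^{-m} n z^m → 1` (`tendsto_N`, `P u ≤ N`). We have (group computation)
`e_u n_m = (e_u z^m e_u⁻¹)⁻¹ * b * (e_u1 z^m e_u1⁻¹) * e_u1 * (z^{-m} y z^m)`, so for a section `f`: `f (e_u n_m) = λ_m χ(b) f (e_u1 (z^{-m} y z^m))` with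
`λ_m = χ(e_u z^m e_u⁻¹)⁻¹ χ(e_u1 z^m e_u1⁻¹)`, `‖λ_m‖ = 1` (`norm_chi_zpow`, `D0.cw_T`, `hA.sub`).
First claim: suppose not `St u y`; write `y = s q`, `St u s`, `q ∈ Q u`, `q ≠ 1`. Let `ε > 0` with `A0 A0 ε < 1` and `‖χ b‖ A0 ε < 1`, `κ` from `kappa`, `f` good for `Nl u 0` and `ε`. By `escape_Q` for `m` large
`z^{-m} q z^m ∉ Gam`, so `z^{-m} y z^m = (z^{-m} s z^m)(z^{-m} q z^m)` is not in `St u * Nl u 0` (`St_conj`, `St_unique`); by `good_translate` and `kappa` `‖f (e_u1 (z^{-m} y z^m))‖ ≤ A0 ε`. Hence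
`‖f (e_u n_m)‖ ≤ ‖χ b‖ A0 ε` for large `m`; in the limit `‖f (e_u)‖ ≤ ‖χ b‖ A0 ε < 1`. But `‖f (e_u) - 1‖ ≤ ε < 1` gives `‖f (e_u)‖ = 1`. Contradiction.
Second claim: so `St u y` and in the same way `St u y'`. For every small `ε > 0`: `z^{-m} y z^m` is in `St u` (`St_conj`), so by `good_translate` and `kappa`
`‖f (e_u1 (z^{-m} y z^m)) - κ‖ ≤ A0 ε` for all `m`, and the same for `y'`. For `m` large, `‖f (e_u n_m) - f (e_u)‖ ≤ ε` and the same for `n'`, and `‖f (e_u) - 1‖ ≤ ε`. So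
`‖λ_m χ(b) κ - 1‖ ≤ ε max 1 (A0 ‖χ b‖)`, `‖λ_m χ(b') κ - 1‖ ≤ ε max 1 (A0 ‖χ b'‖)`, and subtracting, `‖χ b - χ b'‖ ≤ A0 ε (max of these)` as `‖κ‖ ≥ 1/A0`. As `ε` is arbitrary, `χ b = χ b'`. -/
theorem td [Fact p.Prime] {rho : ℝ} (hd : Disc p C rho) (D0 : CoreData X R Om T c)
    {A : Finset W} {A0 : ℝ} (hA : Isol D0 A A0) {u : W} (hu : u ∈ A) (htop : ∀ w ∈ A, wle F w u)
    {u1 : W} (hu1 : u1 ∈ A) {n n' b b' y y' : G} (hn : n ∈ F.P u) (hn' : n' ∈ F.P u)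
    (hb : b ∈ F.B) (hb' : b' ∈ F.B) (hy : y ∈ F.Nb) (hy' : y' ∈ F.Nb)
    (h : F.e u * n = b * F.e u1 * y) (h' : F.e u * n' = b' * F.e u1 * y') :
    St F u y ∧ X.chi b = X.chi b' := by
  have hmax : ∀ w ∈ A, w ≠ u → ¬ wle F u w := fun w hw hne hle =>
    hne (wle_antisymm F (htop w hw) hle)
  have S1 := td_first hd D0 hA hu hmax hu1 hn hb hy h
  have S2 := td_first hd D0 hA hu hmax hu1 hn' hb' hy' h'
  refine ⟨S1, ?_⟩
  have hA0 : 1 ≤ A0 := hA.one_le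
  have hA0' : 0 < A0 := lt_of_lt_of_le one_pos hA0
  set K : ℝ := 4 + ‖X.chi b‖ * A0 + ‖X.chi b'‖ * A0 with hK
  have hKpos : 0 < K := by positivity
  -- main estimate
  have main : ∀ ε : ℝ, 0 < ε → A0 * A0 * ε < 1 → ‖X.chi b - X.chi b'‖ ≤ A0 * (K * ε) := by
    intro ε hε e1
    obtain ⟨κ, hκ, hkap⟩ := kappa hd D0 hA hu hmax hu1 hε e1
    obtain ⟨f, hf⟩ := good_CO hd D0 hA hu hmax hε (Nl F u 0) (Nl_CO F u 0)
    have E1 := td_second hd D0 hA hu hmax hu1 hn hb hy h S1 hε hf hkap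
    have E2 := td_second hd D0 hA hu hmax hu1 hn' hb' hy' h' S2 hε hf hkap
    obtain ⟨m, hm1, hm2⟩ := (E1.and E2).exists
    set lam : C := X.chi (F.e u * F.z ^ m * (F.e u)⁻¹)⁻¹ *
      X.chi (F.e u1 * F.z ^ m * (F.e u1)⁻¹) with hlam
    have hlam1 : ‖lam‖ = 1 := by
      obtain ⟨l, hl1, hl2, -⟩ := td_val D0 (R.sec f (D0.le hf.1)) (hA.sub hu) (hA.sub hu1) hb h
      rw [hlam, ← hl2 m]; exact hl1 m
    have hdiff : ‖lam * κ * (X.chi b - X.chi b')‖ ≤ K * ε := by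
      have : lam * κ * (X.chi b - X.chi b') =
          (lam * X.chi b * κ - 1) - (lam * X.chi b' * κ - 1) := by ring
      rw [this]
      calc _ ≤ ‖lam * X.chi b * κ - 1‖ + ‖lam * X.chi b' * κ - 1‖ := norm_sub_le _ _
        _ ≤ (2 + ‖X.chi b‖ * A0) * ε + (2 + ‖X.chi b'‖ * A0) * ε := add_le_add hm1 hm2
        _ = K * ε := by rw [hK]; ring
    rw [norm_mul, norm_mul, hlam1, one_mul] at hdiff
    have hx : 0 ≤ ‖X.chi b - X.chi b'‖ := norm_nonneg _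
    calc ‖X.chi b - X.chi b'‖ = 1 * ‖X.chi b - X.chi b'‖ := (one_mul _).symm
      _ ≤ (A0 * ‖κ‖) * ‖X.chi b - X.chi b'‖ := mul_le_mul_of_nonneg_right hκ hx
      _ = A0 * (‖κ‖ * ‖X.chi b - X.chi b'‖) := by ring
      _ ≤ A0 * (K * ε) := mul_le_mul_of_nonneg_left hdiff hA0'.le
  by_contra hne
  have hδ : 0 < ‖X.chi b - X.chi b'‖ := norm_pos_iff.2 (sub_ne_zero.2 hne)
  set δ := ‖X.chi b - X.chi b'‖ with hδdef
  set M : ℝ := A0 * A0 + A0 * K / δ with hM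
  have hMpos : 0 < M := by positivity
  set ε : ℝ := 1 / (2 * M) with hεdef
  have hε : 0 < ε := by positivity
  have hεM : M * ε = 1 / 2 := by rw [hεdef]; field_simp
  have hq : 0 < A0 * K / δ := by positivity
  have e1 : A0 * A0 * ε < 1 := by
    have : A0 * A0 * ε ≤ M * ε := by
      apply mul_le_mul_of_nonneg_right _ hε.le
      rw [hM]; linarith
    linarith
  have e2 : A0 * K / δ * ε ≤ 1 / 2 := by
    have : A0 * K / δ * ε ≤ M * ε := by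
      apply mul_le_mul_of_nonneg_right _ hε.le
      rw [hM]; nlinarith [mul_pos hA0' hA0']
    linarith
  have e3 := main ε hε e1
  have e4 : A0 * (K * ε) = δ * (A0 * K / δ * ε) := by field_simp
  rw [e4] at e3
  nlinarith
end Pool.Agent.Helper911
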