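import Mathlib
import Pool.Agent.Helper911_Abs.Core
import Pool.Agent.Helper911_Abs.LA
import Pool.Agent.Helper911_Abs.LK

set_option autoImplicit false
set_option linter.unusedSectionVars false
set_option maxHeartbeats 1000000

noncomputable section

open Topology Filter

namespace Pool.Agent.Helper911


variable {p : ℕ} {G : Type*} [Group G] [TopologicalSpace G] [IsTopologicalGroup G] [T2Space G]
  {W : Type*} [DecidableEq W] {F : Flag p G W} {C : Type*} [NormedField C] [IsUltrametricDist C]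
  {X : CharData F C} {R : SubRep X} {Om T : Finset W} {c : ℝ}



/-! ======= TARGET ======= -/

/-- TARGET.
Proof. Suppose `u1 ∈ A`, `u1 ≠ u`. Let `R = {n ∈ P u | idx (e_u n) = u1}`. Nonempty: `wle u1 u`, so `e_u` is in the closure of the cell of `u1`, and the
neighbourhood `U0 u` contains a point `b e_u n y` of the cell of `u1`; then `idx (e_u n) = u1` (`idx_right_Nb`, `idx_left`). `1 ∉ R` since `idx e_u = u`. For the property in `TieHyp`: let `n1 ∈ R`, `St u s`,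
`e_u n1 s = b e_u n2 y`. By `F.exists_rep`, `e_u n1 = b0 e_u1 y0` with `b0 ∈ B`, `y0 ∈ Nb`. Then `e_u n2 = (b⁻¹ b0) e_u1 (y0 s y⁻¹)`, so `n2 ∈ R`. By `td` for `n1`, `n2`: `St u y0`, `St u (y0 s y⁻¹)` and
`χ (b⁻¹ b0) = χ b0`, so `χ b = 1`. And `y = (y0 s y⁻¹)⁻¹ (y0 s)` is in `St u` and in `Q u`, so `y = 1` (`St_inter`). So `TieHyp` gives `False`. -/
theorem A_single [Fact p.Prime] {rho : ℝ} (hd : Disc p C rho) (tie : TieHyp X)
    (D0 : CoreData X R Om T c) {A : Finset W} {A0 : ℝ} (hA : Isol D0 A A0) {u : W} (hu : u ∈ A)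
    (htop : ∀ w ∈ A, wle F w u) : A = {u} := by
  by_contra hne
  obtain ⟨u1, hu1, hne1⟩ : ∃ u1 ∈ A, u1 ≠ u := by
    by_contra hall
    push Not at hall
    exact hne (Finset.eq_singleton_iff_unique_mem.mpr ⟨hu, hall⟩)
  refine tie u {n | n ∈ F.P u ∧ F.idx (F.e u * n) = u1} (fun x hx => hx.1) ?_ ?_ ?_
  · rintro ⟨-, h1⟩
    rw [mul_one, F.idx_e] at h1
    exact hne1 h1.symm
  · have hcl : F.e u ∈ closure (cell F {u1}) := htop u1 hu1
    obtain ⟨g, hgU, hgc⟩ := mem_closure_iff.mp hcl (U0 F u) (U0_clopen F u).isOpen (e_mem_U0 F u)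
    obtain ⟨b, hb, n, hn, y, hy, -, -, rfl⟩ := hgU
    refine ⟨n, hn, ?_⟩
    have h1 : F.idx (b * F.e u * n * y) = u1 := by
      have : F.idx (b * F.e u * n * y) ∈ ({u1} : Finset W) := hgc
      simpa using this
    rw [F.idx_right_Nb y (F.Q_le u hy), mul_assoc b, F.idx_left b hb] at h1
    exact h1
  · rintro n1 ⟨hn1, hi1⟩ s hs b hb n2 hn2 y hy heq
    obtain ⟨b0, hb0, y0, hy0, h0⟩ := F.exists_rep (F.e u * n1)
    rw [hi1] at h0
    have hyNb : y0 * s * y⁻¹ ∈ F.Nb :=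
      F.Nb.mul_mem (F.Nb.mul_mem hy0 hs.1) (F.Nb.inv_mem (F.Q_le u hy))
    have hbB : b⁻¹ * b0 ∈ F.B := F.B.mul_mem (F.B.inv_mem hb) hb0
    have h2 : F.e u * n2 = b⁻¹ * b0 * F.e u1 * (y0 * s * y⁻¹) := by
      have e1 : b * F.e u * n2 * y = b0 * F.e u1 * y0 * s := by rw [← heq, h0]
      calc F.e u * n2 = b⁻¹ * (b * F.e u * n2 * y) * y⁻¹ := by group
        _ = b⁻¹ * (b0 * F.e u1 * y0 * s) * y⁻¹ := by rw [e1]
        _ = b⁻¹ * b0 * F.e u1 * (y0 * s * y⁻¹) := by group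
    have t1 := td hd D0 hA hu htop hu1 hn1 hn2 hb0 hbB hy0 hyNb h0 h2
    have t2 := td hd D0 hA hu htop hu1 hn2 hn2 hbB hbB hyNb hyNb h2 h2
    have hSy : St F u y := by
      have := St_mul (St_inv t2.1) (St_mul t1.1 hs)
      have e : (y0 * s * y⁻¹)⁻¹ * (y0 * s) = y := by group
      rwa [e] at this
    refine ⟨St_inter hSy hy, ⟨hn2, ?_⟩, ?_⟩
    · rw [h2]
      exact idx_eq F u1 _ _ hbB hyNb
    · have h3 := t1.2
      rw [X.chi_mul _ (F.B.inv_mem hb) _ hb0, X.chi_inv b hb] at h3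
      have h4 : X.chi b0 ≠ 0 := X.chi_ne b0 hb0
      have h5 : X.chi b ≠ 0 := X.chi_ne b hb
      have h6 : (X.chi b)⁻¹ = 1 := by
        have : (X.chi b)⁻¹ * X.chi b0 = 1 * X.chi b0 := by rw [one_mul]; exact h3.symm
        exact mul_right_cancel₀ h4 this
      exact inv_eq_one.mp h6
end Pool.Agent.Helper911
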