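import Mathlib
import Pool.Agent.Helper911_Abs.Core
import Pool.Agent.Helper911_Abs.LA
import Pool.Agent.Helper911_Abs.LD

set_option autoImplicit false
set_option linter.unusedSectionVars false
set_option maxHeartbeats 1000000

noncomputable section

open Topology Filter

namespace Pool.Agent.Helper911


variable {p : ℕ} {G : Type*} [Group G] [TopologicalSpace G] [IsTopologicalGroup G] [T2Space G]
  {W : Type*} [DecidableEq W] {F : Flag p G W} {C : Type*} [NormedField C] [IsUltrametricDist C]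
  {X : CharData F C} {R : SubRep X} {Om T : Finset W} {c : ℝ}



/-! ======= TARGET ======= -/

/-- TARGET.
Proof. Suppose `w ∈ T \ A`, `wle w u`. As in the proof that the closure relation is given by `N`: `U0 u` is a neighbourhood of `e_u`, which is in the closure of the cell of `w`, so there
is a point `b e_u n y ∈ U0 u` with index `w`, and `idx (e_u n) = w` with `n ∈ P u`. By `F.exists_rep`, `e_u n = b0 e_w y0`, `b0 ∈ B`, `y0 ∈ Nb`. `hmax` for `u` follows from `htop` and `wle_antisymm`. Let `ε > 0` with `ε < 1`, `‖χ b0‖ ε < 1`, and `f`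
good for `Gam` and `ε` (`good_exists`). With `n_m = z^{-m} n z^m → 1`: `e_u n_m = (e_u z^m e_u⁻¹)⁻¹ b0 (e_w z^m e_w⁻¹) e_w (z^{-m} y0 z^m)`, so
`‖f (e_u n_m)‖ ≤ ‖χ b0‖ ε` (the two characters have norm `c^m` by `norm_chi_zpow`, `D0.cw_T`; and `TN w f ε`). In the limit `‖f (e_u)‖ ≤ ‖χ b0‖ ε < 1`, but `‖f (e_u) - 1‖ ≤ ε < 1`, so
`‖f (e_u)‖ = 1`. Contradiction. -/
theorem none_below [Fact p.Prime] {rho : ℝ} (hd : Disc p C rho) (D0 : CoreData X R Om T c)
    {A : Finset W} {A0 : ℝ} (hA : Isol D0 A A0) {u : W} (hu : u ∈ A)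
    (htop : ∀ w ∈ A, wle F w u) : ∀ w ∈ T \ A, ¬ wle F w u := by
  intro w hw hle
  have huT : u ∈ T := hA.sub hu
  have hwT : w ∈ T := (Finset.mem_sdiff.mp hw).1
  have hmax : ∀ w ∈ A, w ≠ u → ¬ wle F u w := by
    intro w' hw' hne h
    exact hne (wle_antisymm F (htop w' hw') h)
  -- a point of the cell of `w` in the chart at `u`
  obtain ⟨g, hgU, hgc⟩ := mem_closure_iff.mp hle (U0 F u) (U0_clopen F u).isOpen (e_mem_U0 F u)
  obtain ⟨b, hb, n, hn, y, hy, hnG, hyG, rfl⟩ := hgU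
  have hidx : F.idx (F.e u * n) = w := by
    have h1 : F.idx (b * F.e u * n * y) = w := by
      simpa [cell] using hgc
    have h2 : F.idx (b * F.e u * n * y) = F.idx (F.e u * n) := by
      rw [F.idx_right_Nb y (F.Q_le u hy), mul_assoc b, F.idx_left b hb]
    rw [← h2]; exact h1
  obtain ⟨b0, hb0, y0, hy0, hrep⟩ := F.exists_rep (F.e u * n)
  rw [hidx] at hrep
  set ε : ℝ := 1 / (2 * (1 + ‖X.chi b0‖)) with hεd
  have hpos : 0 < 1 + ‖X.chi b0‖ := by positivity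
  have hε : 0 < ε := by positivity
  have hεe : ε * (1 + ‖X.chi b0‖) = 1 / 2 := by rw [hεd]; field_simp
  obtain ⟨f, hfV, hf1, hf2, hf3⟩ := good_exists hd D0 hA hu hmax hε
  have hsec : IsSec X f := R.sec f (D0.le hfV)
  have hTN : TN F w f ε := hf3 w hw
  have key : ∀ m : ℕ, ‖f (F.e u * ((F.z ^ m)⁻¹ * n * F.z ^ m))‖ ≤ ‖X.chi b0‖ * ε := by
    intro m
    have e1 : F.e u * ((F.z ^ m)⁻¹ * n * F.z ^ m)
        = (F.e u * F.z ^ m * (F.e u)⁻¹)⁻¹ * (b0 * ((F.e w * F.z ^ m * (F.e w)⁻¹) *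
          (F.e w * ((F.z ^ m)⁻¹ * y0 * F.z ^ m)))) := by
      have e2 : F.e u * ((F.z ^ m)⁻¹ * n * F.z ^ m)
          = (F.e u * F.z ^ m * (F.e u)⁻¹)⁻¹ * (F.e u * n) * F.z ^ m := by group
      rw [e2, hrep]; group
    have hBu := conj_e_pow F u m
    have hBw := conj_e_pow F w m
    have hy' : (F.z ^ m)⁻¹ * y0 * F.z ^ m ∈ F.Nb := by
      have := F.conj_Nb (F.z ^ m)⁻¹ (F.Z.inv_mem (zpow_mem_Z F m)) y0 hy0
      simpa using this
    rw [e1, hsec.norm_left _ _ (F.B.inv_mem hBu), hsec.norm_left _ _ hb0, hsec.norm_left _ _ hBw,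
      X.chi_inv _ hBu, norm_inv, norm_chi_zpow X u m, norm_chi_zpow X w m, D0.cw_T u huT,
      D0.cw_T w hwT]
    have hc : 0 < c ^ m := pow_pos D0.c_pos m
    have h3 := hTN _ hy'
    have e4 : (c ^ m)⁻¹ * (‖X.chi b0‖ * (c ^ m * ‖f (F.e w * ((F.z ^ m)⁻¹ * y0 * F.z ^ m))‖))
        = ‖X.chi b0‖ * ‖f (F.e w * ((F.z ^ m)⁻¹ * y0 * F.z ^ m))‖ := by
      field_simp
    rw [e4]
    exact mul_le_mul_of_nonneg_left h3 (norm_nonneg _)
  have hlim : Tendsto (fun m : ℕ => ‖f (F.e u * ((F.z ^ m)⁻¹ * n * F.z ^ m))‖) atTop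
      (𝓝 ‖f (F.e u * 1)‖) := by
    have h1 := tendsto_N F n (F.P_le u hn)
    have h2 : Tendsto (fun m : ℕ => F.e u * ((F.z ^ m)⁻¹ * n * F.z ^ m)) atTop
      (𝓝 (F.e u * 1)) := h1.const_mul (F.e u)
    exact ((hsec.1.tendsto _).comp h2).norm
  have hle1 : ‖f (F.e u * 1)‖ ≤ ‖X.chi b0‖ * ε :=
    le_of_tendsto hlim (Eventually.of_forall key)
  have hle2 : ‖f (F.e u * 1) - 1‖ ≤ ε := hf1 1 (F.Q u).one_mem F.Gam.one_mem
  have h1 : ‖(1 : C)‖ ≤ ‖f (F.e u * 1)‖ + ‖f (F.e u * 1) - 1‖ := by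
    have : (1 : C) = f (F.e u * 1) - (f (F.e u * 1) - 1) := by ring
    calc ‖(1:C)‖ = ‖f (F.e u * 1) - (f (F.e u * 1) - 1)‖ := by rw [← this]
      _ ≤ _ := norm_sub_le _ _
  rw [norm_one] at h1
  nlinarith
end Pool.Agent.Helper911
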