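import Mathlib
import Pool.Agent.Helper911_Abs.Core
import Pool.Agent.Helper911_Abs.LA
import Pool.Agent.Helper911_Abs.KB

set_option autoImplicit false
set_option linter.unusedSectionVars false
set_option maxHeartbeats 1000000

noncomputable section

open Topology Filter

namespace Pool.Agent.Helper911


variable {p : ℕ} {G : Type*} [Group G] [TopologicalSpace G] [IsTopologicalGroup G] [T2Space G]
  {W : Type*} [DecidableEq W] {F : Flag p G W} {C : Type*} [NormedField C] [IsUltrametricDist C]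
  {X : CharData F C} {R : SubRep X} {Om T : Finset W} {c : ℝ}



/-! ======= AUXILIARY LEMMAS ======= -/

/-- points with coordinates in `S1`, `S2` -/
def PAW (F : Flag p G W) (u : W) (S1 S2 : Set G) : Set G :=
  {g | ∃ b ∈ F.B, ∃ n ∈ F.P u, ∃ y ∈ F.Q u, n ∈ S1 ∧ y ∈ S2 ∧ g = b * F.e u * n * y}

theorem PA_unique (u : W) {b n y b' n' y' : G} (hb : b ∈ F.B) (hn : n ∈ F.P u) (hy : y ∈ F.Q u)
    (hb' : b' ∈ F.B) (hn' : n' ∈ F.P u) (hy' : y' ∈ F.Q u)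
    (h : b * F.e u * n * y = b' * F.e u * n' * y') : b = b' ∧ n = n' ∧ y = y' := by
  have h1 : F.e u * n * y = (b⁻¹ * b') * F.e u * n' * y' := by
    have : b⁻¹ * (b * F.e u * n * y) = b⁻¹ * (b' * F.e u * n' * y') := by rw [h]
    simpa [mul_assoc] using this
  obtain ⟨e1, e2⟩ := F.chart_inj u _ (F.B.mul_mem (F.B.inv_mem hb) hb') n hn y hy n' hn' y' hy' h1
  refine ⟨?_, e1, e2⟩
  rw [← e1, ← e2] at h
  simpa using h

open Classical in
/-- the function `χ b` at `b e_u n y`, `n ∈ S1`, `y ∈ S2` -/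
def PAE (X : CharData F C) (u : W) (S1 S2 : Set G) (x : G) : C :=
  if h : x ∈ PAW F u S1 S2 then X.chi h.choose else 0

theorem PAE_val (X : CharData F C) (u : W) (S1 S2 : Set G) {b n y : G} (hb : b ∈ F.B)
    (hn : n ∈ F.P u) (hy : y ∈ F.Q u) (h1 : n ∈ S1) (h2 : y ∈ S2) :
    PAE X u S1 S2 (b * F.e u * n * y) = X.chi b := by
  have h : b * F.e u * n * y ∈ PAW F u S1 S2 := ⟨b, hb, n, hn, y, hy, h1, h2, rfl⟩
  unfold PAE
  rw [dif_pos h]
  obtain ⟨hb', n', hn', y', hy', _, _, he⟩ := h.choose_spec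
  exact congrArg X.chi (PA_unique u hb hn hy hb' hn' hy' he).1.symm

theorem PAE_zero (X : CharData F C) (u : W) (S1 S2 : Set G) {x : G} (h : x ∉ PAW F u S1 S2) :
    PAE X u S1 S2 x = 0 := by
  unfold PAE
  rw [dif_neg h]

theorem PAW_linv (u : W) (S1 S2 : Set G) : LInv F (PAW F u S1 S2) := by
  rintro b hb g ⟨b', hb', n, hn, y, hy, h1, h2, rfl⟩
  exact ⟨b * b', F.B.mul_mem hb hb', n, hn, y, hy, h1, h2, by simp only [mul_assoc]⟩

theorem PAE_left (X : CharData F C) (u : W) (S1 S2 : Set G) (b : G) (hb : b ∈ F.B) (g : G) :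
    PAE X u S1 S2 (b * g) = X.chi b * PAE X u S1 S2 g := by
  by_cases h : g ∈ PAW F u S1 S2
  · obtain ⟨b', hb', n, hn, y, hy, h1, h2, rfl⟩ := h
    rw [PAE_val X u S1 S2 hb' hn hy h1 h2, ← X.chi_mul b hb b' hb',
      show b * (b' * F.e u * n * y) = (b * b') * F.e u * n * y by simp only [mul_assoc],
      PAE_val X u S1 S2 (F.B.mul_mem hb hb') hn hy h1 h2]
  · rw [PAE_zero X u S1 S2 h, mul_zero, PAE_zero]
    rwa [(PAW_linv (F := F) u S1 S2).mem_iff hb]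

theorem PAW_open (u : W) {S1 S2 : Set G} (h1 : IsOpen S1) (h2 : IsOpen S2) :
    IsOpen (PAW F u S1 S2) := F.chart_open u S1 S2 h1 h2

theorem PAW_closed (u : W) {S1 S2 : Set G} (h1 : IsCompact {n : G | n ∈ F.P u ∧ n ∈ S1})
    (h2 : IsCompact {y : G | y ∈ F.Q u ∧ y ∈ S2}) : IsClosed (PAW F u S1 S2) := by
  have hS : IsCompact ((fun q : G × G => F.e u * q.1 * q.2) ''
      ({n : G | n ∈ F.P u ∧ n ∈ S1} ×ˢ {y : G | y ∈ F.Q u ∧ y ∈ S2})) :=
    (h1.prod h2).image (by fun_prop)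
  convert B_mul_closed F hS using 1
  ext g
  constructor
  · rintro ⟨b, hb, n, hn, y, hy, e1, e2, rfl⟩
    exact ⟨b, hb, _, ⟨(n, y), ⟨⟨hn, e1⟩, ⟨hy, e2⟩⟩, rfl⟩, by simp only [mul_assoc]⟩
  · rintro ⟨b, hb, _, ⟨⟨n, y⟩, ⟨⟨hn, e1⟩, ⟨hy, e2⟩⟩, rfl⟩, rfl⟩
    exact ⟨b, hb, n, hn, y, hy, e1, e2, by simp only [mul_assoc]⟩

theorem PAE_continuous (X : CharData F C) (u : W) {S1 S2 : Set G} (o1 : IsOpen S1)
    (o2 : IsOpen S2) (hcl : IsClosed (PAW F u S1 S2)) : Continuous (PAE X u S1 S2) := by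
  rw [continuous_iff_continuousAt]
  intro x0
  by_cases hx : x0 ∈ PAW F u S1 S2
  · obtain ⟨b, hb, n, hn, y, hy, h1, h2, rfl⟩ := hx
    intro U hU
    rw [PAE_val X u S1 S2 hb hn hy h1 h2] at hU
    have hc := X.chi_cont b hb
    have hm := hc hU
    rw [Filter.mem_map, mem_nhdsWithin] at hm
    obtain ⟨O, hO, hbO, hOU⟩ := hm
    -- the map giving `b`
    have hφ : Continuous (fun q : G × G × G => q.1 * q.2.2⁻¹ * q.2.1⁻¹ * (F.e u)⁻¹) := by fun_prop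
    have hpt : (fun q : G × G × G => q.1 * q.2.2⁻¹ * q.2.1⁻¹ * (F.e u)⁻¹)
        (b * F.e u * n * y, n, y) ∈ O := by
      have : (b * F.e u * n * y) * y⁻¹ * n⁻¹ * (F.e u)⁻¹ = b := by group
      simp only
      rw [this]
      exact hbO
    have hn1 := hφ.continuousAt.preimage_mem_nhds (hO.mem_nhds hpt)
    rw [mem_nhds_prod_iff] at hn1
    obtain ⟨A, hA, B', hB', hsub⟩ := hn1
    rw [mem_nhds_prod_iff'] at hB'
    obtain ⟨O1, O2, hO1, hn1, hO2, hy2, hsub2⟩ := hB'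
    have hopen : PAW F u (S1 ∩ O1) (S2 ∩ O2) ∈ 𝓝 (b * F.e u * n * y) :=
      (PAW_open u (o1.inter hO1) (o2.inter hO2)).mem_nhds
        ⟨b, hb, n, hn, y, hy, ⟨h1, hn1⟩, ⟨h2, hy2⟩, rfl⟩
    rw [Filter.mem_map]
    filter_upwards [hA, hopen] with x hxA hxW
    obtain ⟨b', hb', n', hn', y', hy', ⟨g1, g1'⟩, ⟨g2, g2'⟩, rfl⟩ := hxW
    rw [Set.mem_preimage, PAE_val X u S1 S2 hb' hn' hy' g1 g2]
    refine hOU ⟨?_, hb'⟩
    have h3 : (b' * F.e u * n' * y', n', y') ∈ A ×ˢ B' := ⟨hxA, hsub2 ⟨g1', g2'⟩⟩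
    have h4 := hsub h3
    simp only [Set.mem_preimage] at h4
    have : (b' * F.e u * n' * y') * y'⁻¹ * n'⁻¹ * (F.e u)⁻¹ = b' := by group
    rwa [this] at h4
  · have hev : PAE X u S1 S2 =ᶠ[𝓝 x0] fun _ => 0 := by
      filter_upwards [hcl.isOpen_compl.mem_nhds hx] with x hx'
      exact PAE_zero X u S1 S2 hx'
    exact (continuousAt_const (y := (0 : C))).congr hev.symm

/-- the condition on `n` -/
def PAS (F : Flag p G W) (m : ℕ) : Set G := {n | (F.z ^ m)⁻¹ * n * F.z ^ m ∈ F.Gam}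

theorem PAS_open (m : ℕ) : IsOpen (PAS F m) := by
  have : Continuous (fun n : G => (F.z ^ m)⁻¹ * n * F.z ^ m) := by fun_prop
  exact F.Gam_open.preimage this

theorem PAS_compact (u : W) (m : ℕ) : IsCompact {n : G | n ∈ F.P u ∧ n ∈ PAS F m} := by
  have h : {n : G | n ∈ F.P u ∧ n ∈ PAS F m} =
      (fun n => F.z ^ m * n * (F.z ^ m)⁻¹) '' {y : G | y ∈ F.P u ∧ y ∈ F.Gam} := by
    ext n
    constructor
    · rintro ⟨h1, h2⟩
      refine ⟨(F.z ^ m)⁻¹ * n * F.z ^ m, ⟨?_, h2⟩, by group⟩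
      have := F.conj_P u (F.z ^ m)⁻¹ (F.Z.inv_mem (zpow_mem_Z F m)) n h1
      rwa [inv_inv] at this
    · rintro ⟨y, ⟨h1, h2⟩, rfl⟩
      refine ⟨F.conj_P u _ (zpow_mem_Z F m) y h1, ?_⟩
      have : (F.z ^ m)⁻¹ * (F.z ^ m * y * (F.z ^ m)⁻¹) * F.z ^ m = y := by group
      show (F.z ^ m)⁻¹ * (F.z ^ m * y * (F.z ^ m)⁻¹) * F.z ^ m ∈ F.Gam
      rw [this]
      exact h2
  rw [h]
  exact (PG_compact F u).image (by fun_prop)

/-- the section `E_m` -/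
def PAEm (X : CharData F C) (u : W) (m : ℕ) : G → C := PAE X u (PAS F m) (F.Gam : Set G)

theorem PAEm_sec (X : CharData F C) (u : W) (m : ℕ) : IsSec X (PAEm X u m) :=
  ⟨PAE_continuous X u (PAS_open m) F.Gam_open (PAW_closed u (PAS_compact u m) (QG_compact F u)),
    fun b hb g => PAE_left X u _ _ b hb g⟩

theorem PAW_iff (u : W) (S1 S2 : Set G) {b n y : G} (hb : b ∈ F.B) (hn : n ∈ F.P u)
    (hy : y ∈ F.Q u) : b * F.e u * n * y ∈ PAW F u S1 S2 ↔ n ∈ S1 ∧ y ∈ S2 := by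
  constructor
  · rintro ⟨b', hb', n', hn', y', hy', h1, h2, he⟩
    obtain ⟨_, e1, e2⟩ := PA_unique u hb hn hy hb' hn' hy' he
    rw [e1, e2]
    exact ⟨h1, h2⟩
  · rintro ⟨h1, h2⟩
    exact ⟨b, hb, n, hn, y, hy, h1, h2, rfl⟩

theorem PA_Nl_sub (u : W) (m : ℕ) : Nl F u m ⊆ (F.Gam : Set G) := by
  rintro y ⟨hy, hg⟩
  have h1 : (F.z ^ m)⁻¹ * y * F.z ^ m ∈ F.Q u := by
    have := F.conj_Q u (F.z ^ m)⁻¹ (F.Z.inv_mem (zpow_mem_Z F m)) y hy
    rwa [inv_inv] at this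
  have h2 := shrink_Nb_pow F m _ (F.Q_le u h1) hg
  have h3 : F.z ^ m * ((F.z ^ m)⁻¹ * y * F.z ^ m) * (F.z ^ m)⁻¹ = y := by group
  rw [h3] at h2
  exact h2

/-- `Nl` as a subgroup -/
def PASub (F : Flag p G W) (u : W) (m : ℕ) : Subgroup G where
  carrier := Nl F u m
  mul_mem' := Nl_mul
  one_mem' := Nl_one u m
  inv_mem' := Nl_inv

open Classical in
/-- representatives -/
theorem PA_reps (F : Flag p G W) (u : W) (m : ℕ) : ∃ J : Finset G,
    (∀ y ∈ J, y ∈ F.Q u ∧ y ∈ F.Gam) ∧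
    ∀ y ∈ F.Q u, y ∈ F.Gam → ∃ j ∈ J, y * j⁻¹ ∈ Nl F u m ∧
      ∀ j' ∈ J, y * j'⁻¹ ∈ Nl F u m → j' = j := by
  obtain ⟨-, O, hO, hNO⟩ := Nl_CO F u m
  have h1O : (1 : G) ∈ O := by
    have h := Nl_one (F := F) u m
    rw [hNO] at h
    exact h.1
  obtain ⟨J0, hJ0, hcov⟩ := (QG_compact F u).elim_nhds_subcover (fun j => {x | x * j⁻¹ ∈ O}) (by
    intro j _
    have hc : Continuous (fun x : G => x * j⁻¹) := by fun_prop
    exact (hO.preimage hc).mem_nhds (by simpa using h1O))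
  let S := PASub F u m
  have hS : ∀ x, x ∈ S ↔ x ∈ Nl F u m := fun x => Iff.rfl
  let rep : G → G := fun j => (Quotient.mk (QuotientGroup.rightRel S) j).out
  have hrep : ∀ j, j * (rep j)⁻¹ ∈ S := by
    intro j
    have h := Quotient.mk_out (s := QuotientGroup.rightRel S) j
    exact QuotientGroup.rightRel_apply.1 h
  have hQG : ∀ x ∈ S, x ∈ F.Q u ∧ x ∈ F.Gam := fun x hx => ⟨((hS x).1 hx).1, PA_Nl_sub u m hx⟩
  refine ⟨J0.image rep, ?_, ?_⟩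
  · intro y hy
    obtain ⟨j, hj, rfl⟩ := Finset.mem_image.1 hy
    have h1 := hJ0 j hj
    have h2 := hQG _ (S.inv_mem (hrep j))
    have e : rep j = (j * (rep j)⁻¹)⁻¹ * j := by group
    rw [e]
    exact ⟨(F.Q u).mul_mem h2.1 h1.1, F.Gam.mul_mem h2.2 h1.2⟩
  · intro y hy hyG
    obtain ⟨j0, hj0, hj1⟩ := Set.mem_iUnion₂.1 (hcov ⟨hy, hyG⟩)
    have hyj : y * j0⁻¹ ∈ S := by
      rw [hS, hNO]
      exact ⟨hj1, (F.Q u).mul_mem hy ((F.Q u).inv_mem (hJ0 j0 hj0).1)⟩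
    have hyr : y * (rep j0)⁻¹ ∈ S := by
      have e : y * (rep j0)⁻¹ = (y * j0⁻¹) * (j0 * (rep j0)⁻¹) := by group
      rw [e]
      exact S.mul_mem hyj (hrep j0)
    refine ⟨rep j0, Finset.mem_image_of_mem _ hj0, hyr, ?_⟩
    intro j' hj' hyj'
    obtain ⟨a, ha, rfl⟩ := Finset.mem_image.1 hj'
    have hyj'' : y * (rep a)⁻¹ ∈ S := hyj'
    have h2 : j0 * a⁻¹ ∈ S := by
      have e : j0 * a⁻¹ = (y * j0⁻¹)⁻¹ * (y * (rep a)⁻¹) * (a * (rep a)⁻¹)⁻¹ := by group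
      rw [e]
      exact S.mul_mem (S.mul_mem (S.inv_mem hyj) hyj'') (S.inv_mem (hrep a))
    have h3 : Quotient.mk (QuotientGroup.rightRel S) a = Quotient.mk (QuotientGroup.rightRel S) j0 :=
      Quotient.sound (QuotientGroup.rightRel_apply.2 h2)
    exact congrArg Quotient.out h3

open Classical in
/-- one term of the sum -/
theorem PA_term (X : CharData F C) (u : W) (m k : ℕ) {b n y j : G} (hb : b ∈ F.B)
    (hn : n ∈ F.P u) (hy : y ∈ F.Q u) (hj : j ∈ F.Q u) :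
    PAEm X u k (b * F.e u * n * y * j⁻¹ * F.z ^ m) =
      if n ∈ PAS F (m + k) ∧ y * j⁻¹ ∈ Nl F u m then
        X.chi b * X.chi (F.e u * F.z ^ m * (F.e u)⁻¹) else 0 := by
  have hB := conj_e_pow F u m
  have hZ := F.Z.inv_mem (zpow_mem_Z F m)
  have hn' : (F.z ^ m)⁻¹ * n * F.z ^ m ∈ F.P u := by
    have := F.conj_P u (F.z ^ m)⁻¹ hZ n hn
    rwa [inv_inv] at this
  have hyj : y * j⁻¹ ∈ F.Q u := (F.Q u).mul_mem hy ((F.Q u).inv_mem hj)
  have hy' : (F.z ^ m)⁻¹ * (y * j⁻¹) * F.z ^ m ∈ F.Q u := by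
    have := F.conj_Q u (F.z ^ m)⁻¹ hZ (y * j⁻¹) hyj
    rwa [inv_inv] at this
  have e : b * F.e u * n * y * j⁻¹ * F.z ^ m = (b * (F.e u * F.z ^ m * (F.e u)⁻¹)) * F.e u *
      ((F.z ^ m)⁻¹ * n * F.z ^ m) * ((F.z ^ m)⁻¹ * (y * j⁻¹) * F.z ^ m) := by group
  have e1 : (F.z ^ m)⁻¹ * n * F.z ^ m ∈ PAS F k ↔ n ∈ PAS F (m + k) := by
    show (F.z ^ k)⁻¹ * ((F.z ^ m)⁻¹ * n * F.z ^ m) * F.z ^ k ∈ F.Gam ↔
      (F.z ^ (m + k))⁻¹ * n * F.z ^ (m + k) ∈ F.Gam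
    have : (F.z ^ k)⁻¹ * ((F.z ^ m)⁻¹ * n * F.z ^ m) * F.z ^ k =
        (F.z ^ (m + k))⁻¹ * n * F.z ^ (m + k) := by
      rw [pow_add, mul_inv_rev]
      simp only [mul_assoc]
    rw [this]
  have e2 : (F.z ^ m)⁻¹ * (y * j⁻¹) * F.z ^ m ∈ (F.Gam : Set G) ↔ y * j⁻¹ ∈ Nl F u m :=
    ⟨fun h => ⟨hyj, h⟩, fun h => h.2⟩
  unfold PAEm
  rw [e]
  by_cases h : n ∈ PAS F (m + k) ∧ y * j⁻¹ ∈ Nl F u m
  · rw [if_pos h, PAE_val X u _ _ (F.B.mul_mem hb hB) hn' hy' (e1.2 h.1) (e2.2 h.2),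
      X.chi_mul b hb _ hB]
  · rw [if_neg h, PAE_zero]
    rw [PAW_iff u _ _ (F.B.mul_mem hb hB) hn' hy', e1, e2]
    exact h

theorem PA_term0 (X : CharData F C) (u : W) (m k : ℕ) {x j : G} (hj : j ∈ F.Q u)
    (hx : ¬ ∃ b ∈ F.B, ∃ n ∈ F.P u, ∃ y ∈ F.Q u, x = b * F.e u * n * y) :
    PAEm X u k (x * j⁻¹ * F.z ^ m) = 0 := by
  unfold PAEm
  rw [PAE_zero]
  rintro ⟨b, hb, n, hn, y, hy, _, _, he⟩
  apply hx
  have hB := F.B.inv_mem (conj_e_pow F u m)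
  have hZ := zpow_mem_Z F m
  refine ⟨b * (F.e u * F.z ^ m * (F.e u)⁻¹)⁻¹, F.B.mul_mem hb hB, F.z ^ m * n * (F.z ^ m)⁻¹,
    F.conj_P u _ hZ n hn, F.z ^ m * y * (F.z ^ m)⁻¹ * j,
    (F.Q u).mul_mem (F.conj_Q u _ hZ y hy) hj, ?_⟩
  have : x = (x * j⁻¹ * F.z ^ m) * (F.z ^ m)⁻¹ * j := by group
  rw [this, he]
  group

/-- the averages of `E_k` -/
theorem PA_sum (X : CharData F C) (u : W) (m k : ℕ) (J : Finset G)
    (hJ : ∀ y ∈ J, y ∈ F.Q u ∧ y ∈ F.Gam)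
    (hJ2 : ∀ y ∈ F.Q u, y ∈ F.Gam → ∃ j ∈ J, y * j⁻¹ ∈ Nl F u m ∧
      ∀ j' ∈ J, y * j'⁻¹ ∈ Nl F u m → j' = j) :
    (X.chi (F.e u * F.z ^ m * (F.e u)⁻¹))⁻¹ • ∑ y ∈ J, tr y⁻¹ (tr (F.z ^ m) (PAEm X u k)) =
      PAEm X u (m + k) := by
  classical
  have hB := conj_e_pow F u m
  have hne := X.chi_ne _ hB
  funext x
  rw [Pi.smul_apply, Finset.sum_apply, smul_eq_mul]
  simp only [tr_apply]
  by_cases hx : ∃ b ∈ F.B, ∃ n ∈ F.P u, ∃ y ∈ F.Q u, x = b * F.e u * n * y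
  · obtain ⟨b, hb, n, hn, y, hy, rfl⟩ := hx
    rw [Finset.sum_congr rfl fun j hj => PA_term X u m k hb hn hy (hJ j hj).1]
    by_cases hnS : n ∈ PAS F (m + k)
    · by_cases hyG : y ∈ F.Gam
      · obtain ⟨j0, hj0, hj1, hj2⟩ := hJ2 y hy hyG
        rw [Finset.sum_eq_single j0]
        · rw [if_pos ⟨hnS, hj1⟩]
          unfold PAEm
          rw [PAE_val X u _ _ hb hn hy hnS hyG, mul_comm (X.chi b), inv_mul_cancel_left₀ hne]
        · intro j hj hjj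
          rw [if_neg]
          rintro ⟨_, h2⟩
          exact hjj (hj2 j hj h2)
        · intro h
          exact absurd hj0 h
      · rw [Finset.sum_eq_zero, mul_zero]
        · unfold PAEm
          rw [PAE_zero]
          rw [PAW_iff u _ _ hb hn hy]
          exact fun h => hyG h.2
        · intro j hj
          rw [if_neg]
          rintro ⟨_, h2⟩
          apply hyG
          have h3 := F.Gam.mul_mem (PA_Nl_sub u m h2) (hJ j hj).2
          rwa [inv_mul_cancel_right] at h3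
    · rw [Finset.sum_eq_zero, mul_zero]
      · unfold PAEm
        rw [PAE_zero]
        rw [PAW_iff u _ _ hb hn hy]
        exact fun h => hnS h.1
      · intro j hj
        rw [if_neg]
        exact fun h => hnS h.1
  · rw [Finset.sum_eq_zero, mul_zero]
    · unfold PAEm
      rw [PAE_zero]
      rintro ⟨b, hb, n, hn, y, hy, _, _, he⟩
      exact hx ⟨b, hb, n, hn, y, hy, he⟩
    · intro j hj
      exact PA_term0 X u m k (hJ j hj).1 hx

/-- the averages are bounded -/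
theorem PA_bd (X : CharData F C) (u : W) (m : ℕ) (J : Finset G)
    (hJ : ∀ y ∈ J, y ∈ F.Q u ∧ y ∈ F.Gam) (g : G → C) (M : ℝ) (hM : 0 ≤ M)
    (h : Bd X (tr (F.z ^ m) g) (M * cw X u ^ m)) :
    Bd X ((X.chi (F.e u * F.z ^ m * (F.e u)⁻¹))⁻¹ • ∑ y ∈ J, tr y⁻¹ (tr (F.z ^ m) g)) M := by
  have hc : 0 < cw X u ^ m := by
    rw [← norm_chi_zpow]
    exact X.norm_pos _ (conj_e_pow F u m)
  have h1 : Bd X (∑ y ∈ J, tr y⁻¹ (tr (F.z ^ m) g)) (M * cw X u ^ m) :=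
    Bd.sum J _ (mul_nonneg hM hc.le) fun y hy =>
      h.tr_K y⁻¹ (F.K.inv_mem (F.Gam_le (hJ y hy).2))
  have h2 := h1.smul (X.chi (F.e u * F.z ^ m * (F.e u)⁻¹))⁻¹
  rw [norm_inv, norm_chi_zpow] at h2
  have e : (cw X u ^ m)⁻¹ * (M * cw X u ^ m) = M := by
    field_simp
  rwa [e] at h2

open Classical in
/-- the cells below `u` form an open set -/
theorem PA_open (Om : Finset W) (hOm : IsOpen (cell F Om)) (u : W) :
    IsOpen (cell F (Om.filter fun w => wle F w u)) := by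
  have h : cell F (Om.filter fun w => wle F w u) = cell F Om ∩
      ⋂ w ∈ Om.filter (fun w => ¬ wle F w u), (closure (cell F {w}))ᶜ := by
    ext g
    rw [Set.mem_inter_iff, Set.mem_iInter₂]
    constructor
    · intro hg
      have hg' : F.idx g ∈ Om.filter fun w => wle F w u := hg
      rw [Finset.mem_filter] at hg'
      refine ⟨hg'.1, fun w hw hc => ?_⟩
      rw [mem_closure_iff_wle] at hc
      exact (Finset.mem_filter.1 hw).2 (wle_trans F hc hg'.2)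
    · rintro ⟨h1, h2⟩
      have h1' : F.idx g ∈ Om := h1
      show F.idx g ∈ Om.filter fun w => wle F w u
      rw [Finset.mem_filter]
      refine ⟨h1', ?_⟩
      by_contra hc
      refine h2 (F.idx g) (Finset.mem_filter.2 ⟨h1', hc⟩) ?_
      exact subset_closure (Finset.mem_singleton_self _)
  rw [h]
  exact hOm.inter (isOpen_biInter_finset fun w _ => isClosed_closure.isOpen_compl)

open Classical in
/-- the bound for `E_{m+1} - E_m` -/
theorem PA_step (X : CharData F C) (Om : Finset W) (hOm : IsOpen (cell F Om)) (u : W)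
    (hu : u ∈ Om) (hlow : ∀ w, wle F w u → w ≠ u → cw X w < cw X u) :
    ∃ D r : ℝ, 0 ≤ D ∧ 0 ≤ r ∧ r < 1 ∧ ∀ m : ℕ, Bd X (PAEm X u (m + 1) - PAEm X u m) (D * r ^ m) := by
  have hc : 0 < cw X u := by
    have := X.norm_pos _ (conj_e_pow F u 1)
    rwa [pow_one] at this
  -- the open set of cells strictly below `u`
  have hopen := PA_open (F := F) Om hOm u
  have hmax : ∀ w' ∈ Om.filter (fun w => wle F w u), wle F u w' → w' = u := by
    intro w' hw' h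
    exact wle_antisymm F (Finset.mem_filter.1 hw').2 h
  have hopen' := erase_open F _ hopen u hmax
  set Om' := (Om.filter fun w => wle F w u).erase u with hOm'
  have hlt : ∀ w ∈ Om', cw X w < cw X u := by
    intro w hw
    obtain ⟨h1, h2⟩ := Finset.mem_erase.1 hw
    exact hlow w (Finset.mem_filter.1 h2).2 h1
  obtain ⟨c', hc'0, hc'c, hc'w⟩ : ∃ c' : ℝ, 0 < c' ∧ c' < cw X u ∧ ∀ w ∈ Om', cw X w ≤ c' := by
    have hne : (insert (cw X u / 2) (Om'.image (cw X))).Nonempty := Finset.insert_nonempty _ _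
    refine ⟨(insert (cw X u / 2) (Om'.image (cw X))).max' hne, ?_, ?_, ?_⟩
    · exact lt_of_lt_of_le (by linarith) (Finset.le_max' _ _ (Finset.mem_insert_self _ _))
    · rw [Finset.max'_lt_iff]
      intro y hy
      rcases Finset.mem_insert.1 hy with rfl | hy
      · linarith
      · obtain ⟨w, hw, rfl⟩ := Finset.mem_image.1 hy
        exact hlt w hw
    · intro w hw
      exact Finset.le_max' _ _ (Finset.mem_insert_of_mem (Finset.mem_image_of_mem _ hw))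
  have hV : ∀ m, IsOpen (PAW F u (PAS F m) (F.Gam : Set G)) := fun m =>
    PAW_open u (PAS_open m) F.Gam_open
  have hVc : ∀ m, IsClosed (PAW F u (PAS F m) (F.Gam : Set G)) := fun m =>
    PAW_closed u (PAS_compact u m) (QG_compact F u)
  set S : Set G := PAW F u (PAS F 1) (F.Gam : Set G) \ PAW F u (PAS F 0) (F.Gam : Set G) with hSdef
  have hS : IsClosed S := (hVc 1).sdiff (hV 0)
  have hSi : LInv F S := by
    rintro b hb g ⟨h1, h2⟩
    exact ⟨PAW_linv u _ _ b hb g h1, fun h => h2 (((PAW_linv u _ _).mem_iff hb g).1 h)⟩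
  have h0 : ∀ n : G, n ∈ PAS F 0 ↔ n ∈ F.Gam := by
    intro n
    show (F.z ^ 0)⁻¹ * n * F.z ^ 0 ∈ F.Gam ↔ n ∈ F.Gam
    simp
  have hSO : S ⊆ cell F Om' := by
    rintro g ⟨⟨b, hb, n, hn, y, hy, h1, h2, rfl⟩, h3⟩
    rw [PAW_iff u _ _ hb hn hy, h0] at h3
    have hnG : n ∉ F.Gam := fun h => h3 ⟨h, h2⟩
    have hn1 : n ≠ 1 := by
      rintro rfl
      exact hnG F.Gam.one_mem
    have hyb : y ∈ F.Nb := F.Q_le u hy
    show F.idx (b * F.e u * n * y) ∈ Om'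
    rw [hOm', Finset.mem_erase, Finset.mem_filter]
    refine ⟨fun h => hn1 (chart_idx F u b n y hb hn hy h),
      chart_subset F Om hOm u hu b n y hb (F.P_le u hn) hyb, ?_⟩
    refine wle_of_N F u _ n (F.P_le u hn) ?_
    rw [F.idx_right_Nb y hyb, mul_assoc b, F.idx_left b hb]
  obtain ⟨A, hA, hgr⟩ := growth X Om' hopen' c' hc'0 hc'w S hS hSi hSO
  have hsec : IsSec X (PAEm X u 1 - PAEm X u 0) := (PAEm_sec X u 1).sub (PAEm_sec X u 0)
  obtain ⟨M1, hM1, hbd⟩ := hsec.exists_bd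
  have hoff : ∀ x ∉ S, (PAEm X u 1 - PAEm X u 0) x = 0 := by
    intro x hx
    rw [Pi.sub_apply, sub_eq_zero]
    unfold PAEm
    by_cases hx0 : x ∈ PAW F u (PAS F 0) (F.Gam : Set G)
    · obtain ⟨b, hb, n, hn, y, hy, h1, h2, rfl⟩ := hx0
      have h1' : n ∈ PAS F 1 := by
        have := shrink_N_pow F 1 n (F.P_le u hn) ((h0 n).1 h1)
        exact this
      rw [PAE_val X u _ _ hb hn hy h1' h2, PAE_val X u _ _ hb hn hy h1 h2]
    · rw [PAE_zero X u _ _ hx0, PAE_zero]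
      exact fun h => hx ⟨h, hx0⟩
  refine ⟨A * M1, c' / cw X u, by positivity, by positivity, (div_lt_one hc).2 hc'c, fun m => ?_⟩
  obtain ⟨J, hJ, hJ2⟩ := PA_reps F u m
  have h3 := hgr _ hsec hoff M1 hbd m
  have e1 : A * c' ^ m * M1 = (A * M1 * (c' / cw X u) ^ m) * cw X u ^ m := by
    rw [div_pow]
    field_simp
  rw [e1] at h3
  have h4 := PA_bd X u m J hJ _ _ (by positivity) h3
  have e2 : (X.chi (F.e u * F.z ^ m * (F.e u)⁻¹))⁻¹ •
      ∑ y ∈ J, tr y⁻¹ (tr (F.z ^ m) (PAEm X u 1 - PAEm X u 0)) =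
      PAEm X u (m + 1) - PAEm X u m := by
    have h5 := PA_sum X u m 1 J hJ hJ2
    have h6 := PA_sum X u m 0 J hJ hJ2
    rw [add_zero] at h6
    rw [← h5, ← h6, ← smul_sub, ← Finset.sum_sub_distrib]
    rfl
  rwa [e2] at h4

/-- the limit section -/
def PAPhi (X : CharData F C) (u : W) : G → C := PAE X u Set.univ (F.Gam : Set G)

theorem PA_ev (X : CharData F C) (u : W) (x : G) :
    ∃ k0 : ℕ, ∀ k ≥ k0, PAEm X u k x = PAPhi X u x := by
  by_cases hx : x ∈ PAW F u Set.univ (F.Gam : Set G)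
  · obtain ⟨b, hb, n, hn, y, hy, h1, h2, rfl⟩ := hx
    obtain ⟨k0, hk0⟩ := absorb_N_ge F n (F.P_le u hn)
    refine ⟨k0, fun k hk => ?_⟩
    unfold PAEm PAPhi
    rw [PAE_val X u _ _ hb hn hy (hk0 k hk) h2, PAE_val X u _ _ hb hn hy h1 h2]
  · refine ⟨0, fun k _ => ?_⟩
    unfold PAEm PAPhi
    rw [PAE_zero X u _ _ hx, PAE_zero]
    rintro ⟨b, hb, n, hn, y, hy, _, h2, he⟩
    exact hx ⟨b, hb, n, hn, y, hy, trivial, h2, he⟩

theorem PA_lim (X : CharData F C) (u : W) {D r : ℝ} (hD : 0 ≤ D) (hr : 0 ≤ r) (hr1 : r < 1)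
    (h : ∀ m : ℕ, Bd X (PAEm X u (m + 1) - PAEm X u m) (D * r ^ m)) (m : ℕ) :
    Bd X (PAPhi X u - PAEm X u m) (D * r ^ m) := by
  have h1 : ∀ k : ℕ, Bd X (PAEm X u (m + k) - PAEm X u m) (D * r ^ m) := by
    intro k
    induction k with
    | zero =>
      intro x
      rw [add_zero, sub_self, Pi.zero_apply, norm_zero]
      exact mul_nonneg (mul_nonneg hD (pow_nonneg hr m)) (ht_pos X x).le
    | succ k ih =>
      have e : PAEm X u (m + (k + 1)) - PAEm X u m =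
          (PAEm X u (m + k + 1) - PAEm X u (m + k)) + (PAEm X u (m + k) - PAEm X u m) := by
        rw [← add_assoc]; abel
      rw [e]
      refine ((h (m + k)).mono ?_).add ih
      exact mul_le_mul_of_nonneg_left (pow_le_pow_of_le_one hr hr1.le (Nat.le_add_right m k)) hD
  intro x
  obtain ⟨k0, hk0⟩ := PA_ev X u x
  have h2 := h1 k0 x
  rw [Pi.sub_apply] at h2 ⊢
  rwa [hk0 (m + k0) (Nat.le_add_left k0 m)] at h2

theorem PA_Phi_sec (X : CharData F C) (u : W) {D r : ℝ} (hD : 0 ≤ D) (hr : 0 ≤ r) (hr1 : r < 1)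
    (h : ∀ m : ℕ, Bd X (PAEm X u (m + 1) - PAEm X u m) (D * r ^ m)) : IsSec X (PAPhi X u) := by
  refine ⟨?_, fun b hb g => PAE_left X u _ _ b hb g⟩
  have hlim := PA_lim X u hD hr hr1 h
  have hloc : TendstoLocallyUniformly (fun m => PAEm X u m) (PAPhi X u) atTop := by
    rw [Metric.tendstoLocallyUniformly_iff]
    intro ε hε x0
    have hht : ContinuousAt (ht X) x0 := ht_continuous.continuousAt
    have h1 : ∀ᶠ x in 𝓝 x0, ht X x < ht X x0 + 1 :=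
      hht.eventually_lt_const (by linarith)
    refine ⟨_, h1, ?_⟩
    have h2 : Tendsto (fun m : ℕ => D * r ^ m * (ht X x0 + 1)) atTop (𝓝 (D * 0 * (ht X x0 + 1))) :=
      ((tendsto_pow_atTop_nhds_zero_of_lt_one hr hr1).const_mul D).mul_const _
    rw [mul_zero, zero_mul] at h2
    filter_upwards [h2.eventually_lt_const hε] with m hm y hy
    rw [dist_eq_norm]
    have h3 := hlim m y
    rw [Pi.sub_apply] at h3
    refine lt_of_le_of_lt h3 (lt_of_le_of_lt ?_ hm)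
    exact mul_le_mul_of_nonneg_left (le_of_lt hy) (mul_nonneg hD (pow_nonneg hr m))
  exact hloc.continuous (Frequently.of_forall fun m => (PAEm_sec X u m).1)

/-! ======= TARGET ======= -/

theorem phi_approx (X : CharData F C) (Om : Finset W) (hOm : IsOpen (cell F Om)) (u : W)
    (hu : u ∈ Om) (c : ℝ) (hc : cw X u = c) (hlow : ∀ w, wle F w u → w ≠ u → cw X w < c) :
    ∃ Φ E0 : G → C, IsSec X Φ ∧ IsPhi X u Φ ∧ IsSec X E0 ∧ (∀ x ∉ U0 F u, E0 x = 0) ∧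
      (∀ b ∈ F.B, ∀ n ∈ F.P u, ∀ y ∈ F.Q u, n ∈ F.Gam → y ∈ F.Gam →
        E0 (b * F.e u * n * y) = X.chi b) ∧
      ∀ ε : ℝ, 0 < ε → ∃ m0 : ℕ, ∀ m ≥ m0, ∃ J : Finset G, (∀ y ∈ J, y ∈ F.Q u ∧ y ∈ F.Gam) ∧
        ∀ f : G → C, IsSec X f → ∀ M : ℝ, ε ≤ M → Bd X (tr (F.z ^ m) (f - E0)) (M * c ^ m) →
          Bd X (Φ - (X.chi (F.e u * F.z ^ m * (F.e u)⁻¹))⁻¹ •
            ∑ y ∈ J, tr y⁻¹ (tr (F.z ^ m) f)) M := by
  subst hc
  obtain ⟨D, r, hD, hr, hr1, hstep⟩ := PA_step X Om hOm u hu hlow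
  have hlim := PA_lim X u hD hr hr1 hstep
  have h0 : ∀ n : G, n ∈ PAS F 0 ↔ n ∈ F.Gam := by
    intro n
    show (F.z ^ 0)⁻¹ * n * F.z ^ 0 ∈ F.Gam ↔ n ∈ F.Gam
    simp
  refine ⟨PAPhi X u, PAEm X u 0, PA_Phi_sec X u hD hr hr1 hstep, ⟨?_, ?_⟩, PAEm_sec X u 0, ?_, ?_, ?_⟩
  · intro b hb n hn y hy hyG
    exact PAE_val X u _ _ hb hn hy trivial hyG
  · intro x hx
    refine PAE_zero X u _ _ ?_
    rintro ⟨b, hb, n, hn, y, hy, _, h2, he⟩
    exact hx ⟨b, hb, n, hn, y, hy, h2, he⟩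
  · intro x hx
    refine PAE_zero X u _ _ ?_
    rintro ⟨b, hb, n, hn, y, hy, h1, h2, he⟩
    exact hx ⟨b, hb, n, hn, y, hy, (h0 n).1 h1, h2, he⟩
  · intro b hb n hn y hy hnG hyG
    exact PAE_val X u _ _ hb hn hy ((h0 n).2 hnG) hyG
  · intro ε hε
    have h2 : Tendsto (fun m : ℕ => D * r ^ m) atTop (𝓝 (D * 0)) :=
      (tendsto_pow_atTop_nhds_zero_of_lt_one hr hr1).const_mul D
    rw [mul_zero] at h2
    obtain ⟨m0, hm0⟩ := eventually_atTop.1 (h2.eventually_lt_const hε)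
    refine ⟨m0, fun m hm => ?_⟩
    obtain ⟨J, hJ, hJ2⟩ := PA_reps F u m
    refine ⟨J, hJ, fun f hf M hM hbd => ?_⟩
    have h4 := PA_bd X u m J hJ _ _ (by linarith) hbd
    have e2 : (X.chi (F.e u * F.z ^ m * (F.e u)⁻¹))⁻¹ •
        ∑ y ∈ J, tr y⁻¹ (tr (F.z ^ m) (f - PAEm X u 0)) =
        (X.chi (F.e u * F.z ^ m * (F.e u)⁻¹))⁻¹ • ∑ y ∈ J, tr y⁻¹ (tr (F.z ^ m) f) -
          PAEm X u m := by
      have h6 := PA_sum X u m 0 J hJ hJ2
      rw [add_zero] at h6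
      conv_rhs => rw [← h6]
      rw [← smul_sub, ← Finset.sum_sub_distrib]
      rfl
    rw [e2] at h4
    have e3 : PAPhi X u - (X.chi (F.e u * F.z ^ m * (F.e u)⁻¹))⁻¹ •
        ∑ y ∈ J, tr y⁻¹ (tr (F.z ^ m) f) = (PAPhi X u - PAEm X u m) -
        ((X.chi (F.e u * F.z ^ m * (F.e u)⁻¹))⁻¹ • ∑ y ∈ J, tr y⁻¹ (tr (F.z ^ m) f) -
          PAEm X u m) := by abel
    rw [e3]
    exact ((hlim m).mono ((hm0 m hm).le.trans hM)).sub h4
end Pool.Agent.Helper911
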