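import Mathlib
import Pool.Agent.Helper911_Abs.Core
import Pool.Agent.Helper911_Abs.LA
import Pool.Agent.Helper911_Abs.LB
import Pool.Agent.Helper911_Abs.LD
import Pool.Agent.Helper911_Abs.LJ
import Pool.Agent.Helper911_Abs.LL
import Pool.Agent.Helper911_Abs.LM
import Pool.Agent.Helper911_Abs.LN

set_option autoImplicit false
set_option linter.unusedSectionVars false
set_option maxHeartbeats 1000000

noncomputable section

open Topology Filter

namespace Pool.Agent.Helper911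


variable {p : ℕ} {G : Type*} [Group G] [TopologicalSpace G] [IsTopologicalGroup G] [T2Space G]
  {W : Type*} [DecidableEq W] {F : Flag p G W} {C : Type*} [NormedField C] [IsUltrametricDist C]
  {X : CharData F C} {R : SubRep X} {Om T : Finset W} {c : ℝ}



/-! ======= TARGET ======= -/

/-- TARGET.
Proof. Take `A`, `A0` from `isol_exists`, `u` from `exists_top`; `A = {u}` by `A_single`, `u ∈ T`. `hmax` holds. If `wle w u`, `w ≠ u` then `cw w < c`: if `w ∈ T` then
`w ∈ T \ A`, contradicting `none_below`; if `w ∉ T` it is `D0.lower`. Take `Φ`, `E0` from `phi_approx` (`c = cw u` by `D0.cw_T`). `Φ ∈ R.V` by `R.closed`: let `ε > 0`, `A1` the constant of `D0.decay`, `ε' = ε / A1`, and `f` with `Good D0 A u Gam ε' f` (`good_exists`).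
For all `w ∈ T`: `TN w (f - E0) ε'`. For `w = u`: by `TN_of_Q`, for `q ∈ Q u`, `E0 (e_u q)` is `1` if `q ∈ Gam` and `0` otherwise (if `e_u q ∈ U0 u` then `q ∈ Gam` by `U0_cell`, `chart_inj`). For `w ≠ u`, `w ∈ T \ A`: `TN w f ε'`, and
`E0 (e_w y) = 0` for `y ∈ Nb`: otherwise `e_w y ∈ U0 u`, `e_w y = b e_u n q`, so `idx (e_u n) = w` and `wle w u` by `wle_of_N`, contradicting `none_below`. By `D0.decay` with `M = ε'`, for large `m`: `Bd (tr (z^m) (f - E0)) (A1 ε' c^m)`, and `A1 ε' = ε`.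
By `phi_approx` with `M = ε`, for large `m`, `Bd (Φ - g) ε` with `g = χ⁻¹ • ∑ tr y⁻¹ (tr (z^m) f) ∈ V' ≤ R.V` (`D0.stab_Nb`, `D0.stab_Z`). -/
theorem core_phi [Fact p.Prime] {rho : ℝ} (hd : Disc p C rho) (tie : TieHyp X)
    (D0 : CoreData X R Om T c) :
    ∃ u ∈ T, (∀ w, wle F w u → w ≠ u → cw X w < c) ∧ ∃ Φ ∈ R.V, IsPhi X u Φ := by
  obtain ⟨A, A0, hA⟩ := isol_exists hd D0
  obtain ⟨u, hu, htop⟩ := exists_top hd D0 hA
  have hAs := A_single hd tie D0 hA hu htop
  have huT : u ∈ T := hA.sub hu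
  have hnb := none_below hd D0 hA hu htop
  have hmax : ∀ w ∈ A, w ≠ u → ¬ wle F u w := by
    intro w hw hwu
    rw [hAs, Finset.mem_singleton] at hw
    exact absurd hw hwu
  have hTA : ∀ w ∈ T, w ≠ u → w ∈ T \ A := by
    intro w hw hwu
    rw [Finset.mem_sdiff, hAs, Finset.mem_singleton]
    exact ⟨hw, hwu⟩
  have hlow : ∀ w, wle F w u → w ≠ u → cw X w < c := by
    intro w h hwu
    by_cases hw : w ∈ T
    · exact absurd h (hnb w (hTA w hw hwu))
    · exact D0.lower u huT w h hw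
  obtain ⟨Φ, E0, hΦs, hΦ, hE0s, hE0z, hE0v, hphi⟩ :=
    phi_approx X Om D0.open_Om u (D0.T_sub huT) c (D0.cw_T u huT) hlow
  refine ⟨u, huT, hlow, Φ, R.closed Φ hΦs ?_, hΦ⟩
  intro ε hε
  obtain ⟨A1, hA1, hdec⟩ := D0.decay
  have hA1' : 0 < A1 := by linarith
  have hε' : 0 < ε / A1 := div_pos hε hA1'
  obtain ⟨f, hfV, h1, h2, h3⟩ := good_exists hd D0 hA hu hmax hε'
  have hfs : IsSec X f := R.sec f (D0.le hfV)
  have hTN : ∀ w ∈ T, TN F w (f - E0) (ε / A1) := by
    intro w hw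
    by_cases hwu : w = u
    · subst hwu
      refine TN_of_Q X (hfs.sub hE0s) fun q hq => ?_
      rw [Pi.sub_apply]
      by_cases hqG : q ∈ F.Gam
      · have h4 := hE0v 1 F.B.one_mem 1 (F.P w).one_mem q hq F.Gam.one_mem hqG
        rw [one_mul, mul_one, X.chi_one] at h4
        rw [h4]
        exact h1 q hq hqG
      · have h4 : E0 (F.e w * q) = 0 := by
          apply hE0z
          intro hU
          have h5 := idx_eq F w 1 q F.B.one_mem (F.Q_le w hq)
          rw [one_mul] at h5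
          obtain ⟨b, hb, y, hy, hyG, h6⟩ := U0_cell F w _ hU h5
          have h7 := F.chart_inj w b hb 1 (F.P w).one_mem q hq 1 (F.P w).one_mem y hy (by
            rw [mul_one, mul_one]; exact h6)
          rw [h7.2] at hqG
          exact hqG hyG
        rw [h4, sub_zero]
        exact h2 q hq hqG
    · have hwTA := hTA w hw hwu
      intro y hy
      have h4 : E0 (F.e w * y) = 0 := by
        apply hE0z
        rintro ⟨b, hb, n, hn, q, hq, -, -, h5⟩
        apply hnb w hwTA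
        refine wle_of_N F u w n (F.P_le u hn) ?_
        have h6 := idx_eq F w 1 y F.B.one_mem hy
        rw [one_mul, h5] at h6
        rw [← h6, F.idx_right_Nb q (F.Q_le u hq), mul_assoc b, F.idx_left b hb]
      rw [Pi.sub_apply, h4, sub_zero]
      exact h3 w hwTA y hy
  obtain ⟨m0, hm0⟩ := hdec u huT f hfV E0 hE0s hE0z (ε / A1) hε' hTN
  obtain ⟨m1, hm1⟩ := hphi ε hε
  obtain ⟨J, hJ, hJ'⟩ := hm1 (max m0 m1) (le_max_right _ _)
  have h5 := hm0 (max m0 m1) (le_max_left _ _)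
  rw [mul_div_cancel₀ ε hA1'.ne'] at h5
  refine ⟨_, ?_, hJ' f hfs ε le_rfl h5⟩
  refine R.V.smul_mem _ (Submodule.sum_mem _ fun y hy => D0.le ?_)
  exact D0.stab_Nb _ (D0.stab_Z f hfV _ (zpow_mem_Z F _)) _ (F.Nb.inv_mem (F.Q_le u (hJ y hy).1))
end Pool.Agent.Helper911
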