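import Mathlib
import Pool.Agent.Helper911_Abs.Core

/-! Elements of `V` supported in an open union of cells. -/

set_option autoImplicit false
set_option linter.unusedSectionVars false

noncomputable section

open Topology Filter

namespace Pool.Agent.Helper911

variable {p : ℕ} {G : Type*} [Group G] [TopologicalSpace G] [IsTopologicalGroup G] [T2Space G]
  {W : Type*} [DecidableEq W] {F : Flag p G W} {C : Type*} [NormedField C] [IsUltrametricDist C]
  {X : CharData F C}

/-- The elements of `V` supported in a closed subset of the union of the cells in `Om`. -/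
def VOm (R : SubRep X) (Om : Finset W) : Submodule C (G → C) where
  carrier := {f | f ∈ R.V ∧ ∃ S, IsClosed S ∧ LInv F S ∧ S ⊆ cell F Om ∧ ∀ x ∉ S, f x = 0}
  add_mem' := by
    rintro f g ⟨hf, S, h1, h2, h3, h4⟩ ⟨hg, S', h1', h2', h3', h4'⟩
    refine ⟨add_mem hf hg, S ∪ S', h1.union h1', ?_, Set.union_subset h3 h3', ?_⟩
    · rintro b hb x (hx | hx)
      · exact Or.inl (h2 b hb x hx)
      · exact Or.inr (h2' b hb x hx)
    · intro x hx
      simp only [Set.mem_union, not_or] at hx
      rw [Pi.add_apply, h4 x hx.1, h4' x hx.2, add_zero]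
  zero_mem' := ⟨zero_mem _, ∅, isClosed_empty, fun b _ x hx => hx.elim, Set.empty_subset _,
    fun _ _ => rfl⟩
  smul_mem' := by
    rintro a f ⟨hf, S, h1, h2, h3, h4⟩
    exact ⟨R.V.smul_mem a hf, S, h1, h2, h3, fun x hx => by
      rw [Pi.smul_apply, h4 x hx, smul_zero]⟩

/-- `Om` is a minimal open set of cells supporting a nonzero element of `V`. -/
structure MinOm (R : SubRep X) (Om : Finset W) : Prop where
  isOpen : IsOpen (cell F Om)
  ne : ∃ f ∈ VOm R Om, f ≠ 0
  min : ∀ Om' : Finset W, Om' ⊂ Om → IsOpen (cell F Om') → ∀ f ∈ VOm R Om', f = 0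

end Pool.Agent.Helper911
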