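import Mathlib
import Pool.Agent.Helper911_Abs.Outer

/-! Second level: elements of `V` which are small near the top cell. -/

set_option autoImplicit false
set_option linter.unusedSectionVars false

noncomputable section

open Topology Filter

namespace Pool.Agent.Helper911

variable {p : ℕ} {G : Type*} [Group G] [TopologicalSpace G] [IsTopologicalGroup G] [T2Space G]
  {W : Type*} [DecidableEq W] {F : Flag p G W} {C : Type*} [NormedField C] [IsUltrametricDist C]
  {X : CharData F C}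

/-- `e_w Gam` is contained in the chart neighbourhood `U0 w`. -/
def GamU (F : Flag p G W) : Prop := ∀ w, ∀ g ∈ F.Gam, F.e w * g ∈ U0 F w

/-- The element `z` commutes with the torus. -/
def ZComm (F : Flag p G W) : Prop := ∀ t ∈ F.Z, t * F.z = F.z * t

/-- `f` is of size `A r^l` at the points `e_u n y` with `n ∈ z^{-l} Gam z^l`, `y ∈ z^{-j} Gam z^j`. -/
def NB (F : Flag p G W) (u : W) (r : ℝ) (j : ℕ) (f : G → C) (A : ℝ) : Prop :=
  ∀ l : ℕ, ∀ n ∈ F.P u, F.z ^ l * n * (F.z ^ l)⁻¹ ∈ F.Gam →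
    ∀ y ∈ F.Q u, F.z ^ j * y * (F.z ^ j)⁻¹ ∈ F.Gam → ‖f (F.e u * n * y)‖ ≤ A * r ^ l

/-- The second level situation: `u` is the top cell of `Om`, `c` bounds the slopes of the others. -/
structure Lev2 (X : CharData F C) (Om : Finset W) (u : W) (c r : ℝ) : Prop where
  open_Om : IsOpen (cell F Om)
  open_er : IsOpen (cell F (Om.erase u))
  hu : u ∈ Om
  top : ∀ w ∈ Om, wle F w u
  c_pos : 0 < c
  r_pos : 0 < r
  r_lt_one : r < 1
  rc : r * cw X u < c
  cw_le : ∀ w ∈ Om, w ≠ u → cw X w ≤ c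

/-- Elements of `V` supported in `Om` which are small near the cell of `u`. -/
def V2 (R : SubRep X) (Om : Finset W) (u : W) (r : ℝ) (hr : 0 ≤ r) : Submodule C (G → C) where
  carrier := {f | f ∈ VOm R Om ∧ ∀ j : ℕ, ∃ A : ℝ, NB F u r j f A}
  add_mem' := by
    rintro f g ⟨hf, h1⟩ ⟨hg, h2⟩
    refine ⟨add_mem hf hg, fun j => ?_⟩
    obtain ⟨A, hA⟩ := h1 j
    obtain ⟨B, hB⟩ := h2 j
    refine ⟨max A B, fun l n hn hn' y hy hy' => ?_⟩
    refine (IsUltrametricDist.norm_add_le_max _ _).trans (max_le ?_ ?_)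
    · exact (hA l n hn hn' y hy hy').trans
        (mul_le_mul_of_nonneg_right (le_max_left _ _) (pow_nonneg hr l))
    · exact (hB l n hn hn' y hy hy').trans
        (mul_le_mul_of_nonneg_right (le_max_right _ _) (pow_nonneg hr l))
  zero_mem' := ⟨zero_mem _, fun j => ⟨0, fun l n _ _ y _ _ => by
    show ‖(0 : C)‖ ≤ 0 * r ^ l
    simp⟩⟩
  smul_mem' := by
    rintro a f ⟨hf, h1⟩
    refine ⟨(VOm R Om).smul_mem a hf, fun j => ?_⟩
    obtain ⟨A, hA⟩ := h1 j
    refine ⟨‖a‖ * A, fun l n hn hn' y hy hy' => ?_⟩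
    have h := mul_le_mul_of_nonneg_left (hA l n hn hn' y hy hy') (norm_nonneg a)
    rw [Pi.smul_apply, smul_eq_mul, norm_mul]
    linarith [h, mul_assoc ‖a‖ A (r ^ l)]

end Pool.Agent.Helper911
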