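import Mathlib
import Pool.Agent.Helper911_Abs.Outer

set_option autoImplicit false
set_option linter.unusedSectionVars false
set_option maxHeartbeats 1000000

noncomputable section

open Topology Filter

namespace Pool.Agent.Helper911


variable {p : ℕ} {G : Type*} [Group G] [TopologicalSpace G] [IsTopologicalGroup G] [T2Space G]
  {W : Type*} [DecidableEq W] {F : Flag p G W} {C : Type*} [NormedField C] [IsUltrametricDist C]
  {X : CharData F C} {R : SubRep X}

/-! ======= TARGET ======= -/

/-- TARGET.
Proof. `V ≠ ⊥` gives `f ≠ 0` in `R.V`, which is in `VOm R Finset.univ` (`S = Set.univ`). Take `Om` of minimal cardinality (or minimal for inclusion, among finite sets) with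
`cell F Om` open and a nonzero element in `VOm R Om`. -/
theorem exists_min [Fintype W] (R : SubRep X) (hne : R.V ≠ ⊥) : ∃ Om : Finset W, MinOm R Om := by
  have hU : IsOpen (cell F (Finset.univ : Finset W)) ∧ ∃ f ∈ VOm R (Finset.univ : Finset W), f ≠ 0 := by
    obtain ⟨f, hf, hf0⟩ := Submodule.exists_mem_ne_zero_of_ne_bot hne
    have huniv : cell F (Finset.univ : Finset W) = Set.univ := by
      ext g
      simp [cell]
    refine ⟨by rw [huniv]; exact isOpen_univ, f, ?_, hf0⟩
    refine ⟨hf, Set.univ, isClosed_univ, fun _ _ _ _ => Set.mem_univ _, by rw [huniv], ?_⟩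
    intro x hx
    exact absurd (Set.mem_univ x) hx
  obtain ⟨Om, hOm, hmin⟩ := WellFounded.has_min (wellFounded_lt : WellFounded fun a b : Finset W => a < b)
    {Om : Finset W | IsOpen (cell F Om) ∧ ∃ f ∈ VOm R Om, f ≠ 0} ⟨Finset.univ, hU⟩
  refine ⟨Om, hOm.1, hOm.2, fun Om' hlt hopen f hf => ?_⟩
  by_contra hne0
  exact hmin Om' ⟨hopen, f, hf, hne0⟩ hlt
end Pool.Agent.Helper911
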