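import Mathlib
import Pool.Agent.Helper911_Abs.Outer

set_option autoImplicit false
set_option linter.unusedSectionVars false
set_option maxHeartbeats 1000000

noncomputable section

open Topology Filter

namespace Pool.Agent.Helper911


variable {p : ℕ} {G : Type*} [Group G] [TopologicalSpace G] [IsTopologicalGroup G] [T2Space G]
  {W : Type*} [DecidableEq W] {F : Flag p G W} {C : Type*} [NormedField C] [IsUltrametricDist C]
  {X : CharData F C} {R : SubRep X}

/-! ======= TARGET ======= -/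

/-- TARGET.
Proof. Suppose `f (e_u) = 0` for all `f ∈ VOm R Om`. Let `f0 ∈ VOm R Om` be nonzero with support in `S`. By `tube` there is an open subgroup `H` with
`s * h ∈ cell Om` for `s ∈ S`, `h ∈ H`. For `h ∈ H`, `y ∈ Nb` the function `tr y (tr h f0)` is in `VOm R Om`: it is in `R.V`, and supported in
`{x | ∃ h' ∈ H, x * y * h' ∈ S}`, which is closed (its complement is open: `H` is open; same argument as in `exists_clopen`), left invariant, and contained in `cell Om` (`cell_right_Nb`). So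
`f0 (e_u y h) = 0` for all `y ∈ Nb`, `h ∈ H`, hence `f0 = 0` on `O = {x | ∃ h ∈ H, idx (x * h) = u}` (write `x h = b e_u y`), an open set containing
`closure (cell {u})` (if `x` is in the closure then the open set `x H` meets the cell of `u`). So `f0` is supported in `S ∩ Oᶜ`, closed, left invariant and contained in `cell Om'` with
`Om' = {w ∈ Om | ¬ wle u w}` (`mem_closure_iff_wle`), whose cell is `cell Om ∩ (closure (cell {u}))ᶜ`, open. As `u ∉ Om'` (`wle_refl`), `Om' ⊂ Om` and `hm.min` gives `f0 = 0`. -/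
theorem nonvan_all {Om : Finset W} (hm : MinOm R Om) (u : W) (hu : u ∈ Om) :
    ∃ f ∈ VOm R Om, f (F.e u) ≠ 0 := by
  classical
  by_contra hcon
  push Not at hcon
  obtain ⟨f0, hf0, hf0ne⟩ := hm.ne
  obtain ⟨hf0V, S, hSc, hSi, hSO, hS0⟩ := id hf0
  obtain ⟨H, hHo, hH⟩ := tube F hSc hSi hm.isOpen (cell_linv F Om) hSO
  -- translates
  have claim1 : ∀ h ∈ H, ∀ y ∈ F.Nb, f0 (F.e u * y * h) = 0 := by
    intro h hh y hy
    have hmem : tr y (tr h f0) ∈ VOm R Om := by
      refine ⟨R.stab _ (R.stab _ hf0V h) y, {x | ∃ h' ∈ H, x * y * h' ∈ S}, ?_, ?_, ?_, ?_⟩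
      · rw [← isOpen_compl_iff, isOpen_iff_mem_nhds]
        intro x hx
        have hcont : Continuous (fun x' : G => (x * y)⁻¹ * (x' * y)) := by fun_prop
        have hopen : IsOpen ((fun x' : G => (x * y)⁻¹ * (x' * y)) ⁻¹' (H : Set G)) :=
          hHo.preimage hcont
        refine Filter.mem_of_superset (hopen.mem_nhds ?_) ?_
        · show (x * y)⁻¹ * (x * y) ∈ H
          rw [inv_mul_cancel]; exact H.one_mem
        · rintro x' hx' ⟨h', hh', hS'⟩
          refine hx ⟨(x * y)⁻¹ * (x' * y) * h', H.mul_mem hx' hh', ?_⟩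
          have : x * y * ((x * y)⁻¹ * (x' * y) * h') = x' * y * h' := by group
          rw [this]; exact hS'
      · rintro b hb x ⟨h', hh', hS'⟩
        refine ⟨h', hh', ?_⟩
        rw [mul_assoc b x y, mul_assoc b]
        exact hSi b hb _ hS'
      · rintro x ⟨h', hh', hS'⟩
        have h1 := hH _ hS' h'⁻¹ (H.inv_mem hh')
        rw [mul_inv_cancel_right] at h1
        exact (cell_right_Nb F Om x y hy).mp h1
      · intro x hx
        show f0 (x * y * h) = 0
        exact hS0 _ fun hc => hx ⟨h, hh, hc⟩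
    exact hcon _ hmem
  set O : Set G := {x | ∃ h ∈ H, F.idx (x * h) = u} with hOdef
  have hOopen : IsOpen O := by
    rw [isOpen_iff_mem_nhds]
    rintro x ⟨h, hh, hx⟩
    have hcont : Continuous (fun x' : G => x⁻¹ * x') := by fun_prop
    have hopen : IsOpen ((fun x' : G => x⁻¹ * x') ⁻¹' (H : Set G)) := hHo.preimage hcont
    refine Filter.mem_of_superset (hopen.mem_nhds ?_) ?_
    · show x⁻¹ * x ∈ H
      rw [inv_mul_cancel]; exact H.one_mem
    · intro x' hx'
      refine ⟨(x⁻¹ * x')⁻¹ * h, H.mul_mem (H.inv_mem hx') hh, ?_⟩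
      have : x' * ((x⁻¹ * x')⁻¹ * h) = x * h := by group
      rw [this]; exact hx
  have hO0 : ∀ x ∈ O, f0 x = 0 := by
    rintro x ⟨h, hh, hx⟩
    obtain ⟨b, hb, y, hy, hrep⟩ := F.exists_rep (x * h)
    rw [hx] at hrep
    have h1 : x = b * (F.e u * y * h⁻¹) := by
      rw [← mul_assoc, ← mul_assoc, ← hrep, mul_inv_cancel_right]
    rw [h1, (R.sec f0 hf0V).2 b hb, claim1 h⁻¹ (H.inv_mem hh) y hy, mul_zero]
  have hclO : closure (cell F {u}) ⊆ O := by
    intro x hx
    have hcont : Continuous (fun x' : G => x⁻¹ * x') := by fun_prop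
    have hopen : IsOpen ((fun x' : G => x⁻¹ * x') ⁻¹' (H : Set G)) := hHo.preimage hcont
    have hxm : x ∈ ((fun x' : G => x⁻¹ * x') ⁻¹' (H : Set G)) := by
      show x⁻¹ * x ∈ H
      rw [inv_mul_cancel]; exact H.one_mem
    obtain ⟨x', hx'1, hx'2⟩ := mem_closure_iff.mp hx _ hopen hxm
    refine ⟨x⁻¹ * x', hx'1, ?_⟩
    rw [mul_inv_cancel_left]
    exact Finset.mem_singleton.mp hx'2
  set Om' : Finset W := Om.filter (fun w => ¬ wle F u w) with hOm'
  have hsub : Om' ⊂ Om := by
    refine Finset.filter_ssubset.mpr ⟨u, hu, ?_⟩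
    rw [not_not]
    exact wle_refl F u
  have hopen' : IsOpen (cell F Om') := by
    have : cell F Om' = cell F Om ∩ (closure (cell F {u}))ᶜ := by
      ext x
      simp only [cell, Set.mem_ofPred_eq, hOm', Finset.mem_filter, Set.mem_inter_iff,
        Set.mem_compl_iff]
      rw [← mem_closure_iff_wle F u x]
      rfl
    rw [this]
    exact hm.isOpen.inter isClosed_closure.isOpen_compl
  refine hf0ne (hm.min Om' hsub hopen' f0 ⟨hf0V, S ∩ Oᶜ, hSc.inter hOopen.isClosed_compl, ?_, ?_, ?_⟩)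
  · rintro b hb x ⟨hxS, hxO⟩
    refine ⟨hSi b hb x hxS, ?_⟩
    rintro ⟨h, hh, hx⟩
    refine hxO ⟨h, hh, ?_⟩
    rw [mul_assoc, F.idx_left b hb] at hx
    exact hx
  · rintro x ⟨hxS, hxO⟩
    refine Finset.mem_filter.mpr ⟨hSO hxS, ?_⟩
    rw [← mem_closure_iff_wle F u x]
    exact fun hc => hxO (hclO hc)
  · intro x hx
    by_cases hxS : x ∈ S
    · refine hO0 x ?_
      by_contra hxO
      exact hx ⟨hxS, hxO⟩
    · exact hS0 x hxS
end Pool.Agent.Helper911
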