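import Mathlib
import Pool.Agent.Helper911_Abs.Outer
import Pool.Agent.Helper911_Abs.KC
import Pool.Agent.Helper911_Abs.KD
import Pool.Agent.Helper911_Abs.KF
import Pool.Agent.Helper911_Abs.KG
import Pool.Agent.Helper911_Abs.MB

set_option autoImplicit false
set_option linter.unusedSectionVars false
set_option maxHeartbeats 1000000

noncomputable section

open Topology Filter

namespace Pool.Agent.Helper911


variable {p : ℕ} {G : Type*} [Group G] [TopologicalSpace G] [IsTopologicalGroup G] [T2Space G]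
  {W : Type*} [DecidableEq W] {F : Flag p G W} {C : Type*} [NormedField C] [IsUltrametricDist C]
  {X : CharData F C} {R : SubRep X}



/-! ======= TARGET ======= -/

/-- TARGET.
Proof. `Om` is nonempty (if it is empty then all `f ∈ VOm R Om` vanish). Let `c` be the maximum of `cw X w`, `w ∈ Om`, `T = {w ∈ Om | cw X w = c}`, `V' = VOm R Om`.
`c > 0` (`X.norm_pos`, `F.conj_Z`, `F.Z_le`). `stab_Nb`, `stab_Z`: translate the supports (`cell_right_Nb`, `cell_right_Z`). For the remaining fields let `S0` be from `attractor F Om`.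
`topfin`: `topnorm` for the support of `f`, `IsSec.exists_bd`. `relc`: `rel_compact` (if `w ∈ Om`, `cw w = c` then `w ∈ T`). `decay`: let `u ∈ T`, `f ∈ V'` supported in `S`, `E` supported in `U0 u ⊆ cell Om`
(`chart_subset`, `U0_clopen`, `U0_linv`); `f - E` is a section supported in `S ∪ U0 u`; use `decay` with `Ph = Om` (`Om \ Om = ∅`, `cell_empty`): for `m ≥ m0` the bound holds for all `x` with `idx x ∈ Om`; and if `idx x ∉ Om` then `x z^m` has the same index, so both `f` and
`E` vanish at `x z^m`. `nonvan`: `nonvan_all` for an element of `T`. `lower`: if `u ∈ T`, `wle w u` then `w ∈ Om`: `cell Om` is an open neighbourhood of `e_u`, so meets the cell of `w`; so `cw w ≤ c`, and `≠ c` if `w ∉ T`. -/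
theorem core_of_min {Om : Finset W} (hm : MinOm R Om) :
    ∃ (T : Finset W) (c : ℝ), Nonempty (CoreData X R Om T c) := by
  classical
  have hOm := hm.isOpen
  have hne : Om.Nonempty := by
    rw [Finset.nonempty_iff_ne_empty]
    rintro rfl
    obtain ⟨f, ⟨_, S, _, _, hS, hf⟩, hf0⟩ := hm.ne
    apply hf0
    funext x
    apply hf x
    intro hx
    have h1 := hS hx
    rw [cell_empty] at h1
    exact h1
  obtain ⟨w0, hw0, hmax⟩ := Om.exists_max_image (cw X) hne
  set c : ℝ := cw X w0 with hcdef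
  have hc : 0 < c := X.norm_pos _ (F.Z_le (F.conj_Z w0 F.z F.z_mem))
  have hcw : ∀ w ∈ Om, cw X w ≤ c := hmax
  set T : Finset W := Om.filter (fun w => cw X w = c) with hT
  have hTs : T ⊆ Om := Finset.filter_subset _ _
  have hcT : ∀ u ∈ T, cw X u = c := fun u hu => (Finset.mem_filter.mp hu).2
  have hmT : ∀ w ∈ Om, cw X w = c → w ∈ T := fun w h1 h2 => Finset.mem_filter.mpr ⟨h1, h2⟩
  obtain ⟨A1, hA11, hA1⟩ := rel_compact X Om hOm c hc hcw
  obtain ⟨A2, hA21, hA2⟩ := decay X Om hOm c hc hcw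
  have hU0 : ∀ u ∈ Om, U0 F u ⊆ cell F Om := by
    rintro u hu g ⟨b, hb, n, hn, y, hy, _, _, rfl⟩
    exact chart_subset F Om hOm u hu b n y hb (F.P_le u hn) (F.Q_le u hy)
  refine ⟨T, c, ⟨{
    V' := VOm R Om
    le := fun f hf => hf.1
    stab_Nb := ?_
    stab_Z := ?_
    open_Om := hOm
    T_sub := hTs
    c_pos := hc
    cw_T := hcT
    topfin := ?_
    relc := ?_
    decay := ?_
    nonvan := ?_
    lower := ?_ }⟩⟩
  · rintro f ⟨hfV, S, hS, hSi, hSO, hfS⟩ y hy
    refine ⟨R.stab f hfV y, {x | x * y ∈ S}, ?_, ?_, ?_, ?_⟩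
    · exact hS.preimage (continuous_mul_const y)
    · intro b hb x hx
      have h1 := hSi b hb (x * y) hx
      rw [← mul_assoc] at h1
      exact h1
    · intro x hx
      exact (cell_right_Nb F Om x y hy).mp (hSO hx)
    · intro x hx
      exact hfS (x * y) hx
  · rintro f ⟨hfV, S, hS, hSi, hSO, hfS⟩ t ht
    refine ⟨R.stab f hfV t, {x | x * t ∈ S}, ?_, ?_, ?_, ?_⟩
    · exact hS.preimage (continuous_mul_const t)
    · intro b hb x hx
      have h1 := hSi b hb (x * t) hx
      rw [← mul_assoc] at h1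
      exact h1
    · intro x hx
      exact (cell_right_Z F Om x t ht).mp (hSO hx)
    · intro x hx
      exact hfS (x * t) hx
  · rintro f ⟨hfV, S, hS, hSi, hSO, hfS⟩ u hu
    obtain ⟨M, _, hM⟩ := (R.sec f hfV).exists_bd
    obtain ⟨A, _, hA⟩ := topnorm X Om hOm c hc hcw S hS hSi hSO
    exact ⟨A * M, fun y hy => hA f (R.sec f hfV) hfS M hM u (hcT u hu) y hy⟩
  · refine ⟨A1, hA11, ?_⟩
    rintro u hu f ⟨hfV, S, hS, hSi, hSO, hfS⟩ M hM hw
    exact hA1 u (hTs hu) (hcT u hu) S hS hSi hSO f (R.sec f hfV) hfS M hM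
      (fun w hwO hne' hle hcw' y hy => hw w (hmT w hwO hcw') hne' hle y hy)
  · refine ⟨A2, hA21, ?_⟩
    rintro u hu f ⟨hfV, S, hS, hSi, hSO, hfS⟩ E hE hEs M hM hTN
    have hsub : S ∪ U0 F u ⊆ cell F Om := Set.union_subset hSO (hU0 u (hTs hu))
    have hsupp : ∀ x ∉ S ∪ U0 F u, (f - E) x = 0 := by
      intro x hx
      simp only [Set.mem_union, not_or] at hx
      rw [Pi.sub_apply, hfS x hx.1, hEs x hx.2, sub_zero]
    obtain ⟨m0, hm0⟩ := hA2 Om subset_rfl
      (by
        have h1 : Om \ Om = ∅ := sdiff_self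
        rw [h1, cell_empty]
        exact isOpen_empty)
      (S ∪ U0 F u) (hS.union (U0_clopen F u).1)
      (by
        rintro b hb x (hx | hx)
        · exact Or.inl (hSi b hb x hx)
        · exact Or.inr (U0_linv F u b hb x hx))
      hsub (f - E) ((R.sec f hfV).sub hE) hsupp M hM
      (fun w hw hcw' y hy => hTN w (hmT w hw hcw') y hy)
    refine ⟨m0, fun m hm1 x => ?_⟩
    by_cases hx : F.idx x ∈ Om
    · exact hm0 m hm1 x hx
    · have h1 : x * F.z ^ m ∉ S ∪ U0 F u := by
        intro h2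
        have h3 := hsub h2
        have h4 : F.idx (x * F.z ^ m) ∈ Om := h3
        rw [F.idx_right_Z _ (zpow_mem_Z F m)] at h4
        exact hx h4
      rw [tr_apply, hsupp _ h1, norm_zero]
      have h5 := ht_pos X x
      positivity
  · obtain ⟨f, hf, hf0⟩ := nonvan_all hm w0 hw0
    exact ⟨f, hf, w0, hmT w0 hw0 rfl, hf0⟩
  · intro u hu w hle hw
    have h1 : F.e u ∈ closure (cell F {w}) := hle
    have h2 : F.e u ∈ cell F Om := by
      change F.idx (F.e u) ∈ Om
      rw [F.idx_e]
      exact hTs hu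
    obtain ⟨g, hg1, hg2⟩ := mem_closure_iff.mp h1 (cell F Om) hOm h2
    have h3 : F.idx g = w := Finset.mem_singleton.mp hg2
    have h4 : w ∈ Om := by
      rw [← h3]
      exact hg1
    exact lt_of_le_of_ne (hcw w h4) (fun h5 => hw (hmT w h4 h5))
end Pool.Agent.Helper911
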