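import Mathlib
import Pool.Agent.Helper911_Abs.Outer

set_option autoImplicit false
set_option linter.unusedSectionVars false
set_option maxHeartbeats 1000000

noncomputable section

open Topology Filter

namespace Pool.Agent.Helper911


variable {p : ℕ} {G : Type*} [Group G] [TopologicalSpace G] [IsTopologicalGroup G] [T2Space G]
  {W : Type*} [DecidableEq W] {F : Flag p G W} {C : Type*} [NormedField C] [IsUltrametricDist C]
  {X : CharData F C} {R : SubRep X}

/-! ======= TARGET ======= -/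

open scoped Pointwise in
/-- TARGET.
Proof. Let `Om' = {w ∈ Om | wle w u}` (classical filter). If `wle w u` then `w ∈ Om` (the open set `cell Om` contains `e_u`, so it meets the cell of `w`). `cell Om'` is open: for `g` with `idx g ∈ Om'` the open set `cell Om` minus the union of the
closed sets `closure (cell {w})` for `w ∈ Om`, `¬ wle w u`, contains `g` (`mem_closure_iff_wle`, `wle_trans`) and is contained in `cell Om'` (`wle_refl`). Let `S = closure {x | Φ x ≠ 0}`, left invariant since `{x | Φ x ≠ 0}` is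
(by `hΦ.1`, `hΦ.2` it is the set of all `b e_u n y` with `b ∈ B`, `n ∈ P u`, `y ∈ Q u ∩ Gam`; `X.chi_ne`). To show `S ⊆ cell Om'`: let `g ∈ S`. The set `g * Gam`
is a neighbourhood of `g` (`Gam_open`), but we need a little more room: consider `g * y⁻¹`. Precisely: the set `{x | Φ x ≠ 0}` is `D * (Q u ∩ Gam)` with `D = B e_u (P u)` and `Q u ∩ Gam` compact, so
`closure {x | Φ x ≠ 0} ⊆ closure D * (Q u ∩ Gam)` (`IsCompact` times closed is closed: `IsClosed.mul_right_of_isCompact`). So `g = g' y` with `g' ∈ closure D`, `y ∈ Q u`, and `idx g = idx g'`. As `g' Gam` is a neighbourhood of `g'` there is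
`γ ∈ Gam` with `g' γ ∈ D`. By `F.iwahori`, `γ = y1 t n1` with `y1 ∈ Nb`, `t ∈ Z`, `n1 ∈ N`. So `g' y1 t = b e_u n n1⁻¹` for some `b ∈ B`, `n ∈ P u`, and `idx g' = idx (g' y1 t) = idx (e_u (n n1⁻¹))`, with `n n1⁻¹ ∈ N`, so `wle (idx g') u` by `wle_of_N`. -/
theorem phi_support (Om : Finset W) (hOm : IsOpen (cell F Om)) {u : W} (hu : u ∈ Om) {Φ : G → C}
    (hΦ : IsPhi X u Φ) : ∃ Om' : Finset W, Om' ⊆ Om ∧ (∀ w, w ∈ Om' ↔ wle F w u) ∧
      IsOpen (cell F Om') ∧ ∃ S, IsClosed S ∧ LInv F S ∧ S ⊆ cell F Om' ∧ ∀ x ∉ S, Φ x = 0 := by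
  classical
  obtain ⟨Om', hOm'⟩ : ∃ Om' : Finset W, Om' = Om.filter (fun w => wle F w u) := ⟨_, rfl⟩
  have hmemOm : ∀ w, wle F w u → w ∈ Om := by
    intro w hw
    have h1 : F.e u ∈ cell F Om := by
      show F.idx (F.e u) ∈ Om
      rw [F.idx_e]
      exact hu
    obtain ⟨x, hx1, hx2⟩ := mem_closure_iff.1 hw (cell F Om) hOm h1
    have h2 : F.idx x = w := by
      have : F.idx x ∈ ({w} : Finset W) := hx2
      simpa using this
    have h3 : F.idx x ∈ Om := hx1
    rwa [h2] at h3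
  have hmem : ∀ w, w ∈ Om' ↔ wle F w u := by
    intro w
    rw [hOm', Finset.mem_filter]
    exact ⟨fun h => h.2, fun h => ⟨hmemOm w h, h⟩⟩
  have hopen : IsOpen (cell F Om') := by
    have h1 : cell F Om' = cell F Om \ ⋃ w ∈ Om.filter (fun w => ¬ wle F w u),
        closure (cell F {w}) := by
      ext g
      constructor
      · intro hg
        have hg1 : wle F (F.idx g) u := (hmem _).1 hg
        refine ⟨hmemOm _ hg1, ?_⟩
        intro hg2
        simp only [Set.mem_iUnion] at hg2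
        obtain ⟨w, hw, hgw⟩ := hg2
        rw [Finset.mem_filter] at hw
        exact hw.2 (wle_trans F ((mem_closure_iff_wle F w g).1 hgw) hg1)
      · rintro ⟨hg1, hg2⟩
        by_contra hcon
        have hcon2 : ¬ wle F (F.idx g) u := fun h => hcon ((hmem _).2 h)
        apply hg2
        simp only [Set.mem_iUnion]
        refine ⟨F.idx g, Finset.mem_filter.2 ⟨hg1, hcon2⟩, subset_closure ?_⟩
        show F.idx g ∈ ({F.idx g} : Finset W)
        simp
    rw [h1]
    apply hOm.sdiff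
    apply Set.Finite.isClosed_biUnion (Finset.finite_toSet _)
    intro w _
    exact isClosed_closure
  refine ⟨Om', by rw [hOm']; exact Finset.filter_subset _ _, hmem, hopen,
    closure {x | Φ x ≠ 0}, isClosed_closure, ?_, ?_, ?_⟩
  · intro b hb g hg
    refine map_mem_closure (continuous_const_mul b) hg ?_
    intro x hx
    show Φ (b * x) ≠ 0
    have hx0 : Φ x ≠ 0 := hx
    by_cases hform : ∃ b ∈ F.B, ∃ n ∈ F.P u, ∃ y ∈ F.Q u, y ∈ F.Gam ∧ x = b * F.e u * n * y
    · obtain ⟨b0, hb0, n, hn, y, hy, hyG, rfl⟩ := hform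
      have h1 : b * (b0 * F.e u * n * y) = (b * b0) * F.e u * n * y := by group
      rw [h1, hΦ.1 (b * b0) (mul_mem hb hb0) n hn y hy hyG]
      exact X.chi_ne _ (mul_mem hb hb0)
    · exact absurd (hΦ.2 x hform) hx0
  · intro g hg
    have hsub : {x | Φ x ≠ 0} ⊆ {d : G | ∃ b ∈ F.B, ∃ n ∈ F.P u, d = b * F.e u * n} *
        {y : G | y ∈ F.Q u ∧ y ∈ F.Gam} := by
      intro x hx
      have hx0 : Φ x ≠ 0 := hx
      by_cases hform : ∃ b ∈ F.B, ∃ n ∈ F.P u, ∃ y ∈ F.Q u, y ∈ F.Gam ∧ x = b * F.e u * n * y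
      · obtain ⟨b0, hb0, n, hn, y, hy, hyG, rfl⟩ := hform
        exact Set.mul_mem_mul ⟨b0, hb0, n, hn, rfl⟩ ⟨hy, hyG⟩
      · exact absurd (hΦ.2 x hform) hx0
    have hclosed : IsClosed (closure {d : G | ∃ b ∈ F.B, ∃ n ∈ F.P u, d = b * F.e u * n} *
        {y : G | y ∈ F.Q u ∧ y ∈ F.Gam}) :=
      IsClosed.mul_right_of_isCompact isClosed_closure (QG_compact F u)
    have hg2 := closure_minimal (hsub.trans (Set.mul_subset_mul_right subset_closure)) hclosed hg
    obtain ⟨g', hg', y, ⟨hy, hyG⟩, hgy⟩ := hg2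
    have hidx : F.idx g = F.idx g' := by
      rw [← hgy]
      exact F.idx_right_Nb y (F.Q_le u hy) g'
    have hO : IsOpen {x : G | g'⁻¹ * x ∈ F.Gam} :=
      F.Gam_open.preimage (continuous_const_mul g'⁻¹)
    obtain ⟨d, hd1, b, hb, n, hn, hd2⟩ := mem_closure_iff.1 hg' _ hO (by
      show g'⁻¹ * g' ∈ F.Gam
      rw [inv_mul_cancel]
      exact one_mem _)
    obtain ⟨y1, hy1, t, ht, n1, hn1, hfac⟩ := F.iwahori _ hd1
    have h1 : g' * y1 * t = b * (F.e u * (n * n1⁻¹)) := by
      have h2 : d = g' * (y1 * t * n1) := by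
        rw [← hfac]
        group
      have h3 : g' * y1 * t = d * n1⁻¹ := by
        rw [h2]
        group
      rw [h3, hd2]
      group
    have h2 : F.idx g' = F.idx (F.e u * (n * n1⁻¹)) := by
      rw [← F.idx_left b hb (F.e u * (n * n1⁻¹)), ← h1, F.idx_right_Z t ht, F.idx_right_Nb y1 hy1]
    have h3 : wle F (F.idx g') u :=
      wle_of_N F u (F.idx g') (n * n1⁻¹) (mul_mem (F.P_le u hn) (inv_mem hn1)) h2.symm
    show F.idx g ∈ Om'
    rw [hidx]
    exact (hmem _).2 h3
  · intro x hx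
    by_contra h
    exact hx (subset_closure h)
end Pool.Agent.Helper911
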