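import Mathlib
import Pool.Agent.Helper911_Abs.Outer
import Pool.Agent.Helper911_Abs.MA
import Pool.Agent.Helper911_Abs.MC
import Pool.Agent.Helper911_Abs.MD
import Pool.Agent.Helper911_Abs.LO

set_option autoImplicit false
set_option linter.unusedSectionVars false
set_option maxHeartbeats 1000000

noncomputable section

open Topology Filter

namespace Pool.Agent.Helper911


variable {p : ℕ} {G : Type*} [Group G] [TopologicalSpace G] [IsTopologicalGroup G] [T2Space G]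
  {W : Type*} [DecidableEq W] {F : Flag p G W} {C : Type*} [NormedField C] [IsUltrametricDist C]
  {X : CharData F C} {R : SubRep X}



/-! ======= TARGET ======= -/

/-- TARGET.
Proof. `Om` from `exists_min`, `CoreData` from `core_of_min`, `u ∈ T ⊆ Om` and `Φ` from `core_phi`. `Om' ⊆ Om`, `S` from `phi_support`; `Φ ≠ 0` (`Φ (e_u) = χ 1 = 1`) and `Φ ∈ VOm R Om'`, so by `MinOm.min` `Om'` is not a proper subset: `Om' = Om`.
`cw w < c = cw u` for `w ∈ Om`, `w ≠ u` by `core_phi` and `D0.cw_T`. `u` is maximal in `Om` (`wle_antisymm`), so `Om.erase u` is open (`erase_open`), a proper subset, and `MinOm.min` applies. -/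
theorem mainA [Fintype W] [Fact p.Prime] {rho : ℝ} (hd : Disc p C rho) (tie : TieHyp X)
    (R : SubRep X) (hne : R.V ≠ ⊥) :
    ∃ (u : W) (Om : Finset W), MinOm R Om ∧ (∀ w, w ∈ Om ↔ wle F w u) ∧
      (∀ w ∈ Om, w ≠ u → cw X w < cw X u) ∧ IsOpen (cell F (Om.erase u)) ∧
      (∀ f ∈ VOm R (Om.erase u), f = 0) ∧
      ∃ Φ ∈ R.V, IsPhi X u Φ ∧ ∃ S, IsClosed S ∧ LInv F S ∧ S ⊆ cell F Om ∧ ∀ x ∉ S, Φ x = 0 := by
  obtain ⟨Om, hm⟩ := exists_min R hne
  obtain ⟨T, c, ⟨D0⟩⟩ := core_of_min hm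
  obtain ⟨u, huT, hlt, Φ, hΦV, hΦ⟩ := core_phi hd tie D0
  have hu : u ∈ Om := D0.T_sub huT
  obtain ⟨Om', hsub, hmem, hopen, S, hS1, hS2, hS3, hS4⟩ := phi_support Om hm.isOpen hu hΦ
  have hval : Φ (F.e u) = 1 := by
    have := hΦ.1 1 (one_mem _) 1 (one_mem _) 1 (one_mem _) (one_mem _)
    simpa [X.chi_one] using this
  have hne0 : Φ ≠ 0 := by
    intro h
    rw [h] at hval
    simp at hval
  have hEq : Om' = Om := by
    by_contra hcon
    exact hne0 (hm.min Om' (Finset.ssubset_iff_subset_ne.mpr ⟨hsub, hcon⟩) hopen Φ ⟨hΦV, S, hS1, hS2, hS3, hS4⟩)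
  subst hEq
  have hmax : ∀ w' ∈ Om', wle F u w' → w' = u := fun w' hw' h =>
    (wle_antisymm F h ((hmem w').mp hw')).symm
  have hop := erase_open F Om' hm.isOpen u hmax
  refine ⟨u, Om', hm, hmem, ?_, hop, ?_, Φ, hΦV, hΦ, S, hS1, hS2, hS3, hS4⟩
  · intro w hw hne
    rw [D0.cw_T u huT]
    exact hlt w ((hmem w).mp hw) hne
  · exact hm.min _ (Finset.erase_ssubset hu) hop
end Pool.Agent.Helper911
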