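import Mathlib
import Pool.Agent.Helper911_Abs.Outer

set_option autoImplicit false
set_option linter.unusedSectionVars false
set_option maxHeartbeats 1000000

noncomputable section

open Topology Filter

namespace Pool.Agent.Helper911


variable {p : ℕ} {G : Type*} [Group G] [TopologicalSpace G] [IsTopologicalGroup G] [T2Space G]
  {W : Type*} [DecidableEq W] {F : Flag p G W} {C : Type*} [NormedField C] [IsUltrametricDist C]
  {X : CharData F C} {R : SubRep X}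

/-! ======= TARGET ======= -/

/-- the chart at `u` -/
def anChart (F : Flag p G W) (u : W) : Set G :=
  {g | ∃ b ∈ F.B, ∃ n ∈ F.P u, ∃ y ∈ F.Q u, g = b * F.e u * n * y}

theorem an_coord {u : W} {b n y b' n' y' : G} (hb : b ∈ F.B) (hn : n ∈ F.P u) (hy : y ∈ F.Q u)
    (hb' : b' ∈ F.B) (hn' : n' ∈ F.P u) (hy' : y' ∈ F.Q u)
    (h : b * F.e u * n * y = b' * F.e u * n' * y') : b = b' ∧ n = n' ∧ y = y' := by
  have h1 : F.e u * n * y = (b⁻¹ * b') * F.e u * n' * y' := by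
    have : F.e u * n * y = b⁻¹ * (b * F.e u * n * y) := by group
    rw [this, h]; group
  obtain ⟨rfl, rfl⟩ := F.chart_inj u (b⁻¹ * b') (F.B.mul_mem (F.B.inv_mem hb) hb') n hn y hy n' hn'
    y' hy' h1
  refine ⟨?_, rfl, rfl⟩
  have h2 : b * (F.e u * n * y) = b' * (F.e u * n * y) := by
    simpa only [mul_assoc] using h
  exact mul_right_cancel h2

open Classical in
/-- the comparison function -/
def anC (X : CharData F C) (lam : G → C) (u : W) (x : G) : C :=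
  if h : ∃ b : G, b ∈ F.B ∧ ∃ n ∈ F.P u, ∃ y ∈ F.Q u, y ∈ F.Gam ∧ x = b * F.e u * n * y then
    X.chi h.choose * (lam h.choose)⁻¹ else 0

theorem anC_in (lam : G → C) {u : W} {b n y : G} (hb : b ∈ F.B) (hn : n ∈ F.P u)
    (hy : y ∈ F.Q u) (hG : y ∈ F.Gam) :
    anC X lam u (b * F.e u * n * y) = X.chi b * (lam b)⁻¹ := by
  have h : ∃ b' : G, b' ∈ F.B ∧ ∃ n' ∈ F.P u, ∃ y' ∈ F.Q u, y' ∈ F.Gam ∧
      b * F.e u * n * y = b' * F.e u * n' * y' := ⟨b, hb, n, hn, y, hy, hG, rfl⟩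
  unfold anC
  rw [dif_pos h]
  obtain ⟨h1, n', hn', y', hy', _, h2⟩ := h.choose_spec
  obtain ⟨h3, _, _⟩ := an_coord hb hn hy h1 hn' hy' h2
  rw [← h3]

theorem anC_out (lam : G → C) {u : W} {b n y : G} (hb : b ∈ F.B) (hn : n ∈ F.P u)
    (hy : y ∈ F.Q u) (hG : y ∉ F.Gam) : anC X lam u (b * F.e u * n * y) = 0 := by
  unfold anC
  rw [dif_neg]
  rintro ⟨b', hb', n', hn', y', hy', hG', h⟩
  obtain ⟨_, _, rfl⟩ := an_coord hb hn hy hb' hn' hy' h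
  exact hG hG'

theorem an_phi {u : W} {Φ : G → C} (hΦ : IsPhi X u Φ) (lam : G → C)
    (hlam0 : ∀ b ∈ F.B, lam b ≠ 0) (Pf : G → C) (hPf : ∀ b ∈ F.B, ∀ g, Pf (b * g) = lam b * Pf g)
    (hPf1 : ∀ n ∈ F.P u, ∀ y ∈ F.Q u, Pf (F.e u * n * y) = 1) {x : G} (hx : x ∈ anChart F u) :
    Φ x = anC X lam u x * Pf x := by
  obtain ⟨b, hb, n, hn, y, hy, rfl⟩ := hx
  have e : Pf (b * F.e u * n * y) = lam b := by
    have : b * F.e u * n * y = b * (F.e u * n * y) := by simp only [mul_assoc]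
    rw [this, hPf b hb, hPf1 n hn y hy, mul_one]
  by_cases hG : y ∈ F.Gam
  · rw [hΦ.1 b hb n hn y hy hG, anC_in lam hb hn hy hG, e, mul_assoc,
      inv_mul_cancel₀ (hlam0 b hb), mul_one]
  · rw [anC_out lam hb hn hy hG, zero_mul]
    refine hΦ.2 _ ?_
    rintro ⟨b', hb', n', hn', y', hy', hG', h⟩
    obtain ⟨_, _, rfl⟩ := an_coord hb hn hy hb' hn' hy' h
    exact hG hG'

theorem anC_left (lam : G → C) (hlam : ∀ b ∈ F.B, ∀ b' ∈ F.B, lam (b * b') = lam b * lam b')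
    {u : W} {b x : G} (hb : b ∈ F.B) (hx : x ∈ anChart F u) :
    anC X lam u (b * x) = X.chi b * (lam b)⁻¹ * anC X lam u x := by
  obtain ⟨b', hb', n, hn, y, hy, rfl⟩ := hx
  have e : b * (b' * F.e u * n * y) = (b * b') * F.e u * n * y := by simp only [mul_assoc]
  rw [e]
  by_cases hG : y ∈ F.Gam
  · rw [anC_in lam (F.B.mul_mem hb hb') hn hy hG, anC_in lam hb' hn hy hG, X.chi_mul b hb b' hb',
      hlam b hb b' hb', mul_inv]
    ring
  · rw [anC_out lam (F.B.mul_mem hb hb') hn hy hG, anC_out lam hb' hn hy hG, mul_zero]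

theorem anChart_left {u : W} {b x : G} (hb : b ∈ F.B) (hx : x ∈ anChart F u) :
    b * x ∈ anChart F u := by
  obtain ⟨b', hb', n, hn, y, hy, rfl⟩ := hx
  exact ⟨b * b', F.B.mul_mem hb hb', n, hn, y, hy, by simp only [mul_assoc]⟩

theorem anC_local (lam : G → C) (hlam : ∀ b ∈ F.B, ∀ b' ∈ F.B, lam (b * b') = lam b * lam b')
    (hlam0 : ∀ b ∈ F.B, lam b ≠ 0)
    (hsm : ∃ U ∈ 𝓝 (1 : G), ∀ b ∈ F.B, b ∈ U → X.chi b = lam b) {u : W} {x : G}
    (hx : x ∈ anChart F u) : ∃ H : Subgroup G, IsOpen (H : Set G) ∧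
      ∀ h ∈ H, x * h ∈ anChart F u ∧ anC X lam u (x * h) = anC X lam u x := by
  obtain ⟨b, hb, n, hn, y, hy, rfl⟩ := hx
  obtain ⟨U, hU, hUs⟩ := hsm
  -- the coordinate `b⁻¹ b'`
  let φ : G × G × G → G := fun q => b⁻¹ * (q.1 * q.2.2⁻¹ * q.2.1⁻¹ * (F.e u)⁻¹)
  have hφ : Continuous φ := by fun_prop
  have hφ1 : φ (b * F.e u * n * y, n, y) = 1 := by
    show b⁻¹ * (b * F.e u * n * y * y⁻¹ * n⁻¹ * (F.e u)⁻¹) = 1
    group
  have hpre : φ ⁻¹' U ∈ 𝓝 (b * F.e u * n * y, n, y) := by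
    refine hφ.continuousAt.preimage_mem_nhds ?_
    rw [hφ1]; exact hU
  rw [nhds_prod_eq, nhds_prod_eq, Filter.mem_prod_iff] at hpre
  obtain ⟨A0, hA0, A12, hA12, hsub⟩ := hpre
  rw [Filter.mem_prod_iff] at hA12
  obtain ⟨A1, hA1, A2, hA2, hsub2⟩ := hA12
  obtain ⟨O1, hO1s, hO1, hnO1⟩ := mem_nhds_iff.1 hA1
  obtain ⟨O2, hO2s, hO2, hyO2⟩ := mem_nhds_iff.1 hA2
  -- a clopen neighbourhood of `y` deciding membership in `Gam`
  obtain ⟨O3, hO3, hyO3, hO3s⟩ : ∃ O3 : Set G, IsOpen O3 ∧ y ∈ O3 ∧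
      ∀ y' ∈ O3, (y' ∈ F.Gam ↔ y ∈ F.Gam) := by
    by_cases hG : y ∈ F.Gam
    · exact ⟨F.Gam, F.Gam_open, hG, fun y' hy' => ⟨fun _ => hG, fun _ => hy'⟩⟩
    · refine ⟨(F.Gam : Set G)ᶜ, ?_, hG, fun y' hy' => ⟨fun h => (hy' h).elim, fun h => (hG h).elim⟩⟩
      exact (Subgroup.isClosed_of_isOpen F.Gam F.Gam_open).isOpen_compl
  have hch := F.chart_open u O1 (O2 ∩ O3) hO1 (hO2.inter hO3)
  have hxch : b * F.e u * n * y ∈ {g | ∃ b ∈ F.B, ∃ n ∈ F.P u, ∃ y ∈ F.Q u, n ∈ O1 ∧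
      y ∈ O2 ∩ O3 ∧ g = b * F.e u * n * y} := ⟨b, hb, n, hn, y, hy, hnO1, ⟨hyO2, hyO3⟩, rfl⟩
  have hnb : A0 ∩ {g | ∃ b ∈ F.B, ∃ n ∈ F.P u, ∃ y ∈ F.Q u, n ∈ O1 ∧
      y ∈ O2 ∩ O3 ∧ g = b * F.e u * n * y} ∈ 𝓝 (b * F.e u * n * y) :=
    Filter.inter_mem hA0 (hch.mem_nhds hxch)
  have hmul : Continuous fun v : G => b * F.e u * n * y * v := continuous_const.mul continuous_id
  have hnb1 : (fun v : G => b * F.e u * n * y * v) ⁻¹' (A0 ∩ {g | ∃ b ∈ F.B, ∃ n ∈ F.P u,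
      ∃ y ∈ F.Q u, n ∈ O1 ∧ y ∈ O2 ∩ O3 ∧ g = b * F.e u * n * y}) ∈ 𝓝 (1 : G) := by
    refine hmul.continuousAt.preimage_mem_nhds ?_
    rw [mul_one]; exact hnb
  obtain ⟨H, hH, hHs⟩ := F.small _ hnb1
  refine ⟨H, hH, fun h hh => ?_⟩
  obtain ⟨h0, b', hb', n', hn', y', hy', hn1, hy1, he⟩ := hHs hh
  simp only at h0 he
  have hbU : b⁻¹ * b' ∈ U := by
    have h1 : φ (b * F.e u * n * y * h, n', y') ∈ U :=
      hsub ⟨h0, hsub2 ⟨hO1s hn1, hO2s hy1.1⟩⟩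
    have h2 : φ (b * F.e u * n * y * h, n', y') = b⁻¹ * b' := by
      show b⁻¹ * (b * F.e u * n * y * h * y'⁻¹ * n'⁻¹ * (F.e u)⁻¹) = b⁻¹ * b'
      rw [he]; group
    rw [← h2]; exact h1
  have hbB : b⁻¹ * b' ∈ F.B := F.B.mul_mem (F.B.inv_mem hb) hb'
  rw [he]
  refine ⟨⟨b', hb', n', hn', y', hy', rfl⟩, ?_⟩
  have hb'' : b' = b * (b⁻¹ * b') := by group
  have hG := hO3s y' hy1.2
  by_cases hGy : y ∈ F.Gam
  · rw [anC_in lam hb' hn' hy' (hG.2 hGy), anC_in lam hb hn hy hGy, hb'', X.chi_mul b hb _ hbB,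
      hlam b hb _ hbB, hUs _ hbB hbU, mul_inv]
    have := hlam0 _ hbB
    field_simp
  · rw [anC_out lam hb' hn' hy' (fun h => hGy (hG.1 h)), anC_out lam hb hn hy hGy]

/-- right invariance under an open subgroup implies open -/
theorem an_open {H : Subgroup G} (hH : IsOpen (H : Set G)) {S : Set G}
    (hS : ∀ x ∈ S, ∀ h ∈ H, x * h ∈ S) : IsOpen S := by
  rw [isOpen_iff_mem_nhds]
  intro x hx
  have h1 : (fun v : G => x⁻¹ * v) ⁻¹' (H : Set G) ∈ 𝓝 x := by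
    refine (continuous_const.mul continuous_id).continuousAt.preimage_mem_nhds ?_
    show (H : Set G) ∈ 𝓝 (x⁻¹ * x)
    rw [inv_mul_cancel]
    exact hH.mem_nhds H.one_mem
  refine Filter.mem_of_superset h1 ?_
  intro v hv
  have := hS x hx (x⁻¹ * v) hv
  rwa [mul_inv_cancel_left] at this

/-- TARGET.
Proof. Let `S` be the support set, `H1` an open subgroup with `s * h ∈ cell Om` for `s ∈ S`, `h ∈ H1` (`tube`; `S ⊆ cell Om`). `S' = {x | ∃ h ∈ H1, x * h ∈ S}` is closed (as in `exists_clopen`), left invariant and contained in `cell Om`.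
`S1 = {x ∈ S' | idx x = u}` is closed (`S'` minus the open `cell (Om.erase u)`), so `S1 ∩ K` is compact. On the chart `Ch = {b e_u n y | b ∈ B, n ∈ P u, y ∈ Q u}`, open (`F.chart_open` with `O1 = O2 = univ`), define `c1 (b e_u n y) = χ(b) lam(b)⁻¹` if `y ∈ Gam`, `0` otherwise; then
`Φ x = c1 x * Pf x` for `x ∈ Ch`. Claim: for every `x ∈ Ch` there is a neighbourhood `U_x` of `1` with `x u ∈ Ch` and `c1 (x u) = c1 x` for `u ∈ U_x`. Indeed, the coordinates `n`, `y`, and so `b = x y⁻¹ n⁻¹ e_u⁻¹`, depend continuously on `x` (`F.chart_open`);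
`Gam` is open and closed; and `χ(b') lam(b')⁻¹ = χ(b) lam(b)⁻¹` when `b⁻¹ b' ∈ U` (`hsm`). `S1 ⊆ Ch` (`exists_rep_Q`, with `n = 1`). By compactness of `S1 ∩ K` there is an open subgroup `H ≤ H1` such that for all `x ∈ S1 ∩ K`, `h, h' ∈ H`:
`x h h' ∈ Ch`, `c1 (x h h') = c1 (x h)`(= `c1 x`) (finitely many `x_i` with `S1 ∩ K ⊆ ⋃ x_i V_i`, `V_i V_i V_i ⊆ U_{x_i}`, `H ⊆ ⋂ V_i` by `F.small`); the same then holds for `x ∈ S1` by left `B`-equivariance (`c1 (b x) = χ(b) lam(b)⁻¹ c1 x`, `F.iwasawa`).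
Now let `J`, `a` be given. `f = ∑_{h ∈ J} a h • tr h Φ ∈ R.V` is supported in `S'`, and for `x = x1 h'`, `x1 ∈ S1`, `h' ∈ H`: `f x = ∑ a h Φ (x1 h' h) = c1 x1 * ∑ a h Pf (x h) = 0`. So `f` is supported in
`S' \ {x | ∃ h' ∈ H, x * h' ∈ S1}`, closed (complement of an open set), left invariant, contained in `cell (Om.erase u)` (if `idx x = u`, `x ∈ S'` then `x ∈ S1`). So `f ∈ VOm R (Om.erase u)` and `f = 0`. -/
theorem annih (R : SubRep X) {u : W} {Om : Finset W} (hOm : IsOpen (cell F Om))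
    (hOm' : IsOpen (cell F (Om.erase u))) (hu : u ∈ Om)
    (hvan : ∀ f ∈ VOm R (Om.erase u), f = 0) {Φ : G → C} (hΦR : Φ ∈ R.V) (hΦ : IsPhi X u Φ)
    (hS : ∃ S, IsClosed S ∧ LInv F S ∧ S ⊆ cell F Om ∧ ∀ x ∉ S, Φ x = 0)
    (lam : G → C) (hlam : ∀ b ∈ F.B, ∀ b' ∈ F.B, lam (b * b') = lam b * lam b')
    (hlam0 : ∀ b ∈ F.B, lam b ≠ 0)
    (hsm : ∃ U ∈ 𝓝 (1 : G), ∀ b ∈ F.B, b ∈ U → X.chi b = lam b)
    (Pf : G → C) (hPf : ∀ b ∈ F.B, ∀ g, Pf (b * g) = lam b * Pf g)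
    (hPf1 : ∀ n ∈ F.P u, ∀ y ∈ F.Q u, Pf (F.e u * n * y) = 1) :
    ∃ H : Subgroup G, IsOpen (H : Set G) ∧ ∀ (J : Finset G) (a : G → C), (∀ h ∈ J, h ∈ H) →
      (∀ g, ∑ h ∈ J, a h * Pf (g * h) = 0) → ∀ g, ∑ h ∈ J, a h * Φ (g * h) = 0 := by
  classical
  obtain ⟨S, hSc, hSi, hSO, hSv⟩ := hS
  obtain ⟨H1, hH1, hH1s⟩ := tube F hSc hSi hOm (cell_linv F Om) hSO
  let S' : Set G := {x | ∃ h ∈ H1, x * h ∈ S}
  have hS'r : ∀ x ∈ S', ∀ h ∈ H1, x * h ∈ S' := by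
    rintro x ⟨k, hk, hx⟩ h hh
    exact ⟨h⁻¹ * k, H1.mul_mem (H1.inv_mem hh) hk, by
      have : x * h * (h⁻¹ * k) = x * k := by group
      rw [this]; exact hx⟩
  have hS'c : IsClosed S' := by
    rw [← isOpen_compl_iff]
    refine an_open hH1 ?_
    intro x hx h hh hxh
    have := hS'r _ hxh h⁻¹ (H1.inv_mem hh)
    rw [mul_inv_cancel_right] at this
    exact hx this
  have hS'i : LInv F S' := by
    rintro b hb x ⟨k, hk, hx⟩
    exact ⟨k, hk, by rw [mul_assoc]; exact hSi b hb _ hx⟩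
  have hS'O : S' ⊆ cell F Om := by
    rintro x ⟨k, hk, hx⟩
    have := hH1s _ hx k⁻¹ (H1.inv_mem hk)
    rwa [mul_inv_cancel_right] at this
  let S1 : Set G := {x | x ∈ S' ∧ F.idx x = u}
  have hS1e : S1 = S' ∩ (cell F (Om.erase u))ᶜ := by
    ext x
    constructor
    · rintro ⟨h1, h2⟩
      refine ⟨h1, fun h => ?_⟩
      have h : F.idx x ∈ Om.erase u := h
      rw [h2] at h
      exact (Finset.notMem_erase u Om) h
    · rintro ⟨h1, h2⟩
      refine ⟨h1, ?_⟩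
      by_contra h3
      exact h2 (Finset.mem_erase.2 ⟨h3, hS'O h1⟩)
  have hS1c : IsClosed S1 := by
    rw [hS1e]
    exact hS'c.inter hOm'.isClosed_compl
  have hS1i : LInv F S1 := by
    rintro b hb x ⟨h1, h2⟩
    exact ⟨hS'i b hb x h1, by rw [F.idx_left b hb]; exact h2⟩
  have hS1ch : ∀ x ∈ S1, x ∈ anChart F u := by
    rintro x ⟨_, h2⟩
    obtain ⟨b, hb, q, hq, h⟩ := exists_rep_Q F x
    rw [h2] at hq h
    exact ⟨b, hb, 1, (F.P u).one_mem, q, hq, by rw [mul_one]; exact h⟩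
  -- the local subgroups
  have hloc : ∀ x : G, ∃ H : Subgroup G, IsOpen (H : Set G) ∧ (x ∈ anChart F u →
      ∀ h ∈ H, x * h ∈ anChart F u ∧ anC X lam u (x * h) = anC X lam u x) := by
    intro x
    by_cases hx : x ∈ anChart F u
    · obtain ⟨H, h1, h2⟩ := anC_local (X := X) lam hlam hlam0 hsm hx
      exact ⟨H, h1, fun _ => h2⟩
    · exact ⟨H1, hH1, fun h => (hx h).elim⟩
  choose HH hHH1 hHH2 using hloc
  have hcomp : IsCompact (S1 ∩ (F.K : Set G)) := by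
    have := F.K_compact.inter_right hS1c
    rwa [Set.inter_comm] at this
  obtain ⟨t, ht1, ht2⟩ := hcomp.elim_nhds_subcover
    (fun x => (fun v : G => x⁻¹ * v) ⁻¹' (HH x : Set G)) (fun x _ => by
      refine (continuous_const.mul continuous_id).continuousAt.preimage_mem_nhds ?_
      show (HH x : Set G) ∈ 𝓝 (x⁻¹ * x)
      rw [inv_mul_cancel]
      exact (hHH1 x).mem_nhds (HH x).one_mem)
  let H : Subgroup G := H1 ⊓ ⨅ x ∈ t, HH x
  have hHle1 : H ≤ H1 := inf_le_left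
  have hHle2 : ∀ x ∈ t, H ≤ HH x := fun x hx => inf_le_right.trans (iInf₂_le x hx)
  have hHo : IsOpen (H : Set G) := by
    have : (H : Set G) = (H1 : Set G) ∩ ⋂ x ∈ t, (HH x : Set G) := by
      simp only [H, Subgroup.coe_inf, Subgroup.coe_iInf]
    rw [this]
    exact hH1.inter (isOpen_biInter_finset fun x _ => hHH1 x)
  have hK : ∀ x ∈ S1, x ∈ F.K → ∀ h ∈ H, x * h ∈ anChart F u ∧
      anC X lam u (x * h) = anC X lam u x := by
    intro x hx hxK h hh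
    obtain ⟨x0, hx0, hx1⟩ := Set.mem_iUnion₂.1 (ht2 ⟨hx, hxK⟩)
    have hx1 : x0⁻¹ * x ∈ HH x0 := hx1
    have hx0S := hS1ch x0 (ht1 x0 hx0).1
    have a1 := hHH2 x0 hx0S (x0⁻¹ * x) hx1
    have a2 := hHH2 x0 hx0S (x0⁻¹ * x * h) ((HH x0).mul_mem hx1 (hHle2 x0 hx0 hh))
    rw [← mul_assoc, mul_inv_cancel_left] at a2
    rw [mul_inv_cancel_left] at a1
    exact ⟨a2.1, a2.2.trans a1.2.symm⟩
  have hall : ∀ x ∈ S1, ∀ h ∈ H, x * h ∈ anChart F u ∧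
      anC X lam u (x * h) = anC X lam u x := by
    intro x hx h hh
    obtain ⟨b, hb, k, hk, rfl⟩ := F.iwasawa x
    have hkS : k ∈ S1 := by
      have := hS1i b⁻¹ (F.B.inv_mem hb) _ hx
      rwa [inv_mul_cancel_left] at this
    obtain ⟨a1, a2⟩ := hK k hkS hk h hh
    rw [mul_assoc, anC_left lam hlam hb a1, anC_left lam hlam hb (hS1ch k hkS), a2]
    exact ⟨anChart_left hb a1, rfl⟩
  refine ⟨H, hHo, fun J a hJ hsum => ?_⟩
  let f : G → C := ∑ h ∈ J, a h • tr h Φ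
  have hf : ∀ g, f g = ∑ h ∈ J, a h * Φ (g * h) := by
    intro g
    simp only [f, Finset.sum_apply, Pi.smul_apply, smul_eq_mul, tr_apply]
  have hfR : f ∈ R.V := R.V.sum_mem fun h _ => R.V.smul_mem _ (R.stab Φ hΦR h)
  have hfO : f ∈ VOm R (Om.erase u) := by
    have hopen : IsOpen {x | ∃ h' ∈ H, x * h' ∈ S1} := by
      refine an_open hHo ?_
      rintro x ⟨k, hk, hx⟩ h hh
      exact ⟨h⁻¹ * k, H.mul_mem (H.inv_mem hh) hk, by
        have : x * h * (h⁻¹ * k) = x * k := by group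
        rw [this]; exact hx⟩
    refine ⟨hfR, S' ∩ {x | ∃ h' ∈ H, x * h' ∈ S1}ᶜ, hS'c.inter hopen.isClosed_compl, ?_, ?_, ?_⟩
    · rintro b hb x ⟨h1, h2⟩
      refine ⟨hS'i b hb x h1, ?_⟩
      rintro ⟨h', hh', h3⟩
      refine h2 ⟨h', hh', ?_⟩
      have := hS1i b⁻¹ (F.B.inv_mem hb) _ h3
      rwa [mul_assoc, inv_mul_cancel_left] at this
    · rintro x ⟨h1, h2⟩
      refine Finset.mem_erase.2 ⟨fun h3 => h2 ⟨1, H.one_mem, ?_⟩, hS'O h1⟩
      rw [mul_one]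
      exact ⟨h1, h3⟩
    · intro x hx
      rw [hf]
      by_cases hx1 : x ∈ S'
      · have hx2 : ∃ h' ∈ H, x * h' ∈ S1 := by
          by_contra h3
          exact hx ⟨hx1, h3⟩
        obtain ⟨h', hh', hx3⟩ := hx2
        have key : ∀ h ∈ J, a h * Φ (x * h) = anC X lam u (x * h') * (a h * Pf (x * h)) := by
          intro h hh
          have hm : h'⁻¹ * h ∈ H := H.mul_mem (H.inv_mem hh') (hJ h hh)
          obtain ⟨b1, b2⟩ := hall _ hx3 _ hm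
          have e : x * h' * (h'⁻¹ * h) = x * h := by group
          rw [e] at b1 b2
          rw [an_phi hΦ lam hlam0 Pf hPf hPf1 b1, b2]
          ring
        rw [Finset.sum_congr rfl key, ← Finset.mul_sum, hsum x, mul_zero]
      · refine Finset.sum_eq_zero fun h hh => ?_
        rw [hSv (x * h) (fun h3 => hx1 ⟨h, hHle1 (hJ h hh), h3⟩), mul_zero]
  have h0 := hvan f hfO
  intro g
  rw [← hf, h0]
  rfl
end Pool.Agent.Helper911
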