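import Mathlib
import Pool.Agent.Helper911_Abs.Outer

set_option autoImplicit false
set_option linter.unusedSectionVars false
set_option maxHeartbeats 1000000

noncomputable section

open Topology Filter

namespace Pool.Agent.Helper911


variable {p : ℕ} {G : Type*} [Group G] [TopologicalSpace G] [IsTopologicalGroup G] [T2Space G]
  {W : Type*} [DecidableEq W] {F : Flag p G W} {C : Type*} [NormedField C] [IsUltrametricDist C]
  {X : CharData F C} {R : SubRep X}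

/-! ======= TARGET ======= -/

/-- TARGET.
Proof. Suppose `n ∈ P u`, `n ≠ 1`. By `F.iwasawa` write `e_u (z^m n z^{-m}) = b_m k_m`, `b_m ∈ B`, `k_m ∈ K`. `Φ (k_m) = χ(b_m)⁻¹ Φ (e_u z^m n z^{-m}) = χ(b_m)⁻¹ ≠ 0` (`z^m n z^{-m} ∈ P u` by `F.conj_P`). As `K` is compact, `k_m` has a cluster point `k ∈ K` (`IsCompact.exists_clusterPt` / `exists_mapClusterPt`).
Since `k H` is a neighbourhood of `k`, for frequently many `m`, `k_m ∈ k H`, so `Φ k = Φ k_m ≠ 0` (invariance), and by `hΦ.2` `k = b e_u n' y` with `n' ∈ P u`, `y ∈ Q u`. Choose a compact neighbourhood... precisely: `n' ∈ P u`, by `absorb_N_ge` there is `j` with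
`z^{-j} n' z^j ∈ Gam`. The set `O = {b e_u n y | b ∈ B, n ∈ P u, y ∈ Q u, z^{-j} n z^j ∈ Gam}` is open (`F.chart_open` with `O1 = {x | z^{-j} x z^j ∈ Gam}`) and contains `k`. So frequently `k_m ∈ O`, and then
`e_u (z^m n z^{-m}) = b_m k_m ∈ O`, so by `chart_inj` `z^{-j} z^m n z^{-m} z^j ∈ Gam`, for infinitely many `m ≥ j`: `z^{m-j} n z^{-(m-j)} ∈ Gam`. Hence `n = z^{-(m-j)} (..) z^{m-j}` is, by `unif_N_ge`, in every neighbourhood of `1`, so `n = 1` (T2). Contradiction. -/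
theorem phi_inv_trivial {u : W} {Φ : G → C} (hΦs : IsSec X Φ) (hΦ : IsPhi X u Φ)
    (H : Subgroup G) (hH : IsOpen (H : Set G)) (hinv : ∀ h ∈ H, ∀ g, Φ (g * h) = Φ g) :
    ∀ n ∈ F.P u, n = 1 := by
  intro n hn
  by_contra hne
  have hnm : ∀ m : ℕ, F.z ^ m * n * (F.z ^ m)⁻¹ ∈ F.P u := fun m =>
    F.conj_P u _ (pow_mem F.z_mem m) n hn
  choose bb hbb kk hkk hbk using fun m : ℕ => F.iwasawa (F.e u * (F.z ^ m * n * (F.z ^ m)⁻¹))
  have hkne : ∀ m, Φ (kk m) ≠ 0 := by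
    intro m h0
    have h1 := hΦ.1 1 (one_mem _) _ (hnm m) 1 (one_mem _) (one_mem _)
    rw [one_mul, mul_one, hbk m, hΦs.2 _ (hbb m), h0, mul_zero, CharData.chi_one] at h1
    exact zero_ne_one h1
  obtain ⟨k, hk, hcl⟩ := F.K_compact.exists_mapClusterPt (f := atTop) (u := kk)
    (Filter.tendsto_principal.2 (Filter.Eventually.of_forall hkk))
  have hΦk : Φ k ≠ 0 := by
    have hU : {x : G | k⁻¹ * x ∈ H} ∈ 𝓝 k := by
      have ho : IsOpen {x : G | k⁻¹ * x ∈ H} := hH.preimage (continuous_const.mul continuous_id)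
      refine ho.mem_nhds ?_
      change k⁻¹ * k ∈ H
      rw [inv_mul_cancel]
      exact one_mem _
    obtain ⟨m, hm⟩ := (hcl.frequently hU).exists
    have h1 := hinv _ hm k
    rw [mul_inv_cancel_left] at h1
    rw [← h1]
    exact hkne m
  obtain ⟨b, hb, n', hn', y, hy, hyG, hkb⟩ : ∃ b ∈ F.B, ∃ n ∈ F.P u, ∃ y ∈ F.Q u, y ∈ F.Gam ∧
      k = b * F.e u * n * y := by
    by_contra hcon
    exact hΦk (hΦ.2 k hcon)
  obtain ⟨j, hj⟩ := absorb_N_ge F n' (F.P_le u hn')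
  have hO1 : IsOpen {x : G | (F.z ^ j)⁻¹ * x * F.z ^ j ∈ F.Gam} :=
    F.Gam_open.preimage ((continuous_const.mul continuous_id).mul continuous_const)
  have hO := F.chart_open u _ Set.univ hO1 isOpen_univ
  have hkO := hO.mem_nhds (x := k) ⟨b, hb, n', hn', y, hy, hj j le_rfl, Set.mem_univ _, hkb⟩
  have hfreq := hcl.frequently hkO
  have hall : ∀ U ∈ 𝓝 (1 : G), n ∈ U := by
    intro U hU
    obtain ⟨m0, hm0⟩ := unif_N_ge F U hU
    obtain ⟨m, hmem, hmj⟩ := (hfreq.and_eventually (eventually_ge_atTop (j + m0))).exists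
    obtain ⟨b', hb', n'', hn'', y'', hy'', hO1', -, hkb'⟩ := hmem
    have h1 : F.e u * (F.z ^ m * n * (F.z ^ m)⁻¹) * 1 = (bb m * b') * F.e u * n'' * y'' := by
      rw [mul_one, hbk m, hkb']
      group
    have h2 := (F.chart_inj u _ (mul_mem (hbb m) hb') _ (hnm m) 1 (one_mem _) _ hn'' _ hy'' h1).1
    rw [← h2] at hO1'
    have h3 : F.z ^ m = F.z ^ j * F.z ^ (m - j) := by
      rw [← pow_add]
      congr 1
      omega
    have h4 : (F.z ^ j)⁻¹ * (F.z ^ m * n * (F.z ^ m)⁻¹) * F.z ^ j =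
        F.z ^ (m - j) * n * (F.z ^ (m - j))⁻¹ := by
      rw [h3]
      have hc : Commute (F.z ^ j) (F.z ^ (m - j)) := Commute.pow_pow_self F.z j (m - j)
      rw [mul_inv_rev, (hc.inv_inv).eq.symm]
      group
    have h5 : F.z ^ (m - j) * n * (F.z ^ (m - j))⁻¹ ∈ F.Gam := by
      rw [← h4]
      exact hO1'
    have h6 := hm0 (m - j) (by omega) _ (F.conj_N _ (pow_mem F.z_mem _) n (F.P_le u hn)) h5
    have h7 : (F.z ^ (m - j))⁻¹ * (F.z ^ (m - j) * n * (F.z ^ (m - j))⁻¹) * F.z ^ (m - j) = n := by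
      group
    rwa [h7] at h6
  exact hall {n}ᶜ (isOpen_compl_singleton.mem_nhds (Ne.symm hne)) rfl
end Pool.Agent.Helper911
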