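import Mathlib
import Pool.Agent.Helper911_Abs.Outer
import Pool.Agent.Helper911_Abs.LA

set_option autoImplicit false
set_option linter.unusedSectionVars false
set_option maxHeartbeats 1000000

noncomputable section

open Topology Filter

namespace Pool.Agent.Helper911


variable {p : ℕ} {G : Type*} [Group G] [TopologicalSpace G] [IsTopologicalGroup G] [T2Space G]
  {W : Type*} [DecidableEq W] {F : Flag p G W} {C : Type*} [NormedField C] [IsUltrametricDist C]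
  {X : CharData F C} {R : SubRep X}



namespace MGouter

theorem chart_unique {u : W} {b b' n y y' : G} (hb : b ∈ F.B)
    (hb' : b' ∈ F.B) (hn : n ∈ F.P u) (hy : y ∈ F.Q u) (hy' : y' ∈ F.Q u)
    (h : b * F.e u * y = b' * F.e u * n * y') : y = y' := by
  have h1 : F.e u * 1 * y = (b⁻¹ * b') * F.e u * n * y' := by
    calc F.e u * 1 * y = b⁻¹ * (b * F.e u * y) := by group
      _ = b⁻¹ * (b' * F.e u * n * y') := by rw [h]
      _ = _ := by group
  exact (F.chart_inj u (b⁻¹ * b') (F.B.mul_mem (F.B.inv_mem hb) hb') 1 (F.P u).one_mem y hy n hn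
    y' hy' h1).2

theorem phi_in {u : W} {Φ : G → C} (hΦ : IsPhi X u Φ) {b y : G} (hb : b ∈ F.B) (hy : y ∈ F.Q u)
    (hG : y ∈ F.Gam) : Φ (b * F.e u * y) = X.chi b := by
  have h := hΦ.1 b hb 1 (F.P u).one_mem y hy hG
  rwa [mul_one] at h

theorem phi_out {u : W} {Φ : G → C} (hΦ : IsPhi X u Φ) {b y : G}
    (hb : b ∈ F.B) (hy : y ∈ F.Q u) (hG : y ∉ F.Gam) : Φ (b * F.e u * y) = 0 := by
  apply hΦ.2
  rintro ⟨b', hb', n, hn, y', hy', hG', h⟩
  have h1 := chart_unique hb hb' hn hy hy' h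
  rw [h1] at hG
  exact hG hG'

/-- the translates of `Φ` -/
def Pl (X : CharData F C) (u : W) (Φ : G → C) (l : ℕ) (j : G) : G → C :=
  (X.chi (F.e u * F.z ^ l * (F.e u)⁻¹))⁻¹ • tr j⁻¹ (tr (F.z ^ l) Φ)

theorem Pl_mem (R : SubRep X) {u : W} {Φ : G → C} (hΦR : Φ ∈ R.V) (l : ℕ) (j : G) :
    Pl X u Φ l j ∈ R.V :=
  R.V.smul_mem _ (R.stab _ (R.stab _ hΦR _) _)

theorem conj_Q_inv (u : W) (l : ℕ) {q : G} (hq : q ∈ F.Q u) :
    (F.z ^ l)⁻¹ * q * F.z ^ l ∈ F.Q u := by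
  have h := F.conj_Q u ((F.z ^ l)⁻¹) (F.Z.inv_mem (zpow_mem_Z F l)) q hq
  rwa [inv_inv] at h

theorem Pl_in {u : W} {Φ : G → C} (hΦ : IsPhi X u Φ) (l : ℕ) {b y j : G} (hb : b ∈ F.B)
    (hy : y ∈ F.Q u) (hj : j ∈ F.Q u) (h : y * j⁻¹ ∈ Nl F u l) :
    Pl X u Φ l j (b * F.e u * y) = X.chi b := by
  have hc := conj_e_pow F u l
  have hq : y * j⁻¹ ∈ F.Q u := (F.Q u).mul_mem hy ((F.Q u).inv_mem hj)
  have h1 : b * F.e u * y * j⁻¹ * F.z ^ l =
      (b * (F.e u * F.z ^ l * (F.e u)⁻¹)) * F.e u * ((F.z ^ l)⁻¹ * (y * j⁻¹) * F.z ^ l) := by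
    group
  unfold Pl
  rw [Pi.smul_apply, tr_apply, tr_apply, h1,
    phi_in hΦ (F.B.mul_mem hb hc) (conj_Q_inv u l hq) h.2, X.chi_mul b hb _ hc, smul_eq_mul,
    mul_comm (X.chi b), ← mul_assoc, inv_mul_cancel₀ (X.chi_ne _ hc), one_mul]

theorem Pl_out {u : W} {Φ : G → C} (hΦ : IsPhi X u Φ) (l : ℕ)
    {b y j : G} (hb : b ∈ F.B) (hy : y ∈ F.Q u) (hj : j ∈ F.Q u) (h : y * j⁻¹ ∉ Nl F u l) :
    Pl X u Φ l j (b * F.e u * y) = 0 := by
  have hc := conj_e_pow F u l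
  have hq : y * j⁻¹ ∈ F.Q u := (F.Q u).mul_mem hy ((F.Q u).inv_mem hj)
  have h1 : b * F.e u * y * j⁻¹ * F.z ^ l =
      (b * (F.e u * F.z ^ l * (F.e u)⁻¹)) * F.e u * ((F.z ^ l)⁻¹ * (y * j⁻¹) * F.z ^ l) := by
    group
  unfold Pl
  rw [Pi.smul_apply, tr_apply, tr_apply, h1,
    phi_out hΦ (F.B.mul_mem hb hc) (conj_Q_inv u l hq) (fun h2 => h ⟨hq, h2⟩), smul_zero]

theorem Pl_far {u : W} {Φ : G → C} (hΦ : IsPhi X u Φ) (hP : ∀ n ∈ F.P u, n = 1) (l : ℕ)
    {x j : G} (hj : j ∈ F.Q u) (h : ¬ ∃ b ∈ F.B, ∃ y ∈ F.Q u, x = b * F.e u * y) :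
    Pl X u Φ l j x = 0 := by
  unfold Pl
  rw [Pi.smul_apply, tr_apply, tr_apply, hΦ.2, smul_zero]
  rintro ⟨b, hb, n, hn, y, hy, hG, he⟩
  apply h
  have hc := conj_e_pow F u l
  refine ⟨b * (F.e u * F.z ^ l * (F.e u)⁻¹)⁻¹, F.B.mul_mem hb (F.B.inv_mem hc),
    (F.z ^ l * y * (F.z ^ l)⁻¹) * j, (F.Q u).mul_mem (F.conj_Q u _ (zpow_mem_Z F l) y hy) hj, ?_⟩
  have hn1 := hP n hn
  subst hn1
  calc x = (x * j⁻¹ * F.z ^ l) * (F.z ^ l)⁻¹ * j := by group
    _ = (b * F.e u * 1 * y) * (F.z ^ l)⁻¹ * j := by rw [he]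
    _ = _ := by group

theorem exists_unif {f : G → C} (hf : IsSec X f) (u : W) {ε : ℝ} (hε : 0 < ε) :
    ∃ l : ℕ, Nl F u l ⊆ (F.Gam : Set G) ∧ ∀ x ∈ Nl F u l, ∀ y ∈ F.Q u, y ∈ F.Gam →
      ‖f (F.e u * (x * y)) - f (F.e u * y)‖ ≤ ε := by
  have hopen : IsOpen {q : G × G | ‖f (F.e u * (q.1 * q.2)) - f (F.e u * q.2)‖ < ε} := by
    refine isOpen_lt ?_ continuous_const
    have h1 : Continuous fun q : G × G => f (F.e u * (q.1 * q.2)) :=
      hf.1.comp (continuous_const.mul (continuous_fst.mul continuous_snd))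
    have h2 : Continuous fun q : G × G => f (F.e u * q.2) :=
      hf.1.comp (continuous_const.mul continuous_snd)
    exact (h1.sub h2).norm
  obtain ⟨U, V, hU, hV, h1U, hKV, hUV⟩ := generalized_tube_lemma (s := {(1 : G)})
    isCompact_singleton (QG_compact F u) hopen (by
      rintro ⟨a, y⟩ ⟨ha, _⟩
      rw [Set.mem_singleton_iff] at ha
      change ‖f (F.e u * (a * y)) - f (F.e u * y)‖ < ε
      change a = 1 at ha
      rw [ha, one_mul, sub_self, norm_zero]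
      exact hε)
  have hUn : U ∩ (F.Gam : Set G) ∈ 𝓝 (1 : G) :=
    Filter.inter_mem (hU.mem_nhds (h1U rfl)) (F.Gam_open.mem_nhds F.Gam.one_mem)
  obtain ⟨l0, hl⟩ := Nl_small F u _ hUn
  refine ⟨l0, fun x hx => (hl l0 le_rfl hx).2, fun x hx y hy hG => ?_⟩
  have h := hUV (a := (x, y)) ⟨(hl l0 le_rfl hx).1, hKV ⟨hy, hG⟩⟩
  exact le_of_lt h

/-- `Nl` as a subgroup -/
def NlS (F : Flag p G W) (u : W) (l : ℕ) : Subgroup G where
  carrier := Nl F u l
  mul_mem' := fun hx hy => Nl_mul hx hy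
  one_mem' := Nl_one u l
  inv_mem' := fun hx => Nl_inv hx

theorem exists_reps (F : Flag p G W) (u : W) (l : ℕ) (hl : Nl F u l ⊆ (F.Gam : Set G)) :
    ∃ J : Finset G, (∀ j ∈ J, j ∈ F.Q u ∧ j ∈ F.Gam) ∧
      ∀ y ∈ F.Q u, y ∈ F.Gam → ∃ j ∈ J, y * j⁻¹ ∈ Nl F u l ∧
        ∀ j' ∈ J, y * j'⁻¹ ∈ Nl F u l → j' = j := by
  classical
  obtain ⟨-, O, hO, hNO⟩ := Nl_CO F u l
  have h1O : (1 : G) ∈ O := by
    have h := Nl_one (F := F) u l
    rw [hNO] at h
    exact h.1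
  obtain ⟨T, hT1, hT2⟩ := (QG_compact F u).elim_nhds_subcover (fun j => {y : G | y * j⁻¹ ∈ O})
    (fun j _ => (hO.preimage (continuous_mul_const j⁻¹)).mem_nhds (by
      change j * j⁻¹ ∈ O
      rw [mul_inv_cancel]
      exact h1O))
  let r : Setoid G := QuotientGroup.rightRel (NlS F u l)
  let rep : G → G := fun y => (Quotient.mk r y).out
  have hrep : ∀ y, rep y * y⁻¹ ∈ Nl F u l := by
    intro y
    have h : r (rep y) y := Quotient.mk_out (s := r) y
    have h2 : y * (rep y)⁻¹ ∈ NlS F u l := QuotientGroup.rightRel_apply.1 h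
    have h3 := (NlS F u l).inv_mem h2
    rw [mul_inv_rev, inv_inv] at h3
    exact h3
  have hsame : ∀ y y', y * y'⁻¹ ∈ Nl F u l → rep y = rep y' := by
    intro y y' h
    have h1 : r y' y := QuotientGroup.rightRel_apply.2 h
    have h2 : Quotient.mk r y = Quotient.mk r y' := (Quotient.sound h1).symm
    change (Quotient.mk r y).out = (Quotient.mk r y').out
    rw [h2]
  refine ⟨T.image rep, ?_, ?_⟩
  · intro j hj
    obtain ⟨t, ht, rfl⟩ := Finset.mem_image.1 hj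
    obtain ⟨htQ, htG⟩ := hT1 t ht
    have h1 := hrep t
    have h2 : rep t = (rep t * t⁻¹) * t := by group
    refine ⟨?_, ?_⟩
    · rw [h2]
      exact (F.Q u).mul_mem h1.1 htQ
    · rw [h2]
      exact F.Gam.mul_mem (hl h1) htG
  · intro y hy hG
    have h3 := hT2 (show y ∈ {y : G | y ∈ F.Q u ∧ y ∈ F.Gam} from ⟨hy, hG⟩)
    simp only [Set.mem_iUnion] at h3
    obtain ⟨t, ht, hyt⟩ := h3
    obtain ⟨htQ, htG⟩ := hT1 t ht
    have h4 : y * t⁻¹ ∈ Nl F u l := by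
      rw [hNO]
      exact ⟨hyt, (F.Q u).mul_mem hy ((F.Q u).inv_mem htQ)⟩
    refine ⟨rep t, Finset.mem_image_of_mem _ ht, ?_, ?_⟩
    · have h5 : y * (rep t)⁻¹ = (y * t⁻¹) * (rep t * t⁻¹)⁻¹ := by group
      rw [h5]
      exact Nl_mul h4 (Nl_inv (hrep t))
    · intro j' hj' hyj
      obtain ⟨t', ht', rfl⟩ := Finset.mem_image.1 hj'
      have h6 : y * t'⁻¹ ∈ Nl F u l := by
        have h7 : y * t'⁻¹ = (y * (rep t')⁻¹) * (rep t' * t'⁻¹) := by group
        rw [h7]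
        exact Nl_mul hyj (hrep t')
      rw [← hsame y t h4, ← hsame y t' h6]

theorem step_one (R : SubRep X) {u : W} {Φ : G → C} (hΦR : Φ ∈ R.V) (hΦ : IsPhi X u Φ)
    (hP : ∀ n ∈ F.P u, n = 1) {f : G → C} (hf : IsSec X f) (hsupp : ∀ x ∉ U0 F u, f x = 0) :
    f ∈ R.V := by
  classical
  refine R.closed f hf fun ε hε => ?_
  obtain ⟨l, hlG, hunif⟩ := exists_unif hf u hε
  obtain ⟨J, hJ, hJ2⟩ := exists_reps F u l hlG
  refine ⟨∑ j ∈ J, f (F.e u * j) • Pl X u Φ l j,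
    R.V.sum_mem fun j _ => R.V.smul_mem _ (Pl_mem R hΦR l j), ?_⟩
  intro x
  rw [Pi.sub_apply, Finset.sum_apply]
  simp only [Pi.smul_apply, smul_eq_mul]
  by_cases hx : ∃ b ∈ F.B, ∃ y ∈ F.Q u, x = b * F.e u * y
  · obtain ⟨b, hb, y, hy, rfl⟩ := hx
    by_cases hG : y ∈ F.Gam
    · obtain ⟨j, hj, hyj, huniq⟩ := hJ2 y hy hG
      rw [Finset.sum_eq_single_of_mem j hj (by
        intro j' hj' hne
        rw [Pl_out hΦ l hb hy (hJ j' hj').1 (fun h => hne (huniq j' hj' h)), mul_zero]),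
        Pl_in hΦ l hb hy (hJ j hj).1 hyj]
      have h1 : f (b * F.e u * y) = X.chi b * f (F.e u * y) := by
        rw [mul_assoc, hf.2 b hb]
      have h2 : ht X (b * F.e u * y) = ‖X.chi b‖ := by
        rw [mul_assoc]
        exact ht_eq X b _ hb (F.K.mul_mem (F.e_mem u) (F.Gam_le hG))
      have h3 : ‖f (F.e u * y) - f (F.e u * j)‖ ≤ ε := by
        have h4 := hunif (y * j⁻¹) hyj j (hJ j hj).1 (hJ j hj).2
        rwa [inv_mul_cancel_right] at h4
      rw [h1, h2, mul_comm (f (F.e u * j)), ← mul_sub, norm_mul, mul_comm ε]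
      exact mul_le_mul_of_nonneg_left h3 (norm_nonneg _)
    · have h1 : f (b * F.e u * y) = 0 := by
        apply hsupp
        rintro ⟨b', hb', n, hn, y', hy', -, hG', he⟩
        have h2 := chart_unique hb hb' hn hy hy' he
        rw [h2] at hG
        exact hG hG'
      rw [h1, Finset.sum_eq_zero, sub_zero, norm_zero]
      · exact mul_nonneg hε.le (ht_pos X _).le
      · intro j hj
        rw [Pl_out hΦ l hb hy (hJ j hj).1, mul_zero]
        intro h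
        apply hG
        have h2 : y = (y * j⁻¹) * j := by group
        rw [h2]
        exact F.Gam.mul_mem (hlG h) (hJ j hj).2
  · have h1 : f x = 0 := by
      apply hsupp
      rintro ⟨b', hb', n, hn, y', hy', -, hG', he⟩
      apply hx
      refine ⟨b', hb', y', hy', ?_⟩
      rw [he, hP n hn, mul_one]
    rw [h1, Finset.sum_eq_zero, sub_zero, norm_zero]
    · exact mul_nonneg hε.le (ht_pos X _).le
    · intro j hj
      rw [Pl_far hΦ hP l (hJ j hj).1 hx, mul_zero]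

theorem step_two (R : SubRep X) {u : W} {Φ : G → C} (hΦR : Φ ∈ R.V) (hΦ : IsPhi X u Φ)
    (hP : ∀ n ∈ F.P u, n = 1) {f : G → C} (hf : IsSec X f) (g : G)
    (hsupp : ∀ x, x * g ∉ U0 F u → f x = 0) : f ∈ R.V := by
  have h1 : tr g⁻¹ f ∈ R.V := by
    refine step_one R hΦR hΦ hP (hf.tr g⁻¹) ?_
    intro x hx
    rw [tr_apply]
    apply hsupp
    rwa [inv_mul_cancel_right]
  have h2 := R.stab _ h1 g
  rw [tr_tr, mul_inv_cancel] at h2
  have h3 : tr (1 : G) f = f := by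
    funext x
    rw [tr_apply, mul_one]
  rwa [h3] at h2

theorem TT_clopen (u : W) (g : G) : IsClopen {x : G | x * g ∈ U0 F u} :=
  (U0_clopen F u).preimage (continuous_mul_const g)

theorem TT_linv (u : W) (g : G) : LInv F {x : G | x * g ∈ U0 F u} := by
  intro b hb x hx
  change b * x * g ∈ U0 F u
  rw [mul_assoc]
  exact U0_linv F u b hb _ hx

theorem LInv_compl {S : Set G} (hS : LInv F S) : LInv F Sᶜ := by
  intro b hb g hg hbg
  exact hg ((hS.mem_iff hb g).1 hbg)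

theorem step_three (R : SubRep X) {u : W} {Φ : G → C} (hΦR : Φ ∈ R.V) (hΦ : IsPhi X u Φ)
    (hP : ∀ n ∈ F.P u, n = 1) (S : Finset G) : ∀ f : G → C, IsSec X f →
      (∀ x, (∀ g ∈ S, x * g ∉ U0 F u) → f x = 0) → f ∈ R.V := by
  classical
  induction S using Finset.induction_on with
  | empty =>
    intro f hf h
    have h0 : f = 0 := by
      funext x
      exact h x (by simp)
    rw [h0]
    exact R.V.zero_mem
  | insert g S _ ih =>
    intro f hf h
    have hc := TT_clopen (F := F) u g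
    have hl := TT_linv (F := F) u g
    have h1 : cut {x : G | x * g ∈ U0 F u} f ∈ R.V := by
      refine step_two R hΦR hΦ hP (hf.cut hc hl) g ?_
      intro x hx
      exact cut_of_notMem hx
    have h2 : cut {x : G | x * g ∈ U0 F u}ᶜ f ∈ R.V := by
      refine ih _ (hf.cut hc.compl (LInv_compl hl)) ?_
      intro x hx
      by_cases hxg : x * g ∈ U0 F u
      · exact cut_of_notMem (fun h3 => h3 hxg)
      · rw [cut_of_mem (S := {x : G | x * g ∈ U0 F u}ᶜ) hxg]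
        apply h
        intro g' hg'
        rcases Finset.mem_insert.1 hg' with rfl | h4
        · exact hxg
        · exact hx g' h4
    have h3 : f = cut {x : G | x * g ∈ U0 F u} f + cut {x : G | x * g ∈ U0 F u}ᶜ f := by
      funext x
      rw [Pi.add_apply]
      by_cases hxg : x * g ∈ U0 F u
      · rw [cut_of_mem (S := {x : G | x * g ∈ U0 F u}) hxg,
          cut_of_notMem (S := {x : G | x * g ∈ U0 F u}ᶜ) (fun h3 => h3 hxg), add_zero]
      · rw [cut_of_notMem (S := {x : G | x * g ∈ U0 F u}) hxg,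
          cut_of_mem (S := {x : G | x * g ∈ U0 F u}ᶜ) hxg, zero_add]
    rw [h3]
    exact R.V.add_mem h1 h2

theorem exists_cover (u : W) : ∃ S : Finset G, ∀ x : G, ∃ g ∈ S, x * g ∈ U0 F u := by
  obtain ⟨T, -, hT2⟩ := F.K_compact.elim_nhds_subcover
    (fun k => {x : G | x * (k⁻¹ * F.e u) ∈ U0 F u})
    (fun k _ => (TT_clopen u (k⁻¹ * F.e u)).2.mem_nhds (by
      change k * (k⁻¹ * F.e u) ∈ U0 F u
      rw [mul_inv_cancel_left]
      exact e_mem_U0 F u))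
  classical
  refine ⟨T.image fun k => k⁻¹ * F.e u, fun x => ?_⟩
  obtain ⟨b, hb, k, hk, rfl⟩ := F.iwasawa x
  have h := hT2 hk
  simp only [Set.mem_iUnion] at h
  obtain ⟨t, ht, hkt⟩ := h
  exact ⟨_, Finset.mem_image_of_mem _ ht, TT_linv u _ b hb k hkt⟩

end MGouter

/-! ======= TARGET ======= -/

/-- TARGET.
Proof. Since `P u` is trivial, `Φ (b e_u y) = χ b` for `y ∈ Q u ∩ Gam`, and `0` outside `U0 u` (which is `{b e_u y | b ∈ B, y ∈ Q u ∩ Gam}`, open).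
For `l : ℕ` and `j ∈ Q u` let `Φ_{l,j} = χ(e_u z^l e_u⁻¹)⁻¹ • tr j⁻¹ (tr (z^l) Φ) ∈ R.V`; one computes `Φ_{l,j} (b e_u y) = χ b` if `y ∈ (Nl u l) j` and `0` for the other `y ∈ Q u`, and `0` outside the chart `{b e_u y | y ∈ Q u}`.
Step 1: every section `f` supported in `U0 u` is in `R.V`. Let `ε > 0`. By uniform continuity of `y ↦ f (e_u y)` on the compact set `Q u ∩ Gam` there is `l` with `‖f (e_u (x y)) - f (e_u y)‖ ≤ ε` for
`x ∈ Nl u l`, `y ∈ Q u ∩ Gam`. Let `J ⊆ Q u ∩ Gam` be a finite set of representatives: each `y ∈ Q u ∩ Gam` has exactly one `j ∈ J` with `y j⁻¹ ∈ Nl u l` (`Nl_CO`, `Nl_mul`, `Nl_inv`, compactness; `Nl u l ⊆ Gam`). Then `g = ∑_{j ∈ J} f (e_u j) • Φ_{l,j}` satisfies `Bd (f - g) ε` (at `b e_u y`: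
`ht = ‖χ b‖` as `e_u y ∈ K`). By `R.closed`, `f ∈ R.V`.
Step 2: for `g ∈ G` every section supported in `{x | x * g ∈ U0 u}` is in `R.V` (translate: `R.stab`). Finitely many of these clopen left invariant sets cover `G` (they cover, e.g. `x ∈ {x' | x' * (x⁻¹ e_u) ∈ U0 u}`; `K` is compact and the sets are left invariant, `F.iwasawa`). Write
`f` as a finite sum of cuts of `f` to the pieces `T_i \ (T_1 ∪ ... ∪ T_{i-1})` (induction on the number of sets; `IsSec.cut`). -/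
theorem all_of_phi (R : SubRep X) {u : W} {Φ : G → C} (hΦR : Φ ∈ R.V) (hΦ : IsPhi X u Φ)
    (hP : ∀ n ∈ F.P u, n = 1) : ∀ f, IsSec X f → f ∈ R.V := by
  intro f hf
  obtain ⟨S, hS⟩ := MGouter.exists_cover (F := F) u
  refine MGouter.step_three R hΦR hΦ hP S f hf ?_
  intro x hx
  obtain ⟨g, hg, h⟩ := hS x
  exact absurd h (hx g hg)
end Pool.Agent.Helper911
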