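import Mathlib
import Pool.Agent.Helper911_Abs.Lev2

set_option autoImplicit false
set_option linter.unusedSectionVars false
set_option maxHeartbeats 1000000

noncomputable section

open Topology Filter

namespace Pool.Agent.Helper911


variable {p : ℕ} {G : Type*} [Group G] [TopologicalSpace G] [IsTopologicalGroup G] [T2Space G]
  {W : Type*} [DecidableEq W] {F : Flag p G W} {C : Type*} [NormedField C] [IsUltrametricDist C]
  {X : CharData F C} {R : SubRep X}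

/-! ======= TARGET ======= -/

/-- TARGET.
Proof. The set `Kj = {y ∈ Q u | z^j y z^{-j} ∈ Gam}` is compact (image of the compact set `Q u ∩ Gam` under conjugation by `z^{-j}`; `conj_Q`). For `y ∈ Kj`,
`idx (e_u y) = u`, so the compact set `Kj` is contained in the open set `{g | e_u g ∉ S}`; by `compact_open_separated_mul_left` there is a neighbourhood `U` of `1` with `e_u (v y) ∉ S` for `v ∈ U`, `y ∈ Kj`. By
`unif_N_ge` there is `l0` such that for `l ≥ l0` and `n' ∈ N ∩ Gam`, `z^{-l} n' z^l ∈ U`; apply it to `n' = z^l n z^{-l}`. -/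
theorem near_small (F : Flag p G W) (u : W) (S : Set G) (hS : IsClosed S)
    (hSu : ∀ x ∈ S, F.idx x ≠ u) (j : ℕ) :
    ∃ l0 : ℕ, ∀ l ≥ l0, ∀ n ∈ F.P u, F.z ^ l * n * (F.z ^ l)⁻¹ ∈ F.Gam →
      ∀ y ∈ F.Q u, F.z ^ j * y * (F.z ^ j)⁻¹ ∈ F.Gam → F.e u * n * y ∉ S := by
  have hzj : F.z ^ j ∈ F.Z := zpow_mem_Z F j
  have hK : IsCompact ((fun y => (F.z ^ j)⁻¹ * y * F.z ^ j) '' {y : G | y ∈ F.Q u ∧ y ∈ F.Gam}) :=
    (QG_compact F u).image ((continuous_const.mul continuous_id).mul continuous_const)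
  have hU : IsOpen {g : G | F.e u * g ∉ S} :=
    hS.isOpen_compl.preimage (continuous_const.mul continuous_id)
  have hKU : ((fun y => (F.z ^ j)⁻¹ * y * F.z ^ j) '' {y : G | y ∈ F.Q u ∧ y ∈ F.Gam}) ⊆
      {g : G | F.e u * g ∉ S} := by
    rintro _ ⟨y, ⟨hy, -⟩, rfl⟩ hmem
    have h1 : (F.z ^ j)⁻¹ * y * F.z ^ j ∈ F.Q u := by
      have := F.conj_Q u _ (F.Z.inv_mem hzj) y hy
      rwa [inv_inv] at this
    have h2 := idx_eq F u 1 _ F.B.one_mem (F.Q_le u h1)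
    rw [one_mul] at h2
    exact hSu _ hmem h2
  obtain ⟨V, hV, hVK⟩ := compact_open_separated_mul_left hK hU hKU
  obtain ⟨l0, hl0⟩ := unif_N_ge F V hV
  refine ⟨l0, fun l hl n hn hnG y hy hyG => ?_⟩
  have hzl : F.z ^ l ∈ F.Z := zpow_mem_Z F l
  have h3 := hl0 l hl _ (F.conj_N _ hzl n (F.P_le u hn)) hnG
  have h4 : (F.z ^ l)⁻¹ * (F.z ^ l * n * (F.z ^ l)⁻¹) * F.z ^ l = n := by group
  rw [h4] at h3
  have hyK : y ∈ ((fun y => (F.z ^ j)⁻¹ * y * F.z ^ j) '' {y : G | y ∈ F.Q u ∧ y ∈ F.Gam}) := by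
    refine ⟨F.z ^ j * y * (F.z ^ j)⁻¹, ⟨F.conj_Q u _ hzj y hy, hyG⟩, ?_⟩
    show (F.z ^ j)⁻¹ * (F.z ^ j * y * (F.z ^ j)⁻¹) * F.z ^ j = y
    group
  have h5 := hVK (Set.mul_mem_mul h3 hyK)
  rw [mul_assoc]
  exact h5
end Pool.Agent.Helper911
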