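import Mathlib
import Pool.Agent.Helper911_Abs.Lev2
import Pool.Agent.Helper911_Abs.LA

set_option autoImplicit false
set_option linter.unusedSectionVars false
set_option maxHeartbeats 1000000

noncomputable section

open Topology Filter

namespace Pool.Agent.Helper911


variable {p : ℕ} {G : Type*} [Group G] [TopologicalSpace G] [IsTopologicalGroup G] [T2Space G]
  {W : Type*} [DecidableEq W] {F : Flag p G W} {C : Type*} [NormedField C] [IsUltrametricDist C]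
  {X : CharData F C} {R : SubRep X}



theorem V2_stab_Nb_shrinkNb {i l : ℕ} (h : i ≤ l) {y : G} (hy : y ∈ F.Nb)
    (hG : F.z ^ i * y * (F.z ^ i)⁻¹ ∈ F.Gam) : F.z ^ l * y * (F.z ^ l)⁻¹ ∈ F.Gam := by
  have h1 := shrink_Nb_pow F (l - i) (F.z ^ i * y * (F.z ^ i)⁻¹)
    (F.conj_Nb _ (zpow_mem_Z F i) y hy) hG
  rw [pow_split F i l h]
  simpa only [mul_inv_rev, mul_assoc] using h1

theorem V2_stab_Nb_shrinkN {i l : ℕ} (h : i ≤ l) {n : G} (hn : n ∈ F.N)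
    (hG : F.z ^ l * n * (F.z ^ l)⁻¹ ∈ F.Gam) : F.z ^ i * n * (F.z ^ i)⁻¹ ∈ F.Gam := by
  have h1 := shrink_N_pow F (l - i) (F.z ^ l * n * (F.z ^ l)⁻¹)
    (F.conj_N _ (zpow_mem_Z F l) n hn) hG
  rw [pow_split F i l h] at h1
  simpa only [mul_inv_rev, mul_assoc, inv_mul_cancel_left, inv_mul_cancel, mul_one] using h1

theorem V2_stab_Nb_split (hGU : GamU F) {u : W} {v s q : G} (hv : v ∈ F.Nb) (hvG : v ∈ F.Gam)
    (hs : St F u s) (hq : q ∈ F.Q u) (h : v = s * q) : q ∈ F.Gam ∧ s ∈ F.Gam := by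
  have h1 : F.e u * v ∈ U0 F u := hGU u v hvG
  have h2 : F.idx (F.e u * v) = u := by
    have := idx_eq F u 1 v (one_mem _) hv
    rwa [one_mul] at this
  obtain ⟨b, hb, y, hy, hyG, hby⟩ := U0_cell F u _ h1 h2
  have h3 : F.e u * 1 * q = (F.e u * s * (F.e u)⁻¹)⁻¹ * b * F.e u * 1 * y := by
    have h4 : F.e u * (s * q) = b * F.e u * y := by rw [← h]; exact hby
    have h5 : (F.e u * s * (F.e u)⁻¹)⁻¹ * b * F.e u * 1 * y
        = (F.e u * s * (F.e u)⁻¹)⁻¹ * (b * F.e u * y) := by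
      simp only [mul_assoc, one_mul]
    rw [h5, ← h4]
    group
  have h6 := F.chart_inj u _ (mul_mem (inv_mem (F.N_le hs.2)) hb) 1 (one_mem _) q hq 1 (one_mem _)
    y hy h3
  have hqG : q ∈ F.Gam := by rw [h6.2]; exact hyG
  refine ⟨hqG, ?_⟩
  have h7 : s = v * q⁻¹ := by rw [h]; group
  rw [h7]
  exact mul_mem hvG (inv_mem hqG)

theorem V2_stab_Nb_chart (hGU : GamU F) (u : W) {g : G} (hg : g ∈ F.Gam) :
    ∃ b ∈ F.B, b ∈ F.K ∧ ∃ n ∈ F.P u, n ∈ F.Gam ∧ ∃ y ∈ F.Q u, y ∈ F.Gam ∧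
      F.e u * g = b * F.e u * n * y := by
  obtain ⟨b, hb, n, hn, y, hy, hnG, hyG, h⟩ := hGU u g hg
  refine ⟨b, hb, ?_, n, hn, hnG, y, hy, hyG, h⟩
  have h1 : b = F.e u * g * y⁻¹ * n⁻¹ * (F.e u)⁻¹ := by rw [h]; group
  rw [h1]
  exact mul_mem (mul_mem (mul_mem (mul_mem (F.e_mem u) (F.Gam_le hg)) (inv_mem (F.Gam_le hyG)))
    (inv_mem (F.Gam_le hnG))) (inv_mem (F.e_mem u))

theorem V2_stab_Nb_key (hGU : GamU F) {u : W} {r : ℝ} {f : G → C} (hf : IsSec X f) {y0 : G}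
    (hy0 : y0 ∈ F.Nb) {i j l : ℕ} (hji : j ≤ i) (hil : i ≤ l)
    (hi : F.z ^ i * y0 * (F.z ^ i)⁻¹ ∈ F.Gam) {A : ℝ} (hA : NB F u r i f A)
    {n : G} (hn : n ∈ F.P u) (hnG : F.z ^ l * n * (F.z ^ l)⁻¹ ∈ F.Gam)
    {y : G} (hy : y ∈ F.Q u) (hyG : F.z ^ j * y * (F.z ^ j)⁻¹ ∈ F.Gam) :
    ‖f (F.e u * n * y * y0)‖ ≤ A * r ^ l := by
  have hyNb : y ∈ F.Nb := F.Q_le u hy
  have hyi : F.z ^ i * y * (F.z ^ i)⁻¹ ∈ F.Gam := V2_stab_Nb_shrinkNb hji hyNb hyG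
  have hyy : y * y0 ∈ F.Nb := mul_mem hyNb hy0
  have hv : F.z ^ i * (y * y0) * (F.z ^ i)⁻¹ ∈ F.Gam := by
    have : F.z ^ i * (y * y0) * (F.z ^ i)⁻¹
        = (F.z ^ i * y * (F.z ^ i)⁻¹) * (F.z ^ i * y0 * (F.z ^ i)⁻¹) := by group
    rw [this]
    exact mul_mem hyi hi
  have hzi := zpow_mem_Z F i
  have hzl := zpow_mem_Z F l
  obtain ⟨s, hs, q, hq, hsq⟩ := St_decomp u (y * y0) hyy
  have hs' := St_conj hs hzi
  have hq' := F.conj_Q u _ hzi q hq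
  obtain ⟨hq'G, hs'G⟩ := V2_stab_Nb_split hGU (F.conj_Nb _ hzi _ hyy) hv hs' hq' (by
    rw [hsq]; group)
  have hnN : n ∈ F.N := F.P_le u hn
  have hslG : F.z ^ l * s * (F.z ^ l)⁻¹ ∈ F.Gam := V2_stab_Nb_shrinkNb hil hs.1 hs'G
  have hniG : F.z ^ i * n * (F.z ^ i)⁻¹ ∈ F.Gam := V2_stab_Nb_shrinkN hil hnN hnG
  obtain ⟨b0, hb0, hb0K, n0, hn0, hn0G, w0, hw0, hw0G, h0⟩ :=
    V2_stab_Nb_chart hGU u (mul_mem hnG hslG)
  obtain ⟨b1, hb1, hb1K, n1, hn1, hn1G, w1, hw1, hw1G, h1⟩ :=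
    V2_stab_Nb_chart hGU u (mul_mem hniG hs'G)
  have htl : F.e u * F.z ^ l * (F.e u)⁻¹ ∈ F.B := conj_e_pow F u l
  have hti : F.e u * F.z ^ i * (F.e u)⁻¹ ∈ F.B := conj_e_pow F u i
  -- the conjugates
  have hn' : (F.z ^ l)⁻¹ * n0 * F.z ^ l ∈ F.P u := by
    have := F.conj_P u _ (inv_mem hzl) n0 hn0
    rwa [inv_inv] at this
  have hw' : (F.z ^ l)⁻¹ * w0 * F.z ^ l ∈ F.Q u := by
    have := F.conj_Q u _ (inv_mem hzl) w0 hw0
    rwa [inv_inv] at this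
  have hn'' := F.conj_P u _ hzi _ hn'
  have hw'' := F.conj_Q u _ hzi _ hw'
  set e := F.e u with he
  set zl := F.z ^ l with hzldef
  set zi := F.z ^ i with hzidef
  set t := e * zl * e⁻¹ with ht
  set n' := zl⁻¹ * n0 * zl with hn'def
  set w' := zl⁻¹ * w0 * zl with hw'def
  have hB2 : t⁻¹ * b0 * t ∈ F.B := mul_mem (mul_mem (inv_mem htl) hb0) htl
  have hmain : e * n * s = (t⁻¹ * b0 * t) * (e * n' * w') := by
    have h2 : e * n * s = t⁻¹ * (e * (zl * n * zl⁻¹ * (zl * s * zl⁻¹))) * zl := by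
      rw [ht]; group
    rw [h2, h0, ht, hn'def, hw'def]; group
  have hB3 : e * zi * e⁻¹ * (t⁻¹ * b0 * t) * (e * zi * e⁻¹)⁻¹ ∈ F.B :=
    mul_mem (mul_mem hti hB2) (inv_mem hti)
  have h3 : b1 * e * n1 * w1
      = (e * zi * e⁻¹ * (t⁻¹ * b0 * t) * (e * zi * e⁻¹)⁻¹) * e * (zi * n' * zi⁻¹)
        * (zi * w' * zi⁻¹) := by
    rw [← h1]
    have h4 : e * (zi * n * zi⁻¹ * (zi * s * zi⁻¹)) = e * zi * e⁻¹ * (e * n * s) * zi⁻¹ := by
      group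
    rw [h4, hmain]; group
  generalize e * zi * e⁻¹ * (t⁻¹ * b0 * t) * (e * zi * e⁻¹)⁻¹ = B3 at hB3 h3
  have h5 : e * (zi * n' * zi⁻¹) * (zi * w' * zi⁻¹) = B3⁻¹ * b1 * e * n1 * w1 := by
    have h6 : B3⁻¹ * b1 * e * n1 * w1 = B3⁻¹ * (b1 * e * n1 * w1) := by
      simp only [mul_assoc]
    rw [h6, h3]
    simp only [mul_assoc, inv_mul_cancel_left]
  have h7 := F.chart_inj u _ (mul_mem (inv_mem hB3) hb1) _ hn'' _ hw'' n1 hn1 w1 hw1 h5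
  have hw''G : zi * w' * zi⁻¹ ∈ F.Gam := by rw [h7.2]; exact hw1G
  -- the value
  have h8 : e * n * y * y0 = (t⁻¹ * b0 * t) * (e * n' * (w' * q)) := by
    have : e * n * y * y0 = e * n * s * q := by
      rw [mul_assoc (e * n) y y0, hsq]; simp only [mul_assoc]
    rw [this, hmain]; simp only [mul_assoc]
  rw [h8, hf.norm_left _ _ hB2]
  have hchi : ‖X.chi (t⁻¹ * b0 * t)‖ = 1 := by
    rw [X.chi_mul _ (mul_mem (inv_mem htl) hb0) _ htl, X.chi_mul _ (inv_mem htl) _ hb0,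
      X.chi_inv _ htl, norm_mul, norm_mul, norm_inv, X.chi_K b0 hb0 hb0K, mul_one]
    exact inv_mul_cancel₀ (X.norm_pos _ htl).ne'
  rw [hchi, one_mul]
  refine hA l n' hn' ?_ (w' * q) (mul_mem hw' hq) ?_
  · have : zl * n' * zl⁻¹ = n0 := by rw [hn'def]; group
    rw [this]; exact hn0G
  · have : zi * (w' * q) * zi⁻¹ = (zi * w' * zi⁻¹) * (zi * q * zi⁻¹) := by group
    rw [this]; exact mul_mem hw''G hq'G

/-! ======= TARGET ======= -/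

/-- TARGET.
Proof. That `tr y0 f ∈ VOm R Om`: translate the support (`R.stab`, `cell_right_Nb`). Let `j` be given.
Let `i ≥ j` be such that `z^i y0 z^{-i} ∈ Gam` (`absorb_Nb_ge`). Let `A` be a constant for `f` and `i` (may assume `A ≥ 0`). Claim: for `l ≥ i`, `n ∈ P u` with `z^l n z^{-l} ∈ Gam`, `y ∈ Q u` with `z^j y z^{-j} ∈ Gam`:
`‖f (e_u n y y0)‖ ≤ A r^l`. Proof of the claim: `z^i (y y0) z^{-i} ∈ Gam ∩ Nb` (`shrink_Nb_pow`). Write `y y0 = s q`, `St u s`, `q ∈ Q u` (`St_decomp`). Then `z^i q z^{-i} ∈ Gam` and `z^i s z^{-i} ∈ Gam`: the element `v = z^i (y y0) z^{-i} = s' q'`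
with `s' = z^i s z^{-i}`, `q' = z^i q z^{-i}`; `e_u v ∈ U0 u` by `hGU`, with index `u`, so `e_u v = b e_u q''` with `q'' ∈ Q u ∩ Gam` (`U0_cell`); and `e_u v = (e_u s' e_u⁻¹) e_u q'` so `q' = q''` by `chart_inj` (with `n = 1`), so `q' ∈ Gam`, `s' = v q'⁻¹ ∈ Gam`.
Let `n0 = z^l n z^{-l} ∈ P u ∩ Gam`, `s_l = z^l s z^{-l} ∈ Gam` (`l ≥ i`, `shrink_Nb_pow`). By `hGU` `e_u (n0 s_l) = b0 e_u n0' y0'` with `b0 ∈ B`, `n0' ∈ P u ∩ Gam`, `y0' ∈ Q u ∩ Gam`; `b0 ∈ K` (all the other elements are in `K`), so `‖χ b0‖ = 1`. Conjugating by `z^{-l}`: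
`e_u n s = (t⁻¹ b0 t) e_u n' y'` with `t = e_u z^l e_u⁻¹ ∈ Z`, `n' = z^{-l} n0' z^l`, `y' = z^{-l} y0' z^l ∈ Q u`, and `‖χ (t⁻¹ b0 t)‖ = ‖χ b0‖ = 1`. Moreover `z^i y' z^{-i} ∈ Gam`: by `hGU` also `e_u (z^i n z^{-i}) (z^i s z^{-i}) = b1 e_u n1 y1` with `n1, y1 ∈ Gam`
(`z^i n z^{-i} ∈ Gam` by `shrink_N_pow` as `i ≤ l`), and conjugating the previous identity by `z^i` and using `chart_inj`, `z^i y' z^{-i} = y1`. Hence `f (e_u n y y0) = f (e_u n s q) = χ(..) f (e_u n' (y' q))` with `z^l n' z^{-l} = n0' ∈ Gam`, `y' q ∈ Q u`,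
`z^i (y' q) z^{-i} ∈ Gam`, so its norm is `≤ A r^l`.
For `l < i`: the points `e_u n y y0` with `n ∈ P u ∩ Gam`(note `z^l n z^{-l} ∈ Gam` implies `n ∈ Gam` by `shrink_N_pow`) and `z^j y z^{-j} ∈ Gam` form a compact set on which the continuous function `f` is bounded by some `A2`; so the bound `A2 r^(-i) r^l` holds (`r < 1`). -/
theorem V2_stab_Nb (hGU : GamU F) {Om : Finset W} {u : W} {r : ℝ} (hr : 0 < r) (hr1 : r < 1)
    {f : G → C} (hf : f ∈ V2 R Om u r hr.le) {y0 : G} (hy0 : y0 ∈ F.Nb) :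
    tr y0 f ∈ V2 R Om u r hr.le := by
  obtain ⟨⟨hfV, S, hS1, hS2, hS3, hS4⟩, hf2⟩ := hf
  have hsec : IsSec X f := R.sec f hfV
  refine ⟨⟨R.stab f hfV y0, {x | x * y0 ∈ S}, ?_, ?_, ?_, ?_⟩, ?_⟩
  · exact hS1.preimage (continuous_id.mul continuous_const)
  · intro b hb g hg
    have := hS2 b hb (g * y0) hg
    show b * g * y0 ∈ S
    rwa [mul_assoc]
  · intro x hx
    exact (cell_right_Nb F Om x y0 hy0).1 (hS3 hx)
  · intro x hx
    exact hS4 _ hx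
  · intro j
    obtain ⟨m, hm⟩ := absorb_Nb_ge F y0 hy0
    obtain ⟨A, hA⟩ := hf2 (max j m)
    have hi := hm (max j m) (le_max_right _ _)
    have hji : j ≤ max j m := le_max_left _ _
    generalize max j m = i at hA hi hji
    have hcomp := (PG_compact F u).prod (QG_compact F u)
    have hcont : Continuous (fun x : G × G =>
        f (F.e u * x.1 * ((F.z ^ j)⁻¹ * x.2 * F.z ^ j) * y0)) := by
      refine hsec.1.comp ?_
      fun_prop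
    obtain ⟨A2, hA2⟩ := hcomp.exists_bound_of_continuousOn hcont.continuousOn
    refine ⟨max A (max A2 0 * (r ^ i)⁻¹), fun l n hn hnG y hy hyG => ?_⟩
    rw [tr_apply]
    rcases le_or_gt i l with hil | hil
    · refine (V2_stab_Nb_key hGU hsec hy0 hji hil hi hA hn hnG hy hyG).trans ?_
      exact mul_le_mul_of_nonneg_right (le_max_left _ _) (pow_nonneg hr.le l)
    · have h1 : n ∈ F.Gam := by
        have := V2_stab_Nb_shrinkN (F := F) (Nat.zero_le l) (F.P_le u hn) hnG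
        simpa using this
      have h2 : F.z ^ j * y * (F.z ^ j)⁻¹ ∈ F.Q u := F.conj_Q u _ (zpow_mem_Z F j) y hy
      have h3 := hA2 (n, F.z ^ j * y * (F.z ^ j)⁻¹) ⟨⟨hn, h1⟩, ⟨h2, hyG⟩⟩
      have h4 : (F.z ^ j)⁻¹ * (F.z ^ j * y * (F.z ^ j)⁻¹) * F.z ^ j = y := by group
      simp only [h4] at h3
      refine h3.trans ((le_max_left A2 0).trans ?_)
      refine le_trans ?_ (mul_le_mul_of_nonneg_right (le_max_right A _) (pow_nonneg hr.le l))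
      have h5 : r ^ i ≤ r ^ l := pow_le_pow_of_le_one hr.le hr1.le hil.le
      have h6 : 0 < r ^ i := pow_pos hr i
      have h7 : 1 ≤ (r ^ i)⁻¹ * r ^ l := by
        rw [inv_mul_eq_div, one_le_div h6]; exact h5
      calc max A2 0 = max A2 0 * 1 := (mul_one _).symm
        _ ≤ max A2 0 * ((r ^ i)⁻¹ * r ^ l) :=
          mul_le_mul_of_nonneg_left h7 (le_max_right _ _)
        _ = max A2 0 * (r ^ i)⁻¹ * r ^ l := by ring
end Pool.Agent.Helper911
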