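import Mathlib
import Pool.Agent.Helper911_Abs.Lev2
import Pool.Agent.Helper911_Abs.LA

set_option autoImplicit false
set_option linter.unusedSectionVars false
set_option maxHeartbeats 1000000

noncomputable section

open Topology Filter

namespace Pool.Agent.Helper911


variable {p : ℕ} {G : Type*} [Group G] [TopologicalSpace G] [IsTopologicalGroup G] [T2Space G]
  {W : Type*} [DecidableEq W] {F : Flag p G W} {C : Type*} [NormedField C] [IsUltrametricDist C]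
  {X : CharData F C} {R : SubRep X}



/-! ======= TARGET ======= -/

theorem exists_unif_idx {S : Set G} (hS : IsCompact S) (O : ℕ → Set G) (hO : ∀ k, IsOpen (O k))
    (hcov : ∀ a ∈ S, ∃ k, a ∈ O k) (hmono : ∀ a ∈ S, ∀ k k', k ≤ k' → a ∈ O k → a ∈ O k') :
    ∃ i, ∀ i' ≥ i, ∀ a ∈ S, a ∈ O i' := by
  obtain ⟨T, hT⟩ := hS.elim_finite_subcover O hO (fun a ha => by
    obtain ⟨k, hk⟩ := hcov a ha
    exact Set.mem_iUnion.2 ⟨k, hk⟩)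
  refine ⟨T.sup id, fun i' hi' a ha => ?_⟩
  have h1 := hT ha
  simp only [Set.mem_iUnion] at h1
  obtain ⟨k, hk, hka⟩ := h1
  exact hmono a ha k i' ((Finset.le_sup (f := id) hk).trans hi') hka

theorem conj_N_pow_inv {n : G} (hn : n ∈ F.N) (m : ℕ) : (F.z ^ m)⁻¹ * n * F.z ^ m ∈ F.N := by
  have h := F.conj_N ((F.z ^ m)⁻¹) (inv_mem (zpow_mem_Z F m)) n hn
  rwa [inv_inv] at h

theorem exists_unif_P {u : W} {t : G} (ht : t ∈ F.Z) : ∃ i : ℕ, ∀ i' ≥ i, ∀ n ∈ F.P u, n ∈ F.Gam →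
    (F.z ^ i')⁻¹ * (t⁻¹ * n * t) * F.z ^ i' ∈ F.Gam := by
  have hN : ∀ n ∈ F.P u, t⁻¹ * n * t ∈ F.N := by
    intro n hn
    have h := F.conj_N t⁻¹ (inv_mem ht) n (F.P_le u hn)
    rwa [inv_inv] at h
  suffices h : ∃ i, ∀ i' ≥ i, ∀ a ∈ {y : G | y ∈ F.P u ∧ y ∈ F.Gam},
      a ∈ (fun k : ℕ => {n : G | (F.z ^ k)⁻¹ * (t⁻¹ * n * t) * F.z ^ k ∈ F.Gam}) i' by
    obtain ⟨i, hi⟩ := h
    exact ⟨i, fun i' hi' n hn hnG => hi i' hi' n ⟨hn, hnG⟩⟩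
  refine exists_unif_idx (PG_compact F u)
    (fun k => {n : G | (F.z ^ k)⁻¹ * (t⁻¹ * n * t) * F.z ^ k ∈ F.Gam}) (fun k => ?_) ?_ ?_
  · have hc : Continuous fun n : G => (F.z ^ k)⁻¹ * (t⁻¹ * n * t) * F.z ^ k := by fun_prop
    exact F.Gam_open.preimage hc
  · rintro n ⟨hn, hnG⟩
    obtain ⟨m, hm⟩ := absorb_N_ge F (t⁻¹ * n * t) (hN n hn)
    exact ⟨m, hm m le_rfl⟩
  · rintro n ⟨hn, hnG⟩ k k' hkk' hk
    have hk1 : (F.z ^ k)⁻¹ * (t⁻¹ * n * t) * F.z ^ k ∈ F.Gam := hk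
    have h2 := shrink_N_pow F (k' - k) _ (conj_N_pow_inv (hN n hn) k) hk1
    show (F.z ^ k')⁻¹ * (t⁻¹ * n * t) * F.z ^ k' ∈ F.Gam
    have h3 : F.z ^ k' = F.z ^ k * F.z ^ (k' - k) := by rw [← pow_add]; congr 1; omega
    rw [h3]
    convert h2 using 1
    group

theorem exists_unif_Q {u : W} {t : G} (ht : t ∈ F.Z) : ∃ i : ℕ, ∀ i' ≥ i, ∀ y ∈ F.Q u, y ∈ F.Gam →
    F.z ^ i' * (t⁻¹ * y * t) * (F.z ^ i')⁻¹ ∈ F.Gam := by
  have hN : ∀ n ∈ F.Q u, t⁻¹ * n * t ∈ F.Nb := by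
    intro n hn
    have h := F.conj_Nb t⁻¹ (inv_mem ht) n (F.Q_le u hn)
    rwa [inv_inv] at h
  suffices h : ∃ i, ∀ i' ≥ i, ∀ a ∈ {y : G | y ∈ F.Q u ∧ y ∈ F.Gam},
      a ∈ (fun k : ℕ => {n : G | F.z ^ k * (t⁻¹ * n * t) * (F.z ^ k)⁻¹ ∈ F.Gam}) i' by
    obtain ⟨i, hi⟩ := h
    exact ⟨i, fun i' hi' n hn hnG => hi i' hi' n ⟨hn, hnG⟩⟩
  refine exists_unif_idx (QG_compact F u)
    (fun k => {n : G | F.z ^ k * (t⁻¹ * n * t) * (F.z ^ k)⁻¹ ∈ F.Gam}) (fun k => ?_) ?_ ?_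
  · have hc : Continuous fun n : G => F.z ^ k * (t⁻¹ * n * t) * (F.z ^ k)⁻¹ := by fun_prop
    exact F.Gam_open.preimage hc
  · rintro n ⟨hn, hnG⟩
    obtain ⟨m, hm⟩ := absorb_Nb_ge F (t⁻¹ * n * t) (hN n hn)
    exact ⟨m, hm m le_rfl⟩
  · rintro n ⟨hn, hnG⟩ k k' hkk' hk
    have hk1 : F.z ^ k * (t⁻¹ * n * t) * (F.z ^ k)⁻¹ ∈ F.Gam := hk
    have h2 := shrink_Nb_pow F (k' - k) _ (F.conj_Nb (F.z ^ k) (zpow_mem_Z F k) _ (hN n hn)) hk1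
    show F.z ^ k' * (t⁻¹ * n * t) * (F.z ^ k')⁻¹ ∈ F.Gam
    have h3 : F.z ^ k' = F.z ^ (k' - k) * F.z ^ k := by rw [← pow_add]; congr 1; omega
    rw [h3]
    convert h2 using 1
    group

theorem VOm_stab_Z {Om : Finset W} {f : G → C} (hf : f ∈ VOm R Om) {t : G} (ht : t ∈ F.Z) :
    tr t f ∈ VOm R Om := by
  obtain ⟨hfV, S, hS, hSi, hSc, hS0⟩ := hf
  refine ⟨R.stab f hfV t, {x | x * t ∈ S}, hS.preimage (continuous_mul_const t), ?_, ?_, ?_⟩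
  · intro b hb x hx
    show b * x * t ∈ S
    rw [mul_assoc]
    exact hSi b hb _ hx
  · intro x hx
    exact (cell_right_Z F Om x t ht).1 (hSc hx)
  · intro x hx
    exact hS0 _ hx

/-- TARGET.
Proof. That `tr t f ∈ VOm R Om`: translate the support (`R.stab`, `cell_right_Z`). Let `j` be given. `f (e_u n y t) = χ(e_u t e_u⁻¹) f (e_u (t⁻¹ n t) (t⁻¹ y t))`. By compactness of `P u ∩ Gam` and of `Q u ∩ Gam` there is `i` such that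
`z^{-i} (t⁻¹ n t) z^i ∈ Gam` for all `n ∈ P u ∩ Gam` and `z^i (t⁻¹ y t) z^{-i} ∈ Gam` for all `y ∈ Q u ∩ Gam` (for each element it holds for all large `i` by `absorb_N_ge`, `absorb_Nb_ge`; the sets of elements where it holds for a given `i` are open and increase with `i` by
`shrink_N_pow`, `shrink_Nb_pow`; so finitely many, hence one, cover the compact set). If `z^l n z^{-l} = n0 ∈ Gam` with `l ≥ i`, then, as `t` commutes with `z`, `z^(l-i) (t⁻¹ n t) z^(-(l-i)) = z^{-i} (t⁻¹ n0 t) z^i ∈ Gam`; and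
if `z^j y z^{-j} ∈ Gam` then `z^(j+i) (t⁻¹ y t) z^(-(j+i)) ∈ Gam`. So with the constant `A ≥ 0` of `f` for `j + i`: `‖f (e_u n y t)‖ ≤ ‖χ(e_u t e_u⁻¹)‖ A r^(l-i)`. For `l < i` use the boundedness of `tr t f` on the compact set of
all `e_u n y` with `n ∈ P u ∩ Gam`, `y ∈ Q u`, `z^j y z^{-j} ∈ Gam`. -/
theorem V2_stab_Z (hZ : ZComm F) {Om : Finset W} {u : W} {r : ℝ} (hr : 0 < r) (hr1 : r < 1)
    {f : G → C} (hf : f ∈ V2 R Om u r hr.le) {t : G} (ht : t ∈ F.Z) :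
    tr t f ∈ V2 R Om u r hr.le := by
  obtain ⟨hfV, hfN⟩ := hf
  refine ⟨VOm_stab_Z hfV ht, fun j => ?_⟩
  have hsec : IsSec X f := R.sec f hfV.1
  obtain ⟨iP, hiP⟩ := exists_unif_P (F := F) (u := u) ht
  obtain ⟨iQ, hiQ⟩ := exists_unif_Q (F := F) (u := u) ht
  set i : ℕ := max iP iQ with hi
  have hP : ∀ n ∈ F.P u, n ∈ F.Gam → (F.z ^ i)⁻¹ * (t⁻¹ * n * t) * F.z ^ i ∈ F.Gam :=
    hiP i (le_max_left _ _)
  have hQ : ∀ y ∈ F.Q u, y ∈ F.Gam → F.z ^ i * (t⁻¹ * y * t) * (F.z ^ i)⁻¹ ∈ F.Gam :=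
    hiQ i (le_max_right _ _)
  obtain ⟨A, hA⟩ := hfN (j + i)
  -- commutation
  have hcomm : ∀ k : ℕ, t⁻¹ * F.z ^ k = F.z ^ k * t⁻¹ := by
    intro k
    have h : Commute t F.z := hZ t ht
    exact (h.pow_right k).inv_left.eq
  have hcomm' : ∀ k : ℕ, t * F.z ^ k = F.z ^ k * t := by
    intro k
    have h : Commute t F.z := hZ t ht
    exact (h.pow_right k).eq
  -- boundedness on a compact set
  obtain ⟨B, hB⟩ : ∃ B : ℝ, ∀ n ∈ F.P u, n ∈ F.Gam → ∀ y ∈ F.Q u,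
      F.z ^ j * y * (F.z ^ j)⁻¹ ∈ F.Gam → ‖f (F.e u * n * y * t)‖ ≤ B := by
    have hK := (PG_compact F u).prod (QG_compact F u)
    have hc : Continuous fun x : G × G =>
        f (F.e u * x.1 * ((F.z ^ j)⁻¹ * x.2 * F.z ^ j) * t) :=
      hsec.1.comp (by fun_prop)
    obtain ⟨B, hB⟩ := hK.exists_bound_of_continuousOn hc.continuousOn
    refine ⟨B, fun n hn hnG y hy hyG => ?_⟩
    have h1 := hB (n, F.z ^ j * y * (F.z ^ j)⁻¹)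
      ⟨⟨hn, hnG⟩, ⟨F.conj_Q u (F.z ^ j) (zpow_mem_Z F j) y hy, hyG⟩⟩
    have h2 : (F.z ^ j)⁻¹ * (F.z ^ j * y * (F.z ^ j)⁻¹) * F.z ^ j = y := by group
    simp only [h2] at h1
    exact h1
  set c0 : ℝ := ‖X.chi (F.e u * t * (F.e u)⁻¹)‖ with hc0
  have hc0n : 0 ≤ c0 := norm_nonneg _
  set M : ℝ := max (c0 * |A|) B with hM
  refine ⟨M / r ^ i, fun l n hn hnl y hy hyj => ?_⟩
  have hri : 0 < r ^ i := pow_pos hr i
  -- n in Gam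
  have hnG : n ∈ F.Gam := by
    have h1 := shrink_N_pow F l _ (F.conj_N (F.z ^ l) (zpow_mem_Z F l) n (F.P_le u hn)) hnl
    have h2 : (F.z ^ l)⁻¹ * (F.z ^ l * n * (F.z ^ l)⁻¹) * F.z ^ l = n := by group
    rwa [h2] at h1
  have hM0 : 0 ≤ M := le_trans (mul_nonneg hc0n (abs_nonneg A)) (le_max_left _ _)
  rw [tr_apply]
  rcases lt_or_ge l i with hl | hl
  · calc ‖f (F.e u * n * y * t)‖ ≤ B := hB n hn hnG y hy hyj
      _ ≤ M := le_max_right _ _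
      _ = M / r ^ i * r ^ i := by field_simp
      _ ≤ M / r ^ i * r ^ l := by
          refine mul_le_mul_of_nonneg_left ?_ (div_nonneg hM0 hri.le)
          exact pow_le_pow_of_le_one hr.le hr1.le hl.le
  · have e1 : F.e u * n * y * t = F.e u * (n * y) * t := by group
    rw [e1, sec_tr_Z X hsec u ht (n * y), norm_mul]
    have e2 : F.e u * (t⁻¹ * (n * y) * t) = F.e u * (t⁻¹ * n * t) * (t⁻¹ * y * t) := by group
    rw [e2]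
    have hn' : t⁻¹ * n * t ∈ F.P u := by
      have h := F.conj_P u t⁻¹ (inv_mem ht) n hn
      rwa [inv_inv] at h
    have hy' : t⁻¹ * y * t ∈ F.Q u := by
      have h := F.conj_Q u t⁻¹ (inv_mem ht) y hy
      rwa [inv_inv] at h
    have hn2 : F.z ^ (l - i) * (t⁻¹ * n * t) * (F.z ^ (l - i))⁻¹ ∈ F.Gam := by
      have h1 := hP _ (F.conj_P u (F.z ^ l) (zpow_mem_Z F l) n hn) hnl
      have h3 : F.z ^ l = F.z ^ i * F.z ^ (l - i) := by rw [← pow_add]; congr 1; omega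
      have h4 : (F.z ^ i)⁻¹ * (t⁻¹ * (F.z ^ l * n * (F.z ^ l)⁻¹) * t) * F.z ^ i =
          F.z ^ (l - i) * (t⁻¹ * n * t) * (F.z ^ (l - i))⁻¹ := by
        have h5 : t⁻¹ * F.z ^ l = F.z ^ l * t⁻¹ := hcomm l
        have h6 : (F.z ^ l)⁻¹ * t = t * (F.z ^ l)⁻¹ := by
          rw [inv_mul_eq_iff_eq_mul, ← mul_assoc, ← hcomm' l, mul_assoc, mul_inv_cancel, mul_one]
        calc (F.z ^ i)⁻¹ * (t⁻¹ * (F.z ^ l * n * (F.z ^ l)⁻¹) * t) * F.z ^ i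
            = (F.z ^ i)⁻¹ * (t⁻¹ * F.z ^ l) * n * ((F.z ^ l)⁻¹ * t) * F.z ^ i := by group
          _ = (F.z ^ i)⁻¹ * (F.z ^ l * t⁻¹) * n * (t * (F.z ^ l)⁻¹) * F.z ^ i := by rw [h5, h6]
          _ = F.z ^ (l - i) * (t⁻¹ * n * t) * (F.z ^ (l - i))⁻¹ := by rw [h3]; group
      rwa [h4] at h1
    have hy2 : F.z ^ (j + i) * (t⁻¹ * y * t) * (F.z ^ (j + i))⁻¹ ∈ F.Gam := by
      have h1 := hQ _ (F.conj_Q u (F.z ^ j) (zpow_mem_Z F j) y hy) hyj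
      have h3 : F.z ^ (j + i) = F.z ^ i * F.z ^ j := by rw [← pow_add]; congr 1; omega
      have h4 : F.z ^ i * (t⁻¹ * (F.z ^ j * y * (F.z ^ j)⁻¹) * t) * (F.z ^ i)⁻¹ =
          F.z ^ (j + i) * (t⁻¹ * y * t) * (F.z ^ (j + i))⁻¹ := by
        have h5 : t⁻¹ * F.z ^ j = F.z ^ j * t⁻¹ := hcomm j
        have h6 : (F.z ^ j)⁻¹ * t = t * (F.z ^ j)⁻¹ := by
          rw [inv_mul_eq_iff_eq_mul, ← mul_assoc, ← hcomm' j, mul_assoc, mul_inv_cancel, mul_one]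
        calc F.z ^ i * (t⁻¹ * (F.z ^ j * y * (F.z ^ j)⁻¹) * t) * (F.z ^ i)⁻¹
            = F.z ^ i * (t⁻¹ * F.z ^ j) * y * ((F.z ^ j)⁻¹ * t) * (F.z ^ i)⁻¹ := by group
          _ = F.z ^ i * (F.z ^ j * t⁻¹) * y * (t * (F.z ^ j)⁻¹) * (F.z ^ i)⁻¹ := by rw [h5, h6]
          _ = F.z ^ (j + i) * (t⁻¹ * y * t) * (F.z ^ (j + i))⁻¹ := by rw [h3]; group
      rwa [h4] at h1
    have h7 := hA (l - i) _ hn' hn2 _ hy' hy2
    have hrl : r ^ (l - i) = r ^ l / r ^ i := by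
      rw [eq_div_iff hri.ne', ← pow_add]; congr 1; omega
    calc ‖X.chi (F.e u * t * (F.e u)⁻¹)‖ * ‖f (F.e u * (t⁻¹ * n * t) * (t⁻¹ * y * t))‖
        ≤ c0 * (A * r ^ (l - i)) := mul_le_mul_of_nonneg_left h7 hc0n
      _ ≤ c0 * (|A| * r ^ (l - i)) := mul_le_mul_of_nonneg_left
          (mul_le_mul_of_nonneg_right (le_abs_self A) (pow_nonneg hr.le _)) hc0n
      _ = (c0 * |A|) * r ^ (l - i) := by ring
      _ ≤ M * r ^ (l - i) := mul_le_mul_of_nonneg_right (le_max_left _ _) (pow_nonneg hr.le _)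
      _ = M / r ^ i * r ^ l := by rw [hrl]; ring
end Pool.Agent.Helper911
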