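import Mathlib
import Pool.Agent.Helper911_Abs.Lev2
import Pool.Agent.Helper911_Abs.KB

set_option autoImplicit false
set_option linter.unusedSectionVars false
set_option maxHeartbeats 1000000

noncomputable section

open Topology Filter

namespace Pool.Agent.Helper911


variable {p : ℕ} {G : Type*} [Group G] [TopologicalSpace G] [IsTopologicalGroup G] [T2Space G]
  {W : Type*} [DecidableEq W] {F : Flag p G W} {C : Type*} [NormedField C] [IsUltrametricDist C]
  {X : CharData F C} {R : SubRep X}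



/-! ======= lemmas for the target ======= -/

theorem growth2_shift (u : W) (b n y : G) (k : ℕ) :
    b * F.e u * n * y * F.z ^ k = (b * (F.e u * F.z ^ k * (F.e u)⁻¹)) * F.e u *
      ((F.z ^ k)⁻¹ * n * F.z ^ k) * ((F.z ^ k)⁻¹ * y * F.z ^ k) := by
  group

theorem growth2_P (u : W) (n : G) (hn : n ∈ F.P u) (k : ℕ) : (F.z ^ k)⁻¹ * n * F.z ^ k ∈ F.P u := by
  have h := F.conj_P u ((F.z ^ k)⁻¹) (F.Z.inv_mem (zpow_mem_Z F k)) n hn
  rwa [inv_inv] at h

theorem growth2_Q (u : W) (n : G) (hn : n ∈ F.Q u) (k : ℕ) : (F.z ^ k)⁻¹ * n * F.z ^ k ∈ F.Q u := by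
  have h := F.conj_Q u ((F.z ^ k)⁻¹) (F.Z.inv_mem (zpow_mem_Z F k)) n hn
  rwa [inv_inv] at h

theorem growth2_mem (u : W) (b n y : G) (hb : b ∈ F.B) (hn : n ∈ F.P u) (hy : y ∈ F.Q u) (k : ℕ)
    (h : b * F.e u * n * y * F.z ^ k ∈ U0 F u) : (F.z ^ k)⁻¹ * y * F.z ^ k ∈ F.Gam := by
  obtain ⟨b', hb', n', hn', y', hy', hnG, hyG, he⟩ := h
  rw [growth2_shift] at he
  have hB : b * (F.e u * F.z ^ k * (F.e u)⁻¹) ∈ F.B := F.B.mul_mem hb (conj_e_pow F u k)
  have h2 := F.chart_inj u ((b * (F.e u * F.z ^ k * (F.e u)⁻¹))⁻¹ * b')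
    (F.B.mul_mem (F.B.inv_mem hB) hb') _ (growth2_P u n hn k) _ (growth2_Q u y hy k) n' hn' y' hy' ?_
  · rw [h2.2]
    exact hyG
  · have h3 : (b * (F.e u * F.z ^ k * (F.e u)⁻¹))⁻¹ * (b' * F.e u * n' * y') =
        F.e u * ((F.z ^ k)⁻¹ * n * F.z ^ k) * ((F.z ^ k)⁻¹ * y * F.z ^ k) := by
      rw [← he]
      group
    rw [← h3]
    group

theorem growth2_cw (X : CharData F C) (u : W) (m : ℕ) :
    ‖X.chi (F.e u * F.z ^ m * (F.e u)⁻¹)‖ = cw X u ^ m := by
  have h1 : F.e u * F.z * (F.e u)⁻¹ ∈ F.B := by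
    have := conj_e_pow F u 1
    rwa [pow_one] at this
  rw [← conj_pow, X.chi_pow _ h1, norm_pow]
  rfl

theorem growth2_ht (X : CharData F C) (u : W) (b n y : G) (hb : b ∈ F.B) (hn : n ∈ F.Gam) (hy : y ∈ F.Gam) :
    ht X (b * F.e u * n * y) = ‖X.chi b‖ := by
  have h1 : b * F.e u * n * y = b * (F.e u * (n * y)) := by group
  rw [h1, ht_mul X b _ hb, ht_e X u (n * y) (F.K.mul_mem (F.Gam_le hn) (F.Gam_le hy)), mul_one]

theorem growth2_claim1 (u : W) (r : ℝ) (hr : 0 ≤ r) (f : G → C) (hf : IsSec X f) (M : ℝ) (hM : 0 ≤ M)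
    (hNB : NB F u r 0 f M) (m : ℕ) :
    Bd X (cut (U0 F u) (tr (F.z ^ m) (cut (U0 F u) f))) (M * (r * cw X u) ^ m) := by
  intro x
  have hcw : 0 ≤ cw X u := norm_nonneg _
  have h0 : 0 ≤ M * (r * cw X u) ^ m * ht X x :=
    mul_nonneg (mul_nonneg hM (pow_nonneg (mul_nonneg hr hcw) m)) (ht_pos X x).le
  by_cases hx : x ∈ U0 F u
  · rw [cut_of_mem hx, tr_apply]
    by_cases hxz : x * F.z ^ m ∈ U0 F u
    · rw [cut_of_mem hxz]
      obtain ⟨b, hb, n, hn, y, hy, hnG, hyG, rfl⟩ := hx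
      have hy1 := growth2_mem u b n y hb hn hy m hxz
      rw [growth2_ht X u b n y hb hnG hyG, growth2_shift]
      have hB1 := conj_e_pow F u m
      have hB : b * (F.e u * F.z ^ m * (F.e u)⁻¹) ∈ F.B := F.B.mul_mem hb hB1
      rw [mul_assoc, mul_assoc, hf.norm_left _ _ hB, X.chi_mul b hb _ hB1, norm_mul, growth2_cw]
      have h1 := hNB m _ (growth2_P u n hn m) (by
        have : F.z ^ m * ((F.z ^ m)⁻¹ * n * F.z ^ m) * (F.z ^ m)⁻¹ = n := by group
        rw [this]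
        exact hnG) _ (growth2_Q u y hy m) (by
        rw [pow_zero, one_mul, inv_one, mul_one]
        exact hy1)
      rw [mul_assoc] at h1
      have h2 : 0 ≤ ‖X.chi b‖ * cw X u ^ m := mul_nonneg (norm_nonneg _) (pow_nonneg hcw m)
      refine (mul_le_mul_of_nonneg_left h1 h2).trans (le_of_eq ?_)
      rw [mul_pow]
      ring
    · rw [cut_of_notMem hxz, norm_zero]
      exact h0
  · rw [cut_of_notMem hx, norm_zero]
    exact h0

/-- the boundary of the chart -/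
def growth2_S (F : Flag p G W) (u : W) : Set G := {x | x * F.z ∈ U0 F u ∧ x ∉ U0 F u}

theorem growth2_S_clopen (u : W) : IsClopen (growth2_S F u) := by
  have h1 : IsClopen ((fun x : G => x * F.z) ⁻¹' (U0 F u)) :=
    (U0_clopen F u).preimage (continuous_mul_const F.z)
  have h2 := h1.inter (U0_clopen F u).compl
  exact h2

theorem growth2_S_linv (u : W) : LInv F (growth2_S F u) := by
  intro b hb g hg
  refine ⟨?_, ?_⟩
  · rw [mul_assoc]
    exact U0_linv F u b hb _ hg.1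
  · intro h
    exact hg.2 (((U0_linv F u).mem_iff hb g).1 h)

theorem growth2_S_cell {Om : Finset W} {u : W} (hOm : IsOpen (cell F Om)) (hu : u ∈ Om) :
    growth2_S F u ⊆ cell F (Om.erase u) := by
  intro x hx
  have h1 : F.idx (x * F.z) ∈ Om := by
    obtain ⟨b, hb, n, hn, y, hy, hnG, hyG, he⟩ := hx.1
    rw [he]
    exact chart_subset F Om hOm u hu b n y hb (F.P_le u hn) (F.Q_le u hy)
  have h2 : F.idx (x * F.z) = F.idx x := F.idx_right_Z F.z F.z_mem x
  show F.idx x ∈ Om.erase u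
  rw [Finset.mem_erase]
  refine ⟨?_, by rw [← h2]; exact h1⟩
  intro h3
  apply hx.2
  obtain ⟨b, hb, y, hy, hyG, he⟩ := U0_cell F u (x * F.z) hx.1 (by rw [h2, h3])
  have hB1 : F.e u * F.z * (F.e u)⁻¹ ∈ F.B := by
    have := conj_e_pow F u 1
    rwa [pow_one] at this
  refine ⟨b * (F.e u * F.z * (F.e u)⁻¹)⁻¹, F.B.mul_mem hb (F.B.inv_mem hB1), 1, (F.P u).one_mem,
    F.z * y * F.z⁻¹, F.conj_Q u F.z F.z_mem y hy, F.Gam.one_mem, F.shrink_Nb y (F.Q_le u hy) hyG, ?_⟩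
  have h4 : x = b * F.e u * y * F.z⁻¹ := by
    rw [← he]
    group
  rw [h4]
  group

theorem growth2_step (u : W) (f0 : G → C) (hf0 : ∀ x ∉ U0 F u, f0 x = 0) (m : ℕ) :
    tr F.z (cut (U0 F u) (tr (F.z ^ m) f0)) =
      cut (U0 F u) (tr (F.z ^ (m + 1)) f0) +
        cut (growth2_S F u) (tr F.z (cut (U0 F u) (tr (F.z ^ m) f0))) := by
  funext x
  rw [Pi.add_apply]
  by_cases hx : x ∈ U0 F u
  · have hxS : x ∉ growth2_S F u := fun h => h.2 hx
    rw [cut_of_notMem hxS, add_zero, cut_of_mem hx, tr_apply, tr_apply]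
    by_cases hxz : x * F.z ∈ U0 F u
    · rw [cut_of_mem hxz, tr_apply, mul_assoc, ← pow_succ']
    · rw [cut_of_notMem hxz]
      symm
      apply hf0
      intro hk
      apply hxz
      obtain ⟨b, hb, n, hn, y, hy, hnG, hyG, rfl⟩ := hx
      have hy1 := growth2_mem u b n y hb hn hy (m + 1) hk
      have hy2 : F.z⁻¹ * y * F.z ∈ F.Gam := by
        have h1 := shrink_Nb_pow F m ((F.z ^ (m + 1))⁻¹ * y * F.z ^ (m + 1))
          (F.Q_le u (growth2_Q u y hy (m + 1))) hy1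
        have h2 : F.z ^ m * ((F.z ^ (m + 1))⁻¹ * y * F.z ^ (m + 1)) * (F.z ^ m)⁻¹ = F.z⁻¹ * y * F.z := by
          rw [pow_succ']
          have h3 : F.z * F.z ^ m = F.z ^ m * F.z := (Commute.self_pow F.z m).eq
          rw [h3, mul_inv_rev]
          have h4 : F.z ^ m * (F.z⁻¹ * (F.z ^ m)⁻¹ * y * (F.z ^ m * F.z)) * (F.z ^ m)⁻¹ =
            F.z ^ m * (F.z⁻¹ * (F.z ^ m)⁻¹ * y * (F.z * F.z ^ m)) * (F.z ^ m)⁻¹ := by rw [h3]
          rw [h4]
          have h5 : F.z ^ m * F.z⁻¹ = F.z⁻¹ * F.z ^ m := ((Commute.self_pow F.z m).symm.inv_right).eq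
          calc F.z ^ m * (F.z⁻¹ * (F.z ^ m)⁻¹ * y * (F.z * F.z ^ m)) * (F.z ^ m)⁻¹
              = (F.z ^ m * F.z⁻¹) * (F.z ^ m)⁻¹ * y * F.z := by group
            _ = (F.z⁻¹ * F.z ^ m) * (F.z ^ m)⁻¹ * y * F.z := by rw [h5]
            _ = F.z⁻¹ * y * F.z := by group
        rw [h2] at h1
        exact h1
      have hn2 : F.z⁻¹ * n * F.z ∈ F.Gam := F.shrink_N n (F.P_le u hn) hnG
      have hB1 : F.e u * F.z * (F.e u)⁻¹ ∈ F.B := by
        have := conj_e_pow F u 1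
        rwa [pow_one] at this
      have hP := growth2_P u n hn 1
      have hQ := growth2_Q u y hy 1
      rw [pow_one] at hP hQ
      refine ⟨b * (F.e u * F.z * (F.e u)⁻¹), F.B.mul_mem hb hB1, F.z⁻¹ * n * F.z, hP,
        F.z⁻¹ * y * F.z, hQ, hn2, hy2, ?_⟩
      group
  · rw [cut_of_notMem hx, zero_add]
    by_cases hxz : x * F.z ∈ U0 F u
    · have hxS : x ∈ growth2_S F u := ⟨hxz, hx⟩
      rw [cut_of_mem hxS]
    · have hxS : x ∉ growth2_S F u := fun h => hxz h.1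
      rw [cut_of_notMem hxS, tr_apply, cut_of_notMem hxz]

theorem growth2_dec (u : W) (f0 : G → C) (hf0 : ∀ x ∉ U0 F u, f0 x = 0) (m : ℕ) :
    tr (F.z ^ m) f0 = cut (U0 F u) (tr (F.z ^ m) f0) + ∑ j ∈ Finset.range m,
      tr (F.z ^ (m - 1 - j)) (cut (growth2_S F u) (tr F.z (cut (U0 F u) (tr (F.z ^ j) f0)))) := by
  induction m with
  | zero =>
    rw [Finset.range_zero, Finset.sum_empty, add_zero]
    funext x
    by_cases hx : x ∈ U0 F u
    · rw [cut_of_mem hx]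
    · rw [cut_of_notMem hx, tr_apply, pow_zero, mul_one]
      exact hf0 x hx
  | succ m ih =>
    have h1 : tr (F.z ^ (m + 1)) f0 = tr F.z (tr (F.z ^ m) f0) := by
      rw [tr_tr, pow_succ']
    have h2 : tr F.z (tr (F.z ^ m) f0) = tr F.z (cut (U0 F u) (tr (F.z ^ m) f0)) +
        ∑ j ∈ Finset.range m, tr (F.z ^ (m - j))
          (cut (growth2_S F u) (tr F.z (cut (U0 F u) (tr (F.z ^ j) f0)))) := by
      conv_lhs => rw [ih]
      funext x
      rw [tr_apply, Pi.add_apply, Pi.add_apply, tr_apply, Finset.sum_apply, Finset.sum_apply]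
      congr 1
      refine Finset.sum_congr rfl fun j hj => ?_
      rw [Finset.mem_range] at hj
      rw [tr_apply, tr_apply, mul_assoc, ← pow_succ']
      congr 3
      omega
    conv_lhs => rw [h1, h2, growth2_step u f0 hf0 m, add_assoc]
    rw [Finset.sum_range_succ]
    congr 1
    rw [add_comm]
    congr 1
    rw [show m + 1 - 1 - m = 0 by omega, pow_zero]
    funext x
    rw [tr_apply, mul_one]

/-! ======= TARGET ======= -/

/-- TARGET. -/
theorem growth2 {Om : Finset W} {u : W} {c r : ℝ} (hL : Lev2 X Om u c r) (S : Set G)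
    (hS : IsClosed S) (hSi : LInv F S) (hSO : S ⊆ cell F Om)
    (hSu : ∀ x ∈ S, F.idx x = u → x ∈ U0 F u) :
    ∃ A : ℝ, 1 ≤ A ∧ ∀ f : G → C, IsSec X f → (∀ x ∉ S, f x = 0) → ∀ M : ℝ, Bd X f M →
      NB F u r 0 f M → ∀ m : ℕ, Bd X (tr (F.z ^ m) f) (A * c ^ m * M) := by
  have hc := hL.c_pos
  have hU := U0_clopen F u
  -- the part outside of the chart
  have hS2c : IsClosed (S \ U0 F u) := hS.sdiff hU.isOpen
  have hS2i : LInv F (S \ U0 F u) := by
    intro b hb g hg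
    exact ⟨hSi b hb g hg.1, fun h => hg.2 (((U0_linv F u).mem_iff hb g).1 h)⟩
  have hS2O : S \ U0 F u ⊆ cell F (Om.erase u) := by
    intro x hx
    show F.idx x ∈ Om.erase u
    rw [Finset.mem_erase]
    exact ⟨fun h => hx.2 (hSu x hx.1 h), hSO hx.1⟩
  have hcw : ∀ w ∈ Om.erase u, cw X w ≤ c := by
    intro w hw
    rw [Finset.mem_erase] at hw
    exact hL.cw_le w hw.2 hw.1
  obtain ⟨A2, hA2, hG2⟩ := growth X (Om.erase u) hL.open_er c hc hcw (S \ U0 F u) hS2c hS2i hS2O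
  obtain ⟨A3, hA3, hG3⟩ := growth X (Om.erase u) hL.open_er c hc hcw (growth2_S F u)
    (growth2_S_clopen u).isClosed (growth2_S_linv u) (growth2_S_cell hL.open_Om hL.hu)
  obtain ⟨A1, hA1, hT⟩ := exists_tr_bd (X := X) F.z
  have hK : 0 ≤ A3 * A1 / c := by positivity
  refine ⟨A2 + A3 * A1 / c, by linarith, ?_⟩
  intro f hf hfS M hM hNB m
  have hM0 : 0 ≤ M := hM.nonneg
  have hcm : 0 ≤ c ^ m * M := by positivity
  have hrc : 0 ≤ r * cw X u := mul_nonneg hL.r_pos.le (norm_nonneg _)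
  set f0 : G → C := cut (U0 F u) f with hf0def
  set f2 : G → C := cut (U0 F u)ᶜ f with hf2def
  have hf0 : ∀ x ∉ U0 F u, f0 x = 0 := fun x hx => cut_of_notMem hx
  have hsplit : f = f0 + f2 := by
    funext x
    rw [Pi.add_apply]
    by_cases hx : x ∈ U0 F u
    · rw [hf0def, hf2def, cut_of_mem hx, cut_of_notMem (by simpa using hx), add_zero]
    · rw [hf0def, hf2def, cut_of_notMem hx, cut_of_mem (by simpa using hx), zero_add]
  have hf0s : IsSec X f0 := hf.cut hU (U0_linv F u)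
  have hci : LInv F (U0 F u)ᶜ := by
    intro b hb g hg h
    exact hg (((U0_linv F u).mem_iff hb g).1 h)
  have hf2s : IsSec X f2 := hf.cut hU.compl hci
  -- bound for `f2`
  have hb2 : Bd X (tr (F.z ^ m) f2) (A2 * c ^ m * M) := by
    refine hG2 f2 hf2s ?_ M (hM.cut _) m
    intro x hx
    by_cases hxS : x ∈ S
    · have hxU : x ∈ U0 F u := by
        by_contra h
        exact hx ⟨hxS, h⟩
      exact cut_of_notMem (by simpa using hxU)
    · by_cases hxU : x ∈ U0 F u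
      · exact cut_of_notMem (by simpa using hxU)
      · rw [hf2def, cut_of_mem (by simpa using hxU)]
        exact hfS x hxS
  -- bound for `f0`
  have hfm : ∀ j, Bd X (cut (U0 F u) (tr (F.z ^ j) f0)) (M * (r * cw X u) ^ j) := fun j =>
    growth2_claim1 u r hL.r_pos.le f hf M hM0 hNB j
  have hfms : ∀ j, IsSec X (cut (U0 F u) (tr (F.z ^ j) f0)) := fun j =>
    (hf0s.tr _).cut hU (U0_linv F u)
  have hpow : ∀ j, (r * cw X u) ^ j ≤ c ^ j := fun j => pow_le_pow_left₀ hrc hL.rc.le j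
  have hb0 : Bd X (tr (F.z ^ m) f0) ((A2 + A3 * A1 / c) * c ^ m * M) := by
    rw [growth2_dec u f0 hf0 m]
    refine Bd.add ?_ (Bd.sum _ _ (by positivity) ?_)
    · refine (hfm m).mono ?_
      have h1 : M * (r * cw X u) ^ m ≤ M * c ^ m := mul_le_mul_of_nonneg_left (hpow m) hM0
      have h2 : (1 : ℝ) * (c ^ m * M) ≤ (A2 + A3 * A1 / c) * (c ^ m * M) :=
        mul_le_mul_of_nonneg_right (by linarith) hcm
      linarith [mul_assoc (A2 + A3 * A1 / c) (c ^ m) M]
    · intro j hj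
      rw [Finset.mem_range] at hj
      have h1 : Bd X (tr F.z (cut (U0 F u) (tr (F.z ^ j) f0))) (A1 * (M * (r * cw X u) ^ j)) :=
        hT _ _ (mul_nonneg hM0 (pow_nonneg hrc j)) (hfm j)
      have h2 : Bd X (cut (growth2_S F u) (tr F.z (cut (U0 F u) (tr (F.z ^ j) f0))))
          (A1 * (M * (r * cw X u) ^ j)) := h1.cut _
      have h3 : IsSec X (cut (growth2_S F u) (tr F.z (cut (U0 F u) (tr (F.z ^ j) f0)))) :=
        ((hfms j).tr _).cut (growth2_S_clopen u) (growth2_S_linv u)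
      have h4 := hG3 _ h3 (fun x hx => cut_of_notMem hx) _ h2 (m - 1 - j)
      refine h4.mono ?_
      have h5 : c ^ (m - 1 - j) * c ^ j = c ^ m / c := by
        rw [← pow_add, eq_div_iff hc.ne', ← pow_succ]
        congr 1
        omega
      have h6 : A3 * c ^ (m - 1 - j) * (A1 * (M * (r * cw X u) ^ j)) ≤
          A3 * c ^ (m - 1 - j) * (A1 * (M * c ^ j)) := by
        apply mul_le_mul_of_nonneg_left _ (by positivity)
        apply mul_le_mul_of_nonneg_left _ hA1.le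
        exact mul_le_mul_of_nonneg_left (hpow j) hM0
      have h7 : A3 * c ^ (m - 1 - j) * (A1 * (M * c ^ j)) = A3 * A1 / c * (c ^ m * M) := by
        calc A3 * c ^ (m - 1 - j) * (A1 * (M * c ^ j)) = A3 * A1 * M * (c ^ (m - 1 - j) * c ^ j) := by ring
          _ = A3 * A1 * M * (c ^ m / c) := by rw [h5]
          _ = A3 * A1 / c * (c ^ m * M) := by ring
      have h8 : A3 * A1 / c * (c ^ m * M) ≤ (A2 + A3 * A1 / c) * (c ^ m * M) :=
        mul_le_mul_of_nonneg_right (by linarith) hcm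
      linarith [mul_assoc (A2 + A3 * A1 / c) (c ^ m) M]
  have hfin : tr (F.z ^ m) f = tr (F.z ^ m) f0 + tr (F.z ^ m) f2 := by
    conv_lhs => rw [hsplit]
    rfl
  rw [hfin]
  refine Bd.add hb0 (hb2.mono ?_)
  have h9 : A2 * (c ^ m * M) ≤ (A2 + A3 * A1 / c) * (c ^ m * M) :=
    mul_le_mul_of_nonneg_right (by linarith) hcm
  linarith [mul_assoc (A2 + A3 * A1 / c) (c ^ m) M, mul_assoc A2 (c ^ m) M]
end Pool.Agent.Helper911
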