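import Mathlib
import Pool.Agent.Helper911_Abs.Lev2
import Pool.Agent.Helper911_Abs.LA
import Pool.Agent.Helper911_Abs.NE

set_option autoImplicit false
set_option linter.unusedSectionVars false
set_option maxHeartbeats 1000000

noncomputable section

open Topology Filter

namespace Pool.Agent.Helper911


variable {p : ℕ} {G : Type*} [Group G] [TopologicalSpace G] [IsTopologicalGroup G] [T2Space G]
  {W : Type*} [DecidableEq W] {F : Flag p G W} {C : Type*} [NormedField C] [IsUltrametricDist C]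
  {X : CharData F C} {R : SubRep X}



/-! ======= TARGET ======= -/

/-- TARGET.
Proof: as for `topnorm`. Take `A` from `growth2`. Given `f`, `w`, `y ∈ Nb`, choose `m` with `z^m y (z^m)⁻¹ ∈ Gam` (`F.absorb_Nb`). Then `f (e_w z^m y) = χ(e_w z^m e_w⁻¹) f (e_w y)` with `‖χ(e_w z^m e_w⁻¹)‖ = (cw w)^m = c^m` (`norm_chi_zpow`), while
`f (e_w z^m y) = (tr (z^m) f) (e_w (z^m y (z^m)⁻¹))` and `e_w (z^m y (z^m)⁻¹) ∈ K`, so its norm is at most `A c^m M` (`ht_K`). Divide by `c^m`. -/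
theorem topnorm2 {Om : Finset W} {u : W} {c r : ℝ} (hL : Lev2 X Om u c r) (S : Set G)
    (hS : IsClosed S) (hSi : LInv F S) (hSO : S ⊆ cell F Om)
    (hSu : ∀ x ∈ S, F.idx x = u → x ∈ U0 F u) :
    ∃ A : ℝ, 1 ≤ A ∧ ∀ f : G → C, IsSec X f → (∀ x ∉ S, f x = 0) → ∀ M : ℝ, Bd X f M →
      NB F u r 0 f M → ∀ w, cw X w = c → TN F w f (A * M) := by
  obtain ⟨A, hA1, hA⟩ := growth2 hL S hS hSi hSO hSu
  refine ⟨A, hA1, fun f hf hf0 M hM hN w hw y hy => ?_⟩
  obtain ⟨m, hm⟩ := F.absorb_Nb y hy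
  have h2 := hA f hf hf0 M hM hN m (F.e w * (F.z ^ m * y * (F.z ^ m)⁻¹))
  rw [tr_apply, ht_e X w _ (F.Gam_le hm), mul_one] at h2
  have e1 : F.e w * (F.z ^ m * y * (F.z ^ m)⁻¹) * F.z ^ m
      = (F.e w * F.z ^ m * (F.e w)⁻¹) * (F.e w * y) := by group
  rw [e1, hf.norm_left _ _ (conj_e_pow F w m), norm_chi_zpow, hw] at h2
  have hc : 0 < c ^ m := pow_pos hL.c_pos m
  have h3 : c ^ m * ‖f (F.e w * y)‖ ≤ c ^ m * (A * M) := by
    calc c ^ m * ‖f (F.e w * y)‖ ≤ A * c ^ m * M := h2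
      _ = c ^ m * (A * M) := by ring
  exact le_of_mul_le_mul_left h3 hc
end Pool.Agent.Helper911
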