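import Mathlib
import Pool.Agent.Helper911_Abs.Lev2
import Pool.Agent.Helper911_Abs.LA
import Pool.Agent.Helper911_Abs.KF
import Pool.Agent.Helper911_Abs.NE
import Pool.Agent.Helper911_Abs.NF

set_option autoImplicit false
set_option linter.unusedSectionVars false
set_option maxHeartbeats 1000000

noncomputable section

open Topology Filter

namespace Pool.Agent.Helper911


variable {p : ℕ} {G : Type*} [Group G] [TopologicalSpace G] [IsTopologicalGroup G] [T2Space G]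
  {W : Type*} [DecidableEq W] {F : Flag p G W} {C : Type*} [NormedField C] [IsUltrametricDist C]
  {X : CharData F C} {R : SubRep X}



/-! ======= TARGET ======= -/

/-- TARGET.
Proof. Let `A4` be the constant of `decay` for `Om.erase u` and `c`, and `AU` a common constant of `growth2` and `topnorm2` for the set `U0 u` (closed by `U0_clopen`, in `cell Om` by `chart_subset`). `A = A4` will do (`A4 ≥ 1`).
Given the data, let `f0 = cut (U0 u) f`. For `J : ℕ` let `f_J = cut (U0 u) (tr (z^J) f0)` and `h_J = tr (z^J) f - f_J`. As in the proof of `growth2`: `Bd f_J (M1 (r * cw u)^J)` where `M1` is an upper bound of `M0` and of the bound of `f` (`IsSec.exists_bd`); also `NB F u r 0 f_J (M1 (r * cw u)^J)`: for `n ∈ P u`, `z^l n z^{-l} ∈ Gam`, `y ∈ Q u ∩ Gam` with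
`x = e_u n y` and `x z^J ∈ U0 u`: `x z^J = t e_u (z^{-J} n z^J)(z^{-J} y z^J)` with `z^{-J} y z^J ∈ Gam` (`chart_inj`) and `z^(l+J) (z^{-J} n z^J) z^{-(l+J)} ∈ Gam`, so `‖f (x z^J)‖ ≤ (cw u)^J M0 r^(l+J)`. Hence by `topnorm2` for `U0 u`: `TN w f_J (AU M1 (r * cw u)^J)` for all `w` with `cw w = c`, and by
`growth2` `Bd (tr (z^m) f_J) (AU c^m M1 (r * cw u)^J)`. Fix `J` with `AU M1 (r * cw u)^J ≤ c^J M` (`hL.rc`). `h_J` is a section supported in a closed left invariant subset of `cell (Om.erase u)`: it vanishes unless `x z^J ∈ S`; and at `x` with `idx x = u`, `x z^J ∈ S`: then `x z^J ∈ U0 u` (`hSu`), so `x z^J = b e_u y` with `y ∈ Q u ∩ Gam` and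
`x = b' e_u (z^J y z^{-J}) ∈ U0 u`, so `f_J x = f (x z^J)` and `h_J x = 0`. More precisely `h_J` is supported in the union of the closed sets `{x | x z^J ∈ S, x ∉ U0 u}` and `{x ∈ U0 u | x z^J ∈ S \ U0 u}`, both in `cell (Om.erase u)`. For `w ∈ Ph.erase u` with `cw w = c`: `TN w h_J (c^J M)` (for `tr (z^J) f` by `TN_tr_Z`, `norm_chi_zpow`). `Ph.erase u ⊆ Om.erase u` and
`cell ((Om.erase u) \ (Ph.erase u)) = cell (Om \ Ph) ∩ cell (Om.erase u)` is open. So `decay` gives for `m ≥ m0`, `idx x ∈ Ph.erase u`: `‖h_J (x z^m)‖ ≤ A4 c^J M c^m ht x`; if `idx x = u` then `h_J (x z^m) = 0`. Together with the bound of `tr (z^m) f_J` we get the claim for `m + J`. -/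
theorem decay2 {Om : Finset W} {u : W} {c r : ℝ} (hL : Lev2 X Om u c r) :
    ∃ A : ℝ, 1 ≤ A ∧ ∀ Ph : Finset W, Ph ⊆ Om → IsOpen (cell F (Om \ Ph)) →
      ∀ S : Set G, IsClosed S → LInv F S → S ⊆ cell F Om →
      (∀ x ∈ S, F.idx x = u → x ∈ U0 F u) →
      ∀ f : G → C, IsSec X f → (∀ x ∉ S, f x = 0) → (∃ M0, NB F u r 0 f M0) →
      ∀ M : ℝ, 0 < M → (∀ w ∈ Ph, w ≠ u → cw X w = c → TN F w f M) →
      ∃ m0 : ℕ, ∀ m ≥ m0, ∀ x, F.idx x ∈ Ph → ‖f (x * F.z ^ m)‖ ≤ A * M * c ^ m * ht X x := by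
  classical
  obtain ⟨A4, hA4, hdec⟩ := decay X (Om.erase u) hL.open_er c hL.c_pos
    (fun w hw => hL.cw_le w (Finset.mem_of_mem_erase hw) (Finset.ne_of_mem_erase hw))
  have hU0c : IsClopen (U0 F u) := U0_clopen F u
  have hU0l : LInv F (U0 F u) := U0_linv F u
  have hU0Om : U0 F u ⊆ cell F Om := by
    rintro g ⟨b, hb, n, hn, y, hy, hnG, hyG, rfl⟩
    exact chart_subset F Om hL.open_Om u hL.hu b n y hb (F.P_le u hn) (F.Q_le u hy)
  obtain ⟨AG, hAG, hgrow⟩ := growth2 hL (U0 F u) hU0c.isClosed hU0l hU0Om (fun x hx _ => hx)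
  obtain ⟨AT, hAT, htop⟩ := topnorm2 hL (U0 F u) hU0c.isClosed hU0l hU0Om (fun x hx _ => hx)
  refine ⟨A4, hA4, ?_⟩
  intro Ph hPh hPho S hS hSi hSO hSu f hf hfS hNB M hM hTN
  obtain ⟨M0, hM0⟩ := hNB
  have hM0n : 0 ≤ M0 := by
    have h := hM0 0 1 (one_mem _) (by simp [one_mem]) 1 (one_mem _) (by simp [one_mem])
    simp only [pow_zero, mul_one] at h
    exact (norm_nonneg _).trans h
  -- the key computation
  have key : ∀ (J l : ℕ) (b n y : G), b ∈ F.B → n ∈ F.P u → F.z ^ l * n * (F.z ^ l)⁻¹ ∈ F.Gam →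
      y ∈ F.Q u → b * F.e u * n * y * F.z ^ J ∈ U0 F u →
      ‖f (b * F.e u * n * y * F.z ^ J)‖ ≤ ‖X.chi b‖ * (M0 * (r * cw X u) ^ J * r ^ l) := by
    intro J l b n y hb hn hnG hy hx
    have hzJ : F.z ^ J ∈ F.Z := zpow_mem_Z F J
    have hzJi : (F.z ^ J)⁻¹ ∈ F.Z := inv_mem hzJ
    have hn' : (F.z ^ J)⁻¹ * n * F.z ^ J ∈ F.P u := by
      have h := F.conj_P u _ hzJi n hn
      rwa [inv_inv] at h
    have hy' : (F.z ^ J)⁻¹ * y * F.z ^ J ∈ F.Q u := by
      have h := F.conj_Q u _ hzJi y hy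
      rwa [inv_inv] at h
    have ht : F.e u * F.z ^ J * (F.e u)⁻¹ ∈ F.B := conj_e_pow F u J
    have heq : b * F.e u * n * y * F.z ^ J = b * ((F.e u * F.z ^ J * (F.e u)⁻¹) *
        (F.e u * ((F.z ^ J)⁻¹ * n * F.z ^ J) * ((F.z ^ J)⁻¹ * y * F.z ^ J))) := by group
    obtain ⟨b2, hb2, n2, hn2, y2, hy2, hn2G, hy2G, heq2⟩ := hx
    have hinj := F.chart_inj u ((b * (F.e u * F.z ^ J * (F.e u)⁻¹))⁻¹ * b2)
      (mul_mem (inv_mem (mul_mem hb ht)) hb2) _ hn' _ hy' n2 hn2 y2 hy2 (by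
        have h3 := heq.symm.trans heq2
        rw [← mul_assoc] at h3
        calc F.e u * ((F.z ^ J)⁻¹ * n * F.z ^ J) * ((F.z ^ J)⁻¹ * y * F.z ^ J)
            = (b * (F.e u * F.z ^ J * (F.e u)⁻¹))⁻¹ * (b * (F.e u * F.z ^ J * (F.e u)⁻¹) *
              (F.e u * ((F.z ^ J)⁻¹ * n * F.z ^ J) * ((F.z ^ J)⁻¹ * y * F.z ^ J))) := by
              rw [inv_mul_cancel_left]
          _ = (b * (F.e u * F.z ^ J * (F.e u)⁻¹))⁻¹ * (b2 * F.e u * n2 * y2) := by rw [h3]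
          _ = _ := by simp only [mul_assoc])
    have hyG : (F.z ^ J)⁻¹ * y * F.z ^ J ∈ F.Gam := by rw [hinj.2]; exact hy2G
    have h1 := hM0 (l + J) _ hn' (by
      have : F.z ^ (l + J) * ((F.z ^ J)⁻¹ * n * F.z ^ J) * (F.z ^ (l + J))⁻¹
          = F.z ^ l * n * (F.z ^ l)⁻¹ := by
        rw [pow_add]; group
      rw [this]; exact hnG) _ hy' (by simpa using hyG)
    rw [heq, hf.norm_left b _ hb, hf.norm_left _ _ ht, norm_chi_zpow X u J]
    have h2 : cw X u ^ J * ‖f (F.e u * ((F.z ^ J)⁻¹ * n * F.z ^ J) * ((F.z ^ J)⁻¹ * y * F.z ^ J))‖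
        ≤ cw X u ^ J * (M0 * r ^ (l + J)) :=
      mul_le_mul_of_nonneg_left h1 (pow_nonneg (norm_nonneg _) J)
    have h3 : cw X u ^ J * (M0 * r ^ (l + J)) = M0 * (r * cw X u) ^ J * r ^ l := by
      rw [pow_add, mul_pow]; ring
    exact mul_le_mul_of_nonneg_left (h2.trans h3.le) (norm_nonneg _)
  -- the cut off function
  let fJ : ℕ → G → C := fun J => cut (U0 F u) (tr (F.z ^ J) (cut (U0 F u) f))
  have hfJsec : ∀ J, IsSec X (fJ J) := fun J =>
    ((hf.cut hU0c hU0l).tr (F.z ^ J)).cut hU0c hU0l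
  have hfJ0 : ∀ J, ∀ x ∉ U0 F u, fJ J x = 0 := fun J x hx => cut_of_notMem hx
  have hfJ1 : ∀ J x, x ∈ U0 F u → x * F.z ^ J ∈ U0 F u → fJ J x = f (x * F.z ^ J) := by
    intro J x hx hx'
    show cut (U0 F u) (tr (F.z ^ J) (cut (U0 F u) f)) x = _
    rw [cut_of_mem hx, tr_apply, cut_of_mem hx']
  have hfJ2 : ∀ J x, x * F.z ^ J ∉ U0 F u → fJ J x = 0 := by
    intro J x hx'
    by_cases hx : x ∈ U0 F u
    · show cut (U0 F u) (tr (F.z ^ J) (cut (U0 F u) f)) x = _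
      rw [cut_of_mem hx, tr_apply, cut_of_notMem hx']
    · exact hfJ0 J x hx
  have hrc0 : 0 ≤ r * cw X u := mul_nonneg hL.r_pos.le (norm_nonneg _)
  have hbdJ : ∀ J, Bd X (fJ J) (M0 * (r * cw X u) ^ J) := by
    intro J x
    have hnn : 0 ≤ M0 * (r * cw X u) ^ J * ht X x :=
      mul_nonneg (mul_nonneg hM0n (pow_nonneg hrc0 J)) (ht_pos X x).le
    by_cases hx : x ∈ U0 F u
    · by_cases hx' : x * F.z ^ J ∈ U0 F u
      · rw [hfJ1 J x hx hx']
        obtain ⟨b, hb, n, hn, y, hy, hnG, hyG, rfl⟩ := hx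
        have h1 := key J 0 b n y hb hn (by simpa using hnG) hy hx'
        have h2 : ht X (b * F.e u * n * y) = ‖X.chi b‖ := by
          have : b * F.e u * n * y = b * (F.e u * n * y) := by group
          rw [this, ht_eq X b _ hb (mul_mem (mul_mem (F.e_mem u) (F.Gam_le hnG)) (F.Gam_le hyG))]
        rw [h2]
        rw [pow_zero, mul_one] at h1
        linarith [mul_comm ‖X.chi b‖ (M0 * (r * cw X u) ^ J)]
      · rw [hfJ2 J x hx', norm_zero]; exact hnn
    · rw [hfJ0 J x hx, norm_zero]; exact hnn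
  have hNBJ : ∀ J, NB F u r 0 (fJ J) (M0 * (r * cw X u) ^ J) := by
    intro J l n hn hnG y hy hyG
    have hnG' : n ∈ F.Gam := by
      have h := shrink_N_pow F l _ (F.conj_N _ (zpow_mem_Z F l) n (F.P_le u hn)) hnG
      have h2 : (F.z ^ l)⁻¹ * (F.z ^ l * n * (F.z ^ l)⁻¹) * F.z ^ l = n := by group
      rwa [h2] at h
    have hyG' : y ∈ F.Gam := by simpa using hyG
    have hx : F.e u * n * y ∈ U0 F u :=
      ⟨1, one_mem _, n, hn, y, hy, hnG', hyG', by group⟩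
    by_cases hx' : F.e u * n * y * F.z ^ J ∈ U0 F u
    · rw [hfJ1 J _ hx hx']
      have h1 := key J l 1 n y (one_mem _) hn hnG hy (by rw [one_mul]; exact hx')
      rw [one_mul, X.chi_one, norm_one, one_mul] at h1
      exact h1
    · rw [hfJ2 J _ hx', norm_zero]
      exact mul_nonneg (mul_nonneg hM0n (pow_nonneg hrc0 J)) (pow_nonneg hL.r_pos.le l)
  -- choice of J
  obtain ⟨J, hJ⟩ : ∃ J : ℕ, max AG AT * (M0 * (r * cw X u) ^ J) ≤ c ^ J * M := by
    have hq1 : (r * cw X u) / c < 1 := (div_lt_one hL.c_pos).2 hL.rc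
    have hq0 : 0 ≤ (r * cw X u) / c := div_nonneg hrc0 hL.c_pos.le
    have hlim := (tendsto_pow_atTop_nhds_zero_of_lt_one hq0 hq1).const_mul (max AG AT * M0)
    rw [mul_zero] at hlim
    obtain ⟨J, hJ⟩ := (hlim.eventually (ge_mem_nhds hM)).exists
    refine ⟨J, ?_⟩
    have hcJ : 0 < c ^ J := pow_pos hL.c_pos J
    rw [div_pow] at hJ
    have h1 := mul_le_mul_of_nonneg_left hJ hcJ.le
    have h2 : c ^ J * (max AG AT * M0 * ((r * cw X u) ^ J / c ^ J)) =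
        max AG AT * (M0 * (r * cw X u) ^ J) := by
      field_simp
    linarith
  have hpos : 0 ≤ M0 * (r * cw X u) ^ J := mul_nonneg hM0n (pow_nonneg hrc0 J)
  have hJG : AG * (M0 * (r * cw X u) ^ J) ≤ c ^ J * M :=
    (mul_le_mul_of_nonneg_right (le_max_left _ _) hpos).trans hJ
  have hJT : AT * (M0 * (r * cw X u) ^ J) ≤ c ^ J * M :=
    (mul_le_mul_of_nonneg_right (le_max_right _ _) hpos).trans hJ
  have hcJ : 0 < c ^ J := pow_pos hL.c_pos J
  have hMJ : 0 < c ^ J * M := mul_pos hcJ hM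
  -- the remainder
  let h : G → C := tr (F.z ^ J) f - fJ J
  have hsec : IsSec X h := (hf.tr _).sub (hfJsec J)
  let S' : Set G := {x | x * F.z ^ J ∈ S ∧ ¬ (x ∈ U0 F u ∧ x * F.z ^ J ∈ U0 F u)}
  have hS'c : IsClosed S' := by
    have hc : Continuous (fun x : G => x * F.z ^ J) := continuous_id.mul continuous_const
    have h1 : IsClosed {x | x * F.z ^ J ∈ S} := hS.preimage hc
    have h2 : IsOpen {x | x ∈ U0 F u ∧ x * F.z ^ J ∈ U0 F u} :=
      hU0c.isOpen.inter (hU0c.isOpen.preimage hc)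
    exact h1.inter h2.isClosed_compl
  have hS'l : LInv F S' := by
    rintro b hb x ⟨h1, h2⟩
    refine ⟨?_, ?_⟩
    · rw [mul_assoc]; exact hSi b hb _ h1
    · rintro ⟨h3, h4⟩
      refine h2 ⟨(hU0l.mem_iff hb x).1 h3, ?_⟩
      rw [mul_assoc] at h4
      exact (hU0l.mem_iff hb _).1 h4
  have hzJ : F.z ^ J ∈ F.Z := zpow_mem_Z F J
  have hS'O : S' ⊆ cell F (Om.erase u) := by
    rintro x ⟨h1, h2⟩
    have hidx : F.idx (x * F.z ^ J) = F.idx x := F.idx_right_Z _ hzJ x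
    have hOmx : F.idx x ∈ Om := by
      have h3 := hSO h1
      change F.idx (x * F.z ^ J) ∈ Om at h3
      rwa [hidx] at h3
    refine Finset.mem_erase.2 ⟨?_, hOmx⟩
    intro hxu
    apply h2
    have h4 : x * F.z ^ J ∈ U0 F u := hSu _ h1 (hidx.trans hxu)
    refine ⟨?_, h4⟩
    obtain ⟨b, hb, y, hy, hyG, heq⟩ := U0_cell F u _ h4 (hidx.trans hxu)
    refine ⟨b * (F.e u * (F.z ^ J)⁻¹ * (F.e u)⁻¹),
      mul_mem hb (F.Z_le (F.conj_Z u _ (inv_mem hzJ))), 1, one_mem _,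
      F.z ^ J * y * (F.z ^ J)⁻¹, F.conj_Q u _ hzJ y hy, one_mem _,
      shrink_Nb_pow F J y (F.Q_le u hy) hyG, ?_⟩
    have h5 : x = (x * F.z ^ J) * (F.z ^ J)⁻¹ := by group
    rw [h5, heq]
    group
  have hS'0 : ∀ x ∉ S', h x = 0 := by
    intro x hx
    show tr (F.z ^ J) f x - fJ J x = 0
    rw [tr_apply]
    by_cases h1 : x * F.z ^ J ∈ S
    · have h2 : x ∈ U0 F u ∧ x * F.z ^ J ∈ U0 F u := by
        by_contra h3
        exact hx ⟨h1, h3⟩
      rw [hfJ1 J x h2.1 h2.2, sub_self]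
    · have h3 : f (x * F.z ^ J) = 0 := hfS _ h1
      by_cases h4 : x ∈ U0 F u ∧ x * F.z ^ J ∈ U0 F u
      · rw [hfJ1 J x h4.1 h4.2, sub_self]
      · rw [h3]
        by_cases h5 : x ∈ U0 F u
        · rw [hfJ2 J x (fun h6 => h4 ⟨h5, h6⟩), sub_self]
        · rw [hfJ0 J x h5, sub_self]
  have hPh' : Ph.erase u ⊆ Om.erase u := Finset.erase_subset_erase u hPh
  have hPho' : IsOpen (cell F (Om.erase u \ Ph.erase u)) := by
    have h1 : cell F (Om.erase u \ Ph.erase u) = cell F (Om \ Ph) ∩ cell F (Om.erase u) := by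
      ext x
      simp only [cell, Set.mem_setOf_eq, Set.mem_inter_iff, Finset.mem_sdiff, Finset.mem_erase]
      tauto
    rw [h1]
    exact hPho.inter hL.open_er
  obtain ⟨m0, hm0⟩ := hdec (Ph.erase u) hPh' hPho' S' hS'c hS'l hS'O h hsec hS'0 (c ^ J * M) hMJ (by
    intro w hw hcw
    have hwu : w ≠ u := Finset.ne_of_mem_erase hw
    have hwP : w ∈ Ph := Finset.mem_of_mem_erase hw
    have h1 : TN F w (tr (F.z ^ J) f) (c ^ J * M) := by
      have h2 := TN_tr_Z X hf (hTN w hwP hwu hcw) hzJ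
      rwa [norm_chi_zpow X w J, hcw] at h2
    have h2 : TN F w (fJ J) (c ^ J * M) :=
      TN_mono (htop (fJ J) (hfJsec J) (hfJ0 J) _ (hbdJ J) (hNBJ J) w hcw) hJT
    exact TN_sub h1 h2)
  refine ⟨m0 + J, ?_⟩
  intro m hm x hx
  obtain ⟨m', rfl⟩ : ∃ m', m = m' + J := ⟨m - J, by omega⟩
  have hm' : m0 ≤ m' := by omega
  have hsplit : f (x * F.z ^ (m' + J)) = h (x * F.z ^ m') + fJ J (x * F.z ^ m') := by
    show f (x * F.z ^ (m' + J)) = (tr (F.z ^ J) f (x * F.z ^ m') - fJ J (x * F.z ^ m')) + _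
    rw [sub_add_cancel, tr_apply, mul_assoc, ← pow_add]
  have hhtx : 0 < ht X x := ht_pos X x
  have hcm' : 0 < c ^ m' := pow_pos hL.c_pos m'
  have hb1 : ‖h (x * F.z ^ m')‖ ≤ A4 * M * c ^ (m' + J) * ht X x := by
    by_cases hxu : F.idx x = u
    · have hnot : x * F.z ^ m' ∉ S' := by
        intro hmem
        have h1 := hS'O hmem
        have h2 : F.idx (x * F.z ^ m') = F.idx x := F.idx_right_Z _ (zpow_mem_Z F m') x
        change F.idx (x * F.z ^ m') ∈ Om.erase u at h1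
        rw [h2, hxu] at h1
        exact (Finset.notMem_erase u Om) h1
      rw [hS'0 _ hnot, norm_zero]
      exact mul_nonneg (mul_nonneg (mul_nonneg (by linarith) hM.le) (pow_pos hL.c_pos _).le) hhtx.le
    · have h1 := hm0 m' hm' x (Finset.mem_erase.2 ⟨hxu, hx⟩)
      refine h1.trans (le_of_eq ?_)
      rw [pow_add]; ring
  have hb2 : ‖fJ J (x * F.z ^ m')‖ ≤ A4 * M * c ^ (m' + J) * ht X x := by
    have h1 := hgrow (fJ J) (hfJsec J) (hfJ0 J) _ (hbdJ J) (hNBJ J) m' x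
    rw [tr_apply] at h1
    have h2 : AG * c ^ m' * (M0 * (r * cw X u) ^ J) ≤ A4 * M * c ^ (m' + J) := by
      have h3 := mul_le_mul_of_nonneg_left hJG hcm'.le
      have h4 : 0 ≤ M * c ^ (m' + J) := (mul_pos hM (pow_pos hL.c_pos _)).le
      have h5 : c ^ m' * (c ^ J * M) = M * c ^ (m' + J) := by rw [pow_add]; ring
      have h6 : M * c ^ (m' + J) ≤ A4 * (M * c ^ (m' + J)) := le_mul_of_one_le_left h4 hA4
      calc AG * c ^ m' * (M0 * (r * cw X u) ^ J) = c ^ m' * (AG * (M0 * (r * cw X u) ^ J)) := by ring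
        _ ≤ c ^ m' * (c ^ J * M) := h3
        _ = M * c ^ (m' + J) := h5
        _ ≤ A4 * (M * c ^ (m' + J)) := h6
        _ = A4 * M * c ^ (m' + J) := by ring
    exact h1.trans (mul_le_mul_of_nonneg_right h2 hhtx.le)
  rw [hsplit]
  exact (IsUltrametricDist.norm_add_le_max _ _).trans (max_le hb1 hb2)
end Pool.Agent.Helper911
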