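import Mathlib
import Pool.Agent.Helper911_Abs.Lev2
import Pool.Agent.Helper911_Abs.KA
import Pool.Agent.Helper911_Abs.KC

set_option autoImplicit false
set_option linter.unusedSectionVars false
set_option maxHeartbeats 1000000

noncomputable section

open Topology Filter

namespace Pool.Agent.Helper911


variable {p : ℕ} {G : Type*} [Group G] [TopologicalSpace G] [IsTopologicalGroup G] [T2Space G]
  {W : Type*} [DecidableEq W] {F : Flag p G W} {C : Type*} [NormedField C] [IsUltrametricDist C]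
  {X : CharData F C} {R : SubRep X}



/-! ======= TARGET ======= -/

/-- TARGET.
Proof. Take `S0` from `attractor F Om hOm`. `{x ∈ S0 | idx x = u}` is closed (`S0` minus the open set `cell (Om.erase u)`) and left invariant, so by `absorb_cell` there is `m1` with `x (z^m)⁻¹ ∈ U0 u` for these `x` and `m ≥ m1`. Let
`S = {x | x * z^m1 ∈ S0}`. It is closed, left invariant, in `cell Om` (`cell_right_Z`); if `x ∈ S`, `idx x = u` then `x z^m1 ∈ S0` has index `u` so `x = (x z^m1) (z^m1)⁻¹ ∈ U0 u`. If `S'` is closed, left invariant in `cell Om`, and `x (z^m)⁻¹ ∈ S0` for `m ≥ m0`, `x ∈ S'`, then for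
`m ≥ m0 + m1`, `x (z^m)⁻¹ z^m1 = x (z^(m - m1))⁻¹ ∈ S0`. -/
theorem attractor2 (F : Flag p G W) (Om : Finset W) (hOm : IsOpen (cell F Om)) (u : W)
    (hOm' : IsOpen (cell F (Om.erase u))) :
    ∃ S : Set G, IsClosed S ∧ LInv F S ∧ S ⊆ cell F Om ∧ (∀ x ∈ S, F.idx x = u → x ∈ U0 F u) ∧
      ∀ S' : Set G, IsClosed S' → LInv F S' → S' ⊆ cell F Om →
        ∃ m0 : ℕ, ∀ m ≥ m0, ∀ x ∈ S', x * (F.z ^ m)⁻¹ ∈ S := by
  obtain ⟨S0, hc, hl, hs, hatt⟩ := attractor F Om hOm
  have hDc : IsClosed {x : G | x ∈ S0 ∧ F.idx x = u} := by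
    have h1 : {x : G | x ∈ S0 ∧ F.idx x = u} = S0 ∩ (cell F (Om.erase u))ᶜ := by
      ext x
      simp only [Set.mem_setOf_eq, Set.mem_inter_iff, Set.mem_compl_iff, cell, Finset.mem_erase,
        not_and]
      constructor
      · rintro ⟨h1, h2⟩
        exact ⟨h1, fun h3 => absurd h2 h3⟩
      · rintro ⟨h1, h2⟩
        refine ⟨h1, ?_⟩
        by_contra h3
        exact h2 h3 (hs h1)
    rw [h1]
    exact hc.inter hOm'.isClosed_compl
  obtain ⟨m1, hm1⟩ := absorb_cell (F := F) u {x : G | x ∈ S0 ∧ F.idx x = u} hDc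
    (fun b hb x hx => ⟨hl b hb x hx.1, by rw [F.idx_left b hb]; exact hx.2⟩) (fun x hx => hx.2)
  refine ⟨{x | x * F.z ^ m1 ∈ S0}, hc.preimage (continuous_mul_const _), ?_, ?_, ?_, ?_⟩
  · intro b hb x hx
    have h1 : b * (x * F.z ^ m1) ∈ S0 := hl b hb _ hx
    rw [← mul_assoc] at h1
    exact h1
  · intro x hx
    exact (cell_right_Z F Om x (F.z ^ m1) (zpow_mem_Z F m1)).1 (hs hx)
  · intro x hx hxu
    have h1 := hm1 m1 le_rfl (x * F.z ^ m1) ⟨hx, by
      rw [F.idx_right_Z _ (zpow_mem_Z F m1)]; exact hxu⟩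
    rwa [mul_assoc, mul_inv_cancel, mul_one] at h1
  · intro S' h1 h2 h3
    obtain ⟨m0, hm0⟩ := hatt S' h1 h2 h3
    refine ⟨m0 + m1, fun m hm x hx => ?_⟩
    have h4 := hm0 (m - m1) (by omega) x hx
    have h5 : F.z ^ m = F.z ^ m1 * F.z ^ (m - m1) := by
      rw [← pow_add]
      congr 1
      omega
    show x * (F.z ^ m)⁻¹ * F.z ^ m1 ∈ S0
    have h6 : x * (F.z ^ m)⁻¹ * F.z ^ m1 = x * (F.z ^ (m - m1))⁻¹ := by
      rw [h5]; group
    rw [h6]
    exact h4
end Pool.Agent.Helper911
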