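import Mathlib
import Pool.Agent.Helper911_Abs.Lev2
import Pool.Agent.Helper911_Abs.LA
import Pool.Agent.Helper911_Abs.KA
import Pool.Agent.Helper911_Abs.KC
import Pool.Agent.Helper911_Abs.NA
import Pool.Agent.Helper911_Abs.ND
import Pool.Agent.Helper911_Abs.NF
import Pool.Agent.Helper911_Abs.NG

set_option autoImplicit false
set_option linter.unusedSectionVars false
set_option maxHeartbeats 1000000

noncomputable section

open Topology Filter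

namespace Pool.Agent.Helper911


variable {p : ℕ} {G : Type*} [Group G] [TopologicalSpace G] [IsTopologicalGroup G] [T2Space G]
  {W : Type*} [DecidableEq W] {F : Flag p G W} {C : Type*} [NormedField C] [IsUltrametricDist C]
  {X : CharData F C} {R : SubRep X}



/-! ======= TARGET ======= -/

/-- TARGET.
Proof. Let `S0` be from `attractor2 F Om _ u`, `S1` from `attractor F (Om.erase u)`, `l1` from `near_small F u S1 _ _ 0` (points of `S1` have index `≠ u`), `A1` the constant of `topnorm2` for `S0`, `A2` the constant of `decay2`. `A = A1 * A2 * r^(-l1)` (inverse power of `r`, `0 < r < 1`).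
Given the data, let `Ph = {w ∈ Om | w ≠ w2 ∧ wle w2 w}`; `cell (Om \ Ph)` is open (if `idx g ∈ Om \ Ph` then either `g ∉ closure (cell {w2})` (`mem_closure_iff_wle`), an open condition, or `idx g = w2`, `g = b e_w2 y` with `y ∈ Nb`; then `{x | x y⁻¹ ∈ U0 w2}` is a neighbourhood of `g` whose intersection with `closure (cell {w2})` is in
`cell {w2}` by `closure_inter_U0`, `closure_right`). By `decay2` there is `m0` such that for `m ≥ m0`, `idx x ∈ Ph`: `‖f (x z^m)‖ ≤ A2 M c^m ht x`. Enlarge `m0` so that for `m ≥ m0`: `x (z^m)⁻¹ ∈ S0` for `x ∈ S`; `x (z^m)⁻¹ ∈ S1` for `x ∈ S \ U0 u` (closed, left invariant, in `cell (Om.erase u)` by `hSu`); and `M0 (r * cw u)^m ≤ A2 M c^m` (`hL.rc`). Fix `m = m0`,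
`f' = tr (z^m) f` (supported in `S0`), `η = A2 M c^m > 0`, `D = {x | η * ht x < ‖f' x‖}` (clopen, left invariant, `D ⊆ S0`), `f'' = f' - cut D f'`; `Bd f'' η`. Claim: `NB F u r 0 f'' (η * r^(-l1))`. Let `n ∈ P u`, `z^l n z^{-l} ∈ Gam`, `y ∈ Q u ∩ Gam`; `n ∈ Gam` (`shrink_N_pow`). If `l < l1`: `‖f'' (e_u n y)‖ ≤ η ht = η ≤ η r^(-l1) r^l`. If `l ≥ l1`: `‖f'' (e_u n y)‖ ≤ ‖f (x)‖` with `x = e_u n y z^m`.
If `x ∈ U0 u`, then `x = t e_u (z^{-m} n z^m)(z^{-m} y z^m)` with `z^{-m} y z^m ∈ Gam` (`chart_inj`), and `NB` for `f` gives `‖f x‖ ≤ (cw u)^m M0 r^(l+m) ≤ η r^l`. If `x ∉ U0 u` and `f x ≠ 0` then `x ∈ S \ U0 u` so `e_u n y = x (z^m)⁻¹ ∈ S1`, contradicting the choice of `l1`. So the claim holds, and `topnorm2` gives `TN w2 f'' (A1 η r^(-l1))` (note `η ≤ η r^(-l1)`).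
`D1 = D ∩ closure (cell {w2})` is closed, left invariant, and all its points have index `w2` (index in `Om`, `≥ w2`, and not in `Ph` since `‖f' x‖ ≤ η ht x` there). By `absorb_cell` there is `m1` with `x (z^m1)⁻¹ ∈ U0 w2` for `x ∈ D1`. Let `y ∈ Q w2` with `A M < ‖f (e_w2 y)‖`, `y' = z^m y z^{-m}`; `‖f' (e_w2 y')‖ = c^m ‖f (e_w2 y)‖ > A1 η r^(-l1)`. So
`e_w2 y' ∈ D` (otherwise `f'' = f'` there), so in `D1` (`subset_closure`), so `e_w2 y' (z^m1)⁻¹ ∈ U0 w2` and by `U0_cell`, `chart_inj`: `z^(m1+m) y z^{-(m1+m)} ∈ Gam`. -/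
theorem relc2 {Om : Finset W} {u : W} {c r : ℝ} (hL : Lev2 X Om u c r) :
    ∃ A : ℝ, 1 ≤ A ∧ ∀ w2 ∈ Om, w2 ≠ u → cw X w2 = c →
      ∀ S : Set G, IsClosed S → LInv F S → S ⊆ cell F Om →
      (∀ x ∈ S, F.idx x = u → x ∈ U0 F u) →
      ∀ f : G → C, IsSec X f → (∀ x ∉ S, f x = 0) → (∃ M0, NB F u r 0 f M0) →
      ∀ M : ℝ, 0 < M →
      (∀ w ∈ Om, w ≠ u → w ≠ w2 → wle F w2 w → cw X w = c → TN F w f M) →
      ∃ m : ℕ, ∀ y ∈ F.Q w2, A * M < ‖f (F.e w2 * y)‖ → F.z ^ m * y * (F.z ^ m)⁻¹ ∈ F.Gam := by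
  classical
  obtain ⟨S0, hS0c, hS0i, hS0O, hS0u, hS0⟩ := attractor2 F Om hL.open_Om u hL.open_er
  obtain ⟨S1, hS1c, hS1i, hS1O, hS1⟩ := attractor F (Om.erase u) hL.open_er
  obtain ⟨l1, hl1⟩ := near_small F u S1 hS1c (fun x hx => (Finset.mem_erase.1 (hS1O hx)).1) 0
  obtain ⟨A1, hA1, hA1'⟩ := topnorm2 hL S0 hS0c hS0i hS0O hS0u
  obtain ⟨A2, hA2, hA2'⟩ := decay2 hL
  have hr0 := hL.r_pos
  have hr1 := hL.r_lt_one
  have hc0 := hL.c_pos
  have hri : 1 ≤ (r⁻¹) ^ l1 := one_le_pow₀ ((one_le_inv₀ hr0).2 hr1.le)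
  have hri0 : 0 < (r⁻¹) ^ l1 := lt_of_lt_of_le one_pos hri
  have hA1p : 0 < A1 := lt_of_lt_of_le one_pos hA1
  have hA2p : 0 < A2 := lt_of_lt_of_le one_pos hA2
  refine ⟨A1 * A2 * (r⁻¹) ^ l1, one_le_mul_of_one_le_of_one_le
    (one_le_mul_of_one_le_of_one_le hA1 hA2) hri, ?_⟩
  intro w2 hw2 hw2u hcw2 S hSc hSi hSO hSu f hf hfS hNB M hM hTN
  -- the set of the cells above `w2`
  obtain ⟨Ph, hPh⟩ : ∃ Ph : Finset W, Ph = Om.filter (fun w => w ≠ w2 ∧ wle F w2 w) := ⟨_, rfl⟩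
  have hPhm : ∀ w, w ∈ Ph ↔ w ∈ Om ∧ w ≠ w2 ∧ wle F w2 w := fun w => by
    rw [hPh, Finset.mem_filter]
  have hPhO : Ph ⊆ Om := fun w hw => ((hPhm w).1 hw).1
  have hopen : IsOpen (cell F (Om \ Ph)) := by
    rw [isOpen_iff_mem_nhds]
    intro g hg
    have hg' : F.idx g ∈ Om \ Ph := hg
    rw [Finset.mem_sdiff] at hg'
    obtain ⟨hg1, hg2⟩ := hg'
    by_cases hgc : g ∈ closure (cell F {w2})
    · have hw : F.idx g = w2 := by
        by_contra hne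
        exact hg2 ((hPhm _).2 ⟨hg1, hne, (mem_closure_iff_wle F w2 g).1 hgc⟩)
      obtain ⟨b, hb, q, hq, hgq⟩ := exists_rep_Q F g
      rw [hw] at hq hgq
      have hU : IsOpen {x : G | x * q⁻¹ ∈ U0 F w2} :=
        (U0_clopen F w2).isOpen.preimage (continuous_mul_const q⁻¹)
      have hgU : g ∈ {x : G | x * q⁻¹ ∈ U0 F w2} := by
        show g * q⁻¹ ∈ U0 F w2
        rw [hgq, mul_inv_cancel_right]
        exact U0_linv F w2 b hb _ (e_mem_U0 F w2)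
      filter_upwards [hL.open_Om.mem_nhds (show g ∈ cell F Om from hg1), hU.mem_nhds hgU]
        with x hx1 hx2
      show F.idx x ∈ Om \ Ph
      rw [Finset.mem_sdiff]
      refine ⟨hx1, fun hx3 => ?_⟩
      obtain ⟨_, hx4, hx5⟩ := (hPhm _).1 hx3
      apply hx4
      have hqN : q⁻¹ ∈ F.Nb := F.Nb.inv_mem (F.Q_le w2 hq)
      have hx6 : x * q⁻¹ ∈ closure (cell F {w2}) :=
        closure_right F {w2} q⁻¹ x hqN ((mem_closure_iff_wle F w2 x).2 hx5)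
      have hx7 := closure_inter_U0 F w2 (x * q⁻¹) hx6 hx2
      rwa [F.idx_right_Nb _ hqN] at hx7
    · filter_upwards [hL.open_Om.mem_nhds (show g ∈ cell F Om from hg1),
        (isClosed_closure.isOpen_compl).mem_nhds (show g ∈ (closure (cell F {w2}))ᶜ from hgc)]
        with x hx1 hx2
      show F.idx x ∈ Om \ Ph
      rw [Finset.mem_sdiff]
      refine ⟨hx1, fun hx3 => ?_⟩
      obtain ⟨_, _, hx5⟩ := (hPhm _).1 hx3
      exact hx2 ((mem_closure_iff_wle F w2 x).2 hx5)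
  obtain ⟨ma, hma⟩ := hA2' Ph hPhO hopen S hSc hSi hSO hSu f hf hfS hNB M hM (fun w hw hwu hwc => by
    obtain ⟨h1, h2, h3⟩ := (hPhm w).1 hw
    exact hTN w h1 hwu h2 h3 hwc)
  obtain ⟨M0, hM0⟩ := hNB
  obtain ⟨mb, hmb⟩ := hS0 S hSc hSi hSO
  obtain ⟨mc, hmc⟩ := hS1 (S ∩ (U0 F u)ᶜ) (hSc.inter (U0_clopen F u).isOpen.isClosed_compl)
    (by
      intro b hb g hg
      exact ⟨hSi b hb g hg.1, fun h => hg.2 (((U0_linv F u).mem_iff hb g).1 h)⟩)
    (by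
      intro g hg
      exact Finset.mem_erase.2 ⟨fun h => hg.2 (hSu g hg.1 h), hSO hg.1⟩)
  obtain ⟨md, hmd⟩ : ∃ md : ℕ, ∀ m ≥ md, M0 * (r * cw X u) ^ m ≤ A2 * M * c ^ m := by
    have hcw : 0 ≤ cw X u := norm_nonneg _
    have hq0 : 0 ≤ r * cw X u / c := div_nonneg (mul_nonneg hr0.le hcw) hc0.le
    have hq1 : r * cw X u / c < 1 := (div_lt_one hc0).2 hL.rc
    have ht : Tendsto (fun m : ℕ => M0 * (r * cw X u / c) ^ m) atTop (𝓝 (M0 * 0)) :=
      (tendsto_pow_atTop_nhds_zero_of_lt_one hq0 hq1).const_mul M0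
    rw [mul_zero] at ht
    obtain ⟨md, hmd⟩ := Filter.eventually_atTop.1
      (ht.eventually (gt_mem_nhds (show (0 : ℝ) < A2 * M from mul_pos hA2p hM)))
    refine ⟨md, fun m hm => ?_⟩
    have h1 := hmd m hm
    have hcm : 0 < c ^ m := pow_pos hc0 m
    rw [div_pow, ← mul_div_assoc, div_lt_iff₀ hcm] at h1
    exact h1.le
  obtain ⟨m, hma', hmb', hmc', hmd'⟩ : ∃ m : ℕ, ma ≤ m ∧ mb ≤ m ∧ mc ≤ m ∧ md ≤ m :=
    ⟨max (max ma mb) (max mc md), by simp, by simp, by simp, by simp⟩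
  have hzZ : F.z ^ m ∈ F.Z := zpow_mem_Z F m
  obtain ⟨f', hf'def⟩ : ∃ f' : G → C, f' = tr (F.z ^ m) f := ⟨_, rfl⟩
  have hf'x : ∀ x, f' x = f (x * F.z ^ m) := fun x => by rw [hf'def, tr_apply]
  have hf' : IsSec X f' := by rw [hf'def]; exact hf.tr _
  have hsupp : ∀ x, f' x ≠ 0 → x * F.z ^ m ∈ S := by
    intro x hx
    by_contra hn
    exact hx (by rw [hf'x]; exact hfS _ hn)
  have hS0' : ∀ x, f' x ≠ 0 → x ∈ S0 := by
    intro x hx
    have := hmb m hmb' _ (hsupp x hx)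
    rwa [mul_inv_cancel_right] at this
  obtain ⟨η, hη⟩ : ∃ η : ℝ, η = A2 * M * c ^ m := ⟨_, rfl⟩
  have hη0 : 0 < η := by rw [hη]; exact mul_pos (mul_pos hA2p hM) (pow_pos hc0 m)
  obtain ⟨D, hD⟩ : ∃ D : Set G, D = {x | η * ht X x < ‖f' x‖} := ⟨_, rfl⟩
  have hDm : ∀ x, x ∈ D ↔ η * ht X x < ‖f' x‖ := fun x => by rw [hD]; exact Iff.rfl
  have hDc : IsClopen D := by rw [hD]; exact level_clopen hf' hη0
  have hDi : LInv F D := by rw [hD]; exact level_linv hf'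
  have hDne : ∀ x ∈ D, f' x ≠ 0 := by
    intro x hx h0
    have h1 := (hDm x).1 hx
    rw [h0, norm_zero] at h1
    exact absurd h1 (not_lt.2 (mul_nonneg hη0.le (ht_pos (X := X) x).le))
  obtain ⟨f2, hf2def⟩ : ∃ f2 : G → C, f2 = f' - cut D f' := ⟨_, rfl⟩
  have hf2D : ∀ x ∈ D, f2 x = 0 := by
    intro x hx
    rw [hf2def, Pi.sub_apply, cut_of_mem hx, sub_self]
  have hf2n : ∀ x, x ∉ D → f2 x = f' x := by
    intro x hx
    rw [hf2def, Pi.sub_apply, cut_of_notMem hx, sub_zero]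
  have hf2s : IsSec X f2 := by rw [hf2def]; exact hf'.sub (hf'.cut hDc hDi)
  have hf2le : ∀ x, ‖f2 x‖ ≤ ‖f' x‖ := by
    intro x
    by_cases hx : x ∈ D
    · rw [hf2D x hx, norm_zero]; exact norm_nonneg _
    · rw [hf2n x hx]
  have hf2B : Bd X f2 η := by
    intro x
    by_cases hx : x ∈ D
    · rw [hf2D x hx, norm_zero]; exact mul_nonneg hη0.le (ht_pos (X := X) x).le
    · rw [hf2n x hx]
      exact not_lt.1 (fun h => hx ((hDm x).2 h))
  have hf2S0 : ∀ x ∉ S0, f2 x = 0 := by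
    intro x hx
    have h1 : f' x = 0 := by
      by_contra hn
      exact hx (hS0' x hn)
    have h2 := hf2le x
    rw [h1, norm_zero] at h2
    exact norm_le_zero_iff.1 h2
  -- the near bound
  have hrl : (r⁻¹) ^ l1 * r ^ l1 = 1 := by
    rw [← mul_pow, inv_mul_cancel₀ hr0.ne', one_pow]
  have hNB2 : NB F u r 0 f2 (η * (r⁻¹) ^ l1) := by
    intro l n hn hnG y hy hyG
    have hyG' : y ∈ F.Gam := by simpa using hyG
    have hnN : n ∈ F.N := F.P_le u hn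
    have hzl : F.z ^ l ∈ F.Z := zpow_mem_Z F l
    have hnG' : n ∈ F.Gam := by
      have h1 := shrink_N_pow F l _ (F.conj_N _ hzl _ hnN) hnG
      have e : (F.z ^ l)⁻¹ * (F.z ^ l * n * (F.z ^ l)⁻¹) * F.z ^ l = n := by group
      rwa [e] at h1
    rcases Nat.lt_or_ge l l1 with hlt | hge
    · have h1 := hf2B (F.e u * n * y)
      have h2 : ht X (F.e u * n * y) = 1 := by
        rw [mul_assoc]
        exact ht_e X u _ (F.K.mul_mem (F.Gam_le hnG') (F.Gam_le hyG'))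
      rw [h2, mul_one] at h1
      refine h1.trans ?_
      have h3 : r ^ l1 ≤ r ^ l := pow_le_pow_of_le_one hr0.le hr1.le hlt.le
      have h4 : 1 ≤ (r⁻¹) ^ l1 * r ^ l := by
        rw [← hrl]
        exact mul_le_mul_of_nonneg_left h3 hri0.le
      calc η = η * 1 := (mul_one _).symm
        _ ≤ η * ((r⁻¹) ^ l1 * r ^ l) := mul_le_mul_of_nonneg_left h4 hη0.le
        _ = η * (r⁻¹) ^ l1 * r ^ l := by ring
    · refine (hf2le _).trans ?_
      rw [hf'x]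
      have hpos : 0 ≤ η * (r⁻¹) ^ l1 * r ^ l :=
        mul_nonneg (mul_nonneg hη0.le hri0.le) (pow_nonneg hr0.le l)
      by_cases hfx : f (F.e u * n * y * F.z ^ m) = 0
      · rw [hfx, norm_zero]; exact hpos
      have hxS : F.e u * n * y * F.z ^ m ∈ S := by
        by_contra hns
        exact hfx (hfS _ hns)
      by_cases hxU : F.e u * n * y * F.z ^ m ∈ U0 F u
      · obtain ⟨b, hb, n1, hn1, y1, hy1, hn1G, hy1G, hxe⟩ := hxU
        have hzi : (F.z ^ m)⁻¹ ∈ F.Z := F.Z.inv_mem hzZ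
        have hn' : (F.z ^ m)⁻¹ * n * F.z ^ m ∈ F.P u := by
          have := F.conj_P u _ hzi n hn
          rwa [inv_inv] at this
        have hy' : (F.z ^ m)⁻¹ * y * F.z ^ m ∈ F.Q u := by
          have := F.conj_Q u _ hzi y hy
          rwa [inv_inv] at this
        have htB : F.e u * F.z ^ m * (F.e u)⁻¹ ∈ F.B := conj_e_pow F u m
        have heq : F.e u * ((F.z ^ m)⁻¹ * n * F.z ^ m) * ((F.z ^ m)⁻¹ * y * F.z ^ m) =
            ((F.e u * F.z ^ m * (F.e u)⁻¹)⁻¹ * b) * F.e u * n1 * y1 := by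
          have h1 : F.e u * n1 * y1 = b⁻¹ * (F.e u * n * y * F.z ^ m) := by
            rw [hxe]; group
          have h2 : ((F.e u * F.z ^ m * (F.e u)⁻¹)⁻¹ * b) * F.e u * n1 * y1 =
              ((F.e u * F.z ^ m * (F.e u)⁻¹)⁻¹ * b) * (F.e u * n1 * y1) := by group
          rw [h2, h1]
          group
        obtain ⟨_, hyy⟩ := F.chart_inj u _ (F.B.mul_mem (F.B.inv_mem htB) hb) _ hn' _ hy' _ hn1
          _ hy1 heq
        have hy'G : (F.z ^ m)⁻¹ * y * F.z ^ m ∈ F.Gam := by rw [hyy]; exact hy1G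
        have h3 := hM0 (l + m) _ hn' (by
          have e : F.z ^ (l + m) * ((F.z ^ m)⁻¹ * n * F.z ^ m) * (F.z ^ (l + m))⁻¹ =
              F.z ^ l * n * (F.z ^ l)⁻¹ := by
            rw [pow_add]; group
          rw [e]; exact hnG) _ hy' (by simpa using hy'G)
        have h4 : f (F.e u * n * y * F.z ^ m) = X.chi (F.e u * F.z ^ m * (F.e u)⁻¹) *
            f (F.e u * ((F.z ^ m)⁻¹ * n * F.z ^ m) * ((F.z ^ m)⁻¹ * y * F.z ^ m)) := by
          have e1 : F.e u * n * y * F.z ^ m = F.e u * (n * y) * F.z ^ m := by group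
          have e2 : F.e u * ((F.z ^ m)⁻¹ * n * F.z ^ m) * ((F.z ^ m)⁻¹ * y * F.z ^ m) =
              F.e u * ((F.z ^ m)⁻¹ * (n * y) * F.z ^ m) := by group
          rw [e1, e2, sec_tr_Z X hf u hzZ]
        rw [h4, norm_mul, norm_chi_zpow]
        have hcwn : 0 ≤ cw X u ^ m := pow_nonneg (norm_nonneg _) m
        calc cw X u ^ m * ‖f (F.e u * ((F.z ^ m)⁻¹ * n * F.z ^ m) * ((F.z ^ m)⁻¹ * y * F.z ^ m))‖
            ≤ cw X u ^ m * (M0 * r ^ (l + m)) := mul_le_mul_of_nonneg_left h3 hcwn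
          _ = M0 * (r * cw X u) ^ m * r ^ l := by rw [pow_add, mul_pow]; ring
          _ ≤ η * r ^ l := by
              rw [hη]
              exact mul_le_mul_of_nonneg_right (hmd m hmd') (pow_nonneg hr0.le l)
          _ ≤ η * (r⁻¹) ^ l1 * r ^ l := by
              refine mul_le_mul_of_nonneg_right ?_ (pow_nonneg hr0.le l)
              exact le_mul_of_one_le_right hη0.le hri
      · exfalso
        have h1 := hmc m hmc' _ ⟨hxS, hxU⟩
        rw [mul_inv_cancel_right] at h1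
        exact hl1 l hge n hn hnG y hy hyG h1
  have hTN2 : TN F w2 f2 (A1 * (η * (r⁻¹) ^ l1)) :=
    hA1' f2 hf2s hf2S0 _ (hf2B.mono (le_mul_of_one_le_right hη0.le hri)) hNB2 w2 hcw2
  -- the points of `D` in the closure of the cell of `w2`
  obtain ⟨m1, hm1⟩ := absorb_cell w2 (D ∩ closure (cell F {w2})) (hDc.isClosed.inter isClosed_closure)
    (fun b hb g hg => ⟨hDi b hb g hg.1, closure_left F {w2} b g hb hg.2⟩)
    (by
      intro x hx
      by_contra hne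
      have h1 := hsupp x (hDne x hx.1)
      have h2 : F.idx x ∈ Om := by
        have h3 : F.idx (x * F.z ^ m) ∈ Om := hSO h1
        rwa [F.idx_right_Z _ hzZ] at h3
      have h3 : F.idx x ∈ Ph := (hPhm _).2 ⟨h2, hne, (mem_closure_iff_wle F w2 x).1 hx.2⟩
      have h4 := hma m hma' x h3
      rw [← hf'x, ← hη] at h4
      exact absurd ((hDm x).1 hx.1) (not_lt.2 h4))
  refine ⟨m1 + m, fun y hy hyA => ?_⟩
  have hy'Q : F.z ^ m * y * (F.z ^ m)⁻¹ ∈ F.Q w2 := F.conj_Q w2 _ hzZ y hy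
  have hy'N : F.z ^ m * y * (F.z ^ m)⁻¹ ∈ F.Nb := F.Q_le w2 hy'Q
  have hval : ‖f' (F.e w2 * (F.z ^ m * y * (F.z ^ m)⁻¹))‖ = c ^ m * ‖f (F.e w2 * y)‖ := by
    rw [hf'x, sec_tr_Z X hf w2 hzZ, norm_mul, norm_chi_zpow, hcw2]
    congr 4
    group
  have hinD : F.e w2 * (F.z ^ m * y * (F.z ^ m)⁻¹) ∈ D := by
    by_contra hn
    have h1 := hTN2 _ hy'N
    rw [hf2n _ hn, hval] at h1
    have h2 : c ^ m * (A1 * A2 * (r⁻¹) ^ l1 * M) < c ^ m * ‖f (F.e w2 * y)‖ :=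
      mul_lt_mul_of_pos_left hyA (pow_pos hc0 m)
    have h3 : A1 * (η * (r⁻¹) ^ l1) = c ^ m * (A1 * A2 * (r⁻¹) ^ l1 * M) := by rw [hη]; ring
    rw [h3] at h1
    exact absurd h2 (not_lt.2 h1)
  have hidx : F.idx (F.e w2 * (F.z ^ m * y * (F.z ^ m)⁻¹)) = w2 := by
    rw [F.idx_right_Nb _ hy'N, F.idx_e]
  have hincl : F.e w2 * (F.z ^ m * y * (F.z ^ m)⁻¹) ∈ closure (cell F {w2}) := by
    apply subset_closure
    show F.idx _ ∈ ({w2} : Finset W)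
    rw [hidx]
    exact Finset.mem_singleton_self _
  have hU := hm1 m1 le_rfl _ ⟨hinD, hincl⟩
  have hz1 : (F.z ^ m1)⁻¹ ∈ F.Z := F.Z.inv_mem (zpow_mem_Z F m1)
  have hidx2 : F.idx (F.e w2 * (F.z ^ m * y * (F.z ^ m)⁻¹) * (F.z ^ m1)⁻¹) = w2 := by
    rw [F.idx_right_Z _ hz1, hidx]
  obtain ⟨b, hb, y2, hy2, hy2G, hye⟩ := U0_cell F w2 _ hU hidx2
  have htB : F.e w2 * F.z ^ m1 * (F.e w2)⁻¹ ∈ F.B := conj_e_pow F w2 m1
  have hQ2 : F.z ^ m1 * (F.z ^ m * y * (F.z ^ m)⁻¹) * (F.z ^ m1)⁻¹ ∈ F.Q w2 :=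
    F.conj_Q w2 _ (zpow_mem_Z F m1) _ hy'Q
  have heq : F.e w2 * 1 * (F.z ^ m1 * (F.z ^ m * y * (F.z ^ m)⁻¹) * (F.z ^ m1)⁻¹) =
      ((F.e w2 * F.z ^ m1 * (F.e w2)⁻¹) * b) * F.e w2 * 1 * y2 := by
    have h1 : F.e w2 * y2 = b⁻¹ * (F.e w2 * (F.z ^ m * y * (F.z ^ m)⁻¹) * (F.z ^ m1)⁻¹) := by
      rw [hye]; group
    have h2 : ((F.e w2 * F.z ^ m1 * (F.e w2)⁻¹) * b) * F.e w2 * 1 * y2 =
        ((F.e w2 * F.z ^ m1 * (F.e w2)⁻¹) * b) * (F.e w2 * y2) := by group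
    rw [h2, h1]
    group
  obtain ⟨_, hyy⟩ := F.chart_inj w2 _ (F.B.mul_mem htB hb) 1 (F.P w2).one_mem _ hQ2 1
    (F.P w2).one_mem _ hy2 heq
  have e : F.z ^ (m1 + m) * y * (F.z ^ (m1 + m))⁻¹ =
      F.z ^ m1 * (F.z ^ m * y * (F.z ^ m)⁻¹) * (F.z ^ m1)⁻¹ := by
    rw [pow_add]; group
  rw [e, hyy]
  exact hy2G
end Pool.Agent.Helper911
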