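import Mathlib
import Pool.Agent.Helper911_Abs.Lev2
import Pool.Agent.Helper911_Abs.LA
import Pool.Agent.Helper911_Abs.KA
import Pool.Agent.Helper911_Abs.NA
import Pool.Agent.Helper911_Abs.NB1
import Pool.Agent.Helper911_Abs.NC
import Pool.Agent.Helper911_Abs.NF
import Pool.Agent.Helper911_Abs.NG
import Pool.Agent.Helper911_Abs.NH

set_option autoImplicit false
set_option linter.unusedSectionVars false
set_option maxHeartbeats 1000000

noncomputable section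

open Topology Filter

namespace Pool.Agent.Helper911


variable {p : ℕ} {G : Type*} [Group G] [TopologicalSpace G] [IsTopologicalGroup G] [T2Space G]
  {W : Type*} [DecidableEq W] {F : Flag p G W} {C : Type*} [NormedField C] [IsUltrametricDist C]
  {X : CharData F C} {R : SubRep X}



/-! ======= AUXILIARY ======= -/

theorem c2_zinv (m : ℕ) : (F.z ^ m)⁻¹ ∈ F.Z := F.Z.inv_mem (zpow_mem_Z F m)

theorem c2_P (u : W) (m : ℕ) {n : G} (hn : n ∈ F.P u) : (F.z ^ m)⁻¹ * n * F.z ^ m ∈ F.P u := by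
  have h := F.conj_P u _ (c2_zinv (F := F) m) n hn
  rwa [inv_inv] at h

theorem c2_Q (u : W) (m : ℕ) {n : G} (hn : n ∈ F.Q u) : (F.z ^ m)⁻¹ * n * F.z ^ m ∈ F.Q u := by
  have h := F.conj_Q u _ (c2_zinv (F := F) m) n hn
  rwa [inv_inv] at h

theorem NB_mono {u : W} {r : ℝ} (hr : 0 ≤ r) {j : ℕ} {f : G → C} {A A' : ℝ}
    (h : NB F u r j f A) (hA : A ≤ A') : NB F u r j f A' := fun l n hn hn' y hy hy' =>
  (h l n hn hn' y hy hy').trans (mul_le_mul_of_nonneg_right hA (pow_nonneg hr l))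

/-- reduction to a support which is near the cell of `u` in the chart at `u` -/
theorem c2_red {Om : Finset W} {u : W} {c r : ℝ} (hL : Lev2 X Om u c r) {g : G → C}
    (hg : IsSec X g) {S : Set G} (hS : IsClosed S) (hSi : LInv F S) (hSO : S ⊆ cell F Om)
    (hg0 : ∀ x ∉ S, g x = 0) (hNB : ∀ j : ℕ, ∃ A : ℝ, NB F u r j g A) :
    ∃ (m0 : ℕ) (S' : Set G), IsClosed S' ∧ LInv F S' ∧ S' ⊆ cell F Om ∧
      (∀ x ∈ S', F.idx x = u → x ∈ U0 F u) ∧ (∀ x ∉ S', tr (F.z ^ m0) g x = 0) ∧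
      ∃ A : ℝ, NB F u r 0 (tr (F.z ^ m0) g) A := by
  have hDc : IsClosed (S ∩ (cell F (Om.erase u))ᶜ) := hS.inter hL.open_er.isClosed_compl
  have hDi : LInv F (S ∩ (cell F (Om.erase u))ᶜ) := by
    intro b hb x hx
    refine ⟨hSi b hb x hx.1, fun h => hx.2 ?_⟩
    exact ((cell_linv F (Om.erase u)).mem_iff hb x).1 h
  have hDu : ∀ x ∈ S ∩ (cell F (Om.erase u))ᶜ, F.idx x = u := by
    intro x hx
    by_contra hne
    exact hx.2 (Finset.mem_erase.2 ⟨hne, hSO hx.1⟩)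
  obtain ⟨m0, hm0⟩ := absorb_cell u _ hDc hDi hDu
  refine ⟨m0, {x | x * F.z ^ m0 ∈ S}, ?_, ?_, ?_, ?_, ?_, ?_⟩
  · exact hS.preimage (continuous_id.mul continuous_const)
  · intro b hb x hx
    have h := hSi b hb _ hx
    show b * x * F.z ^ m0 ∈ S
    rwa [mul_assoc]
  · intro x hx
    have h := hSO hx
    exact (cell_right_Z F Om x _ (zpow_mem_Z F m0)).1 h
  · intro x hx hxu
    have h : x * F.z ^ m0 ∈ S ∩ (cell F (Om.erase u))ᶜ := by
      refine ⟨hx, fun h => ?_⟩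
      have h' := (cell_right_Z F (Om.erase u) x _ (zpow_mem_Z F m0)).1 h
      exact (Finset.mem_erase.1 h').1 hxu
    have h' := hm0 m0 le_rfl _ h
    rwa [mul_inv_cancel_right] at h'
  · intro x hx
    exact hg0 _ hx
  · obtain ⟨A, hA⟩ := hNB m0
    refine ⟨cw X u ^ m0 * max A 0, fun l n hn hn' y hy hy' => ?_⟩
    have e1 : tr (F.z ^ m0) g (F.e u * n * y) =
        X.chi (F.e u * F.z ^ m0 * (F.e u)⁻¹) *
          g (F.e u * ((F.z ^ m0)⁻¹ * n * F.z ^ m0) * ((F.z ^ m0)⁻¹ * y * F.z ^ m0)) := by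
      have h := sec_tr_Z X hg u (zpow_mem_Z F m0) (n * y)
      rw [tr_apply]
      have e2 : F.e u * n * y * F.z ^ m0 = F.e u * (n * y) * F.z ^ m0 := by group
      have e3 : F.e u * ((F.z ^ m0)⁻¹ * n * F.z ^ m0) * ((F.z ^ m0)⁻¹ * y * F.z ^ m0) =
          F.e u * ((F.z ^ m0)⁻¹ * (n * y) * F.z ^ m0) := by group
      rw [e2, e3, h]
    have h1 := hA (l + m0) _ (c2_P u m0 hn) (by
      have e4 : F.z ^ (l + m0) * ((F.z ^ m0)⁻¹ * n * F.z ^ m0) * (F.z ^ (l + m0))⁻¹ =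
          F.z ^ l * n * (F.z ^ l)⁻¹ := by
        rw [pow_add]; group
      rw [e4]; exact hn') _ (c2_Q u m0 hy) (by
      have e5 : F.z ^ m0 * ((F.z ^ m0)⁻¹ * y * F.z ^ m0) * (F.z ^ m0)⁻¹ =
          F.z ^ 0 * y * (F.z ^ 0)⁻¹ := by group
      rw [e5]; exact hy')
    rw [e1, norm_mul, norm_chi_zpow]
    have h2 : A * r ^ (l + m0) ≤ max A 0 * r ^ l := by
      have h3 : r ^ (l + m0) ≤ r ^ l :=
        pow_le_pow_of_le_one hL.r_pos.le hL.r_lt_one.le (Nat.le_add_right l m0)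
      calc A * r ^ (l + m0) ≤ max A 0 * r ^ (l + m0) :=
            mul_le_mul_of_nonneg_right (le_max_left _ _) (pow_nonneg hL.r_pos.le _)
        _ ≤ max A 0 * r ^ l := mul_le_mul_of_nonneg_left h3 (le_max_right _ _)
    have h4 : 0 ≤ cw X u ^ m0 := pow_nonneg (norm_nonneg (X.chi (F.e u * F.z * (F.e u)⁻¹))) m0
    rw [mul_assoc (cw X u ^ m0)]
    exact mul_le_mul_of_nonneg_left (h1.trans h2) h4

theorem c2_chi_inv (w : W) (m : ℕ) :
    ‖X.chi (F.e w * (F.z ^ m)⁻¹ * (F.e w)⁻¹)‖ = (cw X w ^ m)⁻¹ := by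
  have e : F.e w * (F.z ^ m)⁻¹ * (F.e w)⁻¹ = (F.e w * F.z ^ m * (F.e w)⁻¹)⁻¹ := by group
  rw [e, X.chi_inv _ (conj_e_pow F w m), norm_inv, norm_chi_zpow]

/-- transfer of `TN` back from `tr (z^m) g` to `g` -/
theorem c2_TN_back {g : G → C} (hg : IsSec X g) {w : W} {m : ℕ} {M : ℝ}
    (h : TN F w (tr (F.z ^ m) g) M) : TN F w g ((cw X w ^ m)⁻¹ * M) := by
  have h1 := TN_tr_Z X (hg.tr (F.z ^ m)) h (c2_zinv (F := F) m)
  rw [c2_chi_inv] at h1
  have e : tr (F.z ^ m)⁻¹ (tr (F.z ^ m) g) = g := by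
    rw [tr_tr, inv_mul_cancel]
    funext x
    rw [tr_apply, mul_one]
  rwa [e] at h1

theorem c2_TN_fwd {g : G → C} (hg : IsSec X g) {w : W} {m : ℕ} {M : ℝ}
    (h : TN F w g M) : TN F w (tr (F.z ^ m) g) (cw X w ^ m * M) := by
  have h1 := TN_tr_Z X hg h (zpow_mem_Z F m)
  rwa [norm_chi_zpow] at h1

/-- points of `U0 w2` are in the cells of `Om` other than `u` -/
theorem c2_U0 {Om : Finset W} {u : W} {c r : ℝ} (hL : Lev2 X Om u c r) {w2 : W} (hw2 : w2 ∈ Om)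
    (hne : w2 ≠ u) (x : G) (hx : x ∈ U0 F w2) : F.idx x ∈ Om ∧ F.idx x ≠ u := by
  obtain ⟨b, hb, n, hn, y, hy, -, -, rfl⟩ := hx
  have hnN := F.P_le w2 hn
  have hyN := F.Q_le w2 hy
  refine ⟨chart_subset F Om hL.open_Om w2 hw2 b n y hb hnN hyN, fun h => hne ?_⟩
  have e : F.idx (b * F.e w2 * n * y) = F.idx (F.e w2 * n) := by
    rw [F.idx_right_Nb y hyN, mul_assoc b, F.idx_left b hb]
  rw [e] at h
  have h1 := wle_of_N F w2 u n hnN h
  exact wle_antisymm F (hL.top w2 hw2) h1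

/-- sections supported in `U0 w2` are small near the cell of `u` -/
theorem c2_NB_E {Om : Finset W} {u : W} {c r : ℝ} (hL : Lev2 X Om u c r) {w2 : W} (hw2 : w2 ∈ Om)
    (hne : w2 ≠ u) {E : G → C} (hE : IsSec X E) (hE0 : ∀ x ∉ U0 F w2, E x = 0) (j : ℕ) :
    ∃ A : ℝ, NB F u r j E A := by
  obtain ⟨l0, hl0⟩ := near_small F u (U0 F w2) (U0_clopen F w2).1
    (fun x hx => (c2_U0 hL hw2 hne x hx).2) j
  have hb : ∀ l : ℕ, ∃ B : ℝ, ∀ n ∈ F.P u, F.z ^ l * n * (F.z ^ l)⁻¹ ∈ F.Gam →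
      ∀ y ∈ F.Q u, F.z ^ j * y * (F.z ^ j)⁻¹ ∈ F.Gam → ‖E (F.e u * n * y)‖ ≤ B := by
    intro l
    have hc : Continuous (fun q : G × G => E (F.e u * ((F.z ^ l)⁻¹ * q.1 * F.z ^ l) *
        ((F.z ^ j)⁻¹ * q.2 * F.z ^ j))) := by
      refine hE.1.comp ?_
      fun_prop
    obtain ⟨B, hB⟩ := ((PG_compact F u).prod (QG_compact F u)).exists_bound_of_continuousOn
      hc.continuousOn
    refine ⟨B, fun n hn hn' y hy hy' => ?_⟩
    have h1 := hB (F.z ^ l * n * (F.z ^ l)⁻¹, F.z ^ j * y * (F.z ^ j)⁻¹)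
      ⟨⟨F.conj_P u _ (zpow_mem_Z F l) n hn, hn'⟩, ⟨F.conj_Q u _ (zpow_mem_Z F j) y hy, hy'⟩⟩
    have e1 : (F.z ^ l)⁻¹ * (F.z ^ l * n * (F.z ^ l)⁻¹) * F.z ^ l = n := by group
    have e2 : (F.z ^ j)⁻¹ * (F.z ^ j * y * (F.z ^ j)⁻¹) * F.z ^ j = y := by group
    simp only [e1, e2] at h1
    exact h1
  choose B hB using hb
  have hpos : ∀ l ∈ Finset.range l0, 0 ≤ |B l| / r ^ l := fun l _ =>
    div_nonneg (abs_nonneg _) (pow_nonneg hL.r_pos.le _)
  refine ⟨∑ l ∈ Finset.range l0, |B l| / r ^ l, fun l n hn hn' y hy hy' => ?_⟩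
  have hrl : 0 < r ^ l := pow_pos hL.r_pos l
  rcases lt_or_ge l l0 with h | h
  · have h1 := hB l n hn hn' y hy hy'
    have h2 : |B l| / r ^ l ≤ ∑ l ∈ Finset.range l0, |B l| / r ^ l :=
      Finset.single_le_sum hpos (Finset.mem_range.2 h)
    calc ‖E (F.e u * n * y)‖ ≤ B l := h1
      _ ≤ |B l| := le_abs_self _
      _ = |B l| / r ^ l * r ^ l := by rw [div_mul_cancel₀ _ hrl.ne']
      _ ≤ _ := mul_le_mul_of_nonneg_right h2 hrl.le
  · rw [hE0 _ (hl0 l h n hn hn' y hy hy'), norm_zero]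
    exact mul_nonneg (Finset.sum_nonneg hpos) hrl.le

/-! ======= TARGET ======= -/

/-- TARGET.
Proof. `T = {w ∈ Om | w ≠ u ∧ cw X w = c}` (filter), `V' = V2 R Om u r _`. Fields:
`le`, `open_Om`, `T_sub`, `c_pos`, `cw_T`: clear. `stab_Nb`: `V2_stab_Nb`. `stab_Z`: `V2_stab_Z`. `nonvan`: `f`, `w1`.
`lower`: let `w2 ∈ T`, `wle w w2`, `w ∉ T`. `w ∈ Om` (the open set `cell Om` contains `e_w2`, so it meets the cell of `w`); `w ≠ u` (else `wle u w2`, `wle w2 u` by `hL.top`, so `w2 = u` by `wle_antisymm`); so `cw w ≤ c` and `≠ c`.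
Reduction (*): let `g ∈ VOm R Om`-type function: a section `g` supported in a closed left invariant `S ⊆ cell Om`. By `absorb_cell` (applied to `{x ∈ S | idx x = u}`, closed as `S` minus `cell (Om.erase u)`) there is `m0` such that `S' = {x | x * z^m0 ∈ S}` satisfies: `x ∈ S'`, `idx x = u` implies `x ∈ U0 u`. `g' = tr (z^m0) g` is supported in `S'`. If
`NB F u r m0 g A` then `NB F u r 0 g' ((cw u)^m0 * A)` (with `A ≥ 0`): `g' (e_u n y) = χ(e_u z^m0 e_u⁻¹) g (e_u (z^{-m0} n z^m0) (z^{-m0} y z^m0))`, `z^(l+m0) (z^{-m0} n z^m0) z^{-(l+m0)} ∈ Gam`, and `r^(l+m0) ≤ r^l`. Moreover for `w` with `cw w = c`: `TN w g M` iff `TN w g' (c^m0 M)`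
(`g' (e_w y) = χ(e_w z^m0 e_w⁻¹) g (e_w (z^{-m0} y z^m0))`, and `y ↦ z^{-m0} y z^m0` is a bijection of `Nb`).
`topfin`: `topnorm2` for `g'` (`S'`), with a common bound for `Bd` and `NB` (`IsSec.exists_bd`).
`relc`: the constant of `relc2`; apply it to `g'` and `c^m0 M`, `w2 = u` of the statement; if `A M < ‖g (e y)‖` then `A (c^m0 M) < ‖g' (e (z^m0 y z^{-m0}))‖`, so `z^(m+m0) y z^{-(m+m0)} ∈ Gam`.
`decay`: the constant of `decay2`. Let `w2 ∈ T`, `f ∈ V'`, `E` supported in `U0 w2`. `U0 w2` is closed, left invariant, contained in `cell Om` (`chart_subset`) and all its points have index `≠ u` (a point `b e_w2 n y` has `wle idx w2` by `wle_of_N`, `idx_right_Nb`; and `wle u w2` is impossible). So by `near_small` `E` vanishes at the points `e_u n y` with `z^l n z^{-l} ∈ Gam`, `z^j y z^{-j} ∈ Gam` for `l ≥ l0(j)`, and for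
`l < l0` it is bounded there (compactness), so `NB F u r j E A'` for some `A'`; hence `g = f - E` has `NB F u r j g A''` for each `j`. Apply (*) and `decay2` with `Ph = Om` (`Om \ Om = ∅`, `cell_empty`) to `g'` and `c^m0 M`: for large `m` and `idx x ∈ Om`: `‖g' (x z^m)‖ ≤ A c^m0 M c^m ht x`, and `g' (x z^m) = g (x z^(m+m0))`-like (`tr (z^m) (tr (z^m0) g) = tr (z^(m+m0)) g`); if
`idx x ∉ Om` then `g (x z^k) = 0`. -/
theorem core2 (hGU : GamU F) (hZ : ZComm F) {Om : Finset W} {u : W} {c r : ℝ} (hL : Lev2 X Om u c r)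
    {f : G → C} (hf : f ∈ V2 R Om u r hL.r_pos.le) {w1 : W} (hw1 : w1 ∈ Om) (hne : w1 ≠ u)
    (hc1 : cw X w1 = c) (hf1 : f (F.e w1) ≠ 0) :
    ∃ T : Finset W, T ⊆ Om.erase u ∧ Nonempty (CoreData X R Om T c) := by
  classical
  have hr := hL.r_pos
  have hr1 := hL.r_lt_one
  have hcp := hL.c_pos
  have hmem : ∀ w, w ∈ Om.filter (fun w => w ≠ u ∧ cw X w = c) ↔ w ∈ Om ∧ w ≠ u ∧ cw X w = c :=
    fun w => Finset.mem_filter
  refine ⟨Om.filter (fun w => w ≠ u ∧ cw X w = c), ?_, ⟨?_⟩⟩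
  · intro w hw
    have h := (hmem w).1 hw
    exact Finset.mem_erase.2 ⟨h.2.1, h.1⟩
  refine
    { V' := V2 R Om u r hL.r_pos.le
      le := fun g hg => hg.1.1
      stab_Nb := fun g hg y hy => V2_stab_Nb hGU hr hr1 hg hy
      stab_Z := fun g hg t ht => V2_stab_Z hZ hr hr1 hg ht
      open_Om := hL.open_Om
      T_sub := Finset.filter_subset _ _
      c_pos := hcp
      cw_T := fun w hw => ((hmem w).1 hw).2.2
      topfin := ?_
      relc := ?_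
      decay := ?_
      nonvan := ⟨f, hf, w1, (hmem w1).2 ⟨hw1, hne, hc1⟩, hf1⟩
      lower := ?_ }
  · -- topfin
    rintro g hg w hw
    obtain ⟨⟨hgV, S, hS, hSi, hSO, hg0⟩, hNB⟩ := hg
    have hgs := R.sec g hgV
    obtain ⟨m0, S', h1, h2, h3, h4, h5, A1, h6⟩ := c2_red hL hgs hS hSi hSO hg0 hNB
    obtain ⟨M1, hM1, hB1⟩ := (hgs.tr (F.z ^ m0)).exists_bd
    obtain ⟨A, hA, h7⟩ := topnorm2 hL S' h1 h2 h3 h4
    have h8 := h7 _ (hgs.tr (F.z ^ m0)) h5 (max A1 M1) (hB1.mono (le_max_right _ _))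
      (NB_mono hr.le h6 (le_max_left _ _)) w ((hmem w).1 hw).2.2
    exact ⟨_, c2_TN_back hgs h8⟩
  · -- relc
    obtain ⟨A, hA, h7⟩ := relc2 hL
    refine ⟨A, hA, ?_⟩
    rintro w2 hw2 g hg M hM hT
    obtain ⟨⟨hgV, S, hS, hSi, hSO, hg0⟩, hNB⟩ := hg
    have hgs := R.sec g hgV
    obtain ⟨m0, S', h1, h2, h3, h4, h5, h6⟩ := c2_red hL hgs hS hSi hSO hg0 hNB
    obtain ⟨hw2O, hw2u, hw2c⟩ := (hmem w2).1 hw2
    obtain ⟨m, hm⟩ := h7 w2 hw2O hw2u hw2c S' h1 h2 h3 h4 _ (hgs.tr (F.z ^ m0)) h5 h6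
      (c ^ m0 * M) (mul_pos (pow_pos hcp _) hM) (by
        intro w hwO hwu hw2 hle hwc
        have h8 := c2_TN_fwd (m := m0) hgs (hT w ((hmem w).2 ⟨hwO, hwu, hwc⟩) hw2 hle)
        rwa [hwc] at h8)
    refine ⟨m + m0, fun y hy hlt => ?_⟩
    have h9 := hm (F.z ^ m0 * y * (F.z ^ m0)⁻¹) (F.conj_Q w2 _ (zpow_mem_Z F m0) y hy) (by
      have e1 : tr (F.z ^ m0) g (F.e w2 * (F.z ^ m0 * y * (F.z ^ m0)⁻¹)) =
          X.chi (F.e w2 * F.z ^ m0 * (F.e w2)⁻¹) * g (F.e w2 * y) := by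
        have h := sec_tr_Z X hgs w2 (zpow_mem_Z F m0) (F.z ^ m0 * y * (F.z ^ m0)⁻¹)
        have e2 : (F.z ^ m0)⁻¹ * (F.z ^ m0 * y * (F.z ^ m0)⁻¹) * F.z ^ m0 = y := by group
        rw [e2] at h
        rw [tr_apply, h]
      rw [e1, norm_mul, norm_chi_zpow, hw2c]
      have h10 := mul_lt_mul_of_pos_left hlt (pow_pos hcp m0)
      calc A * (c ^ m0 * M) = c ^ m0 * (A * M) := by ring
        _ < _ := h10)
    have e3 : F.z ^ m * (F.z ^ m0 * y * (F.z ^ m0)⁻¹) * (F.z ^ m)⁻¹ =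
        F.z ^ (m + m0) * y * (F.z ^ (m + m0))⁻¹ := by
      rw [pow_add]; group
    rwa [e3] at h9
  · -- decay
    obtain ⟨A, hA, h7⟩ := decay2 hL
    refine ⟨A, hA, ?_⟩
    rintro w2 hw2 g hg E hE hE0 M hM hT
    obtain ⟨⟨hgV, S, hS, hSi, hSO, hg0⟩, hNB⟩ := hg
    obtain ⟨hw2O, hw2u, hw2c⟩ := (hmem w2).1 hw2
    have hgs : IsSec X (g - E) := (R.sec g hgV).sub hE
    have hS2 : IsClosed (S ∪ U0 F w2) := hS.union (U0_clopen F w2).1
    have hS2i : LInv F (S ∪ U0 F w2) := by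
      rintro b hb x (hx | hx)
      · exact Or.inl (hSi b hb x hx)
      · exact Or.inr (U0_linv F w2 b hb x hx)
    have hS2O : S ∪ U0 F w2 ⊆ cell F Om := by
      rintro x (hx | hx)
      · exact hSO hx
      · exact (c2_U0 hL hw2O hw2u x hx).1
    have hg20 : ∀ x ∉ S ∪ U0 F w2, (g - E) x = 0 := by
      intro x hx
      rw [Set.mem_union, not_or] at hx
      rw [Pi.sub_apply, hg0 x hx.1, hE0 x hx.2, sub_zero]
    have hNB2 : ∀ j : ℕ, ∃ A : ℝ, NB F u r j (g - E) A := by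
      intro j
      obtain ⟨A1, hA1⟩ := hNB j
      obtain ⟨A2, hA2⟩ := c2_NB_E hL hw2O hw2u hE hE0 j
      refine ⟨max A1 A2, fun l n hn hn' y hy hy' => ?_⟩
      rw [Pi.sub_apply, sub_eq_add_neg]
      refine (IsUltrametricDist.norm_add_le_max _ _).trans (max_le ?_ ?_)
      · exact NB_mono hr.le hA1 (le_max_left _ _) l n hn hn' y hy hy'
      · rw [norm_neg]
        exact NB_mono hr.le hA2 (le_max_right _ _) l n hn hn' y hy hy'
    obtain ⟨m0, S', h1, h2, h3, h4, h5, h6⟩ := c2_red hL hgs hS2 hS2i hS2O hg20 hNB2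
    obtain ⟨m1, hm1⟩ := h7 Om (Finset.Subset.refl _) (by
        rw [Finset.sdiff_self, cell_empty]
        exact isOpen_empty) S' h1 h2 h3 h4 _ (hgs.tr (F.z ^ m0)) h5 h6
      (c ^ m0 * M) (mul_pos (pow_pos hcp _) hM) (by
        intro w hwO hwu hwc
        have h8 := c2_TN_fwd (m := m0) hgs (hT w ((hmem w).2 ⟨hwO, hwu, hwc⟩))
        rwa [hwc] at h8)
    refine ⟨m1 + m0, fun m hm x => ?_⟩
    obtain ⟨k, rfl⟩ : ∃ k, m = k + m0 := ⟨m - m0, by omega⟩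
    have hk : m1 ≤ k := by omega
    have hnn : 0 ≤ A * M * c ^ (k + m0) * ht X x := by
      have := ht_pos X x
      have := pow_pos hcp (k + m0)
      positivity
    rw [tr_apply]
    by_cases hx : F.idx x ∈ Om
    · have h8 := hm1 k hk x hx
      rw [tr_apply] at h8
      have e1 : x * F.z ^ k * F.z ^ m0 = x * F.z ^ (k + m0) := by rw [pow_add, mul_assoc]
      rw [e1] at h8
      refine h8.trans (le_of_eq ?_)
      rw [pow_add]; ring
    · have h8 : x * F.z ^ (k + m0) ∉ S ∪ U0 F w2 := by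
        intro h
        exact hx ((cell_right_Z F Om x _ (zpow_mem_Z F (k + m0))).1 (hS2O h))
      rw [hg20 _ h8, norm_zero]
      exact hnn
  · -- lower
    intro w2 hw2 w hle hwT
    obtain ⟨hw2O, hw2u, hw2c⟩ := (hmem w2).1 hw2
    have hwO : w ∈ Om := by
      have h1 : F.e w2 ∈ cell F Om := by
        show F.idx (F.e w2) ∈ Om
        rw [F.idx_e]; exact hw2O
      obtain ⟨x, hx1, hx2⟩ := mem_closure_iff.1 hle _ hL.open_Om h1
      have h2 : F.idx x = w := Finset.mem_singleton.1 hx2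
      rw [← h2]; exact hx1
    have hwu : w ≠ u := by
      rintro rfl
      exact hw2u (wle_antisymm F (hL.top w2 hw2O) hle)
    have hne' : cw X w ≠ c := fun h => hwT ((hmem w).2 ⟨hwO, hwu, h⟩)
    exact lt_of_le_of_ne (hL.cw_le w hwO hwu) hne'
end Pool.Agent.Helper911
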