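import Mathlib
import Pool.Agent.Helper911_Abs.Lev2
import Pool.Agent.Helper911_Abs.NI
import Pool.Agent.Helper911_Abs.MD
import Pool.Agent.Helper911_Abs.LO

set_option autoImplicit false
set_option linter.unusedSectionVars false
set_option maxHeartbeats 1000000

noncomputable section

open Topology Filter

namespace Pool.Agent.Helper911


variable {p : ℕ} {G : Type*} [Group G] [TopologicalSpace G] [IsTopologicalGroup G] [T2Space G]
  {W : Type*} [DecidableEq W] {F : Flag p G W} {C : Type*} [NormedField C] [IsUltrametricDist C]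
  {X : CharData F C} {R : SubRep X}



/-! ======= TARGET ======= -/

/-- TARGET.
Proof. By `core2` there are `T ⊆ Om.erase u` and core data `D0`; by `core_phi` there are `w ∈ T` and `Φ ∈ R.V` with `IsPhi X w Φ`. By `phi_support` for `w ∈ Om` there is `Om' ⊆ Om` consisting of the elements `≤ w`, with `cell Om'` open and `Φ` supported in a closed left invariant subset of `cell Om'`; so
`Φ ∈ VOm R Om'`. `u ∉ Om'`: otherwise `wle u w`, and `wle w u` by `hL.top`, so `w = u` (`wle_antisymm`), contradiction. So `Om' ⊂ Om` and `hm.min` gives `Φ = 0`, but `Φ (e_w) = χ 1 = 1` (`hΦ.1` with `b = n = y = 1`). -/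
theorem level2_false [Fact p.Prime] {rho : ℝ} (hd : Disc p C rho) (tie : TieHyp X)
    (hGU : GamU F) (hZ : ZComm F) {Om : Finset W} (hm : MinOm R Om) {u : W} {c r : ℝ} (hL : Lev2 X Om u c r)
    {f : G → C} (hf : f ∈ V2 R Om u r hL.r_pos.le) {w1 : W} (hw1 : w1 ∈ Om) (hne : w1 ≠ u)
    (hc1 : cw X w1 = c) (hf1 : f (F.e w1) ≠ 0) : False := by
  obtain ⟨T, hT, ⟨D0⟩⟩ := core2 hGU hZ hL hf hw1 hne hc1 hf1
  obtain ⟨w, hwT, _, Φ, hΦV, hΦ⟩ := core_phi hd tie D0
  have hwO : w ∈ Om := Finset.mem_of_mem_erase (hT hwT)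
  have hwu : w ≠ u := Finset.ne_of_mem_erase (hT hwT)
  obtain ⟨Om', hsub, hiff, hopen, S, hS1, hS2, hS3, hS4⟩ := phi_support Om hL.open_Om hwO hΦ
  have hmem : Φ ∈ VOm R Om' := ⟨hΦV, S, hS1, hS2, hS3, hS4⟩
  have hu : u ∉ Om' := by
    intro h
    exact hwu (wle_antisymm F (hL.top w hwO) ((hiff u).1 h))
  have hss : Om' ⊂ Om := by
    refine Finset.ssubset_iff_subset_ne.2 ⟨hsub, ?_⟩
    rintro rfl
    exact hu hL.hu
  have h0 := hm.min Om' hss hopen Φ hmem
  have h1 := hΦ.1 1 (one_mem _) 1 (one_mem _) 1 (one_mem _) (one_mem _)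
  rw [h0, X.chi_one] at h1
  exact zero_ne_one h1
end Pool.Agent.Helper911
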