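import Mathlib
import Pool.Agent.Helper911_Abs.Lev2
import Pool.Agent.Helper911_Abs.LA

set_option autoImplicit false
set_option linter.unusedSectionVars false
set_option maxHeartbeats 1000000

noncomputable section

open Topology Filter

namespace Pool.Agent.Helper911


variable {p : ℕ} {G : Type*} [Group G] [TopologicalSpace G] [IsTopologicalGroup G] [T2Space G]
  {W : Type*} [DecidableEq W] {F : Flag p G W} {C : Type*} [NormedField C] [IsUltrametricDist C]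
  {X : CharData F C} {R : SubRep X}



/-! ======= TARGET ======= -/

/-- TARGET.
Proof. Membership in `VOm R Om`: `tr h Φ ∈ R.V`, supported in `{x | x * h ∈ S}`, closed, left invariant, in `cell Om` since `h ∈ Nb` (`cell_right_Nb`); `VOm` is a submodule.
Let `j` be given, `f = ∑_{h ∈ J} a h • tr h Φ`, `A ≥ 0` the constant of `est`. Let `l ≥ j`, `n ∈ P u`, `n0 = z^l n z^{-l} ∈ Gam`, `y ∈ Q u`, `z^j y z^{-j} ∈ Gam`, `y0 = z^l y z^{-l} ∈ Gam` (`shrink_Nb_pow`). For `h ∈ J`, `h_l = z^l h z^{-l} ∈ Gam` (`shrink_Nb_pow`), and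
`e_u n0 y0 h_l ∈ U0 u` by `hGU`: `= b_h e_u n_h y_h` with `b_h ∈ B`, `n_h ∈ P u ∩ Gam`, `y_h ∈ Q u ∩ Gam`. Conjugating by `z^{-l}`, with `t = e_u z^l e_u⁻¹ ∈ Z`: `e_u n y h = (t⁻¹ b_h t) e_u (z^{-l} n_h z^l) (z^{-l} y_h z^l)`. Let `y' = z^{-l} y_h z^l`. Claim: `y' ∈ Gam ↔ y ∈ Gam`. Note `n ∈ Gam` and `z^{-l} n_h z^l ∈ Gam` (`shrink_N_pow`), so by `chart_inj`:
`e_u n y ∈ U0 u ↔ y ∈ Gam` and `e_u n y h ∈ U0 u ↔ y' ∈ Gam`; and `U0 u` is right `Gam`-invariant: `U0 u = B e_u Gam` (`⊆` since `n, y ∈ Gam`; `⊇` by `hGU`, `U0_linv`), `h ∈ Gam`. If `y ∉ Gam` then all `Φ (e_u n y h) = 0` (`hΦ.2` and `chart_inj`) and `f (e_u n y) = 0`. If `y ∈ Gam` then `Φ (e_u n y h) = χ (t⁻¹ b_h t) = χ (b_h)` (`hΦ.1`, `chi_mul`), so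
`f (e_u n y) = ∑ a h χ(b_h)`, of norm `≤ A r^l` by `est` (choose `b h = b_h`). For `l < j`: `n ∈ P u ∩ Gam` and `z^j y z^{-j} ∈ Gam` describe a compact set of points `e_u n y`, on which the continuous `f` is bounded by some `A2`, so the bound `A2 r^(-j) r^l` holds. -/
theorem dphi_V2 (hGU : GamU F) {Om : Finset W} {u : W} {r : ℝ} (hr : 0 < r) (hr1 : r < 1)
    {Φ : G → C} (hΦR : Φ ∈ R.V) (hΦ : IsPhi X u Φ)
    (hS : ∃ S, IsClosed S ∧ LInv F S ∧ S ⊆ cell F Om ∧ ∀ x ∉ S, Φ x = 0)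
    (J : Finset G) (a : G → C) (hJ : ∀ h ∈ J, h ∈ F.Gam ∧ h ∈ F.Nb)
    (est : ∃ A : ℝ, ∀ l : ℕ, ∀ n ∈ F.P u, n ∈ F.Gam → ∀ y ∈ F.Q u, y ∈ F.Gam → ∀ b : G → G,
      (∀ h ∈ J, b h ∈ F.B ∧ ∃ n' ∈ F.P u, n' ∈ F.Gam ∧ ∃ y' ∈ F.Q u, y' ∈ F.Gam ∧
        F.e u * n * y * (F.z ^ l * h * (F.z ^ l)⁻¹) = b h * F.e u * n' * y') →
      ‖∑ h ∈ J, a h * X.chi (b h)‖ ≤ A * r ^ l) :
    (∑ h ∈ J, a h • tr h Φ) ∈ V2 R Om u r hr.le := by
  classical
  have hmem : (∑ h ∈ J, a h • tr h Φ) ∈ VOm R Om := by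
    refine Submodule.sum_mem _ fun h hh => Submodule.smul_mem _ _ ?_
    obtain ⟨S, h1, h2, h3, h4⟩ := hS
    refine ⟨R.stab Φ hΦR h, {x | x * h ∈ S}, h1.preimage (continuous_mul_const h), ?_, ?_, ?_⟩
    · intro b hb x hx
      show b * x * h ∈ S
      rw [mul_assoc]
      exact h2 b hb _ hx
    · intro x hx
      exact (cell_right_Nb F Om x h (hJ h hh).2).1 (h3 hx)
    · intro x hx
      exact h4 _ hx
  refine ⟨hmem, fun j => ?_⟩
  have hsec : IsSec X (∑ h ∈ J, a h • tr h Φ) := R.sec _ hmem.1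
  obtain ⟨A, hA⟩ := est
  -- the compact set
  have hcomp : IsCompact ((fun q : G × G => F.e u * q.1 * ((F.z ^ j)⁻¹ * q.2 * F.z ^ j)) ''
      ({y : G | y ∈ F.P u ∧ y ∈ F.Gam} ×ˢ {y : G | y ∈ F.Q u ∧ y ∈ F.Gam})) := by
    refine ((PG_compact F u).prod (QG_compact F u)).image ?_
    fun_prop
  obtain ⟨A2, hA2⟩ := hcomp.exists_bound_of_continuousOn (f := (∑ h ∈ J, a h • tr h Φ))
    hsec.1.continuousOn
  refine ⟨max (max A 0) (|A2| * (r ^ j)⁻¹), fun l n hn hn' y hy hy' => ?_⟩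
  have hrl : 0 < r ^ l := pow_pos hr l
  have hzl : F.z ^ l ∈ F.Z := zpow_mem_Z F l
  have hzl' : (F.z ^ l)⁻¹ ∈ F.Z := inv_mem hzl
  have hnG : n ∈ F.Gam := by
    have h1 := shrink_N_pow F l _ (F.P_le u (F.conj_P u _ hzl n hn)) hn'
    have h2 : (F.z ^ l)⁻¹ * (F.z ^ l * n * (F.z ^ l)⁻¹) * F.z ^ l = n := by group
    rwa [h2] at h1
  by_cases hlj : l < j
  · -- the bounded range
    have hzj : F.z ^ j ∈ F.Z := zpow_mem_Z F j
    have hb := hA2 (F.e u * n * y) ⟨(n, F.z ^ j * y * (F.z ^ j)⁻¹),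
      ⟨⟨hn, hnG⟩, ⟨F.conj_Q u _ hzj y hy, hy'⟩⟩, by
        show F.e u * n * ((F.z ^ j)⁻¹ * (F.z ^ j * y * (F.z ^ j)⁻¹) * F.z ^ j) = F.e u * n * y
        group⟩
    have h1 : r ^ j ≤ r ^ l := pow_le_pow_of_le_one hr.le hr1.le hlj.le
    have hrj : 0 < r ^ j := pow_pos hr j
    calc ‖(∑ h ∈ J, a h • tr h Φ) (F.e u * n * y)‖ ≤ A2 := hb
      _ ≤ |A2| := le_abs_self _
      _ = |A2| * (r ^ j)⁻¹ * r ^ j := by field_simp
      _ ≤ |A2| * (r ^ j)⁻¹ * r ^ l := by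
          apply mul_le_mul_of_nonneg_left h1
          positivity
      _ ≤ max (max A 0) (|A2| * (r ^ j)⁻¹) * r ^ l :=
          mul_le_mul_of_nonneg_right (le_max_right _ _) hrl.le
  · push Not at hlj
    have ht : F.e u * F.z ^ l * (F.e u)⁻¹ ∈ F.Z := F.conj_Z u _ hzl
    set t := F.e u * F.z ^ l * (F.e u)⁻¹ with htdef
    have htB : t ∈ F.B := F.Z_le ht
    have hn0 : F.z ^ l * n * (F.z ^ l)⁻¹ ∈ F.P u := F.conj_P u _ hzl n hn
    have hy0 : F.z ^ l * y * (F.z ^ l)⁻¹ ∈ F.Q u := F.conj_Q u _ hzl y hy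
    have hy0G : F.z ^ l * y * (F.z ^ l)⁻¹ ∈ F.Gam := by
      have hzj : F.z ^ j ∈ F.Z := zpow_mem_Z F j
      have h1 := shrink_Nb_pow F (l - j) _ (F.Q_le u (F.conj_Q u _ hzj y hy)) hy'
      have h2 : F.z ^ (l - j) * (F.z ^ j * y * (F.z ^ j)⁻¹) * (F.z ^ (l - j))⁻¹
          = F.z ^ l * y * (F.z ^ l)⁻¹ := by
        rw [pow_split F j l hlj]
        group
      rwa [h2] at h1
    have hex : ∀ h : G, ∃ b n' y' : G, h ∈ J → b ∈ F.B ∧ n' ∈ F.P u ∧ n' ∈ F.Gam ∧ y' ∈ F.Q u ∧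
        y' ∈ F.Gam ∧ F.e u * (F.z ^ l * n * (F.z ^ l)⁻¹) * (F.z ^ l * y * (F.z ^ l)⁻¹) *
          (F.z ^ l * h * (F.z ^ l)⁻¹) = b * F.e u * n' * y' := by
      intro h
      by_cases hh : h ∈ J
      · have hhl : F.z ^ l * h * (F.z ^ l)⁻¹ ∈ F.Gam :=
          shrink_Nb_pow F l h (hJ h hh).2 (hJ h hh).1
        obtain ⟨b, hb, n', hn1, y', hy1, hn2, hy2, he⟩ := hGU u _
          (mul_mem (mul_mem hn' hy0G) hhl)
        refine ⟨b, n', y', fun _ => ⟨hb, hn1, hn2, hy1, hy2, ?_⟩⟩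
        rw [← he]
        simp only [mul_assoc]
      · exact ⟨1, 1, 1, fun h => absurd h hh⟩
    choose b n' y' hex using hex
    -- the conjugated identity
    have hconj : ∀ h ∈ J, F.e u * n * y * h = (t⁻¹ * b h * t) * F.e u *
        ((F.z ^ l)⁻¹ * n' h * F.z ^ l) * ((F.z ^ l)⁻¹ * y' h * F.z ^ l) := by
      intro h hh
      obtain ⟨hb, hn1, hn2, hy1, hy2, he⟩ := hex h hh
      have h1 : F.e u * n * y * h = t⁻¹ * (F.e u * (F.z ^ l * n * (F.z ^ l)⁻¹) *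
          (F.z ^ l * y * (F.z ^ l)⁻¹) * (F.z ^ l * h * (F.z ^ l)⁻¹)) * F.z ^ l := by
        rw [htdef]; group
      rw [h1, he, htdef]
      group
    have hb' : ∀ h ∈ J, t⁻¹ * b h * t ∈ F.B := fun h hh =>
      mul_mem (mul_mem (inv_mem htB) (hex h hh).1) htB
    have hn'P : ∀ h ∈ J, (F.z ^ l)⁻¹ * n' h * F.z ^ l ∈ F.P u := by
      intro h hh
      have := F.conj_P u _ hzl' (n' h) (hex h hh).2.1
      rwa [inv_inv] at this
    have hn'G : ∀ h ∈ J, (F.z ^ l)⁻¹ * n' h * F.z ^ l ∈ F.Gam := by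
      intro h hh
      exact shrink_N_pow F l _ (F.P_le u (hex h hh).2.1) (hex h hh).2.2.1
    have hy'Q : ∀ h ∈ J, (F.z ^ l)⁻¹ * y' h * F.z ^ l ∈ F.Q u := by
      intro h hh
      have := F.conj_Q u _ hzl' (y' h) (hex h hh).2.2.2.1
      rwa [inv_inv] at this
    by_cases hyG : y ∈ F.Gam
    · have hval : ∀ h ∈ J, Φ (F.e u * n * y * h) = X.chi (b h) := by
        intro h hh
        have hy'G : (F.z ^ l)⁻¹ * y' h * F.z ^ l ∈ F.Gam := by
          obtain ⟨b2, hb2, n2, hn2, y2, hy2, hn2G, hy2G, he2⟩ := hGU u _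
            (mul_mem (mul_mem hnG hyG) (hJ h hh).1)
          have h1 : F.e u * ((F.z ^ l)⁻¹ * n' h * F.z ^ l) * ((F.z ^ l)⁻¹ * y' h * F.z ^ l) =
              ((t⁻¹ * b h * t)⁻¹ * b2) * F.e u * n2 * y2 := by
            have h2 : F.e u * (n * y * h) = F.e u * n * y * h := by simp only [mul_assoc]
            rw [h2, hconj h hh] at he2
            calc F.e u * ((F.z ^ l)⁻¹ * n' h * F.z ^ l) * ((F.z ^ l)⁻¹ * y' h * F.z ^ l)
                = (t⁻¹ * b h * t)⁻¹ * ((t⁻¹ * b h * t) * F.e u *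
                  ((F.z ^ l)⁻¹ * n' h * F.z ^ l) * ((F.z ^ l)⁻¹ * y' h * F.z ^ l)) := by group
              _ = (t⁻¹ * b h * t)⁻¹ * (b2 * F.e u * n2 * y2) := by rw [he2]
              _ = _ := by group
          obtain ⟨-, h3⟩ := F.chart_inj u _ (mul_mem (inv_mem (hb' h hh)) hb2) _ (hn'P h hh) _
            (hy'Q h hh) n2 hn2 y2 hy2 h1
          rw [h3]
          exact hy2G
        rw [hconj h hh, hΦ.1 _ (hb' h hh) _ (hn'P h hh) _ (hy'Q h hh) hy'G]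
        rw [X.chi_mul _ (mul_mem (inv_mem htB) (hex h hh).1) _ htB,
          X.chi_mul _ (inv_mem htB) _ (hex h hh).1, X.chi_inv t htB]
        have := X.chi_ne t htB
        field_simp
      have hsum : (∑ h ∈ J, a h • tr h Φ) (F.e u * n * y) = ∑ h ∈ J, a h * X.chi (b h) := by
        rw [Finset.sum_apply]
        refine Finset.sum_congr rfl fun h hh => ?_
        rw [Pi.smul_apply, smul_eq_mul, tr_apply, hval h hh]
      rw [hsum]
      refine (hA l _ hn0 hn' _ hy0 hy0G b ?_).trans ?_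
      · intro h hh
        obtain ⟨hb, hn1, hn2, hy1, hy2, he⟩ := hex h hh
        exact ⟨hb, n' h, hn1, hn2, y' h, hy1, hy2, he⟩
      · exact mul_le_mul_of_nonneg_right ((le_max_left _ _).trans (le_max_left _ _)) hrl.le
    · have hval : ∀ h ∈ J, Φ (F.e u * n * y * h) = 0 := by
        intro h hh
        apply hΦ.2
        rintro ⟨b2, hb2, n2, hn2, y2, hy2, hy2G, he2⟩
        apply hyG
        have hy'G : (F.z ^ l)⁻¹ * y' h * F.z ^ l ∈ F.Gam := by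
          have h1 : F.e u * ((F.z ^ l)⁻¹ * n' h * F.z ^ l) * ((F.z ^ l)⁻¹ * y' h * F.z ^ l) =
              ((t⁻¹ * b h * t)⁻¹ * b2) * F.e u * n2 * y2 := by
            rw [hconj h hh] at he2
            calc F.e u * ((F.z ^ l)⁻¹ * n' h * F.z ^ l) * ((F.z ^ l)⁻¹ * y' h * F.z ^ l)
                = (t⁻¹ * b h * t)⁻¹ * ((t⁻¹ * b h * t) * F.e u *
                  ((F.z ^ l)⁻¹ * n' h * F.z ^ l) * ((F.z ^ l)⁻¹ * y' h * F.z ^ l)) := by group
              _ = (t⁻¹ * b h * t)⁻¹ * (b2 * F.e u * n2 * y2) := by rw [he2]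
              _ = _ := by group
          obtain ⟨-, h3⟩ := F.chart_inj u _ (mul_mem (inv_mem (hb' h hh)) hb2) _ (hn'P h hh) _
            (hy'Q h hh) n2 hn2 y2 hy2 h1
          rw [h3]
          exact hy2G
        -- move back by `h⁻¹`
        obtain ⟨b3, hb3, n3, hn3, y3, hy3, hn3G, hy3G, he3⟩ := hGU u _
          (mul_mem (mul_mem (hn'G h hh) hy'G) (inv_mem (hJ h hh).1))
        have h1 : F.e u * n * y = ((t⁻¹ * b h * t) * b3) * F.e u * n3 * y3 := by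
          calc F.e u * n * y = (F.e u * n * y * h) * h⁻¹ := by group
            _ = ((t⁻¹ * b h * t) * F.e u *
                  ((F.z ^ l)⁻¹ * n' h * F.z ^ l) * ((F.z ^ l)⁻¹ * y' h * F.z ^ l)) * h⁻¹ := by
                rw [hconj h hh]
            _ = (t⁻¹ * b h * t) * (F.e u * (((F.z ^ l)⁻¹ * n' h * F.z ^ l) *
                  ((F.z ^ l)⁻¹ * y' h * F.z ^ l) * h⁻¹)) := by group
            _ = (t⁻¹ * b h * t) * (b3 * F.e u * n3 * y3) := by rw [he3]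
            _ = _ := by group
        obtain ⟨-, h4⟩ := F.chart_inj u _ (mul_mem (hb' h hh) hb3) n hn y hy n3 hn3 y3 hy3 h1
        rw [h4]
        exact hy3G
      have hsum : (∑ h ∈ J, a h • tr h Φ) (F.e u * n * y) = 0 := by
        rw [Finset.sum_apply]
        refine Finset.sum_eq_zero fun h hh => ?_
        rw [Pi.smul_apply, smul_eq_mul, tr_apply, hval h hh, mul_zero]
      rw [hsum, norm_zero]
      exact mul_nonneg ((le_max_right A 0).trans (le_max_left _ _)) hrl.le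
end Pool.Agent.Helper911
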