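import Mathlib
import Pool.Agent.Helper911_Abs.Outer
import Pool.Agent.Helper911_Abs.ME
import Pool.Agent.Helper911_Abs.MG
import Pool.Agent.Helper911_Abs.NJ
import Pool.Agent.Helper911_Abs.NK

/-! Changing the contracting element. -/

set_option autoImplicit false
set_option linter.unusedSectionVars false
set_option maxHeartbeats 1000000

noncomputable section

open Topology Filter

namespace Pool.Agent.Helper911

/-- `z'` is another contracting element of the torus. -/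
structure ZOK {p : ℕ} {G : Type*} [Group G] [TopologicalSpace G] {W : Type*} (F : Flag p G W)
    (z' : G) : Prop where
  mem : z' ∈ F.Z
  shrink_Nb : ∀ y ∈ F.Nb, y ∈ F.Gam → z' * y * z'⁻¹ ∈ F.Gam
  absorb_Nb : ∀ y ∈ F.Nb, ∃ m : ℕ, z' ^ m * y * (z' ^ m)⁻¹ ∈ F.Gam
  unif_Nb : ∀ U ∈ 𝓝 (1 : G), ∃ m : ℕ, ∀ y ∈ F.Nb, y ∈ F.Gam → z' ^ m * y * (z' ^ m)⁻¹ ∈ U
  shrink_N : ∀ y ∈ F.N, y ∈ F.Gam → z'⁻¹ * y * z' ∈ F.Gam
  absorb_N : ∀ y ∈ F.N, ∃ m : ℕ, (z' ^ m)⁻¹ * y * z' ^ m ∈ F.Gam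
  unif_N : ∀ U ∈ 𝓝 (1 : G), ∃ m : ℕ, ∀ y ∈ F.N, y ∈ F.Gam → (z' ^ m)⁻¹ * y * z' ^ m ∈ U

/-- The same structure with another contracting element. -/
def Flag.withZ {p : ℕ} {G : Type*} [Group G] [TopologicalSpace G] {W : Type*} (F : Flag p G W)
    (z' : G) (h : ZOK F z') : Flag p G W :=
  { F with
    z := z'
    z_mem := h.mem
    shrink_Nb := h.shrink_Nb
    absorb_Nb := h.absorb_Nb
    unif_Nb := h.unif_Nb
    shrink_N := h.shrink_N
    absorb_N := h.absorb_N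
    unif_N := h.unif_N }

variable {p : ℕ} {G : Type*} [Group G] [TopologicalSpace G] {W : Type*} {F : Flag p G W}
  {C : Type*} [NormedField C]

/-- The same character. -/
def CharData.withZ (X : CharData F C) (z' : G) (h : ZOK F z') : CharData (F.withZ z' h) C where
  chi := X.chi
  chi_mul := X.chi_mul
  chi_ne := X.chi_ne
  chi_N := X.chi_N
  chi_K := X.chi_K
  chi_cont := X.chi_cont

/-- The same subspace. -/
def SubRep.withZ {X : CharData F C} (R : SubRep X) (z' : G) (h : ZOK F z') :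
    SubRep (X.withZ z' h) where
  V := R.V
  sec := R.sec
  stab := R.stab
  closed := R.closed

variable [IsTopologicalGroup G] [T2Space G] [DecidableEq W] [IsUltrametricDist C]
  {X : CharData F C} {R : SubRep X}

theorem MinOm.withZ {Om : Finset W} (hm : MinOm R Om) (z' : G) (h : ZOK F z') :
    MinOm (R.withZ z' h) Om where
  isOpen := hm.isOpen
  ne := hm.ne
  min := hm.min

theorem TieHyp.withZ (tie : TieHyp X) (z' : G) (h : ZOK F z') : TieHyp (X.withZ z' h) := tie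

theorem slopes_of_min [Fact p.Prime] {rho : ℝ} (hd : Disc p C rho) (tie : TieHyp X)
    {Om : Finset W} (hm : MinOm R Om) :
    ∃ u ∈ Om, (∀ w, w ∈ Om ↔ wle F w u) ∧ (∀ w ∈ Om, w ≠ u → cw X w < cw X u) := by
  obtain ⟨T, c, ⟨D0⟩⟩ := core_of_min hm
  obtain ⟨u, huT, hlt, Φ, hΦV, hΦ⟩ := core_phi hd tie D0
  have hu : u ∈ Om := D0.T_sub huT
  obtain ⟨Om', hsub, hmem, hopen, S, hS1, hS2, hS3, hS4⟩ := phi_support Om hm.isOpen hu hΦ
  have hval : Φ (F.e u) = 1 := by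
    have := hΦ.1 1 (one_mem _) 1 (one_mem _) 1 (one_mem _) (one_mem _)
    simpa [X.chi_one] using this
  have hne0 : Φ ≠ 0 := by
    intro h
    rw [h] at hval
    simp at hval
  have hEq : Om' = Om := by
    by_contra hcon
    exact hne0 (hm.min Om' (Finset.ssubset_iff_subset_ne.mpr ⟨hsub, hcon⟩) hopen Φ
      ⟨hΦV, S, hS1, hS2, hS3, hS4⟩)
  subst hEq
  refine ⟨u, hu, hmem, fun w hw hne => ?_⟩
  rw [D0.cw_T u huT]
  exact hlt w ((hmem w).mp hw) hne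

/-- The slope of another torus element. -/
def cwz (X : CharData F C) (z' : G) (w : W) : ℝ := ‖X.chi (F.e w * z' * (F.e w)⁻¹)‖

/-- Summary of the first part for all contracting elements at once. -/
theorem mainB [Fintype W] [Fact p.Prime] {rho : ℝ} (hd : Disc p C rho) (tie : TieHyp X)
    (R : SubRep X) (hne : R.V ≠ ⊥) :
    ∃ (u : W) (Om : Finset W), MinOm R Om ∧ (∀ w, w ∈ Om ↔ wle F w u) ∧
      (∀ z', ZOK F z' → ∀ w ∈ Om, w ≠ u → cwz X z' w < cwz X z' u) ∧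
      IsOpen (cell F (Om.erase u)) ∧
      ∃ Φ ∈ R.V, IsPhi X u Φ ∧ ∃ S, IsClosed S ∧ LInv F S ∧ S ⊆ cell F Om ∧ ∀ x ∉ S, Φ x = 0 := by
  obtain ⟨u, Om, hm, hOm, hcw, hop, -, Φ, hΦR, hΦ, hS⟩ := mainA hd tie R hne
  refine ⟨u, Om, hm, hOm, ?_, hop, Φ, hΦR, hΦ, hS⟩
  intro z' h w hw hwu
  obtain ⟨u', hu', hOm', hcw'⟩ := slopes_of_min hd (tie.withZ z' h) (hm.withZ z' h)
  have h1 : wle F u u' := (hOm' u).1 ((hOm u).2 (wle_refl F u))
  have h2 : wle F u' u := (hOm u').1 hu'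
  have h3 : u' = u := wle_antisymm F h2 h1
  subst h3
  exact hcw' w hw hwu

/-- The second level, for any contracting element: there is no `f` as described. -/
theorem level2_any [Fact p.Prime] {rho : ℝ} (hd : Disc p C rho) (tie : TieHyp X)
    (hGU : GamU F) (hZ : ∀ s ∈ F.Z, ∀ t ∈ F.Z, s * t = t * s) {Om : Finset W} (hm : MinOm R Om)
    {u : W} (hOm : ∀ w, w ∈ Om ↔ wle F w u) (hop : IsOpen (cell F (Om.erase u)))
    {Φ : G → C} (hΦR : Φ ∈ R.V) (hΦ : IsPhi X u Φ)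
    (hS : ∃ S, IsClosed S ∧ LInv F S ∧ S ⊆ cell F Om ∧ ∀ x ∉ S, Φ x = 0)
    (z' : G) (h : ZOK F z') {w1 : W} (hw1 : w1 ∈ Om) (hne : w1 ≠ u)
    (hcw : ∀ w ∈ Om, w ≠ u → cwz X z' w ≤ cwz X z' w1) {r : ℝ} (hr : 0 < r) (hr1 : r < 1)
    (hrc : r * cwz X z' u < cwz X z' w1)
    (J : Finset G) (a : G → C) (hJ : ∀ h ∈ J, h ∈ F.Gam ∧ h ∈ F.Nb)
    (est : ∃ A : ℝ, ∀ l : ℕ, ∀ n ∈ F.P u, n ∈ F.Gam → ∀ y ∈ F.Q u, y ∈ F.Gam → ∀ b : G → G,
      (∀ h ∈ J, b h ∈ F.B ∧ ∃ n' ∈ F.P u, n' ∈ F.Gam ∧ ∃ y' ∈ F.Q u, y' ∈ F.Gam ∧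
        F.e u * n * y * (z' ^ l * h * (z' ^ l)⁻¹) = b h * F.e u * n' * y') →
      ‖∑ h ∈ J, a h * X.chi (b h)‖ ≤ A * r ^ l) :
    ∑ h ∈ J, a h * Φ (F.e w1 * h) = 0 := by
  by_contra hcon
  have hf := dphi_V2 (F := F.withZ z' h) (X := X.withZ z' h) (R := R.withZ z' h) hGU hr hr1 hΦR hΦ
    hS J a hJ est
  have hcpos : 0 < cwz X z' w1 :=
    X.norm_pos _ (F.Z_le (F.conj_Z w1 z' h.mem))
  have hL : Lev2 (X.withZ z' h) Om u (cwz X z' w1) r :=
    { open_Om := hm.isOpen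
      open_er := hop
      hu := (hOm u).2 (wle_refl F u)
      top := fun w hw => (hOm w).1 hw
      c_pos := hcpos
      r_pos := hr
      r_lt_one := hr1
      rc := hrc
      cw_le := hcw }
  refine level2_false (R := R.withZ z' h) hd (tie.withZ z' h) hGU (fun t ht => hZ t ht z' h.mem)
    (hm.withZ z' h) hL hf hw1 hne rfl ?_
  intro h0
  apply hcon
  rw [← h0, Finset.sum_apply]
  exact Finset.sum_congr rfl fun x _ => rfl

end Pool.Agent.Helper911
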